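import Pool.Agent.Helper55.MLA.Defs

set_option autoImplicit false
open Finset Matrix Filter Topology

namespace Pool.Agent.Helper55.ML

/-- The set of sample sizes for which the maximum likelihood estimate exists almost surely. -/
def Aset (n : ℕ) (P : Fin n → Fin n → Prop) : Set ℕ :=
  {d : ℕ | ∀ᵐ X : Fin d → Fin n → ℝ, ∃ K : Matrix (Fin n) (Fin n) ℝ, K.PosDef ∧
    ∀ i j : Fin n, P i j → K i j = ∑ k, X k i * X k j}

/-- The set of ranks for which the projected Gram image has interior. -/
def Bset (n : ℕ) (P : Fin n → Fin n → Prop) : Set ℕ :=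
  {r : ℕ | (interior (Set.range (fun Y : Fin n → Fin r → ℝ =>
    fun q : {q : Fin n × Fin n // q.1 ≤ q.2 ∧ P q.1 q.2} =>
      ∑ k, Y (q : Fin n × Fin n).1 k * Y (q : Fin n × Fin n).2 k))).Nonempty}

end Pool.Agent.Helper55.ML
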