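import Pool.Agent.Helper55.MLA.Defs

set_option autoImplicit false
open Finset Matrix Filter Topology

namespace Pool.Agent.Helper55.ML

/-- B0 (specialisation lemma; hint). `θ : R → L` injective from a domain to a field: the kernel over `L` of
a matrix with entries in `θ(R)` is spanned by the images of kernel vectors over `R`. Let `F ⊆ L` be
the image of the fraction field of `R` (`IsFractionRing.lift`/ `IsLocalization.lift`), choose a
basis of `L` over `F`, expand the entries of `w` (finitely many basis vectors occur): each component
vector is a kernel vector over `F`; clear denominators (`IsLocalization.exist_integer_multiples`). -/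
theorem ker_spec {R L : Type} [CommRing R] [IsDomain R] [Field L] (θ : R →+* L)
    (hθ : Function.Injective θ) {a b : Type} [Fintype a] [Fintype b] (M : Matrix a b R)
    (w : b → L) (hw : (M.map θ).mulVec w = 0) :
    w ∈ Submodule.span L {w' : b → L | ∃ u : b → R, M.mulVec u = 0 ∧ w' = fun i => θ (u i)} := by
  classical
  let φ : FractionRing R →+* L := IsFractionRing.lift hθ
  have hφ : ∀ x : R, φ (algebraMap R (FractionRing R) x) = θ x := fun x =>
    IsFractionRing.lift_algebraMap hθ x
  letI : Algebra (FractionRing R) L := φ.toAlgebra
  have hsm : ∀ (k : FractionRing R) (l : L), k • l = φ k * l := fun k l => rfl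
  let B := Module.Basis.ofVectorSpace (FractionRing R) L
  -- coordinates of the equation
  have hrow : ∀ i : a, ∑ j, θ (M i j) * w j = 0 := by
    intro i
    have := congrFun hw i
    simpa [Matrix.mulVec, dotProduct] using this
  have hcoord : ∀ c, ∀ i : a, ∑ j, algebraMap R (FractionRing R) (M i j) * B.repr (w j) c = 0 := by
    intro c i
    have h1 : ∑ j, (algebraMap R (FractionRing R) (M i j)) • w j = 0 := by
      rw [← hrow i]
      refine Finset.sum_congr rfl (fun j _ => ?_)
      rw [hsm, hφ]
    have h2 : B.repr (∑ j, (algebraMap R (FractionRing R) (M i j)) • w j) c = 0 := by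
      rw [h1]; simp
    rw [map_sum, Finsupp.finset_sum_apply] at h2
    rw [← h2]
    refine Finset.sum_congr rfl (fun j _ => ?_)
    rw [map_smul, Finsupp.smul_apply, smul_eq_mul]
  -- every coordinate vector is in the span
  have hmem : ∀ c, (fun i => φ (B.repr (w i) c)) ∈
      Submodule.span L {w' : b → L | ∃ u : b → R, M.mulVec u = 0 ∧ w' = fun i => θ (u i)} := by
    intro c
    obtain ⟨d, hd⟩ := IsLocalization.exist_integer_multiples_of_finite (nonZeroDivisors R)
      (fun i : b => B.repr (w i) c)
    choose u hu using hd
    have hu' : ∀ i, algebraMap R (FractionRing R) (u i) =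
        algebraMap R (FractionRing R) (d : R) * B.repr (w i) c := by
      intro i
      rw [hu i, Algebra.smul_def]
    have hd0 : θ (d : R) ≠ 0 := by
      intro h0
      have : (d : R) = 0 := hθ (by rw [h0, map_zero])
      exact nonZeroDivisors.ne_zero d.2 this
    have hker : M.mulVec u = 0 := by
      funext i
      have : algebraMap R (FractionRing R) (∑ j, M i j * u j) = 0 := by
        rw [map_sum]
        have : ∀ j, algebraMap R (FractionRing R) (M i j * u j) =
            algebraMap R (FractionRing R) (d : R) *
              (algebraMap R (FractionRing R) (M i j) * B.repr (w j) c) := by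
          intro j
          rw [map_mul, hu' j]; ring
        rw [Finset.sum_congr rfl (fun j _ => this j), ← Finset.mul_sum, hcoord c i, mul_zero]
      have h3 : ∑ j, M i j * u j = 0 :=
        (IsFractionRing.injective R (FractionRing R)) (by rw [this, map_zero])
      simpa [Matrix.mulVec, dotProduct] using h3
    have heq : (fun i => φ (B.repr (w i) c)) = (θ (d : R))⁻¹ • (fun i => θ (u i)) := by
      funext i
      have h4 : θ (u i) = θ (d : R) * φ (B.repr (w i) c) := by
        rw [← hφ, hu' i, map_mul, hφ]
      simp only [Pi.smul_apply, smul_eq_mul]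
      rw [h4, ← mul_assoc, inv_mul_cancel₀ hd0, one_mul]
    rw [heq]
    exact Submodule.smul_mem _ _ (Submodule.subset_span ⟨u, hker, rfl⟩)
  -- `w` is a combination
  let S : Finset (Module.Basis.ofVectorSpaceIndex (FractionRing R) L) :=
    Finset.univ.biUnion (fun i : b => (B.repr (w i)).support)
  have hwS : w = ∑ c ∈ S, (B c) • (fun i => φ (B.repr (w i) c)) := by
    funext i
    rw [Finset.sum_apply]
    have h5 : w i = ∑ c ∈ S, (B.repr (w i) c) • B c := by
      conv_lhs => rw [← B.linearCombination_repr (w i)]
      rw [Finsupp.linearCombination_apply, Finsupp.sum]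
      refine Finset.sum_subset ?_ ?_
      · intro c hc
        exact Finset.mem_biUnion.mpr ⟨i, Finset.mem_univ _, hc⟩
      · intro c _ hc
        rw [Finsupp.notMem_support_iff.mp hc, zero_smul]
    conv_lhs => rw [h5]
    refine Finset.sum_congr rfl (fun c _ => ?_)
    rw [hsm, Pi.smul_apply, smul_eq_mul, mul_comm]
  rw [hwS]
  exact Submodule.sum_mem _ (fun c _ => Submodule.smul_mem _ _ (hmem c))

end Pool.Agent.Helper55.ML
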