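import Pool.Agent.Helper55.MLA.B0

set_option autoImplicit false
open Finset Matrix Filter Topology

namespace Pool.Agent.Helper55.ML

/-- Linear consequences of a linear system over `R` remain true over `L`. -/
theorem b1_ker {R L : Type} [CommRing R] [IsDomain R] [Field L] (θ : R →+* L)
    (hθ : Function.Injective θ) {a b c : Type} [Fintype a] [Fintype b] (M : Matrix a b R)
    (N : Matrix c b R) (h : ∀ u : b → R, M.mulVec u = 0 → N.mulVec u = 0) (w : b → L)
    (hw : (M.map θ).mulVec w = 0) : (N.map θ).mulVec w = 0 := by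
  have hs := ker_spec θ hθ M w hw
  refine Submodule.span_induction (p := fun w _ => (N.map θ).mulVec w = 0) ?_ ?_ ?_ ?_ hs
  · rintro w' ⟨u, hu, rfl⟩
    have h1 := h u hu
    funext i
    have h2 := congrFun h1 i
    have h3 : ((N.map θ).mulVec fun i => θ (u i)) i = θ (N.mulVec u i) := by
      simp only [Matrix.mulVec, dotProduct, Matrix.map_apply, map_sum, map_mul]
    rw [h3, h2]
    simp
  · exact Matrix.mulVec_zero _
  · intro x y _ _ hx hy
    rw [Matrix.mulVec_add, hx, hy, add_zero]
  · intro t x _ hx
    rw [Matrix.mulVec_smul, hx, smul_zero]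

open Classical in
/-- The linear system for the stresses. -/
noncomputable def b1S {R V : Type} [CommRing R] {r : ℕ} (P : V → V → Prop)
    (X : Matrix V (Fin r) R) : Matrix ((V × V) ⊕ (V × V) ⊕ (V × Fin r)) (V × V) R
  | Sum.inl e, q => (if q = e then 1 else 0) - (if q = (e.2, e.1) then 1 else 0)
  | Sum.inr (Sum.inl e), q => if ¬ P e.1 e.2 ∧ q = e then 1 else 0
  | Sum.inr (Sum.inr e), q => if q.1 = e.1 then X q.2 e.2 else 0

theorem b1S_spec {R V : Type} [CommRing R] [Fintype V] {r : ℕ} (P : V → V → Prop)
    (X : Matrix V (Fin r) R) (K : Matrix V V R) :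
    (b1S P X).mulVec (fun q => K q.1 q.2) = 0 ↔ Stress P X K := by
  classical
  have h1 : ∀ e : V × V, (b1S P X).mulVec (fun q => K q.1 q.2) (Sum.inl e) =
      K e.1 e.2 - K e.2 e.1 := by
    intro e
    simp only [Matrix.mulVec, dotProduct, b1S, sub_mul, ite_mul, one_mul, zero_mul,
      Finset.sum_sub_distrib, Finset.sum_ite_eq', Finset.mem_univ, if_true]
  have h2 : ∀ e : V × V, (b1S P X).mulVec (fun q => K q.1 q.2) (Sum.inr (Sum.inl e)) =
      if P e.1 e.2 then 0 else K e.1 e.2 := by
    intro e
    by_cases hP : P e.1 e.2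
    · simp only [Matrix.mulVec, dotProduct, b1S, hP, not_true_eq_false, false_and, if_false,
        zero_mul, Finset.sum_const_zero, if_true]
    · simp only [Matrix.mulVec, dotProduct, b1S, hP, not_false_eq_true, true_and, ite_mul,
        one_mul, zero_mul, Finset.sum_ite_eq', Finset.mem_univ, if_true, if_false]
  have h3 : ∀ e : V × Fin r, (b1S P X).mulVec (fun q => K q.1 q.2) (Sum.inr (Sum.inr e)) =
      (K * X) e.1 e.2 := by
    intro e
    simp only [Matrix.mulVec, dotProduct, b1S, ite_mul, zero_mul]
    rw [Fintype.sum_prod_type, Finset.sum_eq_single e.1]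
    · simp only [if_true, Matrix.mul_apply]
      exact Finset.sum_congr rfl fun j _ => mul_comm _ _
    · intro b _ hb
      simp [hb]
    · intro hb
      exact absurd (Finset.mem_univ _) hb
  constructor
  · intro h
    refine ⟨⟨?_, ?_⟩, ?_⟩
    · ext i j
      have := h1 (j, i)
      rw [h] at this
      simp only [Pi.zero_apply] at this
      rw [Matrix.transpose_apply]
      exact (sub_eq_zero.1 this.symm)
    · intro i j hP
      have := h2 (i, j)
      rw [h] at this
      simp only [Pi.zero_apply, hP, if_false] at this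
      exact this.symm
    · ext i k
      have := h3 (i, k)
      rw [h] at this
      simpa using this.symm
  · rintro ⟨⟨hs, hp⟩, hk⟩
    funext q
    rcases q with e | e | e
    · rw [h1, Pi.zero_apply, sub_eq_zero]
      exact hs.apply e.2 e.1
    · rw [h2, Pi.zero_apply]
      split_ifs with hP
      · rfl
      · exact hp _ _ hP
    · rw [h3, hk]
      rfl

theorem b1S_map {R L V : Type} [CommRing R] [CommRing L] {r : ℕ} (θ : R →+* L)
    (P : V → V → Prop) (X : Matrix V (Fin r) R) : (b1S P X).map θ = b1S P (X.map θ) := by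
  classical
  ext q e
  rcases q with q | q | q
  · simp only [Matrix.map_apply, b1S, map_sub]
    split_ifs <;> simp
  · simp only [Matrix.map_apply, b1S]
    split_ifs <;> simp
  · simp only [Matrix.map_apply, b1S]
    split_ifs <;> simp

open Classical in
/-- The linear system for the motions. -/
noncomputable def b1M {R V : Type} [CommRing R] {r : ℕ} (P : V → V → Prop)
    (X : Matrix V (Fin r) R) : Matrix (V × V) (V × Fin r) R :=
  fun e q => if P e.1 e.2 then (if q.1 = e.2 then X e.1 q.2 else 0) +
    (if q.1 = e.1 then X e.2 q.2 else 0) else 0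

theorem b1M_apply {R V : Type} [CommRing R] [Fintype V] {r : ℕ} (P : V → V → Prop)
    (X Z : Matrix V (Fin r) R) (e : V × V) :
    (b1M P X).mulVec (fun q => Z q.1 q.2) e = open Classical in
      if P e.1 e.2 then dG X Z e.1 e.2 else 0 := by
  classical
  by_cases hP : P e.1 e.2
  · simp only [Matrix.mulVec, dotProduct, b1M, hP, if_true, add_mul, ite_mul, zero_mul,
      Finset.sum_add_distrib, dG]
    congr 1
    · rw [Fintype.sum_prod_type, Finset.sum_eq_single e.2]
      · simp
      · intro b _ hb
        simp [hb]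
      · intro hb
        exact absurd (Finset.mem_univ _) hb
    · rw [Fintype.sum_prod_type, Finset.sum_eq_single e.1]
      · simp only [if_true]
        exact Finset.sum_congr rfl fun j _ => mul_comm _ _
      · intro b _ hb
        simp [hb]
      · intro hb
        exact absurd (Finset.mem_univ _) hb
  · simp only [Matrix.mulVec, dotProduct, b1M, hP, if_false, zero_mul, Finset.sum_const_zero]

theorem b1M_spec {R V : Type} [CommRing R] [Fintype V] {r : ℕ} (P : V → V → Prop)
    (X Z : Matrix V (Fin r) R) :
    (b1M P X).mulVec (fun q => Z q.1 q.2) = 0 ↔ Motion P X Z := by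
  classical
  constructor
  · intro h i j hP
    have := b1M_apply P X Z (i, j)
    rw [h] at this
    simp only [Pi.zero_apply, hP, if_true] at this
    exact this.symm
  · intro h
    funext e
    rw [b1M_apply, Pi.zero_apply]
    split_ifs with hP
    · exact h _ _ hP
    · rfl

theorem b1M_map {R L V : Type} [CommRing R] [CommRing L] {r : ℕ} (θ : R →+* L)
    (P : V → V → Prop) (X : Matrix V (Fin r) R) : (b1M P X).map θ = b1M P (X.map θ) := by
  classical
  ext q e
  simp only [Matrix.map_apply, b1M]
  split_ifs <;> simp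

theorem b1_dG_map {R L V : Type} [CommRing R] [CommRing L] {r : ℕ} (θ : R →+* L)
    (X Z : Matrix V (Fin r) R) (i j : V) : dG (X.map θ) (Z.map θ) i j = θ (dG X Z i j) := by
  simp only [dG, Matrix.map_apply, map_sum, map_add, map_mul]

/-- B1 (hint): stresses and motions are kernels of matrices over `R`; `ker_spec`. -/
theorem Free_map {R L V : Type} [CommRing R] [IsDomain R] [Field L] [Fintype V] [DecidableEq V]
    {r : ℕ} (θ : R →+* L) (hθ : Function.Injective θ) {P : V → V → Prop}
    {X : Matrix V (Fin r) R} (h : Free P X) : Free P (X.map θ) := by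
  intro K hK
  have h1 := b1_ker θ hθ (b1S P X) (1 : Matrix (V × V) (V × V) R) (fun u hu => by
    have h2 : Stress P X (Matrix.of fun i j => u (i, j)) := by
      rw [← b1S_spec]
      exact hu
    have h3 := h _ h2
    rw [Matrix.one_mulVec]
    funext q
    exact congrFun (congrFun h3 q.1) q.2) (fun q => K q.1 q.2)
    (by rw [b1S_map, b1S_spec]; exact hK)
  have h4 : ((1 : Matrix (V × V) (V × V) R).map θ) = 1 := by
    rw [Matrix.map_one θ (map_zero θ) (map_one θ)]
  rw [h4, Matrix.one_mulVec] at h1
  ext i j
  exact congrFun h1 (i, j)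

theorem Free_of_map {R L V : Type} [CommRing R] [CommRing L] [Fintype V] [DecidableEq V]
    {r : ℕ} (θ : R →+* L) (hθ : Function.Injective θ) {P : V → V → Prop}
    {X : Matrix V (Fin r) R} (h : Free P (X.map θ)) : Free P X := by
  intro K hK
  obtain ⟨⟨hs, hp⟩, hk⟩ := hK
  have h1 : Stress P (X.map θ) (K.map θ) := by
    refine ⟨⟨?_, ?_⟩, ?_⟩
    · ext i j
      rw [Matrix.transpose_apply, Matrix.map_apply, Matrix.map_apply]
      rw [hs.apply]
    · intro i j hP
      rw [Matrix.map_apply, hp i j hP, map_zero]
    · rw [← Matrix.map_mul, hk]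
      ext i k
      simp
  have h2 := h _ h1
  ext i j
  apply hθ
  have := congrFun (congrFun h2 i) j
  rw [Matrix.map_apply] at this
  rw [this]
  simp

theorem InfRigid_map {R L V : Type} [CommRing R] [IsDomain R] [Field L] [Fintype V]
    [DecidableEq V] {r : ℕ} (θ : R →+* L) (hθ : Function.Injective θ) {P : V → V → Prop}
    {X : Matrix V (Fin r) R} (h : InfRigid P X) : InfRigid P (X.map θ) := by
  intro Z hZ i j
  have h1 := b1_ker θ hθ (b1M P X) (b1M (fun _ _ => True) X) (fun u hu => by
    have h2 : Motion P X (Matrix.of fun i k => u (i, k)) := by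
      rw [← b1M_spec]
      exact hu
    have h3 := h _ h2
    have h4 := (b1M_spec (fun _ _ => True) X (Matrix.of fun i k => u (i, k))).2
      (fun i j _ => h3 i j)
    exact h4) (fun q => Z q.1 q.2)
    (by rw [b1M_map, b1M_spec]; exact hZ)
  rw [b1M_map, b1M_spec] at h1
  exact h1 i j trivial

theorem InfRigid_of_map {R L V : Type} [CommRing R] [CommRing L] [Fintype V] [DecidableEq V]
    {r : ℕ} (θ : R →+* L) (hθ : Function.Injective θ) {P : V → V → Prop}
    {X : Matrix V (Fin r) R} (h : InfRigid P (X.map θ)) : InfRigid P X := by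
  intro Z hZ i j
  have h1 : Motion P (X.map θ) (Z.map θ) := by
    intro i j hP
    rw [b1_dG_map, hZ i j hP, map_zero]
  have h2 := h _ h1 i j
  rw [b1_dG_map] at h2
  apply hθ
  rw [h2, map_zero]

theorem b1_XG_map {L V : Type} [Field L] [Algebra ℚ L] {r : ℕ} (X : Matrix V (Fin r) L) :
    (XG V r).map (MvPolynomial.aeval (R := ℚ) fun q : V × Fin r => X q.1 q.2).toRingHom = X := by
  ext i k
  simp [XG]

/-- At algebraically independent points (`XG.map (aeval X) = X`). -/
theorem Free_of_AlgInd {L V : Type} [Field L] [Algebra ℚ L] [Fintype V] [DecidableEq V] {r : ℕ}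
    {P : V → V → Prop} (h : Free P (XG V r)) {X : Matrix V (Fin r) L} (hX : AlgInd X) :
    Free P X := by
  rw [← b1_XG_map X]
  exact Free_map _ hX h

theorem InfRigid_of_AlgInd {L V : Type} [Field L] [Algebra ℚ L] [Fintype V] [DecidableEq V]
    {r : ℕ} {P : V → V → Prop} (h : InfRigid P (XG V r)) {X : Matrix V (Fin r) L}
    (hX : AlgInd X) : InfRigid P X := by
  rw [← b1_XG_map X]
  exact InfRigid_map _ hX h

/-- The embedding of the coordinate ring of `V` into the field of rational functions. -/
noncomputable def b1_emb {V : Type} {r : ℕ} (f : V → ℕ) :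
    MvPolynomial (V × Fin r) ℚ →+* FK r :=
  (algebraMap (MvPolynomial (ℕ × Fin r) ℚ) (FK r)).comp
    (MvPolynomial.rename (R := ℚ) (Prod.map f (id : Fin r → Fin r))).toRingHom

theorem b1_emb_inj {V : Type} {r : ℕ} (f : V → ℕ) (hf : Function.Injective f) :
    Function.Injective (b1_emb (r := r) f) := by
  have h1 : Function.Injective (algebraMap (MvPolynomial (ℕ × Fin r) ℚ) (FK r)) :=
    IsFractionRing.injective _ _
  have h2 : Function.Injective
      (MvPolynomial.rename (R := ℚ) (Prod.map f (id : Fin r → Fin r))) :=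
    MvPolynomial.rename_injective _ (hf.prodMap Function.injective_id)
  exact h1.comp h2

theorem b1_XG_emb {V : Type} {r : ℕ} (f : V → ℕ) :
    (XG V r).map (b1_emb f) = Matrix.of (fun (i : V) (k : Fin r) => gx r (f i) k) := by
  ext i k
  simp [XG, b1_emb, gx]

/-- From the generic points of the rank function (rename the variables, `algebraMap`). -/
theorem Free_XG_of_gx {V : Type} [Fintype V] [DecidableEq V] {r : ℕ} {P : V → V → Prop}
    (f : V → ℕ) (hf : Function.Injective f)
    (h : Free P (Matrix.of (fun (i : V) (k : Fin r) => gx r (f i) k))) : Free P (XG V r) := by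
  rw [← b1_XG_emb f] at h
  exact Free_of_map _ (b1_emb_inj f hf) h

theorem InfRigid_XG_of_gx {V : Type} [Fintype V] [DecidableEq V] {r : ℕ} {P : V → V → Prop}
    (f : V → ℕ) (hf : Function.Injective f)
    (h : InfRigid P (Matrix.of (fun (i : V) (k : Fin r) => gx r (f i) k))) :
    InfRigid P (XG V r) := by
  rw [← b1_XG_emb f] at h
  exact InfRigid_of_map _ (b1_emb_inj f hf) h

end Pool.Agent.Helper55.ML
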