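import Pool.Agent.Helper55.MLA.Defs

set_option autoImplicit false
open Finset Matrix Filter Topology

namespace Pool.Agent.Helper55.ML

/-- The same for an injective family. -/
theorem gx_linInd' (r : ℕ) {ι : Type} [Fintype ι] (f : ι → ℕ) (hf : Function.Injective f)
    (h : Fintype.card ι ≤ r) : LinearIndependent (FK r) (fun i : ι => gx r (f i)) := by
  classical
  obtain ⟨e⟩ : Nonempty (ι ↪ Fin r) := by
    apply Function.Embedding.nonempty_of_card_le
    simpa using h
  have hdet : (Matrix.of (fun i j : ι => gx r (f i) (e j))).det ≠ 0 := by
    have h1 : (Matrix.of (fun i j : ι => gx r (f i) (e j))) =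
        (Matrix.mvPolynomialX ι ι ℚ).map
          ((algebraMap (MvPolynomial (ℕ × Fin r) ℚ) (FK r)).comp
            (MvPolynomial.rename (fun q : ι × ι => (f q.1, e q.2))).toRingHom) := by
      ext i j
      simp [gx, Matrix.mvPolynomialX_apply]
    rw [h1, ← RingHom.mapMatrix_apply, ← RingHom.map_det]
    intro h0
    rw [RingHom.comp_apply] at h0
    have h2 := (IsFractionRing.injective (MvPolynomial (ℕ × Fin r) ℚ) (FK r)) (h0.trans (map_zero _).symm)
    have hinj : Function.Injective (fun q : ι × ι => (f q.1, e q.2)) := by
      intro a b hab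
      simp only [Prod.mk.injEq] at hab
      exact Prod.ext (hf hab.1) (e.injective hab.2)
    have h3 := MvPolynomial.rename_injective _ hinj (h2.trans (map_zero _).symm)
    exact Matrix.det_mvPolynomialX_ne_zero ι ℚ h3
  have h4 := Matrix.linearIndependent_rows_of_det_ne_zero hdet
  exact LinearIndependent.of_comp (LinearMap.funLeft (FK r) (FK r) (e : ι → Fin r)) h4

/-- R3 (hint): at most `r` generic vectors are linearly independent: the determinant of the generic
`r × r` matrix is nonzero (`Matrix.det_mvPolynomialX_ne_zero` with a rename of the variables and the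
injectivity of `algebraMap` into the fraction ring). Extend `N` to a set with exactly `r` elements. -/
theorem gx_linInd (r : ℕ) (N : Finset ℕ) (h : N.card ≤ r) :
    LinearIndependent (FK r) (fun i : N => gx r (i : ℕ)) :=
  gx_linInd' r (fun i : N => (i : ℕ)) Subtype.val_injective (by simpa using h)

end Pool.Agent.Helper55.ML
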