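import Pool.Agent.Helper55.MLA.R1
import Pool.Agent.Helper55.MLA.R3

set_option autoImplicit false
open Finset Matrix Filter Topology

namespace Pool.Agent.Helper55.ML

/-- A vector orthogonal to all generic points but one. -/
theorem r4_aux (r : ℕ) (M : Finset ℕ) (u : ℕ) (hu : u ∉ M) (h : M.card + 1 ≤ r) :
    ∃ w : Fin r → FK r, (∀ a ∈ M, ∑ k, gx r a k * w k = 0) ∧ ∑ k, gx r u k * w k ≠ 0 := by
  have hli := gx_linInd r (insert u M) (by rw [Finset.card_insert_of_notMem hu]; exact h)
  have hnot : gx r u ∉ Submodule.span (FK r) ((fun a : ℕ => gx r a) '' (M : Set ℕ)) := by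
    have h1 := hli.notMem_span_image (s := {i : (insert u M : Finset ℕ) | (i : ℕ) ∈ M})
      (x := ⟨u, Finset.mem_insert_self u M⟩) (by simpa using hu)
    refine fun h2 => h1 (Submodule.span_mono ?_ h2)
    rintro _ ⟨a, ha, rfl⟩
    exact ⟨⟨a, Finset.mem_insert_of_mem ha⟩, ha, rfl⟩
  obtain ⟨f, hf1, hf2⟩ := Submodule.exists_le_ker_of_notMem hnot
  have key : ∀ z : Fin r → FK r, ∑ k, z k * f (Pi.single k 1) = f z := by
    intro z
    have h2 : z = ∑ j, z j • (Pi.single j (1 : FK r) : Fin r → FK r) := by
      funext l
      simp [Finset.sum_apply, Pi.single_apply]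
    conv_rhs => rw [h2, map_sum]
    refine Finset.sum_congr rfl fun j _ => ?_
    rw [map_smul, smul_eq_mul]
  refine ⟨fun k => f (Pi.single k 1), ?_, ?_⟩
  · intro a ha
    rw [key]
    exact hf2 (Submodule.subset_span ⟨a, ha, rfl⟩)
  · rw [key]; exact hf1

/-- R4 (zero extension; hint). The rows of the edges `s(v,u)`, `u ∈ N`, have components `x_u` at the
vertex `v`, the diagonal row of `v` has component `2 x_v` there, and all rows of `S` and the other
diagonal rows have component `0`; the at most `r` vectors `x_u` (`u ∈ N`), `x_v` are linearly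
independent. So the rows of `star v N` are independent modulo `span (rows of S) + Dg`. -/
theorem rk_zero_ext (r : ℕ) (S : Finset (Sym2 ℕ)) (v : ℕ) (N : Finset ℕ) (h1 : ∀ e ∈ S, v ∉ e)
    (h2 : v ∉ N) (h3 : N.card + 1 ≤ r) : rk (gx r) (S ∪ star v N) = rk (gx r) S + N.card := by
  classical
  induction N using Finset.induction_on with
  | empty => simp [star]
  | insert u N' hu ih =>
    have hcard := Finset.card_insert_of_notMem hu
    have hvN : v ∉ N' := fun h => h2 (Finset.mem_insert_of_mem h)
    have hvu : v ≠ u := by rintro rfl; exact h2 (Finset.mem_insert_self _ _)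
    have ih' := ih hvN (by omega)
    have hset : S ∪ star v (insert u N') = insert s(v, u) (S ∪ star v N') := by
      unfold star
      rw [Finset.image_insert, Finset.union_insert]
    rw [hset, hcard]
    have hle := rk_insert (gx r) s(v, u) (S ∪ star v N')
    have hge := rk_mono (gx r) (Finset.subset_insert s(v, u) (S ∪ star v N'))
    have hne : rk (gx r) (insert s(v, u) (S ∪ star v N')) ≠ rk (gx r) (S ∪ star v N') := by
      intro heq
      have huv : u ∉ insert v N' := by
        rw [Finset.mem_insert]; push Not; exact ⟨hvu.symm, hu⟩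
      obtain ⟨w, hw1, hw2⟩ := r4_aux r (insert v N') u huv
        (by rw [Finset.card_insert_of_notMem hvN]; omega)
      have hd := rk_insert_eq_dual (gx r) heq (y := fun a => if a = v then w else 0) ?_ ?_
      · apply hw2
        simp only [if_neg (Ne.symm hvu), if_true, Pi.zero_apply, mul_zero, zero_add] at hd
        rw [← hd]
        exact Finset.sum_congr rfl fun k _ => mul_comm _ _
      · intro a b hab
        rcases Finset.mem_union.mp hab with hS | hN
        · have hv := h1 _ hS
          rw [Sym2.mem_iff] at hv
          push Not at hv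
          simp [Ne.symm hv.1, Ne.symm hv.2]
        · obtain ⟨u', hu', he⟩ := mem_star.mp hN
          have hne' : u' ≠ v := by rintro rfl; exact hvN hu'
          have hw := hw1 u' (Finset.mem_insert_of_mem hu')
          rcases Sym2.eq_iff.mp he with ⟨rfl, rfl⟩ | ⟨rfl, rfl⟩
          · simp only [if_neg hne', if_true, Pi.zero_apply, mul_zero, zero_add]
            rw [← hw]
            exact Finset.sum_congr rfl fun k _ => mul_comm _ _
          · simp only [if_neg hne', if_true, Pi.zero_apply, zero_mul, add_zero]
            exact hw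
      · intro a
        by_cases ha : a = v
        · subst ha
          simpa using hw1 a (Finset.mem_insert_self _ _)
        · simp [ha]
    omega

end Pool.Agent.Helper55.ML
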