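import Pool.Agent.Helper55.MLA.R1
import Pool.Agent.Helper55.MLA.R3

set_option autoImplicit false
open Finset Matrix Filter Topology

namespace Pool.Agent.Helper55.ML

private theorem r5_zero (r : ℕ) (T : Finset ℕ) (hT : T.card ≤ r) (a : ℕ → FK r)
    (h : ∑ i ∈ T, a i • gx r i = 0) : ∀ i ∈ T, a i = 0 := by
  have h1 := gx_linInd r T hT
  rw [Fintype.linearIndependent_iff] at h1
  have h2 := h1 (fun i => a i) (by
    rw [← h, ← Finset.sum_coe_sort T (fun i => a i • gx r i)])
  intro i hi
  exact h2 ⟨i, hi⟩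

private theorem r5_rel (r : ℕ) (T : Finset ℕ) (hT : T.card = r + 1) :
    ∃ a : ℕ → FK r, ∑ i ∈ T, a i • gx r i = 0 ∧ ∀ i ∈ T, a i ≠ 0 := by
  have h0 : ¬ LinearIndependent (FK r) (fun i : T => gx r (i : ℕ)) := by
    intro h
    have h1 := h.fintype_card_le_finrank
    rw [Module.finrank_fintype_fun_eq_card, Fintype.card_fin, Fintype.card_coe, hT] at h1
    omega
  rw [Fintype.not_linearIndependent_iff] at h0
  obtain ⟨g, hg, ⟨j, hj⟩⟩ := h0
  refine ⟨fun i => if h : i ∈ T then g ⟨i, h⟩ else 0, ?_, ?_⟩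
  · rw [← hg, ← Finset.sum_coe_sort T]
    refine Finset.sum_congr rfl fun i _ => ?_
    simp only
    rw [dif_pos i.2]
  · intro w hw hw0
    apply hj
    have h1 : ∑ i ∈ T.erase w, (if h : i ∈ T then g ⟨i, h⟩ else 0) • gx r i = 0 := by
      have h2 : ∑ i ∈ T, (if h : i ∈ T then g ⟨i, h⟩ else 0) • gx r i = 0 := by
        rw [← hg, ← Finset.sum_coe_sort T]
        refine Finset.sum_congr rfl fun i _ => ?_
        rw [dif_pos i.2]
      rw [← Finset.add_sum_erase T _ hw] at h2
      simp only at hw0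
      rw [hw0, zero_smul, zero_add] at h2
      exact h2
    have h3 := r5_zero r (T.erase w) (by rw [Finset.card_erase_of_mem hw]; omega)
      (fun i => if h : i ∈ T then g ⟨i, h⟩ else 0) h1
    by_cases hjw : (j : ℕ) = w
    · simp only at hw0
      rw [dif_pos hw] at hw0
      have : j = ⟨w, hw⟩ := Subtype.ext hjw
      rw [this]
      exact hw0
    · have h4 := h3 j (Finset.mem_erase.2 ⟨hjw, j.2⟩)
      rw [dif_pos j.2] at h4
      exact h4

/-- R5 (clique extension; hint). For `u ∈ C \ N`: the `r+1` vectors `x_i` (`i ∈ N ∪ {u,v}`) satisfy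
one relation `∑ a_i x_i = 0` with `a_u ≠ 0`, `a_v ≠ 0` (any `r` of them are independent), and then
`∑_{i,j} a_i a_j row s(i,j) = 2 ∑_i a_i (∑_j a_j x_j) e_i = 0`, so the row of `s(u,v)` is a combination of
the rows of the other pairs of `N ∪ {u,v}` and of diagonal rows, all of which are in the closure. -/
theorem rk_clique_ext (r : ℕ) (S : Finset (Sym2 ℕ)) (C N : Finset ℕ) (v : ℕ) (hv : v ∉ C)
    (hN : N ⊆ C) (hc : N.card + 1 = r)
    (hC : ∀ a ∈ C, ∀ b ∈ C, a ≠ b → rk (gx r) (insert s(a, b) S) = rk (gx r) S)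
    (hvN : ∀ u ∈ N, rk (gx r) (insert s(v, u) S) = rk (gx r) S) :
    ∀ u ∈ C, rk (gx r) (insert s(v, u) S) = rk (gx r) S := by
  intro u hu
  by_cases huN : u ∈ N
  · exact hvN u huN
  have hvu : v ≠ u := fun h => hv (h ▸ hu)
  have hvT : v ∉ insert u N := by
    rw [Finset.mem_insert, not_or]
    exact ⟨hvu, fun h => hv (hN h)⟩
  obtain ⟨a, ha, ha0⟩ := r5_rel r (insert v (insert u N)) (by
    rw [Finset.card_insert_of_notMem hvT, Finset.card_insert_of_notMem huN]
    omega)
  refine rk_insert_eq_of_dual (gx r) two_ne_zero v u S ?_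
  intro y h1 h2
  -- the bilinear form
  obtain ⟨B, hB⟩ : ∃ B : ℕ → ℕ → FK r, B = fun i j => ∑ k, (gx r i k * y j k + y i k * gx r j k) :=
    ⟨_, rfl⟩
  have hsymm : ∀ i j, B i j = B j i := by
    intro i j
    rw [hB]
    refine Finset.sum_congr rfl fun k _ => ?_
    ring
  have hdiag : ∀ i, B i i = 0 := by
    intro i
    have h3 : B i i = 2 * ∑ k, gx r i k * y i k := by
      rw [hB, Finset.mul_sum]
      refine Finset.sum_congr rfl fun k _ => ?_
      ring
    rw [h3, h2 i, mul_zero]
  have hCC : ∀ i ∈ C, ∀ j ∈ C, B i j = 0 := by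
    intro i hi j hj
    by_cases hij : i = j
    · rw [hij]
      exact hdiag j
    · rw [hB]
      exact rk_insert_eq_dual (gx r) (hC i hi j hj hij) h1 h2
  have hvn : ∀ i ∈ N, B v i = 0 := by
    intro i hi
    rw [hB]
    exact rk_insert_eq_dual (gx r) (hvN i hi) h1 h2
  have hx : ∀ k, ∑ i ∈ insert v (insert u N), a i * gx r i k = 0 := by
    intro k
    have h3 := congrFun ha k
    rw [Finset.sum_apply] at h3
    simpa [Pi.smul_apply, smul_eq_mul] using h3
  have htot : ∑ i ∈ insert v (insert u N), ∑ j ∈ insert v (insert u N), a i * a j * B i j = 0 := by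
    have h3 : ∀ i ∈ insert v (insert u N), ∑ j ∈ insert v (insert u N), a i * a j * B i j =
        ∑ k, (a i * gx r i k * (∑ j ∈ insert v (insert u N), a j * y j k) +
          a i * y i k * (∑ j ∈ insert v (insert u N), a j * gx r j k)) := by
      intro i _
      rw [hB]
      simp only [Finset.mul_sum]
      rw [Finset.sum_comm]
      refine Finset.sum_congr rfl fun k _ => ?_
      rw [← Finset.sum_add_distrib]
      refine Finset.sum_congr rfl fun j _ => ?_
      ring
    rw [Finset.sum_congr rfl h3, Finset.sum_comm]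
    refine Finset.sum_eq_zero fun k _ => ?_
    rw [Finset.sum_add_distrib, ← Finset.sum_mul, hx k, zero_mul, zero_add]
    simp
  have hCsum : ∀ i ∈ insert u N, ∀ j ∈ insert u N, a i * a j * B i j = 0 := by
    intro i hi j hj
    have hiC : ∀ i ∈ insert u N, i ∈ C := by
      intro i hi
      rcases Finset.mem_insert.1 hi with h | h
      · exact h ▸ hu
      · exact hN h
    rw [hCC i (hiC i hi) j (hiC j hj), mul_zero]
  have hrow : ∑ j ∈ insert v (insert u N), a v * a j * B v j = a v * a u * B v u := by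
    rw [Finset.sum_insert hvT, hdiag, mul_zero, zero_add, Finset.sum_insert huN]
    rw [Finset.sum_eq_zero (fun j hj => by rw [hvn j hj, mul_zero]), add_zero]
  have hcol : ∀ i ∈ insert u N, ∑ j ∈ insert v (insert u N), a i * a j * B i j =
      a i * a v * B i v := by
    intro i hi
    rw [Finset.sum_insert hvT, Finset.sum_eq_zero (fun j hj => hCsum i hi j hj), add_zero]
  rw [Finset.sum_insert hvT, hrow, Finset.sum_congr rfl hcol, Finset.sum_insert huN,
    Finset.sum_eq_zero (fun j hj => by rw [hsymm j v, hvn j hj, mul_zero]), add_zero,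
    hsymm u v] at htot
  have h5 : 2 * (a v * a u) * B v u = 0 := by
    rw [← htot]
    ring
  have hne : (2 : FK r) * (a v * a u) ≠ 0 :=
    mul_ne_zero two_ne_zero (mul_ne_zero (ha0 v (Finset.mem_insert_self _ _))
      (ha0 u (Finset.mem_insert_of_mem (Finset.mem_insert_self _ _))))
  have h6 := (mul_eq_zero.1 h5).resolve_left hne
  rw [hB] at h6
  exact h6

end Pool.Agent.Helper55.ML
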