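import Pool.Agent.Helper55.MLA.Defs

set_option autoImplicit false
open Finset Matrix Filter Topology

namespace Pool.Agent.Helper55.ML

/-- the monomial `x_k x_l` of the unordered pair `{k,l}` -/
private def r6m {R : Type*} [CommRing R] {r : ℕ} (x : Fin r → R) (g : Sym2 (Fin r)) : R :=
  Sym2.lift ⟨fun k l => x k * x l, fun _ _ => mul_comm _ _⟩ g

private theorem r6m_mk {R : Type*} [CommRing R] {r : ℕ} (x : Fin r → R) (k l : Fin r) :
    r6m x s(k, l) = x k * x l := rfl

open Classical in
private theorem r6m_ind {r : ℕ} (f g : Sym2 (Fin r)) :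
    r6m (fun k => if k ∈ f then (1 : ℚ) else 0) g = if (∀ k ∈ g, k ∈ f) then 1 else 0 := by
  induction g using Sym2.ind with
  | _ a b =>
    rw [r6m_mk]
    by_cases ha : a ∈ f
    · by_cases hb : b ∈ f
      · rw [if_pos ha, if_pos hb, if_pos, one_mul]
        intro k hk
        rcases Sym2.mem_iff.1 hk with rfl | rfl
        · exact ha
        · exact hb
      · rw [if_neg hb, mul_zero, if_neg]
        intro h
        exact hb (h b (by simp))
    · rw [if_neg ha, zero_mul, if_neg]
      intro h
      exact ha (h a (by simp))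

open Classical in
/-- a quadratic form which vanishes at the points `e_k`, `e_k + e_l` is zero -/
private theorem r6_det {r : ℕ} : (Matrix.of fun f g : Sym2 (Fin r) =>
    r6m (fun k => if k ∈ f then (1 : ℚ) else 0) g).det ≠ 0 := by
  intro hdet
  obtain ⟨v, hv, hv0⟩ := Matrix.exists_mulVec_eq_zero_iff.2 hdet
  apply hv
  have h1 : ∀ f : Sym2 (Fin r), ∑ g : Sym2 (Fin r),
      (if (∀ k ∈ g, k ∈ f) then (1 : ℚ) else 0) * v g = 0 := by
    intro f
    have := congrFun hv0 f
    simp only [Matrix.mulVec, dotProduct, Matrix.of_apply, Pi.zero_apply, r6m_ind] at this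
    exact this
  have h2 : ∀ a : Fin r, v s(a, a) = 0 := by
    intro a
    have h3 := h1 s(a, a)
    rw [Finset.sum_eq_single s(a, a)] at h3
    · rwa [if_pos (fun k hk => hk), one_mul] at h3
    · intro g _ hg
      rw [if_neg, zero_mul]
      intro h
      apply hg
      induction g using Sym2.ind with
      | _ c d =>
        have hc := h c (by simp)
        have hd := h d (by simp)
        simp only [Sym2.mem_iff, or_self] at hc hd
        rw [hc, hd]
    · intro h
      exact absurd (Finset.mem_univ _) h
  funext f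
  rw [Pi.zero_apply]
  have h3 := h1 f
  rw [Finset.sum_eq_single f] at h3
  · rwa [if_pos (fun k hk => hk), one_mul] at h3
  · intro g _ hg
    by_cases h : ∀ k ∈ g, k ∈ f
    · rw [if_pos h, one_mul]
      induction g using Sym2.ind with
      | _ c d =>
        by_cases hcd : c = d
        · rw [hcd]
          exact h2 d
        · exfalso
          apply hg
          have hc := h c (by simp)
          have hd := h d (by simp)
          exact ((Sym2.mem_and_mem_iff hcd).1 ⟨hc, hd⟩).symm
    · rw [if_neg h, zero_mul]
  · intro h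
    exact absurd (Finset.mem_univ _) h

/-- R6 (quadratic forms; hint). The matrix `(x_{a,k} x_{a,l})` indexed by `a ∈ A` and the
`r(r+1)/2` unordered pairs `{k,l}` is nonsingular: its determinant is a polynomial in the coordinates
that does not vanish at the points `e_k`, `e_k + e_l` (there a quadratic form vanishing at all points is
zero). So the form `∑ (M k l + M l k)/2 x_k x_l` vanishes identically. -/
theorem veronese (r : ℕ) (A : Finset ℕ) (hA : A.card = r * (r + 1) / 2)
    (M : Matrix (Fin r) (Fin r) (FK r))
    (h : ∀ a ∈ A, ∑ k, ∑ l, gx r a k * M k l * gx r a l = 0) : ∀ k l, M k l + M l k = 0 := by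
  classical
  have hcard : Fintype.card A = Fintype.card (Sym2 (Fin r)) := by
    rw [Fintype.card_coe, Sym2.card, Fintype.card_fin, hA, Nat.choose_two_right,
      Nat.add_sub_cancel, mul_comm]
  obtain ⟨e⟩ := Fintype.card_eq.1 hcard
  -- the determinant is not zero
  have hdet0 : (Matrix.of fun f g : Sym2 (Fin r) =>
      r6m (fun k => (MvPolynomial.X (((e.symm f : A) : ℕ), k) :
        MvPolynomial (ℕ × Fin r) ℚ)) g).det ≠ 0 := by
    intro h0
    apply r6_det (r := r)
    obtain ⟨pt, hpt⟩ : ∃ pt : ℕ × Fin r → ℚ, pt = fun q =>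
      if hq : q.1 ∈ A then (if q.2 ∈ e ⟨q.1, hq⟩ then (1 : ℚ) else 0) else 0 := ⟨_, rfl⟩
    have h1 := congrArg (MvPolynomial.eval pt) h0
    rw [map_zero, RingHom.map_det] at h1
    refine Eq.trans ?_ h1
    congr 1
    ext f g
    induction g using Sym2.ind with
    | _ a b =>
      have h2 : ∀ k : Fin r, pt (((e.symm f : A) : ℕ), k) = if k ∈ f then (1 : ℚ) else 0 := by
        intro k
        rw [hpt]
        simp
      simp only [RingHom.mapMatrix_apply, Matrix.map_apply, Matrix.of_apply, r6m_mk, map_mul,
        MvPolynomial.eval_X, h2]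
  have hdet : (Matrix.of fun f g : Sym2 (Fin r) =>
      r6m (fun k => gx r ((e.symm f : A) : ℕ) k) g).det ≠ 0 := by
    have h1 : (Matrix.of fun f g : Sym2 (Fin r) =>
        r6m (fun k => gx r ((e.symm f : A) : ℕ) k) g) =
        (algebraMap (MvPolynomial (ℕ × Fin r) ℚ) (FK r)).mapMatrix
          (Matrix.of fun f g : Sym2 (Fin r) =>
            r6m (fun k => (MvPolynomial.X (((e.symm f : A) : ℕ), k) :
              MvPolynomial (ℕ × Fin r) ℚ)) g) := by
      ext f g
      induction g using Sym2.ind with
      | _ a b =>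
        simp only [RingHom.mapMatrix_apply, Matrix.map_apply, Matrix.of_apply, r6m_mk, map_mul]
        rfl
    rw [h1, ← RingHom.map_det]
    intro h2
    rw [← map_zero (algebraMap (MvPolynomial (ℕ × Fin r) ℚ) (FK r))] at h2
    exact hdet0 (IsFractionRing.injective (MvPolynomial (ℕ × Fin r) ℚ) (FK r) h2)
  -- the coefficients
  obtain ⟨c, hc⟩ : ∃ c : Sym2 (Fin r) → FK r, c = fun g =>
    ∑ p ∈ (Finset.univ : Finset (Fin r × Fin r)).filter (fun p => s(p.1, p.2) = g),
      M p.1 p.2 := ⟨_, rfl⟩
  have hc0 : c = 0 := by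
    refine Matrix.eq_zero_of_mulVec_eq_zero hdet ?_
    funext f
    simp only [Matrix.mulVec, dotProduct, Matrix.of_apply, Pi.zero_apply]
    have h1 := h ((e.symm f : A) : ℕ) (e.symm f).2
    rw [← Finset.sum_product'] at h1
    rw [← h1]
    simp only [Finset.univ_product_univ]
    rw [← Finset.sum_fiberwise (s := (Finset.univ : Finset (Fin r × Fin r)))
      (g := fun p : Fin r × Fin r => s(p.1, p.2))]
    refine Finset.sum_congr rfl fun g _ => ?_
    rw [hc]
    simp only
    rw [Finset.mul_sum]
    refine Finset.sum_congr rfl fun p hp => ?_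
    rw [← (Finset.mem_filter.1 hp).2, r6m_mk]
    ring
  intro k l
  have h1 : c s(k, l) = 0 := by rw [hc0]; rfl
  rw [hc] at h1
  simp only at h1
  by_cases hkl : k = l
  · subst hkl
    have h2 : (Finset.univ : Finset (Fin r × Fin r)).filter (fun p => s(p.1, p.2) = s(k, k)) =
        {(k, k)} := by
      ext p
      simp only [Finset.mem_filter, Finset.mem_univ, true_and, Finset.mem_singleton, Sym2.eq_iff,
        or_self, Prod.ext_iff]
    rw [h2, Finset.sum_singleton] at h1
    rw [h1, add_zero]
  · have h2 : (Finset.univ : Finset (Fin r × Fin r)).filter (fun p => s(p.1, p.2) = s(k, l)) =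
        {(k, l), (l, k)} := by
      ext p
      simp only [Finset.mem_filter, Finset.mem_univ, true_and, Finset.mem_insert,
        Finset.mem_singleton, Sym2.eq_iff, Prod.ext_iff]
    rw [h2, Finset.sum_pair] at h1
    · exact h1
    · intro h3
      exact hkl (Prod.ext_iff.1 h3).1

end Pool.Agent.Helper55.ML
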