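import Pool.Agent.Helper55.MLA.R1
import Pool.Agent.Helper55.MLA.R3
import Pool.Agent.Helper55.MLA.R6

set_option autoImplicit false
open Finset Matrix Filter Topology

namespace Pool.Agent.Helper55.ML

/-- A set of at least `r` generic points contains a nonsingular `r × r` matrix of coordinates. -/
private theorem r7_basis (r : ℕ) (B : Finset ℕ) (hB : r ≤ B.card) :
    ∃ e : Fin r → ℕ, (∀ i, e i ∈ B) ∧
      IsUnit (Matrix.of (fun i k => gx r (e i) k) : Matrix (Fin r) (Fin r) (FK r)).det := by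
  classical
  obtain ⟨N, hN, hNc⟩ := Finset.exists_subset_card_eq hB
  let f : Fin r ≃ N := (Fintype.equivOfCardEq (by rw [Fintype.card_fin, Fintype.card_coe, hNc]))
  refine ⟨fun i => (f i : ℕ), fun i => hN (f i).2, ?_⟩
  have hinj : Function.Injective (fun i : Fin r => ((f i : N) : ℕ)) :=
    Subtype.val_injective.comp f.injective
  have h1 := gx_linInd' r (fun i : Fin r => ((f i : N) : ℕ)) hinj (by rw [Fintype.card_fin])
  rw [← Matrix.isUnit_iff_isUnit_det]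
  rw [← Matrix.linearIndependent_rows_iff_isUnit]
  exact h1

/-- R7 (complete bipartite graph; hint). By `rk_insert_eq_of_dual` let `y` be a velocity field
annihilated by `S` and the diagonal; by `rk_insert_eq_dual`, `x_a·y_b + y_a·x_b = 0` for
`a ∈ A`, `b ∈ B`. As the `x_b` contain a basis, `y_a = M x_a` for all `a ∈ A` with a fixed matrix `M`, and
then, as the `x_a` contain a basis, `y_b = -Mᵀ x_b` for `b ∈ B`. The diagonal conditions on `A` and
`veronese` give `Mᵀ = -M`, so `y_i = M x_i` on `A ∪ B` with `M` skew and every pair is annihilated. -/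
theorem rk_bip (r : ℕ) (S : Finset (Sym2 ℕ)) (A B : Finset ℕ) (hAB : Disjoint A B)
    (hA : A.card = r * (r + 1) / 2) (hB : B.card = r * (r + 1) / 2)
    (h : ∀ a ∈ A, ∀ b ∈ B, rk (gx r) (insert s(a, b) S) = rk (gx r) S) :
    ∀ a ∈ A ∪ B, ∀ b ∈ A ∪ B, a ≠ b → rk (gx r) (insert s(a, b) S) = rk (gx r) S := by
  have _ := hAB
  intro a ha b hb _
  have hr : r ≤ r * (r + 1) / 2 := by
    rcases Nat.eq_zero_or_pos r with h0 | h0
    · rw [h0]
    · rw [Nat.le_div_iff_mul_le (by norm_num)]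
      exact Nat.mul_le_mul_left r (by omega)
  obtain ⟨eA, heA, hUA⟩ := r7_basis r A (hA ▸ hr)
  obtain ⟨eB, heB, hUB⟩ := r7_basis r B (hB ▸ hr)
  have h2 : (2 : FK r) ≠ 0 := two_ne_zero
  refine rk_insert_eq_of_dual (gx r) h2 a b S fun y hy1 hy2 => ?_
  have key : ∀ a ∈ A, ∀ b ∈ B, gx r a ⬝ᵥ y b + y a ⬝ᵥ gx r b = 0 := by
    intro a ha b hb
    have h3 := rk_insert_eq_dual (gx r) (h a ha b hb) hy1 hy2
    rw [Finset.sum_add_distrib] at h3
    exact h3
  obtain ⟨XB, hXB⟩ : ∃ XB : Matrix (Fin r) (Fin r) (FK r),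
    XB = Matrix.of (fun i k => gx r (eB i) k) := ⟨_, rfl⟩
  obtain ⟨XA, hXA⟩ : ∃ XA : Matrix (Fin r) (Fin r) (FK r),
    XA = Matrix.of (fun i k => gx r (eA i) k) := ⟨_, rfl⟩
  obtain ⟨YB, hYB⟩ : ∃ YB : Matrix (Fin r) (Fin r) (FK r),
    YB = Matrix.of (fun i k => y (eB i) k) := ⟨_, rfl⟩
  rw [← hXB] at hUB
  rw [← hXA] at hUA
  obtain ⟨M, hM⟩ : ∃ M : Matrix (Fin r) (Fin r) (FK r), M = -(XB⁻¹ * YB) := ⟨_, rfl⟩
  have hyA : ∀ a ∈ A, y a = M *ᵥ gx r a := by
    intro a ha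
    have h3 : XB *ᵥ y a = -(YB *ᵥ gx r a) := by
      funext i
      have h4 := key a ha (eB i) (heB i)
      rw [hXB, hYB]
      simp only [Matrix.mulVec, Matrix.of_apply, Pi.neg_apply]
      have h5 : (fun k => gx r (eB i) k) ⬝ᵥ y a = y a ⬝ᵥ gx r (eB i) := dotProduct_comm _ _
      have h6 : (fun k => y (eB i) k) ⬝ᵥ gx r a = gx r a ⬝ᵥ y (eB i) := dotProduct_comm _ _
      rw [h5, h6]
      exact eq_neg_of_add_eq_zero_right h4
    have h4 : XB⁻¹ *ᵥ (XB *ᵥ y a) = y a := by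
      rw [Matrix.mulVec_mulVec, Matrix.nonsing_inv_mul _ hUB, Matrix.one_mulVec]
    rw [← h4, h3, hM, Matrix.mulVec_neg, Matrix.mulVec_mulVec, Matrix.neg_mulVec]
  have hyB : ∀ b ∈ B, y b = -(Mᵀ *ᵥ gx r b) := by
    intro b hb
    have h3 : XA *ᵥ (y b + Mᵀ *ᵥ gx r b) = 0 := by
      funext i
      have h4 := key (eA i) (heA i) b hb
      rw [hyA (eA i) (heA i)] at h4
      rw [hXA, Pi.zero_apply]
      simp only [Matrix.mulVec, Matrix.of_apply]
      rw [← h4]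
      have h5 : (M *ᵥ gx r (eA i)) ⬝ᵥ gx r b = gx r (eA i) ⬝ᵥ (Mᵀ *ᵥ gx r b) := by
        rw [Matrix.dotProduct_mulVec, Matrix.vecMul_transpose]
      rw [h5, ← dotProduct_add]
    have h4 : XA⁻¹ *ᵥ (XA *ᵥ (y b + Mᵀ *ᵥ gx r b)) = y b + Mᵀ *ᵥ gx r b := by
      rw [Matrix.mulVec_mulVec, Matrix.nonsing_inv_mul _ hUA, Matrix.one_mulVec]
    rw [h3, Matrix.mulVec_zero] at h4
    exact eq_neg_of_add_eq_zero_left h4.symm
  have hskew : ∀ k l, M k l + M l k = 0 := by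
    refine veronese r A hA M fun a ha => ?_
    have h3 := hy2 a
    rw [hyA a ha] at h3
    rw [← h3]
    refine Finset.sum_congr rfl fun k _ => ?_
    simp only [Matrix.mulVec, dotProduct, Finset.mul_sum, mul_assoc]
  have hMt : Mᵀ = -M := by
    ext k l
    rw [Matrix.transpose_apply, Matrix.neg_apply]
    exact eq_neg_of_add_eq_zero_left (hskew l k)
  have hyAB : ∀ c ∈ A ∪ B, y c = M *ᵥ gx r c := by
    intro c hc
    rcases Finset.mem_union.1 hc with hc | hc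
    · exact hyA c hc
    · rw [hyB c hc, hMt, Matrix.neg_mulVec, neg_neg]
  rw [Finset.sum_add_distrib]
  change gx r a ⬝ᵥ y b + y a ⬝ᵥ gx r b = 0
  rw [hyAB a ha, hyAB b hb]
  have h5 : (M *ᵥ gx r a) ⬝ᵥ gx r b = gx r a ⬝ᵥ (Mᵀ *ᵥ gx r b) := by
    rw [Matrix.dotProduct_mulVec, Matrix.vecMul_transpose]
  rw [h5, ← dotProduct_add, hMt, Matrix.neg_mulVec, add_neg_cancel, dotProduct_zero]

end Pool.Agent.Helper55.ML
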