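import Pool.Agent.Helper55.MLA.R2
import Pool.Agent.Helper55.MLA.R4
import Pool.Agent.Helper55.MLA.R5
import Pool.Agent.Helper55.MLA.R7

set_option autoImplicit false
open Finset Matrix Filter Topology

namespace Pool.Agent.Helper55.ML

/-- The generic rigidity rank function as an abstract one. -/
noncomputable def genericRig (r : ℕ) (hr : 1 ≤ r) : Rig (r - 1) (r * (r + 1) / 2) where
  r := rk (gx r)
  r_empty := rk_empty _
  r_mono := fun h => rk_mono _ h
  r_insert := fun e S => rk_insert _ e S
  r_submod := fun S T => rk_submod _ S T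
  r_perm := fun σ S => rk_perm r σ S
  zero_ext := fun S v N h1 h2 h3 => rk_zero_ext r S v N h1 h2 (by omega)
  clique_ext := fun S C N v hv hN hc hC hvN =>
    rk_clique_ext r S C N v hv hN (by omega) hC hvN
  bip := fun S A B hAB hA hB h => rk_bip r S A B hAB hA hB h

end Pool.Agent.Helper55.ML
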