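import Pool.Agent.Helper55.MLA.B1
import Pool.Agent.Helper55.MLA.GRig

set_option autoImplicit false
open Finset Matrix Filter Topology

namespace Pool.Agent.Helper55.ML

/-- the coordinates of a combination of rows -/
theorem b3_sum {F : Type*} [Field F] {r : ℕ} (x : ℕ → Fin r → F) (A : Finset ℕ)
    (K : ℕ → ℕ → F) (hs : ∀ a b, K a b = K b a) (h0 : ∀ a b, b ∉ A → K a b = 0)
    (a : ℕ) (k : Fin r) (S : Finset (Sym2 ℕ)) : (∀ e ∈ S, ¬ e.IsDiag) →
    (∑ e ∈ S, (Sym2.lift ⟨K, hs⟩ e) • row x e) (a, k) =
      ∑ b ∈ A, if s(a, b) ∈ S then K a b * x b k else 0 := by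
  classical
  induction S using Finset.induction_on with
  | empty =>
    intro _
    simp
  | insert e S he ih =>
    intro hS
    have ih' := ih fun e' he' => hS e' (mem_insert_of_mem he')
    rw [sum_insert he, Pi.add_apply, ih']
    have hdiag := hS e (mem_insert_self e S)
    clear ih ih' hS
    induction e using Sym2.ind with
    | _ i j =>
      have hij : i ≠ j := fun h => hdiag (Sym2.mk_isDiag_iff.2 h)
      have e1 : ∀ b ∈ A, (if s(a, b) ∈ insert s(i, j) S then K a b * x b k else 0) =
          (if s(a, b) = s(i, j) then K a b * x b k else 0) +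
            (if s(a, b) ∈ S then K a b * x b k else 0) := by
        intro b _
        by_cases h1 : s(a, b) = s(i, j)
        · rw [h1, if_pos (mem_insert_self _ _), if_pos rfl, if_neg he, add_zero]
        · rw [if_neg h1, zero_add]
          by_cases h2 : s(a, b) ∈ S
          · rw [if_pos h2, if_pos (mem_insert_of_mem h2)]
          · rw [if_neg h2, if_neg]
            rw [mem_insert]
            tauto
      rw [sum_congr rfl e1, sum_add_distrib]
      congr 1
      have e2 : (Sym2.lift ⟨K, hs⟩ s(i, j) • row x s(i, j)) (a, k) =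
          K i j * ((if a = i then x j k else 0) + (if a = j then x i k else 0)) := rfl
      rw [e2]
      by_cases hai : a = i
      · subst hai
        rw [if_pos rfl, if_neg hij, add_zero]
        by_cases hj : j ∈ A
        · rw [sum_eq_single_of_mem j hj, if_pos rfl]
          intro b _ hb
          rw [if_neg]
          intro h
          rw [Sym2.congr_right] at h
          exact hb h
        · rw [h0 a j hj, zero_mul]
          symm
          apply sum_eq_zero
          intro b hb
          rw [if_neg]
          intro h
          rw [Sym2.congr_right] at h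
          exact hj (h ▸ hb)
      · by_cases haj : a = j
        · subst haj
          rw [if_neg hai, if_pos rfl, zero_add]
          by_cases hi : i ∈ A
          · rw [sum_eq_single_of_mem i hi, if_pos Sym2.eq_swap, hs a i]
            intro b _ hb
            rw [if_neg]
            intro h
            rw [Sym2.eq_swap (a := i), Sym2.congr_right] at h
            exact hb h
          · rw [hs i a, h0 a i hi, zero_mul]
            symm
            apply sum_eq_zero
            intro b hb
            rw [if_neg]
            intro h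
            rw [Sym2.eq_swap (a := i), Sym2.congr_right] at h
            exact hi (h ▸ hb)
        · rw [if_neg hai, if_neg haj, add_zero, mul_zero]
          symm
          apply sum_eq_zero
          intro b _
          rw [if_neg]
          intro h
          rw [Sym2.eq_iff] at h
          rcases h with ⟨h, _⟩ | ⟨h, _⟩
          · exact hai h
          · exact haj h

theorem b3_gx_ne (r : ℕ) (i : ℕ) (k : Fin r) : gx r i k ≠ 0 := by
  unfold gx
  intro h
  have h1 := (IsFractionRing.injective (MvPolynomial (ℕ × Fin r) ℚ) (FK r))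
    (h.trans (map_zero _).symm)
  exact MvPolynomial.X_ne_zero (i, k) h1

theorem b3_two_ne (r : ℕ) : (2 : FK r) ≠ 0 := by
  intro h
  have h1 : algebraMap (MvPolynomial (ℕ × Fin r) ℚ) (FK r) 2 = 0 := by
    rw [map_ofNat]
    exact h
  have h2 := (IsFractionRing.injective (MvPolynomial (ℕ × Fin r) ℚ) (FK r))
    (h1.trans (map_zero _).symm)
  exact two_ne_zero h2

/-- the general form -/
theorem b3_gen (r : ℕ) (hr : 1 ≤ r) {S : Finset (Sym2 ℕ)} (hS : ∀ e ∈ S, ¬ e.IsDiag)
    (h : rk (gx r) S = S.card) {V : Type} [Fintype V] [DecidableEq V] (f : V → ℕ)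
    (hf : Function.Injective f) :
    Free (fun i j : V => i = j ∨ s(f i, f j) ∈ S)
      (Matrix.of (fun (i : V) (k : Fin r) => gx r (f i) k)) := by
  classical
  intro K hK
  obtain ⟨⟨hsym, hsupp⟩, hker⟩ := hK
  have hsym' : ∀ i j, K i j = K j i := fun i j => hsym.apply j i
  set K' : ℕ → ℕ → FK r := fun a b => ∑ i : V, ∑ j : V, if f i = a ∧ f j = b then K i j else 0
    with hK'
  have hK's : ∀ a b, K' a b = K' b a := by
    intro a b
    simp only [hK']
    rw [sum_comm]
    refine sum_congr rfl fun i _ => sum_congr rfl fun j _ => ?_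
    rw [hsym' j i]
    by_cases h1 : f j = a ∧ f i = b
    · rw [if_pos h1, if_pos ⟨h1.2, h1.1⟩]
    · rw [if_neg h1, if_neg fun h2 => h1 ⟨h2.2, h2.1⟩]
  have hK'f : ∀ i j, K' (f i) (f j) = K i j := by
    intro i j
    simp only [hK']
    rw [sum_eq_single_of_mem i (mem_univ i), sum_eq_single_of_mem j (mem_univ j),
      if_pos ⟨rfl, rfl⟩]
    · intro j' _ hj'
      rw [if_neg fun h2 => hj' (hf h2.2)]
    · intro i' _ hi'
      refine sum_eq_zero fun j' _ => ?_
      rw [if_neg fun h2 => hi' (hf h2.1)]
  have hK'0 : ∀ a b, b ∉ (univ.image f : Finset ℕ) → K' a b = 0 := by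
    intro a b hb
    simp only [hK']
    refine sum_eq_zero fun i _ => sum_eq_zero fun j _ => ?_
    rw [if_neg]
    rintro ⟨_, h2⟩
    exact hb (mem_image.2 ⟨j, mem_univ j, h2⟩)
  have hrow : ∀ i k, ∑ j, K i j * gx r (f j) k = 0 := by
    intro i k
    have h1 := congrFun (congrFun hker i) k
    rw [Matrix.mul_apply] at h1
    exact h1
  -- the combination lies in the span of the diagonal rows
  have hmem : (∑ e ∈ S, (Sym2.lift ⟨K', hK's⟩ e) • row (gx r) e) ∈ Dg (gx r) := by
    have heq : (∑ e ∈ S, (Sym2.lift ⟨K', hK's⟩ e) • row (gx r) e) =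
        ∑ i : V, (-(K i i / 2)) • row (gx r) s(f i, f i) := by
      funext q
      obtain ⟨a, k⟩ := q
      rw [b3_sum (gx r) (univ.image f) K' hK's hK'0 a k S hS,
        sum_image (fun _ _ _ _ hab => hf hab), Finset.sum_apply]
      have e2 : ∀ i : V, ((-(K i i / 2)) • row (gx r) s(f i, f i)) (a, k) =
          -(K i i / 2) * ((if a = f i then gx r (f i) k else 0) +
            (if a = f i then gx r (f i) k else 0)) := fun _ => rfl
      rw [sum_congr rfl fun i _ => e2 i]
      by_cases ha : ∃ i, f i = a
      · obtain ⟨i, rfl⟩ := ha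
        rw [sum_eq_single_of_mem (f := fun i' : V => -(K i' i' / 2) *
          ((if f i = f i' then gx r (f i') k else 0) +
            (if f i = f i' then gx r (f i') k else 0))) i (mem_univ i)]
        · have e3 : ∀ j ∈ (univ : Finset V), (if s(f i, f j) ∈ S then
              K' (f i) (f j) * gx r (f j) k else 0) =
              K i j * gx r (f j) k - (if j = i then K i i * gx r (f i) k else 0) := by
            intro j _
            rw [hK'f]
            by_cases hji : j = i
            · subst hji
              rw [if_neg fun h2 => hS _ h2 (Sym2.mk_isDiag_iff.2 rfl), if_pos rfl, sub_self]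
            · rw [if_neg hji, sub_zero]
              by_cases h3 : s(f i, f j) ∈ S
              · rw [if_pos h3]
              · rw [if_neg h3, hsupp i j, zero_mul]
                rintro (h4 | h4)
                · exact hji h4.symm
                · exact h3 h4
          rw [sum_congr rfl e3, sum_sub_distrib, hrow, sum_ite_eq' univ i, if_pos (mem_univ i),
            if_pos rfl]
          have h2 := b3_two_ne r
          field_simp
          ring
        · intro i' _ hi'
          rw [if_neg fun h3 => hi' (hf h3).symm, add_zero, mul_zero]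
      · have e3 : ∀ j, K' a (f j) = 0 := by
          intro j
          rw [hK's]
          apply hK'0
          intro h3
          obtain ⟨i, _, h4⟩ := mem_image.1 h3
          exact ha ⟨i, h4⟩
        rw [sum_eq_zero, sum_eq_zero]
        · intro i _
          rw [if_neg fun h3 => ha ⟨i, h3.symm⟩, add_zero, mul_zero]
        · intro j _
          rw [e3 j, zero_mul, ite_self]
    rw [heq]
    refine Submodule.sum_mem _ fun i _ => Submodule.smul_mem _ _ ?_
    exact Submodule.subset_span ⟨f i, rfl⟩
  have hc := (rk_eq_card_iff (gx r) S).1 h _ hmem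
  have hoff : ∀ i j, i ≠ j → K i j = 0 := by
    intro i j hij
    by_cases h3 : s(f i, f j) ∈ S
    · have h4 := hc _ h3
      change K' (f i) (f j) = 0 at h4
      rwa [hK'f] at h4
    · apply hsupp
      rintro (h4 | h4)
      · exact hij h4
      · exact h3 h4
  ext i j
  by_cases hij : i = j
  · subst hij
    have h3 := hrow i ⟨0, hr⟩
    rw [sum_eq_single_of_mem i (mem_univ i)] at h3
    · rcases mul_eq_zero.1 h3 with h4 | h4
      · exact h4
      · exact absurd h4 (b3_gx_ne r _ _)
    · intro j _ hj
      rw [hoff i j hj.symm, zero_mul]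
  · exact hoff i j hij

/-- B3 (hint): a stress on `A` supported on the pairs of the independent set `S ⊆ En n` and the diagonal
gives a relation between the rows of `S` modulo `Dg` (coefficient of `s(i,j)`, `i ≠ j`: `K i j`), so
`K i j = 0` for `i ≠ j` (`rk_eq_card_iff`) and then `K i i * x_i = 0`. -/
theorem Free_gx_of_indep (r : ℕ) (hr : 1 ≤ r) {S : Finset (Sym2 ℕ)} (hS : ∀ e ∈ S, ¬ e.IsDiag)
    (h : rk (gx r) S = S.card) (A : Finset ℕ) :
    Free (fun i j : A => i = j ∨ s((i : ℕ), (j : ℕ)) ∈ S)
      (Matrix.of (fun (i : A) (k : Fin r) => gx r (i : ℕ) k)) :=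
  b3_gen r hr hS h (fun i : A => (i : ℕ)) Subtype.val_injective

/-- The whole graph on `Fin n` at a real algebraically independent point. -/
theorem Free_real (r : ℕ) (hr : 1 ≤ r) {n : ℕ} {G : Finset (Sym2 ℕ)} (hG : G ⊆ En n)
    (h : ¬ (genericRig r hr).Dep G) {X : Matrix (Fin n) (Fin r) ℝ} (hX : AlgInd X) :
    Free (fun i j : Fin n => i = j ∨ s((i : ℕ), (j : ℕ)) ∈ G) X := by
  have h1 : rk (gx r) G = G.card := by
    have h2 := (genericRig r hr).r_le_card G
    have h3 : ¬ (genericRig r hr).r G < G.card := h
    exact le_antisymm h2 (not_lt.1 h3)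
  have h4 := b3_gen r hr (fun e he => (mem_En.1 (hG he)).2) h1 (fun i : Fin n => (i : ℕ))
    Fin.val_injective
  exact Free_of_AlgInd (Free_XG_of_gx (fun i : Fin n => (i : ℕ)) Fin.val_injective h4) hX

end Pool.Agent.Helper55.ML
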