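import Pool.Agent.Helper55.MLA.B1
import Pool.Agent.Helper55.MLA.GRig

set_option autoImplicit false
open Finset Matrix Filter Topology

namespace Pool.Agent.Helper55.ML

/-- B4 (hint): `rk_insert_eq_dual`: a motion `Z` on `A` of the rigid graph, extended by zero outside `A`,
is annihilated by the rows of `G[A]` and the diagonal rows, hence by the rows of all pairs in `A`. Over
`FK r` for `gx`; then `InfRigid_XG_of_gx`, `InfRigid_of_AlgInd`. -/
theorem InfRigid_real (r : ℕ) (hr : 1 ≤ r) {G : Finset (Sym2 ℕ)} {A : Finset ℕ}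
    (h : (genericRig r hr).Clq (ins A G) A) {X : Matrix A (Fin r) ℝ} (hX : AlgInd X) :
    InfRigid (fun i j : A => i = j ∨ s((i : ℕ), (j : ℕ)) ∈ G) X := by
  classical
  refine InfRigid_of_AlgInd ?_ hX
  refine InfRigid_XG_of_gx (fun i : A => (i : ℕ)) Subtype.val_injective ?_
  intro Z hZ i j
  by_cases hij : i = j
  · exact hZ i j (Or.inl hij)
  have hz : ∀ i j : A, (i = j ∨ s((i : ℕ), (j : ℕ)) ∈ G) →
      ∑ k, (gx r (i : ℕ) k * Z j k + Z i k * gx r (j : ℕ) k) = 0 := fun i j hp => hZ i j hp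
  set y : ℕ → Fin r → FK r := fun a k => if ha : a ∈ A then Z ⟨a, ha⟩ k else 0 with hy
  have hyA : ∀ (a : A) (k : Fin r), y (a : ℕ) k = Z a k := by
    intro a k
    rw [hy]
    simp only [a.2, dif_pos]
  have h1 : ∀ a b, s(a, b) ∈ ins A G → ∑ k, (gx r a k * y b k + y a k * gx r b k) = 0 := by
    intro a b hab
    rw [mem_ins] at hab
    have ha : a ∈ A := hab.2 a (Sym2.mem_mk_left a b)
    have hb : b ∈ A := hab.2 b (Sym2.mem_mk_right a b)
    have h2 := hz ⟨a, ha⟩ ⟨b, hb⟩ (Or.inr hab.1)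
    rw [← h2]
    refine Finset.sum_congr rfl fun k _ => ?_
    rw [← hyA ⟨a, ha⟩ k, ← hyA ⟨b, hb⟩ k]
  have h2 : ∀ a, ∑ k, gx r a k * y a k = 0 := by
    intro a
    by_cases ha : a ∈ A
    · have h3 := hz ⟨a, ha⟩ ⟨a, ha⟩ (Or.inl rfl)
      have h4 : (2 : FK r) * ∑ k, gx r a k * y a k = 0 := by
        rw [← h3, Finset.mul_sum]
        refine Finset.sum_congr rfl fun k _ => ?_
        rw [← hyA ⟨a, ha⟩ k]
        ring
      rcases mul_eq_zero.1 h4 with h5 | h5
      · exact absurd h5 two_ne_zero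
      · exact h5
    · refine Finset.sum_eq_zero fun k _ => ?_
      have : y a k = 0 := by
        rw [hy]
        simp only [ha, dif_neg, not_false_iff]
      rw [this, mul_zero]
  have h3 : rk (gx r) (insert s((i : ℕ), (j : ℕ)) (ins A G)) = rk (gx r) (ins A G) :=
    h i i.2 j j.2 (fun he => hij (Subtype.ext he))
  have h4 := rk_insert_eq_dual (gx r) h3 h1 h2
  change ∑ k, (gx r (i : ℕ) k * Z j k + Z i k * gx r (j : ℕ) k) = 0
  rw [← h4]
  refine Finset.sum_congr rfl fun k _ => ?_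
  rw [← hyA i k, ← hyA j k]

end Pool.Agent.Helper55.ML
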