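import Pool.Agent.Helper55.MLA.B3
import Pool.Agent.Helper55.ML.M4

set_option autoImplicit false
open Finset Matrix Filter Topology

namespace Pool.Agent.Helper55.ML

/-- an independent subset of every size up to the rank -/
theorem b5_indep {d t : ℕ} (R : Rig d t) (T : Finset (Sym2 ℕ)) :
    ∀ m ≤ R.r T, ∃ S ⊆ T, S.card = m ∧ R.r S = S.card := by
  induction T using Finset.induction_on with
  | empty =>
    intro m hm
    rw [R.r_empty] at hm
    refine ⟨∅, Subset.refl _, ?_, ?_⟩
    · rw [card_empty]; omega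
    · rw [R.r_empty, card_empty]
  | insert e T he ih =>
    intro m hm
    by_cases hcl : R.Cl T e
    · rw [Rig.Cl_def] at hcl
      rw [hcl] at hm
      obtain ⟨S, hS, h1, h2⟩ := ih m hm
      exact ⟨S, hS.trans (subset_insert _ _), h1, h2⟩
    · have h3 := (R.not_Cl_iff).1 hcl
      rcases Nat.lt_or_ge (R.r T) m with h4 | h4
      · obtain ⟨S, hS, h1, h2⟩ := ih (R.r T) le_rfl
        have h5 : ¬ R.Cl S e := fun h => hcl (R.Cl_mono hS h)
        have h6 := (R.not_Cl_iff).1 h5
        have h7 : e ∉ S := fun h => he (hS h)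
        refine ⟨insert e S, insert_subset_insert _ hS, ?_, ?_⟩
        · rw [card_insert_of_notMem h7]; omega
        · rw [card_insert_of_notMem h7, h6, h2]
      · obtain ⟨S, hS, h1, h2⟩ := ih m h4
        exact ⟨S, hS.trans (subset_insert _ _), h1, h2⟩

/-- B5 (hint): let `B = A.erase v`, a clique of the closure of `ins B G`, `r ≤ |B|`. By `r_Kp` and
`r_ge_of_Clq` the rank of `ins B G` is at least `(r-1)|B| - r(r-1)/2`; choose an independent subset `S` of
`ins B G` of exactly this size; `Q` = the pairs of `A` (as `Sym2 A`) lying over `S` together with the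
diagonal pairs of `B`. `Free_gx_of_indep` for the vertex set `A` (the vertex `v` occurs in no pair of
`Q`; a stress supported on `Q` is one supported on `S` and the diagonal), `Free_XG_of_gx`. -/
theorem exists_Q (r : ℕ) (hr : 2 ≤ r) {n : ℕ} {G : Finset (Sym2 ℕ)} (hG : G ⊆ En n)
    {A : Finset ℕ} (hA : A ⊆ range n) (v : A) (hcard : r + 1 ≤ A.card)
    (h : (genericRig r (by omega)).Clq (ins (A.erase (v : ℕ)) G) (A.erase (v : ℕ))) :
    ∃ Q : Finset (Sym2 A), (∀ e ∈ Q, v ∉ e) ∧
      (∀ i j : A, s(i, j) ∈ Q → i = j ∨ s((i : ℕ), (j : ℕ)) ∈ G) ∧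
      Q.card + r * (r - 1) / 2 = r * (Fintype.card A - 1) ∧
      Free (fun i j => s(i, j) ∈ Q) (XG A r) := by
  classical
  have hr1 : 1 ≤ r := by omega
  set B := A.erase (v : ℕ) with hB
  have hBc : B.card = A.card - 1 := card_erase_of_mem v.2
  set R := genericRig r hr1 with hR
  have h1 := R.r_Kp (C := B) (by omega)
  have h2 := R.r_ge_of_Clq h
  obtain ⟨S, hS, hSc, hSr⟩ := b5_indep R (ins B G) (R.r (Kp B)) h2
  have hSd : ∀ e ∈ S, ¬ e.IsDiag := fun e he => (mem_En.1 (hG (mem_ins.1 (hS he)).1)).2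
  have hfree := Free_gx_of_indep r hr1 hSd (by exact hSr) A
  have hinj : Function.Injective (Sym2.map (fun i : A => (i : ℕ))) :=
    Sym2.map.injective Subtype.val_injective
  set Q1 : Finset (Sym2 A) := univ.filter fun e => Sym2.map (fun i : A => (i : ℕ)) e ∈ S with hQ1
  set Q2 : Finset (Sym2 A) := (univ.erase v).image fun i => s(i, i) with hQ2
  have hQ1c : Q1.card = S.card := by
    have h3 : Q1.image (Sym2.map (fun i : A => (i : ℕ))) = S := by
      ext e
      rw [mem_image]
      constructor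
      · rintro ⟨e', he', rfl⟩
        exact (mem_filter.1 he').2
      · intro he
        have h4 := (mem_ins.1 (hS he)).2
        induction e using Sym2.ind with
        | _ a b =>
          have ha := mem_of_mem_erase (h4 a (Sym2.mem_mk_left a b))
          have hb := mem_of_mem_erase (h4 b (Sym2.mem_mk_right a b))
          refine ⟨s(⟨a, ha⟩, ⟨b, hb⟩), mem_filter.2 ⟨mem_univ _, ?_⟩, ?_⟩
          · exact he
          · rfl
    rw [← h3, card_image_of_injective _ hinj]
  have hQ2c : Q2.card = A.card - 1 := by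
    rw [hQ2, card_image_of_injective, card_erase_of_mem (mem_univ v), card_univ,
      Fintype.card_coe]
    intro i j hij
    rcases Sym2.eq_iff.1 hij with ⟨h3, _⟩ | ⟨h3, _⟩ <;> exact h3
  have hdisj : Disjoint Q1 Q2 := by
    rw [disjoint_left]
    intro e he1 he2
    obtain ⟨i, _, rfl⟩ := mem_image.1 he2
    have h3 := (mem_filter.1 he1).2
    exact hSd _ h3 (by rw [Sym2.map_mk]; exact Sym2.mk_isDiag_iff.2 rfl)
  refine ⟨Q1 ∪ Q2, ?_, ?_, ?_, ?_⟩
  · intro e he hve
    rcases mem_union.1 he with h3 | h3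
    · have h4 := (mem_filter.1 h3).2
      have h5 := (mem_ins.1 (hS h4)).2 (v : ℕ) (Sym2.mem_map.2 ⟨v, hve, rfl⟩)
      exact (mem_erase.1 h5).1 rfl
    · obtain ⟨i, hi, rfl⟩ := mem_image.1 h3
      have h4 := (mem_erase.1 hi).1
      rcases Sym2.mem_iff.1 hve with h5 | h5 <;> exact h4 h5.symm
  · intro i j hij
    rcases mem_union.1 hij with h3 | h3
    · right
      have h4 := (mem_filter.1 h3).2
      exact (mem_ins.1 (hS h4)).1
    · left
      obtain ⟨k, _, hk⟩ := mem_image.1 h3
      rcases Sym2.eq_iff.1 hk with ⟨h5, h6⟩ | ⟨h5, h6⟩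
      · exact h5.symm.trans h6
      · exact h6.symm.trans h5
  · rw [card_union_of_disjoint hdisj, hQ1c, hQ2c, hSc, Fintype.card_coe]
    have h3 : r - 1 + 1 = r := by omega
    rw [h3, hBc, mul_comm (r - 1) r] at h1
    have h4 : r * (A.card - 1) = (r - 1) * (A.card - 1) + (A.card - 1) := by
      conv_lhs => rw [← h3]
      ring
    rw [h4]
    omega
  · refine Free_XG_of_gx (fun i : A => (i : ℕ)) Subtype.val_injective ?_
    intro K hK
    refine hfree K ⟨⟨hK.1.1, fun i j hij => hK.1.2 i j fun h3 => hij ?_⟩, hK.2⟩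
    rcases mem_union.1 h3 with h3 | h3
    · right
      exact (mem_filter.1 h3).2
    · left
      obtain ⟨k, _, hk⟩ := mem_image.1 h3
      rcases Sym2.eq_iff.1 hk with ⟨h5, h6⟩ | ⟨h5, h6⟩
      · exact h5.symm.trans h6
      · exact h6.symm.trans h5

end Pool.Agent.Helper55.ML
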