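import Pool.Agent.Helper55.MLA.GRig
import Pool.Agent.Helper55.ML.M4

set_option autoImplicit false
open Finset Matrix Filter Topology

namespace Pool.Agent.Helper55.ML

/-- building a clique on a second vertex set across one bridge -/
theorem b6_bridge {d t : ℕ} (R : Rig d t) (hd : 1 ≤ d) {A : Finset ℕ} {a b : ℕ}
    (ha : a ∈ A) (hb : b ∉ A) (B : Finset ℕ) (hbB : b ∉ B) (hAB : Disjoint A B) :
    R.r (insert s(a, b) (Kp A ∪ Kp (insert b B))) = R.r (Kp A) + R.r (Kp (insert b B)) + 1 := by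
  induction B using Finset.induction_on with
  | empty =>
    have h0 : Kp (insert b (∅ : Finset ℕ)) = ∅ := by
      ext e
      induction e using Sym2.ind with
      | _ x y =>
        rw [mk_mem_Kp]
        simp only [insert_empty_eq, mem_singleton, notMem_empty, iff_false]
        rintro ⟨rfl, rfl, h⟩
        exact h rfl
    have h1 : insert s(a, b) (Kp A ∪ ∅) = Kp A ∪ star b {a} := by
      rw [union_empty]
      unfold star
      rw [image_singleton, insert_eq, union_comm, Sym2.eq_swap]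
    rw [h0, h1, R.r_empty, R.zero_ext (Kp A) b {a} (m4_not_mem_Kp hb)
      (fun h => hb (by rw [mem_singleton.1 h]; exact ha)) (by rw [card_singleton]; exact hd),
      card_singleton]
  | insert v B hv ih =>
    rw [mem_insert, not_or] at hbB
    rw [disjoint_insert_right] at hAB
    have ih' := ih hbB.2 hAB.2
    set C := insert b B with hC
    have hvC : v ∉ C := by
      rw [hC, mem_insert, not_or]
      exact ⟨fun h => hbB.1 h.symm, hv⟩
    have e1 : insert b (insert v B) = insert v C := by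
      rw [hC, insert_comm]
    set X := insert s(a, b) (Kp A ∪ Kp C) with hX
    have e2 : insert s(a, b) (Kp A ∪ Kp (insert v C)) = X ∪ star v C := by
      rw [hX, m4_Kp_insert hvC, insert_union, union_assoc]
    have h3 : ∀ e ∈ X, v ∉ e := by
      intro e he
      rcases mem_insert.1 he with rfl | he
      · intro h
        rcases Sym2.mem_iff.1 h with h | h
        · exact hAB.1 (h ▸ ha)
        · exact hbB.1 h.symm
      · rcases mem_union.1 he with h | h
        · exact m4_not_mem_Kp hAB.1 e h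
        · exact m4_not_mem_Kp hvC e h
    have h4 : R.Clq X C := R.Clq_mono (subset_union_right.trans (subset_insert _ _)) (m4_Clq_Kp R C)
    rw [e1, e2]
    rcases Nat.lt_or_ge C.card d with h5 | h5
    · rw [R.zero_ext X v C h3 hvC h5.le, m4_step_small R hvC h5.le, ih']
      omega
    · rw [R.r_star h3 hvC h4 h5, m4_step_big R hvC h5, ih']
      omega

/-- B6 (connectivity; hint). Abstractly: if `A` is a clique of the closure of `S`, `A` is the disjoint
union of nonempty `A₁`, `A₂` and every pair of `S` lies in `A₁` or in `A₂`, then `d = 0`. Ranks: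
`r(S) ≤ r(Kp A₁ ∪ Kp A₂) = r(Kp A₁) + r(Kp A₂)` (`r_disjoint_clique`), while `r(Kp A) ≤ r(S)`; and
`r(Kp A) ≥ r(Kp A₁) + r(Kp A₂) + 1`, because with `a ∈ A₁`, `b ∈ A₂` the pair `s(a,b)` is not in the closure of
`Kp A₁ ∪ Kp A₂` (build `Kp A₂` vertex by vertex starting from `b` on top of `Kp A₁ ∪ {s(a,b)}`:
with `j` earlier vertices of `A₂` a new vertex of `A₂` adds `min(j,d)` to the rank in both cases). Or use
`exists_circuit_through` (M2) and `separation`. -/
theorem Rig.no_cut {d t : ℕ} (R : Rig d t) (hd : 1 ≤ d) {S : Finset (Sym2 ℕ)}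
    (hS0 : ∀ e ∈ S, ¬ e.IsDiag) {A₁ A₂ : Finset ℕ}
    (h1 : A₁.Nonempty) (h2 : A₂.Nonempty) (hdis : Disjoint A₁ A₂)
    (hS : ∀ e ∈ S, e.toFinset ⊆ A₁ ∨ e.toFinset ⊆ A₂) : ¬ R.Clq S (A₁ ∪ A₂) := by
  intro hC
  obtain ⟨a, ha⟩ := h1
  obtain ⟨b, hb⟩ := h2
  have hbA : b ∉ A₁ := fun h => Finset.disjoint_left.1 hdis h hb
  have hab : a ≠ b := fun h => hbA (h ▸ ha)
  have h3 : R.Cl S s(a, b) := hC a (mem_union_left _ ha) b (mem_union_right _ hb) hab
  have h4 : S ⊆ Kp A₁ ∪ Kp A₂ := by
    intro e he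
    rcases hS e he with h | h
    · exact mem_union_left _ (mem_Kp.2 ⟨fun x hx => h (Sym2.mem_toFinset.2 hx), hS0 e he⟩)
    · exact mem_union_right _ (mem_Kp.2 ⟨fun x hx => h (Sym2.mem_toFinset.2 hx), hS0 e he⟩)
  have h5 : R.r (insert s(a, b) (Kp A₁ ∪ Kp A₂)) = R.r (Kp A₁ ∪ Kp A₂) := R.Cl_mono h4 h3
  have h6 : R.r (Kp A₁ ∪ Kp A₂) = R.r (Kp A₁) + R.r (Kp A₂) := by
    refine R.r_disjoint_clique fun e he x hx hxe => ?_
    exact Finset.disjoint_left.1 hdis hx ((mem_Kp.1 he).1 x hxe)
  have h7 := b6_bridge R hd ha hbA (A₂.erase b) (notMem_erase b A₂)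
    (disjoint_of_subset_right (erase_subset _ _) hdis)
  rw [insert_erase hb] at h7
  omega

end Pool.Agent.Helper55.ML
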