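import Pool.Agent.Helper55.MLA.B4
import Pool.Agent.Helper55.MLA.B5
import Pool.Agent.Helper55.MLA.B6
import Pool.Agent.Helper55.ML.M3

set_option autoImplicit false
open Finset Matrix Filter Topology

namespace Pool.Agent.Helper55.ML

private theorem b7_star_card (v : ℕ) (N : Finset ℕ) : (star v N).card = N.card := by
  unfold star
  refine Finset.card_image_of_injective _ (fun a b hab => ?_)
  have h : a = b ∨ v = b ∧ a = v := by simpa using hab
  rcases h with h | ⟨h1, h2⟩
  · exact h
  · exact h2.trans h1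

/-- B7: the hypotheses `GRH` for `G[A]` from `Rig.GR`. (hint) `deg`: neighbours in `A`. `rig`:
`exists_Q`; `A` has at least `r+1` elements because a vertex has `r` neighbours. `inf`: `A` is a clique
of the closure of `ins A G` (`A.erase v` is one and `v` has `r ≥ d` neighbours: `Clq_insert`);
`InfRigid_real`. `conn`: `no_cut`. -/
theorem GRH_of_GR (r : ℕ) (hr : 2 ≤ r) {n : ℕ} {G : Finset (Sym2 ℕ)} (hG : G ⊆ En n)
    (h : (genericRig r (by omega)).GR n G) :
    ∃ A : Finset ℕ, A ⊆ range n ∧ A.Nonempty ∧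
      GRH A (fun i j : A => i = j ∨ s((i : ℕ), (j : ℕ)) ∈ G) r ∧
      r * A.card + 1 ≤ (ins A G).card + A.card + r * (r - 1) / 2 := by
  obtain ⟨A, hA, hne, hdeg, hcl⟩ := h
  set R := genericRig r (by omega : 1 ≤ r) with hR
  have hloop : ∀ v : ℕ, s(v, v) ∉ G := by
    intro v hv
    exact (mk_mem_En.1 (hG hv)).2.2 rfl
  -- neighbours in `A`
  have hN : ∀ v ∈ A, r ≤ (nb n G v ∩ A).card := by
    intro v hv
    have := hdeg v hv
    omega
  have hNsub : ∀ v ∈ A, nb n G v ∩ A ⊆ A.erase v := by
    intro v hv u hu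
    rw [Finset.mem_inter, mem_nb] at hu
    refine Finset.mem_erase.2 ⟨?_, hu.2⟩
    rintro rfl
    exact hloop u hu.1.2
  have hcard : r + 1 ≤ A.card := by
    obtain ⟨v, hv⟩ := hne
    have h1 := Finset.card_le_card (hNsub v hv)
    rw [Finset.card_erase_of_mem hv] at h1
    have h2 := hN v hv
    have h3 : 0 < A.card := Finset.card_pos.2 ⟨v, hv⟩
    omega
  have hClA : R.Clq (ins A G) A := by
    obtain ⟨v, hv⟩ := hne
    have h1 : R.Clq (ins A G) (A.erase v) :=
      R.Clq_mono (ins_mono_left (Finset.erase_subset v A) G) (hcl v hv)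
    have h2 := R.Clq_insert (v := v) h1 (hNsub v hv) (by have := hN v hv; omega)
      (fun u hu _ => R.Cl_of_mem ?_)
    · rwa [Finset.insert_erase hv] at h2
    · rw [Finset.mem_inter, mem_nb] at hu
      rw [mem_ins]
      refine ⟨hu.1.2, ?_⟩
      intro x hx
      rw [Sym2.mem_iff] at hx
      rcases hx with rfl | rfl
      · exact hv
      · exact hu.2
  refine ⟨A, hA, hne, ?_, ?_⟩
  · refine ⟨fun i => Or.inl rfl, ?_, ?_, ?_, ?_, ?_⟩
    · rintro i j (rfl | h)
      · exact Or.inl rfl
      · right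
        rw [Sym2.eq_swap]
        exact h
    · intro v
      refine ⟨Finset.subtype (fun x => x ∈ A) (nb n G v ∩ A), ?_, ?_⟩
      · rw [Finset.card_subtype, Finset.filter_true_of_mem
          (fun x hx => (Finset.mem_inter.1 hx).2)]
        exact hN v v.2
      · intro u hu
        rw [Finset.mem_subtype, Finset.mem_inter, mem_nb] at hu
        refine ⟨?_, Or.inr hu.1.2⟩
        rintro rfl
        exact hloop u hu.1.2
    · intro S hS hSu
      by_contra hcon
      push Not at hcon
      classical
      set A₁ : Finset ℕ := A.filter (fun x => ∃ h : x ∈ A, (⟨x, h⟩ : A) ∈ S) with hA₁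
      set A₂ : Finset ℕ := A.filter (fun x => ¬ ∃ h : x ∈ A, (⟨x, h⟩ : A) ∈ S) with hA₂
      have hun : A₁ ∪ A₂ = A := Finset.filter_union_filter_not_eq _ A
      have hdis : Disjoint A₁ A₂ := Finset.disjoint_filter_filter_not _ _ _
      have h1 : A₁.Nonempty := by
        obtain ⟨a, ha⟩ := hS
        exact ⟨a, Finset.mem_filter.2 ⟨a.2, a.2, ha⟩⟩
      have h2 : A₂.Nonempty := by
        obtain ⟨b, hb⟩ := (Set.ne_univ_iff_exists_notMem S).1 hSu
        refine ⟨b, Finset.mem_filter.2 ⟨b.2, ?_⟩⟩
        rintro ⟨_, hb'⟩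
        exact hb hb'
      refine R.no_cut (by omega) (S := ins A G) ?_ h1 h2 hdis ?_ ?_
      · intro e he
        exact (mem_En.1 (hG (mem_ins.1 he).1)).2
      · intro e he
        induction e using Sym2.ind with
        | _ a b =>
          rw [mem_ins] at he
          have haA : a ∈ A := he.2 a (Sym2.mem_mk_left a b)
          have hbA : b ∈ A := he.2 b (Sym2.mem_mk_right a b)
          have key : ∀ x y : ℕ, ∀ hx : x ∈ A, ∀ hy : y ∈ A, s(x, y) ∈ G →
              (⟨x, hx⟩ : A) ∈ S → (⟨y, hy⟩ : A) ∈ S := by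
            intro x y hx hy hxy hxS
            by_contra hyS
            exact (hcon _ hxS _ hyS).2 hxy
          have hsub : ∀ B : Finset ℕ, a ∈ B → b ∈ B → (s(a, b)).toFinset ⊆ B := by
            intro B ha hb x hx
            rw [Sym2.mem_toFinset, Sym2.mem_iff] at hx
            rcases hx with rfl | rfl
            · exact ha
            · exact hb
          by_cases haS : (⟨a, haA⟩ : A) ∈ S
          · left
            have hbS := key a b haA hbA he.1 haS
            exact hsub _ (Finset.mem_filter.2 ⟨haA, haA, haS⟩)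
              (Finset.mem_filter.2 ⟨hbA, hbA, hbS⟩)
          · right
            have hbS : (⟨b, hbA⟩ : A) ∉ S := fun hbS =>
              haS (key b a hbA haA (by rw [Sym2.eq_swap]; exact he.1) hbS)
            exact hsub _ (Finset.mem_filter.2 ⟨haA, fun ⟨_, h⟩ => haS h⟩)
              (Finset.mem_filter.2 ⟨hbA, fun ⟨_, h⟩ => hbS h⟩)
      · rw [hun]
        exact hClA
    · intro v
      exact exists_Q r hr hG hA v hcard (hcl v v.2)
    · intro X hX
      exact InfRigid_real r (by omega) hClA hX
  · obtain ⟨v, hv⟩ := hne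
    have hcm : (A.erase v).card = A.card - 1 := Finset.card_erase_of_mem hv
    have h1 := R.r_Kp (C := A.erase v) (by omega)
    have h2 := R.r_ge_of_Clq (hcl v hv)
    have h3 := R.r_le_card (ins (A.erase v) G)
    have h4 : ins (A.erase v) G ∪ star v (nb n G v ∩ A) ⊆ ins A G := by
      refine Finset.union_subset (ins_mono_left (Finset.erase_subset v A) G) ?_
      intro e he
      obtain ⟨u, hu, rfl⟩ := mem_star.1 he
      rw [Finset.mem_inter, mem_nb] at hu
      rw [mem_ins]
      refine ⟨hu.1.2, ?_⟩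
      intro x hx
      rw [Sym2.mem_iff] at hx
      rcases hx with rfl | rfl
      · exact hv
      · exact hu.2
    have h5 : Disjoint (ins (A.erase v) G) (star v (nb n G v ∩ A)) := by
      rw [Finset.disjoint_left]
      intro e he he'
      obtain ⟨u, hu, rfl⟩ := mem_star.1 he'
      have := (mem_ins.1 he).2 v (Sym2.mem_mk_left v u)
      exact (Finset.mem_erase.1 this).1 rfl
    have h6 := Finset.card_le_card h4
    rw [Finset.card_union_of_disjoint h5, b7_star_card] at h6
    have h7 := hN v hv
    obtain ⟨d, rfl⟩ : ∃ d, r = d + 1 := ⟨r - 1, by omega⟩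
    obtain ⟨m, hm⟩ : ∃ m, A.card = m + 1 := ⟨A.card - 1, by omega⟩
    rw [hcm, hm] at h1
    simp only [Nat.add_sub_cancel] at h1
    have e1 : (d + 1) * (d + 1 - 1) = d * (d + 1) := by
      rw [Nat.add_sub_cancel, Nat.mul_comm]
    rw [e1, hm]
    have e2 : (d + 1) * (m + 1) + 1 = d * m + (d + 1) + (m + 1) := by ring
    rw [e2]
    omega

end Pool.Agent.Helper55.ML
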