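import Pool.Agent.Helper55.MLA.Defs

set_option autoImplicit false
open Finset Matrix Filter Topology

namespace Pool.Agent.Helper55.ML

/-- The zero set of a nonzero real polynomial in finitely many variables is a null set. -/
private theorem ae_eval_ne : ∀ (m : ℕ) (p : MvPolynomial (Fin m) ℝ), p ≠ 0 →
    ∀ᵐ x : Fin m → ℝ, MvPolynomial.eval x p ≠ 0 := by
  intro m
  induction m with
  | zero =>
    intro p hp
    refine Filter.Eventually.of_forall (fun x hx => hp ?_)
    rw [MvPolynomial.eq_C_of_isEmpty p] at hx ⊢
    rw [MvPolynomial.eval_C] at hx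
    rw [hx, MvPolynomial.C_0]
  | succ m ih =>
    intro p hp
    set q := MvPolynomial.finSuccEquiv ℝ m p with hq
    have hq0 : q ≠ 0 := by
      intro h
      apply hp
      rw [hq] at h
      exact (MvPolynomial.finSuccEquiv ℝ m).injective (by rw [h, map_zero])
    have hlc : q.leadingCoeff ≠ 0 := Polynomial.leadingCoeff_ne_zero.mpr hq0
    have h1 := ih _ hlc
    -- the statement on the product
    have hcont : Continuous (fun z : ℝ × (Fin m → ℝ) =>
        MvPolynomial.eval (Fin.cons z.1 z.2 : Fin (m + 1) → ℝ) p) := by
      apply (MvPolynomial.continuous_eval p).comp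
      refine continuous_pi (fun i => ?_)
      refine Fin.cases ?_ (fun j => ?_) i
      · simpa using continuous_fst
      · simp only [Fin.cons_succ]
        exact (continuous_apply j).comp continuous_snd
    have hmeas : MeasurableSet {z : ℝ × (Fin m → ℝ) |
        MvPolynomial.eval (Fin.cons z.1 z.2 : Fin (m + 1) → ℝ) p ≠ 0} :=
      (isOpen_ne.preimage hcont).measurableSet
    have h2 : ∀ᵐ z : ℝ × (Fin m → ℝ),
        MvPolynomial.eval (Fin.cons z.1 z.2 : Fin (m + 1) → ℝ) p ≠ 0 := by
      change ∀ᵐ z ∂((MeasureTheory.volume : MeasureTheory.Measure ℝ).prod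
        (MeasureTheory.volume : MeasureTheory.Measure (Fin m → ℝ))), _
      rw [MeasureTheory.Measure.ae_prod_iff_ae_ae hmeas, MeasureTheory.Measure.ae_ae_comm hmeas]
      filter_upwards [h1] with y hy
      have hne : Polynomial.map (MvPolynomial.eval y) q ≠ 0 := by
        intro h
        apply hy
        have h3 := congrArg (fun s => Polynomial.coeff s q.natDegree) h
        simpa [Polynomial.coeff_map] using h3
      have hfin : (Polynomial.map (MvPolynomial.eval y) q).rootSet ℝ |>.Finite :=
        Polynomial.rootSet_finite _ _
      have hnull : MeasureTheory.volume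
          (((Polynomial.map (MvPolynomial.eval y) q).rootSet ℝ : Set ℝ)) = 0 :=
        hfin.measure_zero _
      rw [MeasureTheory.ae_iff]
      refine MeasureTheory.measure_mono_null ?_ hnull
      intro t ht
      simp only [ne_eq, not_not] at ht
      replace ht : MvPolynomial.eval (Fin.cons t y : Fin (m + 1) → ℝ) p = 0 := ht
      rw [MvPolynomial.eval_eq_eval_mv_eval'] at ht
      rw [Polynomial.mem_rootSet]
      refine ⟨hne, ?_⟩
      simpa [Polynomial.aeval_def, Polynomial.eval₂_eq_eval_map] using ht
    have h3 := MeasureTheory.volume_preserving_piFinSuccAbove (fun _ : Fin (m + 1) => ℝ) 0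
    have h4 := h3.quasiMeasurePreserving.ae h2
    filter_upwards [h4] with x hx
    have h5 : (Fin.cons ((MeasurableEquiv.piFinSuccAbove (fun _ : Fin (m + 1) => ℝ) 0) x).1
        ((MeasurableEquiv.piFinSuccAbove (fun _ : Fin (m + 1) => ℝ) 0) x).2 :
        Fin (m + 1) → ℝ) = x := by
      funext i
      refine Fin.cases ?_ (fun j => ?_) i
      · simp [MeasurableEquiv.piFinSuccAbove]
      · simp only [Fin.cons_succ]
        rfl
    rw [h5] at hx
    exact hx

/-- Almost every point of a finite dimensional coordinate space has algebraically independent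
coordinates. -/
private theorem ae_algInd_fin (m : ℕ) :
    ∀ᵐ x : Fin m → ℝ, AlgebraicIndependent ℚ x := by
  have hc : Countable (MvPolynomial (Fin m) ℚ) := by
    exact (AddMonoidAlgebra.coeffEquiv (R := ℚ) (M := Fin m →₀ ℕ)).injective.countable
  have h1 : ∀ᵐ x : Fin m → ℝ, ∀ p : MvPolynomial (Fin m) ℚ, p ≠ 0 →
      MvPolynomial.aeval x p ≠ 0 := by
    rw [MeasureTheory.ae_all_iff]
    intro p
    by_cases hp : p = 0
    · exact Filter.Eventually.of_forall (fun x h => absurd hp h)
    · have hp' : MvPolynomial.map (algebraMap ℚ ℝ) p ≠ 0 := by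
        intro h
        apply hp
        exact MvPolynomial.map_injective _ (algebraMap ℚ ℝ).injective (by rw [h, map_zero])
      filter_upwards [ae_eval_ne m _ hp'] with x hx _ h0
      apply hx
      rw [MvPolynomial.eval_map]
      rw [MvPolynomial.aeval_def] at h0
      exact h0
  filter_upwards [h1] with x hx
  rw [algebraicIndependent_iff]
  intro p hp
  by_contra h
  exact hx p h hp

/-- B8 (hint): for a nonzero real polynomial the zero set has measure zero (induction on the number of
variables and Fubini, or any proof already in the pool or Mathlib, e.g. for analytic functions); countably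
many nonzero polynomials with rational coefficients. First the index type `Fin m`, then transport by
the measure preserving reindexing (`MeasureTheory.volume_preserving_piCongrLeft` and currying
`MeasureTheory.volume_preserving_piCurry`-like). -/
theorem ae_algInd (r n : ℕ) : ∀ᵐ X : Fin r → Fin n → ℝ,
    AlgebraicIndependent ℚ (fun q : Fin n × Fin r => X q.2 q.1) := by
  classical
  set e := Fintype.equivFin (Fin n × Fin r) with he
  let L : (Fin r → Fin n → ℝ) ≃ₗ[ℝ] (Fin (Fintype.card (Fin n × Fin r)) → ℝ) :=
    { toFun := fun X i => X (e.symm i).2 (e.symm i).1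
      invFun := fun x a b => x (e (b, a))
      map_add' := fun X Y => rfl
      map_smul' := fun c X => rfl
      left_inv := fun X => by
        funext a b
        simp
      right_inv := fun x => by
        funext i
        simp }
  let L' := L.toContinuousLinearEquiv
  have hm : Measurable L' := L'.continuous.measurable
  have : (MeasureTheory.Measure.map L'
      (MeasureTheory.volume : MeasureTheory.Measure (Fin r → Fin n → ℝ))).IsAddHaarMeasure :=
    L'.isAddHaarMeasure_map _
  have hac : (MeasureTheory.Measure.map L'
      (MeasureTheory.volume : MeasureTheory.Measure (Fin r → Fin n → ℝ))).AbsolutelyContinuous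
      MeasureTheory.volume := MeasureTheory.Measure.absolutelyContinuous_isAddHaarMeasure _ _
  have h1 := hac.ae_le (ae_algInd_fin (Fintype.card (Fin n × Fin r)))
  have h2 := MeasureTheory.ae_of_ae_map hm.aemeasurable h1
  filter_upwards [h2] with X hX
  have h3 := hX.comp e e.injective
  have h4 : (L' X) ∘ e = (fun q : Fin n × Fin r => X q.2 q.1) := by
    funext q
    change X (e.symm (e q)).2 (e.symm (e q)).1 = X q.2 q.1
    rw [Equiv.symm_apply_apply]
  rw [h4] at h3
  exact h3

/-- Existence of algebraically independent real families (finite index). -/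
theorem exists_algInd (ι : Type) [Fintype ι] : ∃ x : ι → ℝ, AlgebraicIndependent ℚ x := by
  classical
  obtain ⟨x, hx⟩ := (ae_algInd_fin (Fintype.card ι)).exists
  exact ⟨x ∘ Fintype.equivFin ι, hx.comp _ (Fintype.equivFin ι).injective⟩

end Pool.Agent.Helper55.ML
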