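import Pool.Agent.Helper55.MLA.Mono

/-!
# With high probability the two sets of dimensions agree
-/

set_option autoImplicit false
open Finset Filter Topology

namespace Pool.Agent.Helper55.ML

theorem sets_eq_of_iff {n : ℕ} {P : Fin n → Fin n → Prop} {R : ℕ} (hA : R ∈ Aset n P)
    (hB : R ∈ Bset n P) (h : ∀ r < R, (r ∈ Aset n P ↔ r ∈ Bset n P)) (d : ℕ) :
    d ∈ Aset n P ↔ d ∈ Bset n P := by
  rcases Nat.lt_or_ge d R with h1 | h1
  · exact h d h1
  · exact ⟨fun _ => Bset_le hB h1, fun _ => Aset_le hA h1⟩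

/-- Deterministic conclusion. -/
theorem all_iff_of_good {n : ℕ} (hn : 0 < n) {G : Finset (Sym2 ℕ)} (hG : G ⊆ En n) {R : ℕ}
    (hR : 2 ≤ R) (hdep : ¬ (genericRig R (by omega)).Dep G)
    (h : ∀ (r : ℕ) (h3 : 3 ≤ r), r < R → (genericRig r (by omega)).Dep G →
      (genericRig r (by omega)).GR n G) :
    ∀ d, d ∈ Aset n (PG n G) ↔ d ∈ Bset n (PG n G) := by
  have hRm := mem_sets_of_indep R (by omega) hG hdep
  refine sets_eq_of_iff hRm.1 hRm.2 (fun r hr => ?_)
  have key : ∀ hr1 : 1 ≤ r, ((genericRig r hr1).Dep G → r ∉ Aset n (PG n G) ∧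
      r ∉ Bset n (PG n G)) → (r ∈ Aset n (PG n G) ↔ r ∈ Bset n (PG n G)) := by
    intro hr1 h1
    by_cases hd : (genericRig r hr1).Dep G
    · exact ⟨fun h' => absurd h' (h1 hd).1, fun h' => absurd h' (h1 hd).2⟩
    · exact ⟨fun _ => (mem_sets_of_indep r hr1 hG hd).2,
        fun _ => (mem_sets_of_indep r hr1 hG hd).1⟩
  rcases Nat.lt_or_ge r 1 with h0 | h1
  · have : r = 0 := by omega
    subst this
    exact ⟨fun h' => absurd h' (zero_not_mem_Aset hn PG_refl),
      fun h' => absurd h' (zero_not_mem_Bset hn PG_refl)⟩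
  rcases Nat.lt_or_ge r 2 with h2 | h2
  · have : r = 1 := by omega
    subst this
    refine key le_rfl (fun hd => ?_)
    have hne : G.Nonempty := by
      by_contra hemp
      rw [Finset.not_nonempty_iff_eq_empty] at hemp
      subst hemp
      exact absurd hd (by unfold Rig.Dep; simp)
    obtain ⟨e, he⟩ := hne
    induction e with
    | h a b =>
      have hab := mk_mem_En.1 (hG he)
      have main : ∀ a b : ℕ, s(a, b) ∈ G → a < b → b < n →
          1 ∉ Aset n (PG n G) ∧ 1 ∉ Bset n (PG n G) := by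
        intro a b h1 h2 h3
        have hab' : (⟨a, lt_trans h2 h3⟩ : Fin n) < ⟨b, h3⟩ := h2
        exact ⟨one_not_mem_Aset PG_refl (ne_of_lt hab') (Or.inr h1),
          one_not_mem_Bset PG_refl hab' (Or.inr h1)⟩
      rcases lt_or_gt_of_ne hab.2.2 with h3 | h3
      · exact main a b he h3 hab.2.1
      · exact main b a (by rw [Sym2.eq_swap]; exact he) h3 hab.1
  rcases Nat.lt_or_ge r 3 with h3 | h3
  · have : r = 2 := by omega
    subst this
    exact key h1 (fun hd => not_mem_sets_of_GR 2 le_rfl hG (Rig.main_one (genericRig 2 h1) hG hd))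
  · exact key h1 (fun hd => not_mem_sets_of_GR r h2 hG (h r h3 hr hd))

theorem Neg_bad_all {c : ℝ} (hc : 0 < c) :
    ∃ D : ℕ, Neg c (fun n G => ¬ (D ∈ Aset n (PG n G) ∧ D ∈ Bset n (PG n G) ∧
      ∀ d, d ∈ Aset n (PG n G) ↔ d ∈ Bset n (PG n G))) := by
  obtain ⟨R0, hR0⟩ := Neg_Dep_large hc
  set R := max R0 2 + 1 with hR
  have hR2 : 2 ≤ R := by
    have := le_max_right R0 2
    omega
  have hd : Neg c (fun _ G => (genericRig R (by omega)).Dep G) := by
    refine hR0 (R - 1) ?_ _ _
    have := le_max_left R0 2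
    omega
  have hN : ∀ m : ℕ, Neg c (fun n G => ∃ (r : ℕ) (h3 : 3 ≤ r), r < m ∧
      (genericRig r (by omega)).Dep G ∧ ¬ (genericRig r (by omega)).GR n G) := by
    intro m
    induction m with
    | zero =>
      refine Neg_mono hc hd ?_
      exact Eventually.of_forall (fun n G _ h => by
        obtain ⟨r, _, h1, _⟩ := h
        omega)
    | succ m ih =>
      rcases Nat.lt_or_ge m 3 with h3 | h3
      · refine Neg_mono hc ih ?_
        exact Eventually.of_forall (fun n G _ h => by
          obtain ⟨r, h1, h2, _⟩ := h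
          omega)
      · have h4 : Neg c (fun n G => (genericRig m (by omega)).Dep G ∧
            ¬ (genericRig m (by omega)).GR n G) := by
          refine main_random (genericRig m (by omega)) (by omega) ?_ hc
          have : 3 * (3 + 1) ≤ m * (m + 1) := Nat.mul_le_mul h3 (by omega)
          omega
        refine Neg_mono hc (Neg_or hc ih h4) ?_
        exact Eventually.of_forall (fun n G _ h => by
          obtain ⟨r, h1, h2, h5⟩ := h
          rcases Nat.lt_or_ge r m with h6 | h6
          · exact Or.inl ⟨r, h1, h6, h5⟩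
          · have : r = m := by omega
            subst this
            exact Or.inr h5)
  refine ⟨R, Neg_mono hc (Neg_or hc hd (hN R)) ?_⟩
  filter_upwards [eventually_gt_atTop 0] with n hn G hG hbad
  by_contra hcon
  obtain ⟨c1, c2⟩ := not_or.1 hcon
  have hRm := mem_sets_of_indep R (by omega) hG c1
  refine hbad ⟨hRm.1, hRm.2, all_iff_of_good hn hG hR2 c1 (fun r h3 hr hdr => ?_)⟩
  by_contra hGR
  exact c2 ⟨r, h3, hr, hdr, hGR⟩

open Classical in
theorem companion {c : ℝ} (hc : 0 < c) :
    ∃ D : ℕ, Tendsto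
        (fun n : ℕ =>
          ∑ S : Finset (Sym2 (Fin n)),
            if (∀ e ∈ S, ¬ e.IsDiag) ∧
                D ∈ {d : ℕ | ∀ᵐ X : Fin d → Fin n → ℝ,
                    ∃ K : Matrix (Fin n) (Fin n) ℝ, K.PosDef ∧
                      ∀ i j : Fin n,
                        (i = j ∨ (SimpleGraph.fromEdgeSet (↑S : Set (Sym2 (Fin n)))).Adj i j) →
                        K i j = ∑ k, X k i * X k j} ∧
                {d : ℕ | ∀ᵐ X : Fin d → Fin n → ℝ,
                    ∃ K : Matrix (Fin n) (Fin n) ℝ, K.PosDef ∧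
                      ∀ i j : Fin n,
                        (i = j ∨ (SimpleGraph.fromEdgeSet (↑S : Set (Sym2 (Fin n)))).Adj i j) →
                        K i j = ∑ k, X k i * X k j}
                = {r : ℕ | (interior (Set.range
                    (fun Y : Fin n → Fin r → ℝ =>
                      fun q : {q : Fin n × Fin n // q.1 ≤ q.2 ∧
                          (q.1 = q.2 ∨
                            (SimpleGraph.fromEdgeSet (↑S : Set (Sym2 (Fin n)))).Adj q.1 q.2)} =>
                        ∑ k, Y q.1.1 k * Y q.1.2 k))).Nonempty}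
            then (c / (n : ℝ)) ^ S.card * (1 - c / (n : ℝ)) ^ (n.choose 2 - S.card)
            else 0)
        atTop (𝓝 1) := by
  obtain ⟨D, hD⟩ := Neg_bad_all hc
  refine ⟨D, ?_⟩
  have hPr : Tendsto (fun n : ℕ => Pr n (c / n) (fun G => D ∈ Aset n (PG n G) ∧
      Aset n (PG n G) = Bset n (PG n G))) atTop (𝓝 1) := by
    have h2 : Tendsto (fun n : ℕ => 1 - Pr n (c / n)
        (fun G => ¬ (D ∈ Aset n (PG n G) ∧ D ∈ Bset n (PG n G) ∧
      ∀ d, d ∈ Aset n (PG n G) ↔ d ∈ Bset n (PG n G)))) atTop (𝓝 (1 - 0)) :=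
      tendsto_const_nhds.sub hD
    rw [sub_zero] at h2
    refine h2.congr (fun n => ?_)
    rw [← Pr_compl]
    congr 1
    funext G
    apply propext
    rw [not_not]
    constructor
    · rintro ⟨h3, _, h5⟩
      exact ⟨h3, Set.ext h5⟩
    · rintro ⟨h3, h4⟩
      exact ⟨h3, h4 ▸ h3, fun d => by rw [h4]⟩
  refine hPr.congr (fun n => ?_)
  set P' : Finset (Sym2 (Fin n)) → Fin n → Fin n → Prop := fun S i j =>
    i = j ∨ (SimpleGraph.fromEdgeSet (↑S : Set (Sym2 (Fin n)))).Adj i j with hP'
  have h := sum_eq_Pr n (c / n) (fun S => D ∈ Aset n (P' S) ∧ Aset n (P' S) = Bset n (P' S))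
    (fun G => D ∈ Aset n (PG n G) ∧ Aset n (PG n G) = Bset n (PG n G)) (by
      intro S hS
      have hPP : P' S = PG n (S.image (Sym2.map (Fin.val : Fin n → ℕ))) := by
        funext i j
        apply propext
        simp only [hP', PG, SimpleGraph.fromEdgeSet_adj, Finset.mem_image, Finset.mem_coe]
        constructor
        · rintro (h | h)
          · exact Or.inl h
          · exact Or.inr ⟨s(i, j), h.1, by simp⟩
        · rintro (h | ⟨e, he, h⟩)
          · exact Or.inl h
          · by_cases hij : i = j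
            · exact Or.inl hij
            · right
              refine ⟨?_, hij⟩
              have h2 : Sym2.map (Fin.val : Fin n → ℕ) e =
                  Sym2.map (Fin.val : Fin n → ℕ) s(i, j) := by rw [h]; simp
              have h3 := Sym2.map.injective (Fin.val_injective) h2
              rw [← h3]; exact he
      rw [hPP])
  rw [← h]
  refine Finset.sum_congr rfl (fun S _ => ?_)
  by_cases hS : (∀ e ∈ S, ¬ e.IsDiag) ∧ D ∈ Aset n (P' S) ∧ Aset n (P' S) = Bset n (P' S)
  · exact (if_pos hS).trans (if_pos hS).symm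
  · exact (if_neg hS).trans (if_neg hS).symm

end Pool.Agent.Helper55.ML
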