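import Pool.Agent.Helper55.MLA.G3

set_option autoImplicit false
open Finset Matrix Filter Topology

namespace Pool.Agent.Helper55.ML

private theorem d1a_inner {r : ℕ} (x y : Fin r → ℝ) :
    inner ℝ (WithLp.toLp 2 x : EuclideanSpace ℝ (Fin r)) (WithLp.toLp 2 y) = ∑ k, x k * y k := by
  rw [EuclideanSpace.inner_eq_star_dotProduct]
  simp [dotProduct, mul_comm]

/-- D1A (triangular form; hint): rotate by the orthonormal basis obtained from `f s = Y (e s)` by
Gram-Schmidt (`gramSchmidtOrthonormalBasis`, `gramSchmidtOrthonormalBasis_inv_triangular`). -/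
theorem exists_triangular {V : Type} {r : ℕ} (Y : Matrix V (Fin r) ℝ) (e : Fin r → V) :
    ∃ Y' : Matrix V (Fin r) ℝ, (∀ i j, ∑ k, Y' i k * Y' j k = ∑ k, Y i k * Y j k) ∧
      ∀ s t : Fin r, s < t → Y' (e s) t = 0 := by
  have h : Module.finrank ℝ (EuclideanSpace ℝ (Fin r)) = Fintype.card (Fin r) := by simp
  let f : Fin r → EuclideanSpace ℝ (Fin r) := fun s => WithLp.toLp 2 (Y (e s))
  let b := InnerProductSpace.gramSchmidtOrthonormalBasis h f
  refine ⟨fun i t => inner ℝ (b t) (WithLp.toLp 2 (Y i) : EuclideanSpace ℝ (Fin r)), ?_, ?_⟩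
  · intro i j
    rw [← d1a_inner (Y i) (Y j), ← b.sum_inner_mul_inner]
    refine Finset.sum_congr rfl fun k _ => ?_
    rw [real_inner_comm]
  · intro s t hst
    exact InnerProductSpace.gramSchmidtOrthonormalBasis_inv_triangular h f hst

open scoped MatrixOrder in
private theorem d1a_star {k : ℕ} {N : Matrix (Fin k) (Fin k) ℝ} (hN : N.PosSemidef) :
    ∃ B : Matrix (Fin k) (Fin k) ℝ, N = Bᵀ * B := by
  obtain ⟨B, hB⟩ := CStarAlgebra.nonneg_iff_eq_star_mul_self.mp hN.nonneg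
  refine ⟨B, ?_⟩
  rw [hB, star_eq_conjTranspose, conjTranspose_eq_transpose_of_trivial]

/-- A positive semidefinite matrix of rank at most `m` is `T Tᵀ` with `T` of width `m`. -/
theorem exists_factor {k m : ℕ} {N : Matrix (Fin k) (Fin k) ℝ} (hN : N.PosSemidef)
    (hm : N.rank ≤ m) : ∃ T : Matrix (Fin k) (Fin m) ℝ, N = T * Tᵀ := by
  obtain ⟨B, rfl⟩ := d1a_star hN
  rw [rank_transpose_mul_self, rank_eq_finrank_span_cols] at hm
  let a : Fin k → EuclideanSpace ℝ (Fin k) := fun i => WithLp.toLp 2 (B.col i)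
  let S : Submodule ℝ (EuclideanSpace ℝ (Fin k)) := Submodule.span ℝ (Set.range a)
  have hS : Module.finrank ℝ S ≤ m := by
    have h1 : S.map (WithLp.linearEquiv 2 ℝ (Fin k → ℝ)).toLinearMap =
        Submodule.span ℝ (Set.range B.col) := by
      rw [Submodule.map_span, ← Set.range_comp]
      rfl
    have h2 := LinearEquiv.finrank_map_eq (WithLp.linearEquiv 2 ℝ (Fin k → ℝ)) S
    rw [← h2]
    refine le_of_eq_of_le ?_ hm
    exact congrArg (fun Q : Submodule ℝ (Fin k → ℝ) => Module.finrank ℝ Q) h1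
  have ha : ∀ i, a i ∈ S := fun i => Submodule.subset_span ⟨i, rfl⟩
  let b := stdOrthonormalBasis ℝ S
  refine ⟨Matrix.of fun i t => if h : (t : ℕ) < Module.finrank ℝ S then
    inner ℝ (b ⟨t, h⟩) (⟨a i, ha i⟩ : S) else 0, ?_⟩
  ext i j
  rw [Matrix.mul_apply, Matrix.mul_apply]
  simp only [Matrix.transpose_apply (M := Matrix.of _), Matrix.of_apply]
  have h1 : ∑ l, Bᵀ i l * B l j = inner ℝ (⟨a i, ha i⟩ : S) (⟨a j, ha j⟩ : S) := by
    rw [Submodule.coe_inner]
    exact (d1a_inner (B.col i) (B.col j)).symm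
  rw [h1, ← b.sum_inner_mul_inner]
  have h2 : ∀ t : Fin m, (if h : (t : ℕ) < Module.finrank ℝ S then
      inner ℝ (b ⟨t, h⟩) (⟨a i, ha i⟩ : S) else 0) *
      (if h : (t : ℕ) < Module.finrank ℝ S then
      inner ℝ (b ⟨t, h⟩) (⟨a j, ha j⟩ : S) else 0) =
      (fun t : ℕ => if h : t < Module.finrank ℝ S then
        inner ℝ (⟨a i, ha i⟩ : S) (b ⟨t, h⟩) * inner ℝ (b ⟨t, h⟩) (⟨a j, ha j⟩ : S) else 0) t := by
    intro t
    by_cases h : (t : ℕ) < Module.finrank ℝ S
    · simp only [dif_pos h]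
      rw [real_inner_comm]
    · simp only [dif_neg h, mul_zero]
  rw [Finset.sum_congr rfl fun t _ => h2 t, Fin.sum_univ_eq_sum_range
    (fun t : ℕ => if h : t < Module.finrank ℝ S then
        inner ℝ (⟨a i, ha i⟩ : S) (b ⟨t, h⟩) * inner ℝ (b ⟨t, h⟩) (⟨a j, ha j⟩ : S) else 0) m]
  have h3 : Finset.range (Module.finrank ℝ S) ⊆ Finset.range m := Finset.range_subset_range.2 hS
  rw [← Finset.sum_subset h3]
  · rw [← Fin.sum_univ_eq_sum_range (fun t : ℕ => if h : t < Module.finrank ℝ S then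
        inner ℝ (⟨a i, ha i⟩ : S) (b ⟨t, h⟩) * inner ℝ (b ⟨t, h⟩) (⟨a j, ha j⟩ : S) else 0)
        (Module.finrank ℝ S)]
    refine Finset.sum_congr rfl fun t _ => ?_
    rw [dif_pos t.2]
  · intro t _ ht
    rw [Finset.mem_range] at ht
    rw [dif_neg ht]

end Pool.Agent.Helper55.ML
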