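import Pool.Agent.Helper55.MLA.D1A

set_option autoImplicit false
open Finset Matrix Filter Topology

namespace Pool.Agent.Helper55.ML

/-- index set of the entries of the lower triangular `k × m` matrices -/
private abbrev d2aI (k m : ℕ) : Type := (j : Fin m) × Fin (k - j)

/-- the lower triangular matrix with the given entries -/
private def d2aT (k m : ℕ) (w : d2aI k m → ℝ) : Matrix (Fin k) (Fin m) ℝ :=
  Matrix.of fun i j => if h : (j : ℕ) ≤ i then w ⟨j, ⟨i - j, by have := i.2; omega⟩⟩ else 0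

private theorem d2a_card (k m : ℕ) (h : m ≤ k) :
    Fintype.card (d2aI k m) + ∑ j ∈ range m, j = m * k := by
  rw [Fintype.card_sigma]
  simp only [Fintype.card_fin]
  rw [Fin.sum_univ_eq_sum_range (fun j => k - j) m, ← Finset.sum_add_distrib]
  rw [Finset.sum_congr rfl (g := fun _ => k) (fun j hj => by
    rw [Finset.mem_range] at hj; omega)]
  simp

private theorem d2a_surj (k m : ℕ) (h : m ≤ k) (Y : Matrix (Fin k) (Fin m) ℝ)
    (hY : ∀ s t : Fin m, s < t → Y (Fin.castLE h s) t = 0) : ∃ w, d2aT k m w = Y := by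
  refine ⟨fun q => Y ⟨q.1 + q.2, by have := q.2.2; omega⟩ q.1, ?_⟩
  ext i j
  unfold d2aT
  rw [Matrix.of_apply]
  by_cases hij : (j : ℕ) ≤ i
  · rw [dif_pos hij]
    change Y ⟨(j : ℕ) + (i - j), _⟩ j = Y i j
    have h3 : ∀ (n : ℕ) (hn : n < k), n = i → Y ⟨n, hn⟩ j = Y i j := by
      rintro n hn rfl
      rfl
    exact h3 _ _ (by omega)
  · rw [dif_neg hij]
    push Not at hij
    have hi : (i : ℕ) < m := hij.trans j.2
    have h2 := hY ⟨i, hi⟩ j hij
    rw [← h2]
    rfl

private theorem d2a_smooth {V : Type} [Fintype V] [DecidableEq V] {k m l : ℕ}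
    (B : Matrix V (Fin k) ℝ) (p : Fin l → V × V) :
    ContDiff ℝ 1 (fun w : d2aI k m → ℝ => qm B p (d2aT k m w)) := by
  rw [contDiff_pi]
  intro a
  unfold qm
  simp only [Matrix.mul_apply, Matrix.transpose_apply]
  apply ContDiff.sum
  intro i _
  have h1 : ∀ v : V, ContDiff ℝ 1 (fun w : d2aI k m → ℝ =>
      ∑ j, (B.map (algebraMap ℝ ℝ)) v j * d2aT k m w j i) := by
    intro v
    apply ContDiff.sum
    intro j _
    apply contDiff_const.mul
    unfold d2aT
    simp only [Matrix.of_apply]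
    by_cases hij : (i : ℕ) ≤ j
    · simp only [dif_pos hij]
      exact contDiff_apply ℝ ℝ _
    · simp only [dif_neg hij]
      exact contDiff_const
  exact (h1 _).mul (h1 _)

private theorem d2a_qm {V : Type} [Fintype V] [DecidableEq V] {k m m' l : ℕ}
    (B : Matrix V (Fin k) ℝ) (p : Fin l → V × V) (T : Matrix (Fin k) (Fin m) ℝ)
    (T' : Matrix (Fin k) (Fin m') ℝ) (h : T * Tᵀ = T' * T'ᵀ) : qm B p T = qm B p T' := by
  have h2 : ∀ (n : ℕ) (S : Matrix (Fin k) (Fin n) ℝ),
      (B.map (algebraMap ℝ ℝ) * S) * (B.map (algebraMap ℝ ℝ) * S)ᵀ =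
        B.map (algebraMap ℝ ℝ) * (S * Sᵀ) * (B.map (algebraMap ℝ ℝ))ᵀ := by
    intro n S
    rw [Matrix.transpose_mul]
    simp only [Matrix.mul_assoc]
  funext a
  unfold qm
  rw [h2, h2, h]

/-- D2A (avoidance; hint). If `T` has rank less than `r` then `T Tᵀ = T' T'ᵀ` with `T'` of width `r-1`
(`exists_factor`) and lower triangular (`exists_triangular`), i.e. depending on
`k(r-1) - (r-1)(r-2)/2` parameters. So the bad pairs `(y₀,y₁)`, `y₀ = t y₁ + qm B p T'`, are in the
image of a smooth map from a space of dimension `l + 1 + k(r-1) - (r-1)(r-2)/2 < 2l`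
(`l = kr - r(r-1)/2`, `k > r`): `ContDiff.dense_compl_range_of_finrank_lt_finrank`. -/
theorem avoid {V : Type} [Fintype V] [DecidableEq V] {r k l : ℕ} (hr : 1 ≤ r) (hrk : r < k)
    (hl : l + r * (r - 1) / 2 = k * r) (B : Matrix V (Fin k) ℝ) (p : Fin l → V × V) :
    Dense {y : (Fin l → ℝ) × (Fin l → ℝ) | ∀ (t : ℝ) (T : Matrix (Fin k) (Fin r) ℝ),
      T.rank < r → y.1 - t • y.2 ≠ qm B p T} := by
  obtain ⟨m, rfl⟩ : ∃ m, r = m + 1 := ⟨r - 1, by omega⟩
  let f : ℝ × (Fin l → ℝ) × (d2aI k m → ℝ) → (Fin l → ℝ) × (Fin l → ℝ) :=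
    fun q => (q.1 • q.2.1 + qm B p (d2aT k m q.2.2), q.2.1)
  have hf : ContDiff ℝ 1 f := by
    have h1 : ContDiff ℝ 1 (fun q : ℝ × (Fin l → ℝ) × (d2aI k m → ℝ) =>
        qm B p (d2aT k m q.2.2)) :=
      (d2a_smooth B p).comp (contDiff_snd.comp contDiff_snd)
    have h2 : ContDiff ℝ 1 (fun q : ℝ × (Fin l → ℝ) × (d2aI k m → ℝ) => q.2.1) :=
      contDiff_fst.comp contDiff_snd
    exact ((contDiff_fst.smul h2).add h1).prodMk h2
  have hdim : Module.finrank ℝ (ℝ × (Fin l → ℝ) × (d2aI k m → ℝ)) <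
      Module.finrank ℝ ((Fin l → ℝ) × (Fin l → ℝ)) := by
    simp only [Module.finrank_prod, Module.finrank_fintype_fun_eq_card, Module.finrank_self,
      Fintype.card_fin]
    have h1 := d2a_card k m (by omega)
    have h2 := Finset.sum_range_id_mul_two m
    have h3 : (m + 1) * (m + 1 - 1) / 2 = (∑ j ∈ range m, j) + m := by
      have h4 : (m + 1) * (m + 1 - 1) = ((∑ j ∈ range m, j) + m) * 2 := by
        rw [Nat.add_mul (∑ j ∈ range m, j) m 2, h2]
        rcases m with _ | m
        · simp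
        · simp only [Nat.add_sub_cancel]; ring
      rw [h4, Nat.mul_div_cancel _ (by norm_num)]
    rw [h3] at hl
    have h5 : k * (m + 1) = m * k + k := by ring
    rw [h5] at hl
    omega
  have hd := ContDiff.dense_compl_range_of_finrank_lt_finrank hf hdim
  refine hd.mono ?_
  intro y hy t T hT hyT
  apply hy
  have hpsd : (T * Tᵀ).PosSemidef := by
    have := Matrix.posSemidef_self_mul_conjTranspose T
    simpa using this
  have hrank : (T * Tᵀ).rank ≤ m := by
    have := Matrix.rank_mul_le_left T Tᵀ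
    omega
  obtain ⟨T1, hT1⟩ := exists_factor hpsd hrank
  have hmk : m ≤ k := by omega
  obtain ⟨Y', hY1, hY2⟩ := exists_triangular T1 (Fin.castLE hmk)
  obtain ⟨w, hw⟩ := d2a_surj k m hmk Y' hY2
  refine ⟨(t, y.2, w), ?_⟩
  have h3 : T * Tᵀ = Y' * Y'ᵀ := by
    rw [hT1]
    ext i j
    rw [Matrix.mul_apply, Matrix.mul_apply]
    exact (hY1 i j).symm
  have h4 : qm B p T = qm B p (d2aT k m w) := by rw [hw]; exact d2a_qm B p T Y' h3
  change (t • y.2 + qm B p (d2aT k m w), y.2) = y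
  rw [← h4, ← hyT]
  ext1
  · simp
  · rfl

/-- The zero set of a nonzero polynomial has dense complement (even after fixing `y₁`): pairs `(y₀,y₁)`
with `eval y₀ Δ ≠ 0` form an open dense set. -/
theorem dense_open_ne {l : ℕ} {Δ : MvPolynomial (Fin l) ℝ} (h : Δ ≠ 0) :
    IsOpen {y : Fin l → ℝ | MvPolynomial.eval y Δ ≠ 0} ∧
      Dense {y : Fin l → ℝ | MvPolynomial.eval y Δ ≠ 0} := by
  constructor
  · exact isOpen_ne_fun (MvPolynomial.continuous_eval Δ) continuous_const
  · rw [Metric.dense_iff]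
    intro x ε hε
    by_contra hcon
    apply h
    refine MvPolynomial.funext_set (fun i => Metric.ball (x i) ε) (fun i => ?_) (fun y hy => ?_)
    · rw [Real.ball_eq_Ioo]
      exact Set.Ioo_infinite (by linarith)
    · rw [map_zero]
      by_contra hne
      apply hcon
      refine ⟨y, ?_, hne⟩
      rw [← ball_pi x hε] at hy
      exact hy

end Pool.Agent.Helper55.ML
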