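import Pool.Agent.Helper55.MLA.Defs

set_option autoImplicit false
open Finset Matrix Filter Topology

namespace Pool.Agent.Helper55.ML

private theorem D3A_aux {δ : Polynomial ℝ} (hδ : δ ≠ 0) {a : Polynomial ℝ} {t0 : ℝ} {C : ℝ}
    (hb : ∀ᶠ t in 𝓝[<] t0, |a.eval t| ≤ C * |δ.eval t|) :
    (Polynomial.X - Polynomial.C t0) ^ (Polynomial.rootMultiplicity t0 δ) ∣ a := by
  by_cases ha : a = 0
  · rw [ha]; exact dvd_zero _
  rw [← Polynomial.le_rootMultiplicity_iff ha]
  by_contra hlt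
  rw [not_le] at hlt
  obtain ⟨b, hab, hb0⟩ := Polynomial.exists_eq_pow_rootMultiplicity_mul_and_not_dvd a ha t0
  obtain ⟨e, hde, _⟩ := Polynomial.exists_eq_pow_rootMultiplicity_mul_and_not_dvd δ hδ t0
  set m := Polynomial.rootMultiplicity t0 δ with hm
  set k := Polynomial.rootMultiplicity t0 a with hk
  rw [Polynomial.dvd_iff_isRoot, Polynomial.IsRoot.def] at hb0
  have hcont : ∀ p : Polynomial ℝ, Tendsto (fun t => p.eval t) (𝓝[<] t0) (𝓝 (p.eval t0)) :=
    fun p => (p.continuous.tendsto t0).mono_left nhdsWithin_le_nhds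
  have h1 : Tendsto (fun t => |b.eval t|) (𝓝[<] t0) (𝓝 |b.eval t0|) := (hcont b).abs
  have h2 : Tendsto (fun t => C * (|((Polynomial.X - Polynomial.C t0) ^ (m - k)).eval t| *
      |e.eval t|)) (𝓝[<] t0) (𝓝 (C * (|((Polynomial.X - Polynomial.C t0) ^ (m - k)).eval t0| *
      |e.eval t0|))) :=
    (((hcont _).abs).mul ((hcont e).abs)).const_mul C
  have h3 : ((Polynomial.X - Polynomial.C t0) ^ (m - k)).eval t0 = 0 := by
    rw [Polynomial.eval_pow, Polynomial.eval_sub, Polynomial.eval_X, Polynomial.eval_C, sub_self,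
      zero_pow (by omega)]
  rw [h3, abs_zero, zero_mul, mul_zero] at h2
  have h4 : ∀ᶠ t in 𝓝[<] t0, |b.eval t| ≤
      C * (|((Polynomial.X - Polynomial.C t0) ^ (m - k)).eval t| * |e.eval t|) := by
    filter_upwards [hb, self_mem_nhdsWithin] with t ht hlt'
    have hpos : 0 < |(t - t0) ^ k| := by
      rw [abs_pos]
      exact pow_ne_zero _ (sub_ne_zero.2 (ne_of_lt hlt'))
    rw [hab, hde] at ht
    simp only [Polynomial.eval_mul, Polynomial.eval_pow, Polynomial.eval_sub, Polynomial.eval_X,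
      Polynomial.eval_C, abs_mul] at ht ⊢
    have h5 : |(t - t0) ^ m| = |(t - t0) ^ k| * |(t - t0) ^ (m - k)| := by
      rw [← abs_mul, ← pow_add]
      congr 2
      omega
    rw [h5] at ht
    have h6 : |(t - t0) ^ k| * |b.eval t| ≤
        |(t - t0) ^ k| * (C * (|(t - t0) ^ (m - k)| * |e.eval t|)) := by
      calc |(t - t0) ^ k| * |b.eval t| ≤
          C * (|(t - t0) ^ k| * |(t - t0) ^ (m - k)| * |e.eval t|) := ht
        _ = _ := by ring
    exact le_of_mul_le_mul_left h6 hpos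
  have h7 := le_of_tendsto_of_tendsto h1 h2 h4
  exact hb0 (abs_eq_zero.1 (le_antisymm h7 (abs_nonneg _)))

/-- D3A (hint): `δ = (X - t₀)^m δ'` with `δ'(t₀) ≠ 0`; boundedness of `a/δ` on the left of `t₀` forces
`(X - t₀)^m ∣ a`. -/
theorem poly_cancel {δ : Polynomial ℝ} (hδ : δ ≠ 0) {κ : Type} [Fintype κ]
    (a : κ → Polynomial ℝ) {t0 : ℝ} {C : ℝ}
    (hb : ∀ i, ∀ᶠ t in 𝓝[<] t0, |(a i).eval t| ≤ C * |δ.eval t|) :
    ∃ (δ' : Polynomial ℝ) (a' : κ → Polynomial ℝ), δ'.eval t0 ≠ 0 ∧ ∀ i, a i * δ' = a' i * δ := by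
  obtain ⟨e, hde, he⟩ := Polynomial.exists_eq_pow_rootMultiplicity_mul_and_not_dvd δ hδ t0
  rw [Polynomial.dvd_iff_isRoot, Polynomial.IsRoot.def] at he
  have h := fun i => D3A_aux hδ (hb i)
  choose c hc using h
  refine ⟨e, c, he, fun i => ?_⟩
  calc a i * e = (Polynomial.X - Polynomial.C t0) ^ (Polynomial.rootMultiplicity t0 δ) * c i * e := by
        rw [← hc i]
    _ = c i * ((Polynomial.X - Polynomial.C t0) ^ (Polynomial.rootMultiplicity t0 δ) * e) := by ring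
    _ = c i * δ := by rw [← hde]

end Pool.Agent.Helper55.ML
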