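import Pool.Agent.Helper55.MLA.Defs

set_option autoImplicit false
open Finset Matrix Filter Topology

namespace Pool.Agent.Helper55.ML

/-- extension by zero -/
private def d4a_ext {V : Type} [DecidableEq V] (I : Finset V) (u : I → ℝ) : V → ℝ :=
  fun v => if h : v ∈ I then u ⟨v, h⟩ else 0

private theorem d4a_ext_mem {V : Type} [DecidableEq V] {I : Finset V} (u : I → ℝ) (i : I) :
    d4a_ext I u i = u i := by
  unfold d4a_ext
  rw [dif_pos i.2]

private theorem d4a_sum {V : Type} [Fintype V] [DecidableEq V] {I : Finset V} (u : I → ℝ)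
    (c : V → ℝ) : ∑ w, c w * d4a_ext I u w = ∑ w ∈ I, c w * d4a_ext I u w := by
  symm
  refine Finset.sum_subset (Finset.subset_univ I) (fun w _ hw => ?_)
  unfold d4a_ext
  rw [dif_neg hw, mul_zero]

private theorem d4a_sum' {V : Type} [Fintype V] [DecidableEq V] {I : Finset V} (u : I → ℝ)
    (c : V → ℝ) : ∑ w, c w * d4a_ext I u w = ∑ j : I, c j * u j := by
  rw [d4a_sum, ← Finset.sum_coe_sort]
  exact Finset.sum_congr rfl (fun j _ => by rw [d4a_ext_mem])

private theorem d4a_mulVec {V : Type} [Fintype V] [DecidableEq V] (N : Matrix V V ℝ)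
    {I : Finset V} (u : I → ℝ) (i : I) : (N *ᵥ d4a_ext I u) i =
      ((N.submatrix (Subtype.val : I → V) (Subtype.val : I → V)) *ᵥ u) i := by
  simp only [Matrix.mulVec, dotProduct]
  rw [d4a_sum']
  rfl

private theorem d4a_quad {V : Type} [Fintype V] [DecidableEq V] (N : Matrix V V ℝ)
    {I : Finset V} (u : I → ℝ) : d4a_ext I u ⬝ᵥ (N *ᵥ d4a_ext I u) =
      u ⬝ᵥ ((N.submatrix (Subtype.val : I → V) (Subtype.val : I → V)) *ᵥ u) := by
  rw [dotProduct_comm, dotProduct_comm u]
  simp only [dotProduct]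
  rw [d4a_sum']
  exact Finset.sum_congr rfl (fun j _ => by rw [d4a_mulVec])

/-- General form used for stresses. -/
theorem d4a_psd_of_block {V : Type} [Fintype V] [DecidableEq V] {N : Matrix V V ℝ} (hs : N.IsSymm)
    {I : Finset V} (hI : (N.submatrix (Subtype.val : I → V) (Subtype.val : I → V)).PosDef)
    (hr : N.rank ≤ I.card) : N.PosSemidef := by
  classical
  set B := N.submatrix (Subtype.val : I → V) (Subtype.val : I → V) with hB
  have hunit : IsUnit B.det := (Matrix.isUnit_iff_isUnit_det B).1 hI.isUnit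
  have hBinv : ∀ y : I → ℝ, B *ᵥ (B⁻¹ *ᵥ y) = y := by
    intro y
    rw [Matrix.mulVec_mulVec, Matrix.mul_nonsing_inv B hunit, Matrix.one_mulVec]
  have hinj : ∀ w : V → ℝ, (∀ i : I, (N *ᵥ w) i = 0) → N *ᵥ w = 0 := by
    set R := LinearMap.range N.mulVecLin with hR
    let f : R →ₗ[ℝ] (I → ℝ) := (LinearMap.funLeft ℝ ℝ (Subtype.val : I → V)).comp R.subtype
    have hf : Function.Surjective f := by
      intro y
      refine ⟨⟨N *ᵥ d4a_ext I (B⁻¹ *ᵥ y), ⟨d4a_ext I (B⁻¹ *ᵥ y), rfl⟩⟩, ?_⟩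
      funext i
      change (N *ᵥ d4a_ext I (B⁻¹ *ᵥ y)) i = y i
      rw [d4a_mulVec, ← hB, hBinv]
    have h1 := LinearMap.finrank_range_add_finrank_ker f
    rw [LinearMap.range_eq_top.2 hf, finrank_top, Module.finrank_fintype_fun_eq_card,
      Fintype.card_coe] at h1
    have h2 : Module.finrank ℝ R = N.rank := rfl
    have h3 : Module.finrank ℝ (LinearMap.ker f) = 0 := by omega
    have h4 : LinearMap.ker f = ⊥ := Submodule.finrank_eq_zero.1 h3
    intro w hw
    have h5 : (⟨N *ᵥ w, ⟨w, rfl⟩⟩ : R) ∈ LinearMap.ker f := by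
      rw [LinearMap.mem_ker]
      funext i
      exact hw i
    rw [h4, Submodule.mem_bot] at h5
    exact congrArg Subtype.val h5
  refine Matrix.PosSemidef.of_dotProduct_mulVec_nonneg ?_ (fun x => ?_)
  · rw [Matrix.IsHermitian, Matrix.conjTranspose_eq_transpose_of_trivial]
    exact hs
  · set u := B⁻¹ *ᵥ (fun i : I => (N *ᵥ x) i) with hu
    have h1 : N *ᵥ (x - d4a_ext I u) = 0 := by
      refine hinj _ (fun i => ?_)
      rw [Matrix.mulVec_sub, Pi.sub_apply, d4a_mulVec, ← hB, hu, hBinv, sub_self]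
    have h2 : N *ᵥ x = N *ᵥ d4a_ext I u := by
      rw [Matrix.mulVec_sub] at h1
      exact sub_eq_zero.1 h1
    have h3 : (x - d4a_ext I u) ⬝ᵥ (N *ᵥ d4a_ext I u) = 0 := by
      rw [Matrix.dotProduct_mulVec, ← Matrix.mulVec_transpose, hs.eq, h1, zero_dotProduct]
    have h4 : 0 ≤ u ⬝ᵥ (B *ᵥ u) := by
      have := hI.posSemidef.dotProduct_mulVec_nonneg u
      rwa [star_trivial] at this
    rw [sub_dotProduct, d4a_quad, ← hB] at h3
    rw [star_trivial, h2]
    linarith

private theorem d4a_block {k : ℕ} {M : Matrix (Fin k) (Fin k) ℝ} (h : M.PosSemidef) :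
    ∃ I : Finset (Fin k), I.card = M.rank ∧
      (M.submatrix (Subtype.val : I → Fin k) (Subtype.val : I → Fin k)).PosDef := by
  classical
  obtain ⟨κ, a, ha, hsp, hli⟩ := exists_linearIndependent' (K := ℝ) M.col
  have hfin : Finite κ := Finite.of_injective a ha
  have hft : Fintype κ := Fintype.ofFinite κ
  set I : Finset (Fin k) := Finset.univ.map ⟨a, ha⟩ with hI
  have hS : ∀ g : Fin k → ℝ, ∑ w ∈ I, g w = ∑ i : κ, g (a i) := by
    intro g
    rw [hI, Finset.sum_map]
    rfl
  refine ⟨I, ?_, ?_⟩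
  · rw [hI, Finset.card_map, Finset.card_univ, Matrix.rank_eq_finrank_span_cols, ← hsp]
    exact (finrank_span_eq_card hli).symm
  · refine Matrix.PosDef.of_dotProduct_mulVec_pos (h.1.submatrix _) (fun x hx => ?_)
    rw [star_trivial]
    have h0 : 0 ≤ x ⬝ᵥ ((M.submatrix (Subtype.val : I → Fin k) (Subtype.val : I → Fin k)) *ᵥ x) := by
      have := (h.submatrix (Subtype.val : I → Fin k)).dotProduct_mulVec_nonneg x
      rwa [star_trivial] at this
    refine lt_of_le_of_ne h0 (fun hz => hx ?_)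
    rw [← d4a_quad] at hz
    have h1 : M *ᵥ d4a_ext I x = 0 := by
      rw [← h.dotProduct_mulVec_zero_iff, star_trivial]
      exact hz.symm
    have h2 : ∑ i : κ, d4a_ext I x (a i) • (M.col ∘ a) i = 0 := by
      funext v
      have h3 := congrFun h1 v
      simp only [Matrix.mulVec, dotProduct] at h3
      rw [d4a_sum, hS] at h3
      rw [Finset.sum_apply]
      simpa [mul_comm] using h3
    have h3 := Fintype.linearIndependent_iff.1 hli (fun i => d4a_ext I x (a i)) h2
    funext i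
    have h4 : (i : Fin k) ∈ Finset.univ.map ⟨a, ha⟩ := by
      rw [← hI]
      exact i.2
    obtain ⟨j, _, hj⟩ := Finset.mem_map.1 h4
    have h5 := h3 j
    have h6 : a j = (i : Fin k) := hj
    rw [h6, d4a_ext_mem] at h5
    exact h5

private theorem d4a_open {ι : Type} [Fintype ι] [DecidableEq ι] {M0 : Matrix ι ι ℝ}
    (h : M0.PosDef) : ∀ᶠ M : Matrix ι ι ℝ in 𝓝 M0, M.IsSymm → M.PosDef := by
  have hK : IsCompact (Metric.sphere (0 : ι → ℝ) 1) := isCompact_sphere _ _
  have h1 : ∀ y ∈ Metric.sphere (0 : ι → ℝ) 1, ∀ᶠ z : Matrix ι ι ℝ × (ι → ℝ) in 𝓝 (M0, y),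
      0 < z.2 ⬝ᵥ (z.1 *ᵥ z.2) := by
    intro y hy
    have hc : Continuous (fun z : Matrix ι ι ℝ × (ι → ℝ) => z.2 ⬝ᵥ (z.1 *ᵥ z.2)) :=
      continuous_snd.dotProduct (continuous_fst.matrix_mulVec continuous_snd)
    have hy0 : y ≠ 0 := by
      intro h0
      rw [h0, mem_sphere_zero_iff_norm, norm_zero] at hy
      exact zero_ne_one hy
    have h2 := h.dotProduct_mulVec_pos hy0
    rw [star_trivial] at h2
    exact hc.continuousAt.eventually (lt_mem_nhds h2)
  filter_upwards [hK.eventually_forall_of_forall_eventually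
    (P := fun (M : Matrix ι ι ℝ) (y : ι → ℝ) => 0 < y ⬝ᵥ (M *ᵥ y)) h1] with M hM hs
  refine Matrix.PosDef.of_dotProduct_mulVec_pos ?_ (fun x hx => ?_)
  · rw [Matrix.IsHermitian, Matrix.conjTranspose_eq_transpose_of_trivial]
    exact hs
  · rw [star_trivial]
    have hn : 0 < ‖x‖ := norm_pos_iff.2 hx
    have h3 := hM (‖x‖⁻¹ • x) (by
      rw [mem_sphere_zero_iff_norm, norm_smul, norm_inv, norm_norm, inv_mul_cancel₀ hn.ne'])
    rw [Matrix.mulVec_smul, smul_dotProduct, dotProduct_smul, smul_eq_mul, smul_eq_mul] at h3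
    have h4 : 0 < ‖x‖⁻¹ := inv_pos.2 hn
    by_contra h5
    push Not at h5
    have h6 : ‖x‖⁻¹ * (‖x‖⁻¹ * (x ⬝ᵥ (M *ᵥ x))) ≤ 0 :=
      mul_nonpos_of_nonneg_of_nonpos h4.le (mul_nonpos_of_nonneg_of_nonpos h4.le h5)
    linarith

/-- D4A (hint): near `t0` the matrix `N t` has rank at most `r`, and on the range of `N t0` (dimension `r`)
it is positive definite. Write it with a principal minor: `N t0 = T T ᵀ` has a nonsingular principal `r × r`
block `I` (`symm_structure`), `(N t)_{II}` is positive definite near `t0`, and a symmetric matrix of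
rank at most `r` with a positive definite principal `r × r` block is `N_{·I} N_{II}⁻¹ N_{I·}`, so positive
semidefinite. -/
theorem psd_cont {k r : ℕ} {N : ℝ → Matrix (Fin k) (Fin k) ℝ} {t0 : ℝ}
    (hc : ContinuousAt N t0) (hs : ∀ᶠ t in 𝓝 t0, (N t).IsSymm)
    (hr : ∀ᶠ t in 𝓝 t0, (N t).rank ≤ r) (h0 : (N t0).PosSemidef) (h1 : (N t0).rank = r) :
    ∀ᶠ t in 𝓝 t0, (N t).PosSemidef := by
  classical
  obtain ⟨I, hI1, hI2⟩ := d4a_block h0
  have hc2 : ContinuousAt (fun t => (N t).submatrix (Subtype.val : I → Fin k)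
      (Subtype.val : I → Fin k)) t0 := by
    have h3 : Continuous (fun M : Matrix (Fin k) (Fin k) ℝ =>
        M.submatrix (Subtype.val : I → Fin k) (Subtype.val : I → Fin k)) :=
      continuous_id.matrix_submatrix _ _
    exact h3.continuousAt.comp hc
  have h4 := hc2.eventually (d4a_open hI2)
  filter_upwards [h4, hs, hr] with t h5 h6 h7
  exact d4a_psd_of_block h6 (h5 (h6.submatrix _)) (by rw [hI1, h1]; exact h7)

/-- General form used for stresses. -/
theorem psd_of_block {V : Type} [Fintype V] [DecidableEq V] {N : Matrix V V ℝ} (hs : N.IsSymm)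
    {I : Finset V} (hI : (N.submatrix (Subtype.val : I → V) (Subtype.val : I → V)).PosDef)
    (hr : N.rank ≤ I.card) : N.PosSemidef := d4a_psd_of_block hs hI hr

end Pool.Agent.Helper55.ML
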