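import Pool.Agent.Helper55.MLA.G3

set_option autoImplicit false
open Finset Matrix Filter Topology

namespace Pool.Agent.Helper55.ML

/-- G7: `MvPolynomial` versions. `TG` = matrix of indeterminates. -/
noncomputable def TG (k r : ℕ) : Matrix (Fin k) (Fin r) (MvPolynomial (Fin k × Fin r) ℝ) :=
  Matrix.of (fun s t => MvPolynomial.X (s, t))

/-- `qm` commutes with algebra homomorphisms. -/
theorem G7_qm_map {V : Type} {k r l : ℕ} {F G : Type*} [CommRing F] [Algebra ℝ F]
    [CommRing G] [Algebra ℝ G] (f : F →ₐ[ℝ] G) (B : Matrix V (Fin k) ℝ) (p : Fin l → V × V)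
    (T : Matrix (Fin k) (Fin r) F) (a : Fin l) : f (qm B p T a) = qm B p (T.map f) a := by
  simp [qm, Matrix.mul_apply, map_sum, map_mul]

/-- Evaluation of the matrix of indeterminates. -/
theorem G7_TG_map {k r : ℕ} {G : Type*} [CommRing G] [Algebra ℝ G]
    (T : Matrix (Fin k) (Fin r) G) :
    (TG k r).map (MvPolynomial.aeval (R := ℝ) (fun q : Fin k × Fin r => T q.1 q.2)) = T := by
  ext s t
  simp [TG]

/-- Vanishing on the image of `qm`. -/
theorem eq_zero_of_qm {V : Type} [Fintype V] [DecidableEq V] {P : V → V → Prop} {r k l : ℕ}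
    {hrk : r ≤ k} {B : Matrix V (Fin k) ℝ} {p : Fin l → V × V} {c : V → V → Fin l → ℝ}
    (h : QS P r k l hrk B p c) {Q : MvPolynomial (Fin l) ℝ}
    (hQ : ∀ T : Matrix (Fin k) (Fin r) ℝ, MvPolynomial.eval (qm B p T) Q = 0) : Q = 0 := by
  obtain ⟨x, hx⟩ := h.opn
  rw [mem_interior_iff_mem_nhds] at hx
  rw [nhds_pi, Filter.mem_pi] at hx
  obtain ⟨I, hI, t, ht, hsub⟩ := hx
  refine MvPolynomial.funext_set (fun i => t i) (fun i => ?_) (fun y hy => ?_)
  · exact infinite_of_mem_nhds (x i) (ht i)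
  · have hy' : y ∈ Set.range (fun T : Matrix (Fin k) (Fin r) ℝ => qm B p T) :=
      hsub (fun i _ => hy i (Set.mem_univ i))
    obtain ⟨T, rfl⟩ := hy'
    rw [map_zero]
    exact hQ T

/-- (hint) a polynomial relation `Q(qm B p TG) = 0` gives `eval (qm B p T) Q = 0` for all real `T`, so `Q`
vanishes on an open set (`opn`), so `Q = 0` (`MvPolynomial.funext_set`: an open set contains a product of
infinite sets). -/
theorem q_algInd {V : Type} [Fintype V] [DecidableEq V] {P : V → V → Prop} {r k l : ℕ}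
    {hrk : r ≤ k} {B : Matrix V (Fin k) ℝ} {p : Fin l → V × V} {c : V → V → Fin l → ℝ}
    (h : QS P r k l hrk B p c) : AlgebraicIndependent ℝ (qm B p (TG k r)) := by
  rw [algebraicIndependent_iff]
  intro Q hQ
  refine eq_zero_of_qm h (fun T => ?_)
  have h1 := congrArg (MvPolynomial.aeval (R := ℝ) (fun q : Fin k × Fin r => T q.1 q.2)) hQ
  rw [map_zero, MvPolynomial.comp_aeval_apply] at h1
  have h2 : (fun a => (MvPolynomial.aeval (R := ℝ) (fun q : Fin k × Fin r => T q.1 q.2))
      (qm B p (TG k r) a)) = qm B p T := by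
    funext a
    rw [G7_qm_map, G7_TG_map]
  rw [h2] at h1
  rw [← MvPolynomial.coe_aeval_eq_eval]
  exact h1

/-- (hint) specialise `TG` to `T0` (`B T0 = X0`): a rational polynomial relation between the entries of
`B TG` specialises to one between the entries of the algebraically independent `X0`. -/
theorem BTG_algInd {V : Type} [Fintype V] [DecidableEq V] {P : V → V → Prop} {r k l : ℕ}
    {hrk : r ≤ k} {B : Matrix V (Fin k) ℝ} {p : Fin l → V × V} {c : V → V → Fin l → ℝ}
    (h : QS P r k l hrk B p c) : AlgebraicIndependent ℚ (fun q : V × Fin r =>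
      (B.map (algebraMap ℝ (MvPolynomial (Fin k × Fin r) ℝ)) * TG k r) q.1 q.2) := by
  have hi := h.ind
  unfold AlgInd at hi
  let T0 : Matrix (Fin k) (Fin r) ℝ := Matrix.of fun s t => if s = Fin.castLE hrk t then 1 else 0
  refine AlgebraicIndependent.of_comp (((MvPolynomial.aeval (R := ℝ)
    (fun q : Fin k × Fin r => T0 q.1 q.2)) : MvPolynomial (Fin k × Fin r) ℝ →ₐ[ℝ] ℝ).restrictScalars ℚ) ?_
  convert! hi using 1
  funext q
  simp [Matrix.mul_apply, TG, T0]

end Pool.Agent.Helper55.ML
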