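import Pool.Agent.Helper55.MLA.Defs

set_option autoImplicit false
open Finset Matrix Filter Topology

namespace Pool.Agent.Helper55.ML

/-- T1 (hint): a symmetric matrix of rank `ρ` has a nonsingular principal minor of size `ρ`: take a
maximal independent set `I` of rows (`|I| = ρ`); by symmetry the columns `I` span the column space, so
`M_{I,·} = M_{II} C` has rank `ρ` and `M_{II}` is invertible; and `M = M_{·I} M_{II}⁻¹ M_{I·}`. -/
theorem symm_structure {F V : Type*} [Field F] [Fintype V] [DecidableEq V] (M : Matrix V V F)
    (hM : M.IsSymm) : ∃ I : Finset V, I.card = M.rank ∧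
      IsUnit (M.submatrix (Subtype.val : I → V) (Subtype.val : I → V)).det ∧
      ∀ i j, M i j = ∑ a : I, ∑ b : I, M i a *
        (M.submatrix (Subtype.val : I → V) (Subtype.val : I → V))⁻¹ a b * M b j := by
  classical
  obtain ⟨κ, a, ha, hsp, hli⟩ := exists_linearIndependent' F (fun i : V => M.row i)
  have : Fintype κ := Fintype.ofInjective a ha
  set I : Finset V := Finset.univ.image a with hI
  -- rows indexed by I
  have hliI : LinearIndependent F (fun i : I => M.row i.1) := by
    let f : I → κ := fun i => Classical.choose (Finset.mem_image.1 i.2)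
    have hf : ∀ i : I, a (f i) = i.1 := fun i =>
      (Classical.choose_spec (Finset.mem_image.1 i.2)).2
    have hfi : Function.Injective f := by
      intro i j hij
      apply Subtype.ext
      rw [← hf i, ← hf j, hij]
    have h1 := hli.comp f hfi
    have h2 : ((fun i : V => M.row i) ∘ a) ∘ f = fun i : I => M.row i.1 := by
      funext i
      simp only [Function.comp_apply, hf i]
    rwa [h2] at h1
  have hspI : Submodule.span F (Set.range (fun i : I => M.row i.1)) =
      Submodule.span F (Set.range M.row) := by
    have h1 : Set.range (fun i : I => M.row i.1) = Set.range ((fun i : V => M.row i) ∘ a) := by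
      ext x
      constructor
      · rintro ⟨i, rfl⟩
        obtain ⟨k, _, hk⟩ := Finset.mem_image.1 i.2
        exact ⟨k, by simp only [Function.comp_apply, hk]⟩
      · rintro ⟨k, rfl⟩
        exact ⟨⟨a k, Finset.mem_image_of_mem a (Finset.mem_univ k)⟩, rfl⟩
    rw [h1, hsp]
  have hcard : I.card = M.rank := by
    rw [rank_eq_finrank_span_row, ← hspI, finrank_span_eq_card hliI, Fintype.card_coe]
  -- coefficients
  have hc : ∀ i : V, ∃ c : I → F, M.row i = ∑ x : I, c x • M.row x.1 := by
    intro i
    have h1 : M.row i ∈ Submodule.span F (Set.range (fun i : I => M.row i.1)) := by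
      rw [hspI]
      exact Submodule.subset_span ⟨i, rfl⟩
    obtain ⟨c, hc⟩ := (Submodule.mem_span_range_iff_exists_fun F).1 h1
    exact ⟨c, hc.symm⟩
  choose c hc using hc
  have hsym : ∀ i j, M i j = M j i := fun i j => hM.apply j i
  have hc1 : ∀ i j, M i j = ∑ x : I, c i x * M x.1 j := by
    intro i j
    have := congrFun (hc i) j
    simpa [Matrix.row, Finset.sum_apply, Pi.smul_apply, smul_eq_mul] using this
  have hc2 : ∀ i j, M i j = ∑ x : I, M i x.1 * c j x := by
    intro i j
    rw [hsym i j, hc1 j i]
    exact Finset.sum_congr rfl (fun x _ => by rw [hsym x.1 i, mul_comm])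
  set A : Matrix I I F := M.submatrix (Subtype.val : I → V) (Subtype.val : I → V) with hA
  have hAu : IsUnit A := by
    rw [← linearIndependent_rows_iff_isUnit, Fintype.linearIndependent_iff]
    intro g hg
    rw [Fintype.linearIndependent_iff] at hliI
    apply hliI g
    funext j
    have h1 : ∀ x : I, ∑ y : I, g y * M y.1 x.1 = 0 := by
      intro x
      have := congrFun hg x
      simpa [Matrix.row, Finset.sum_apply, Pi.smul_apply, smul_eq_mul, hA] using this
    have h2 : ∑ y : I, g y * M y.1 j = 0 := by
      calc ∑ y : I, g y * M y.1 j = ∑ y : I, ∑ x : I, (g y * M y.1 x.1) * c j x := by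
            refine Finset.sum_congr rfl (fun y _ => ?_)
            rw [hc2 y.1 j, Finset.mul_sum]
            exact Finset.sum_congr rfl (fun x _ => by ring)
        _ = ∑ x : I, (∑ y : I, g y * M y.1 x.1) * c j x := by
            rw [Finset.sum_comm]
            exact Finset.sum_congr rfl (fun x _ => by rw [Finset.sum_mul])
        _ = 0 := Finset.sum_eq_zero (fun x _ => by rw [h1 x, zero_mul])
    simpa [Matrix.row, Finset.sum_apply, Pi.smul_apply, smul_eq_mul] using h2
  have hdet : IsUnit A.det := (Matrix.isUnit_iff_isUnit_det A).1 hAu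
  refine ⟨I, hcard, hdet, fun i j => ?_⟩
  have h3 : ∀ x : I, ∑ y : I, A⁻¹ x y * M y.1 j = c j x := by
    intro x
    have h4 : A⁻¹ *ᵥ (A *ᵥ (fun y => c j y)) = fun y => c j y := by
      rw [Matrix.mulVec_mulVec, Matrix.nonsing_inv_mul A hdet, Matrix.one_mulVec]
    have h5 : A *ᵥ (fun y => c j y) = fun y : I => M y.1 j := by
      funext y
      rw [hc2 y.1 j]
      rfl
    rw [h5] at h4
    exact congrFun h4 x
  calc M i j = ∑ x : I, M i x.1 * c j x := hc2 i j
    _ = ∑ x : I, ∑ y : I, M i x.1 * A⁻¹ x y * M y.1 j := by
        refine Finset.sum_congr rfl (fun x _ => ?_)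
        rw [← h3 x, Finset.mul_sum]
        exact Finset.sum_congr rfl (fun y _ => by ring)

end Pool.Agent.Helper55.ML
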