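import Pool.Agent.Helper55.MLA.D2A
import Pool.Agent.Helper55.MLA.D3A
import Pool.Agent.Helper55.MLA.D4A
import Pool.Agent.Helper55.MLA.G7
import Pool.Agent.Helper55.MLA.T1

set_option autoImplicit false
open Finset Matrix Filter Topology

namespace Pool.Agent.Helper55.ML

private theorem d5_TT {m n : ℕ} (T : Matrix (Fin m) (Fin n) ℝ) : (T * Tᵀ).IsSymm := by
  rw [Matrix.IsSymm, Matrix.transpose_mul, Matrix.transpose_transpose]

section basic

variable {V : Type} [Fintype V] [DecidableEq V] {P : V → V → Prop} {r k l : ℕ}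

omit [DecidableEq V] in
private theorem d5_qm (B : Matrix V (Fin k) ℝ) (p : Fin l → V × V) (T : Matrix (Fin k) (Fin r) ℝ)
    (a : Fin l) : qm B p T a = (B * (T * Tᵀ) * Bᵀ) (p a).1 (p a).2 := by
  have h1 : B.map (algebraMap ℝ ℝ) = B := by
    ext i j
    simp
  unfold qm
  rw [h1, Matrix.transpose_mul, Matrix.mul_assoc, Matrix.mul_assoc, Matrix.mul_assoc]

private theorem d5_diag (hP : ∀ i, P i i) {hrk : r ≤ k} {B : Matrix V (Fin k) ℝ}
    {p : Fin l → V × V} {c : V → V → Fin l → ℝ} (h : QS P r k l hrk B p c)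
    (T : Matrix (Fin k) (Fin r) ℝ) (i : V) :
    ∑ a, c i i a * qm B p T a = ∑ s, (B * T) i s ^ 2 := by
  have h1 := h.rel (T * Tᵀ) (d5_TT T) i i (hP i)
  simp only [d5_qm]
  rw [← h1]
  have h2 : B * (T * Tᵀ) * Bᵀ = (B * T) * (B * T)ᵀ := by
    rw [Matrix.transpose_mul, Matrix.mul_assoc, Matrix.mul_assoc, Matrix.mul_assoc]
  rw [h2, Matrix.mul_apply]
  exact Finset.sum_congr rfl fun s _ => by rw [Matrix.transpose_apply, sq]

private theorem d5_bound (hP : ∀ i, P i i) {hrk : r ≤ k} {B : Matrix V (Fin k) ℝ}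
    {p : Fin l → V × V} {c : V → V → Fin l → ℝ} (h : QS P r k l hrk B p c)
    {C : Matrix (Fin k) V ℝ} (hC : C * B = 1) (T : Matrix (Fin k) (Fin r) ℝ) (s : Fin k)
    (t : Fin r) :
    |T s t| ≤ ∑ i, |C s i| * (∑ a, c i i a * qm B p T a + 1) := by
  have h1 : T = C * (B * T) := by rw [← Matrix.mul_assoc, hC, Matrix.one_mul]
  have h2 : T s t = ∑ i, C s i * (B * T) i t := by
    conv_lhs => rw [h1]
    rw [Matrix.mul_apply]
  rw [h2]
  refine (Finset.abs_sum_le_sum_abs _ _).trans (Finset.sum_le_sum fun i _ => ?_)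
  rw [abs_mul, d5_diag hP h T i]
  refine mul_le_mul_of_nonneg_left ?_ (abs_nonneg _)
  have h3 : (B * T) i t ^ 2 ≤ ∑ s, (B * T) i s ^ 2 :=
    Finset.single_le_sum (f := fun s => (B * T) i s ^ 2) (fun _ _ => sq_nonneg _)
      (Finset.mem_univ t)
  have h4 : |(B * T) i t| ≤ (B * T) i t ^ 2 + 1 := by
    rw [← sq_abs]
    nlinarith [sq_nonneg (|(B * T) i t| - 1), abs_nonneg ((B * T) i t)]
  linarith

private theorem d5_cont (B : Matrix V (Fin k) ℝ) (p : Fin l → V × V) :
    Continuous (fun T : Matrix (Fin k) (Fin r) ℝ => qm B p T) := by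
  refine continuous_pi fun a => ?_
  simp only [d5_qm]
  have h1 : Continuous fun T : Matrix (Fin k) (Fin r) ℝ => B * (T * Tᵀ) * Bᵀ :=
    (continuous_const.matrix_mul (continuous_id.matrix_mul continuous_id.matrix_transpose)).matrix_mul
      continuous_const
  exact h1.matrix_elem _ _

end basic

/-- The image of `qm` is closed. -/
theorem qm_closed {V : Type} [Fintype V] [DecidableEq V] {P : V → V → Prop} {r k l : ℕ}
    (hP : ∀ i, P i i) {hrk : r ≤ k} {B : Matrix V (Fin k) ℝ} {p : Fin l → V × V}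
    {c : V → V → Fin l → ℝ} (h : QS P r k l hrk B p c) :
    IsClosed (Set.range (fun T : Matrix (Fin k) (Fin r) ℝ => qm B p T)) := by
  obtain ⟨C, hC⟩ := h.inj
  refine isClosed_of_closure_subset fun y hy => ?_
  -- the neighbourhood of `y`
  obtain ⟨U, hU⟩ : ∃ U : Set (Fin l → ℝ), U = {y' | ∀ i : V, ∑ a, c i i a * y' a <
    ∑ a, c i i a * y a + 1} := ⟨_, rfl⟩
  have hUo : IsOpen U := by
    rw [hU, Set.setOf_forall]
    refine isOpen_iInter_of_finite fun i => ?_
    exact isOpen_lt (continuous_finset_sum _ fun a _ =>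
      continuous_const.mul (continuous_apply a)) continuous_const
  have hyU : y ∈ U := by
    rw [hU]
    intro i
    linarith
  obtain ⟨M, hM⟩ : ∃ M : Fin k → ℝ, M = fun s => ∑ i, |C s i| * (∑ a, c i i a * y a + 1 + 1) :=
    ⟨_, rfl⟩
  obtain ⟨K, hK⟩ : ∃ K : Set (Matrix (Fin k) (Fin r) ℝ),
    K = Set.univ.pi (fun s : Fin k => Set.univ.pi fun _ : Fin r => Set.Icc (-(M s)) (M s)) :=
    ⟨_, rfl⟩
  have hKc : IsCompact K := by
    rw [hK]
    exact isCompact_univ_pi fun s => isCompact_univ_pi fun t => isCompact_Icc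
  have hsub : ∀ T : Matrix (Fin k) (Fin r) ℝ, qm B p T ∈ U → T ∈ K := by
    intro T hT
    rw [hK]
    intro s _
    intro t _
    have h1 := d5_bound hP h hC T s t
    have h2 : ∑ i, |C s i| * (∑ a, c i i a * qm B p T a + 1) ≤ M s := by
      rw [hM]
      refine Finset.sum_le_sum fun i _ => mul_le_mul_of_nonneg_left ?_ (abs_nonneg _)
      rw [hU] at hT
      have := hT i
      linarith
    exact abs_le.1 (h1.trans h2)
  have hcl : IsClosed ((fun T : Matrix (Fin k) (Fin r) ℝ => qm B p T) '' K) :=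
    (hKc.image (d5_cont B p)).isClosed
  have hmem : y ∈ closure ((fun T : Matrix (Fin k) (Fin r) ℝ => qm B p T) '' K) := by
    rw [mem_closure_iff] at hy ⊢
    intro o ho hyo
    obtain ⟨z, hz1, hz2⟩ := hy (o ∩ U) (ho.inter hUo) ⟨hyo, hyU⟩
    obtain ⟨T, rfl⟩ := hz2
    exact ⟨_, hz1.1, T, hsub T hz1.2, rfl⟩
  rw [hcl.closure_eq] at hmem
  obtain ⟨T, _, rfl⟩ := hmem
  exact ⟨T, rfl⟩

section poly

variable {V : Type} [Fintype V] [DecidableEq V] {P : V → V → Prop} {r k l : ℕ}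

/-- restriction of a polynomial to the line -/
private noncomputable def d5L (y0 y1 : Fin l → ℝ) : MvPolynomial (Fin l) ℝ →ₐ[ℝ] Polynomial ℝ :=
  MvPolynomial.aeval (fun a => Polynomial.C (y0 a) - Polynomial.X * Polynomial.C (y1 a))

private theorem d5_eval (y0 y1 : Fin l → ℝ) (t : ℝ) (Q : MvPolynomial (Fin l) ℝ) :
    (d5L y0 y1 Q).eval t = MvPolynomial.eval (y0 - t • y1) Q := by
  unfold d5L
  induction Q using MvPolynomial.induction_on with
  | C a => simp
  | add p q hp hq => rw [map_add, Polynomial.eval_add, hp, hq, map_add]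
  | mul_X p a hp =>
    rw [map_mul, Polynomial.eval_mul, hp, map_mul, MvPolynomial.aeval_X, MvPolynomial.eval_X]
    congr 1
    simp only [Polynomial.eval_sub, Polynomial.eval_mul, Polynomial.eval_C, Polynomial.eval_X,
      Pi.sub_apply, Pi.smul_apply, smul_eq_mul]

private theorem d5_symm {hrk : r ≤ k} {B : Matrix V (Fin k) ℝ} {p : Fin l → V × V}
    {c : V → V → Fin l → ℝ} (h : QS P r k l hrk B p c) {Δ : MvPolynomial (Fin l) ℝ}
    {A : Fin k → Fin k → MvPolynomial (Fin l) ℝ}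
    (hA : ∀ (T : Matrix (Fin k) (Fin r) ℝ) (s t : Fin k),
      MvPolynomial.eval (qm B p T) Δ * (T * Tᵀ) s t = MvPolynomial.eval (qm B p T) (A s t))
    (s t : Fin k) : A s t = A t s := by
  rw [← sub_eq_zero]
  refine eq_zero_of_qm h fun T => ?_
  have h1 : (T * Tᵀ) s t = (T * Tᵀ) t s := (d5_TT T).apply t s
  rw [map_sub, ← hA, ← hA, h1, sub_self]

private theorem d5_det0 (T : Matrix (Fin k) (Fin r) ℝ) (I : Finset (Fin k)) (hI : r < I.card) :
    ((T * Tᵀ).submatrix (Subtype.val : I → Fin k) (Subtype.val : I → Fin k)).det = 0 := by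
  by_contra hne
  have h1 : (T * Tᵀ).submatrix (Subtype.val : I → Fin k) (Subtype.val : I → Fin k) =
      T.submatrix (Subtype.val : I → Fin k) id * Tᵀ.submatrix id (Subtype.val : I → Fin k) := by
    ext s t
    simp only [Matrix.submatrix_apply, Matrix.mul_apply, id]
  have h2 := Matrix.rank_of_isUnit _ ((Matrix.isUnit_iff_isUnit_det _).2
    (isUnit_iff_ne_zero.2 hne))
  rw [h1] at h2
  have h3 := Matrix.rank_mul_le_left (T.submatrix (Subtype.val : I → Fin k) id)
    (Tᵀ.submatrix id (Subtype.val : I → Fin k))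
  have h4 : (T.submatrix (Subtype.val : I → Fin k) (id : Fin r → Fin r)).rank ≤ r := by
    have := Matrix.rank_le_card_width (T.submatrix (Subtype.val : I → Fin k) (id : Fin r → Fin r))
    rwa [Fintype.card_fin] at this
  rw [Fintype.card_coe] at h2
  omega

private theorem d5_detA {hrk : r ≤ k} {B : Matrix V (Fin k) ℝ} {p : Fin l → V × V}
    {c : V → V → Fin l → ℝ} (h : QS P r k l hrk B p c) {Δ : MvPolynomial (Fin l) ℝ}
    {A : Fin k → Fin k → MvPolynomial (Fin l) ℝ}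
    (hA : ∀ (T : Matrix (Fin k) (Fin r) ℝ) (s t : Fin k),
      MvPolynomial.eval (qm B p T) Δ * (T * Tᵀ) s t = MvPolynomial.eval (qm B p T) (A s t))
    (I : Finset (Fin k)) (hI : r < I.card) :
    ((Matrix.of A).submatrix (Subtype.val : I → Fin k) (Subtype.val : I → Fin k)).det = 0 := by
  refine eq_zero_of_qm h fun T => ?_
  rw [RingHom.map_det]
  have h1 : (MvPolynomial.eval (qm B p T)).mapMatrix
      ((Matrix.of A).submatrix (Subtype.val : I → Fin k) (Subtype.val : I → Fin k)) =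
      MvPolynomial.eval (qm B p T) Δ •
        ((T * Tᵀ).submatrix (Subtype.val : I → Fin k) (Subtype.val : I → Fin k)) := by
    ext s t
    simp only [RingHom.mapMatrix_apply, Matrix.map_apply, Matrix.submatrix_apply,
      Matrix.of_apply, Matrix.smul_apply, smul_eq_mul]
    exact (hA T s t).symm
  rw [h1, Matrix.det_smul, d5_det0 T I hI, mul_zero]

private theorem d5_BAB {hrk : r ≤ k} {B : Matrix V (Fin k) ℝ} {p : Fin l → V × V}
    {c : V → V → Fin l → ℝ} (h : QS P r k l hrk B p c) {Δ : MvPolynomial (Fin l) ℝ}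
    {A : Fin k → Fin k → MvPolynomial (Fin l) ℝ}
    (hA : ∀ (T : Matrix (Fin k) (Fin r) ℝ) (s t : Fin k),
      MvPolynomial.eval (qm B p T) Δ * (T * Tᵀ) s t = MvPolynomial.eval (qm B p T) (A s t))
    (a : Fin l) :
    ∑ t, (∑ s, MvPolynomial.C (B (p a).1 s) * A s t) * MvPolynomial.C (B (p a).2 t) =
      Δ * MvPolynomial.X a := by
  rw [← sub_eq_zero]
  refine eq_zero_of_qm h fun T => ?_
  rw [map_sub, map_mul, MvPolynomial.eval_X, map_sum, sub_eq_zero]
  simp only [map_mul, map_sum, MvPolynomial.eval_C, ← hA]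
  rw [d5_qm, Matrix.mul_apply, Finset.mul_sum]
  refine Finset.sum_congr rfl fun t _ => ?_
  rw [Matrix.mul_apply, Matrix.transpose_apply, ← mul_assoc, Finset.mul_sum]
  congr 1
  exact Finset.sum_congr rfl fun s _ => by ring

end poly

section matrixfamily

variable {k : ℕ}

/-- the family of matrices `a'(t) / δ'(t)` -/
private noncomputable def d5N (δ : Polynomial ℝ) (a : Fin k → Fin k → Polynomial ℝ) (t : ℝ) :
    Matrix (Fin k) (Fin k) ℝ := Matrix.of fun s s' => (a s s').eval t / δ.eval t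

private theorem d5N_cont {δ : Polynomial ℝ} {a : Fin k → Fin k → Polynomial ℝ} {t0 : ℝ}
    (h : δ.eval t0 ≠ 0) : ContinuousAt (d5N δ a) t0 := by
  refine continuousAt_pi.2 fun s => continuousAt_pi.2 fun s' => ?_
  exact ((a s s').continuous.continuousAt).div δ.continuous.continuousAt h

private theorem d5N_rank {r : ℕ} {δ : Polynomial ℝ} {a : Fin k → Fin k → Polynomial ℝ}
    (hs : ∀ s s', a s s' = a s' s)
    (hd : ∀ I : Finset (Fin k), r < I.card →
      ((Matrix.of a).submatrix (Subtype.val : I → Fin k) (Subtype.val : I → Fin k)).det = 0)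
    (t : ℝ) : (d5N δ a t).IsSymm ∧ (d5N δ a t).rank ≤ r := by
  have hsym : (d5N δ a t).IsSymm := by
    ext s s'
    simp only [d5N, Matrix.transpose_apply, Matrix.of_apply]
    rw [hs]
  refine ⟨hsym, ?_⟩
  by_contra hcon
  push Not at hcon
  obtain ⟨I, hI, hdet, _⟩ := symm_structure (d5N δ a t) hsym
  have h1 := hd I (by omega)
  have h2 : (d5N δ a t).submatrix (Subtype.val : I → Fin k) (Subtype.val : I → Fin k) =
      (δ.eval t)⁻¹ • (Polynomial.evalRingHom t).mapMatrix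
        ((Matrix.of a).submatrix (Subtype.val : I → Fin k) (Subtype.val : I → Fin k)) := by
    ext s s'
    simp only [d5N, RingHom.mapMatrix_apply, Matrix.map_apply, Matrix.submatrix_apply,
      Matrix.of_apply, Matrix.smul_apply, smul_eq_mul, Polynomial.coe_evalRingHom]
    rw [div_eq_inv_mul]
  rw [h2, Matrix.det_smul, ← RingHom.map_det, h1, map_zero, mul_zero] at hdet
  exact not_isUnit_zero hdet

end matrixfamily

section main

variable {V : Type} [Fintype V] [DecidableEq V] {P : V → V → Prop} {r k l : ℕ}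

/-- the extension step, once the family without pole is given -/
private theorem d5_ext {hrk : r ≤ k} {B : Matrix V (Fin k) ℝ} {p : Fin l → V × V}
    {c : V → V → Fin l → ℝ} (h : QS P r k l hrk B p c) {Δ : MvPolynomial (Fin l) ℝ}
    {A : Fin k → Fin k → MvPolynomial (Fin l) ℝ}
    (hA : ∀ (T : Matrix (Fin k) (Fin r) ℝ) (s t : Fin k),
      MvPolynomial.eval (qm B p T) Δ * (T * Tᵀ) s t = MvPolynomial.eval (qm B p T) (A s t))
    {y0 y1 : Fin l → ℝ} (hy0 : d5L y0 y1 Δ ≠ 0)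
    (hav : ∀ (t : ℝ) (T : Matrix (Fin k) (Fin r) ℝ), T.rank < r → y0 - t • y1 ≠ qm B p T)
    {t0 : ℝ} {δ' : Polynomial ℝ} {a' : Fin k → Fin k → Polynomial ℝ} (hδ' : δ'.eval t0 ≠ 0)
    (haδ : ∀ s s', d5L y0 y1 (A s s') * δ' = a' s s' * d5L y0 y1 Δ)
    (hpsd : (d5N δ' a' t0).PosSemidef) :
    ∀ᶠ t in 𝓝 t0, y0 - t • y1 ∈ Set.range (fun T : Matrix (Fin k) (Fin r) ℝ => qm B p T) := by
  -- symmetry
  have hs' : ∀ s s', a' s s' = a' s' s := by
    intro s s'
    have h1 := haδ s s'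
    rw [d5_symm h hA s s', haδ s' s] at h1
    exact (mul_right_cancel₀ hy0 h1).symm
  -- minors
  have hd' : ∀ I : Finset (Fin k), r < I.card →
      ((Matrix.of a').submatrix (Subtype.val : I → Fin k) (Subtype.val : I → Fin k)).det = 0 := by
    intro I hI
    have h1 := d5_detA h hA I hI
    have h2 : d5L y0 y1 Δ • ((Matrix.of a').submatrix (Subtype.val : I → Fin k)
        (Subtype.val : I → Fin k)) = δ' • (d5L y0 y1 : MvPolynomial (Fin l) ℝ →ₐ[ℝ]
          Polynomial ℝ).toRingHom.mapMatrix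
          ((Matrix.of A).submatrix (Subtype.val : I → Fin k) (Subtype.val : I → Fin k)) := by
      ext1 s s'
      simp only [RingHom.mapMatrix_apply, Matrix.map_apply, Matrix.submatrix_apply,
        Matrix.of_apply, Matrix.smul_apply, smul_eq_mul]
      have := haδ s s'
      rw [mul_comm, ← this, mul_comm]
      rfl
    have h3 := congrArg Matrix.det h2
    rw [Matrix.det_smul, Matrix.det_smul, ← RingHom.map_det, h1, map_zero, mul_zero] at h3
    exact (mul_eq_zero.1 h3).resolve_left (pow_ne_zero _ hy0)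
  -- Gram coordinates
  have hB' : ∀ a : Fin l, ∑ t, (∑ s, Polynomial.C (B (p a).1 s) * a' s t) *
      Polynomial.C (B (p a).2 t) =
      δ' * (Polynomial.C (y0 a) - Polynomial.X * Polynomial.C (y1 a)) := by
    intro a
    have h1 := congrArg (d5L y0 y1) (d5_BAB h hA a)
    rw [map_mul, map_sum] at h1
    have hC : ∀ x : ℝ, d5L y0 y1 (MvPolynomial.C x) = Polynomial.C x := by
      intro x
      unfold d5L
      rw [MvPolynomial.aeval_C]
      rfl
    have hX : d5L y0 y1 (MvPolynomial.X a) =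
        Polynomial.C (y0 a) - Polynomial.X * Polynomial.C (y1 a) := by
      unfold d5L
      rw [MvPolynomial.aeval_X]
    simp only [map_mul, map_sum, hC, hX] at h1
    refine mul_right_cancel₀ hy0 ?_
    have h2 : δ' * (Polynomial.C (y0 a) - Polynomial.X * Polynomial.C (y1 a)) * d5L y0 y1 Δ =
        δ' * (d5L y0 y1 Δ * (Polynomial.C (y0 a) - Polynomial.X * Polynomial.C (y1 a))) := by
      ring
    rw [h2, ← h1, Finset.sum_mul, Finset.mul_sum]
    refine Finset.sum_congr rfl fun t _ => ?_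
    have h3 : (∑ s, Polynomial.C (B (p a).1 s) * a' s t) * d5L y0 y1 Δ =
        δ' * ∑ s, Polynomial.C (B (p a).1 s) * d5L y0 y1 (A s t) := by
      rw [Finset.sum_mul, Finset.mul_sum]
      refine Finset.sum_congr rfl fun s _ => ?_
      rw [mul_assoc, ← haδ s t]
      ring
    calc (∑ s, Polynomial.C (B (p a).1 s) * a' s t) * Polynomial.C (B (p a).2 t) * d5L y0 y1 Δ
        = (∑ s, Polynomial.C (B (p a).1 s) * a' s t) * d5L y0 y1 Δ *
          Polynomial.C (B (p a).2 t) := by ring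
      _ = _ := by rw [h3]; ring
  have hcoord : ∀ t : ℝ, δ'.eval t ≠ 0 → ∀ T : Matrix (Fin k) (Fin r) ℝ, d5N δ' a' t = T * Tᵀ →
      y0 - t • y1 = qm B p T := by
    intro t ht T hT
    funext a
    rw [d5_qm, ← hT]
    have h1 := congrArg (Polynomial.eval t) (hB' a)
    rw [Polynomial.eval_finset_sum] at h1
    simp only [Polynomial.eval_mul, Polynomial.eval_finset_sum, Polynomial.eval_C,
      Polynomial.eval_sub, Polynomial.eval_X] at h1
    rw [Matrix.mul_apply, Pi.sub_apply, Pi.smul_apply, smul_eq_mul]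
    refine mul_left_cancel₀ ht ?_
    rw [← h1, Finset.mul_sum]
    refine Finset.sum_congr rfl fun s' _ => ?_
    rw [Matrix.mul_apply, Matrix.transpose_apply, ← mul_assoc, Finset.mul_sum]
    congr 1
    refine Finset.sum_congr rfl fun s _ => ?_
    simp only [d5N, Matrix.of_apply]
    field_simp
  -- the rank at `t0`
  have hrank : (d5N δ' a' t0).rank = r := by
    refine le_antisymm (d5N_rank hs' hd' t0).2 ?_
    obtain ⟨T, hT⟩ := exists_factor hpsd (d5N_rank hs' hd' t0).2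
    by_contra hcon
    push Not at hcon
    refine hav t0 T ?_ (hcoord t0 hδ' T hT)
    rwa [hT, Matrix.rank_self_mul_transpose] at hcon
  have h1 := psd_cont (r := r) (d5N_cont hδ') (Eventually.of_forall fun t =>
    (d5N_rank (δ := δ') hs' hd' t).1) (Eventually.of_forall fun t =>
    (d5N_rank (δ := δ') hs' hd' t).2) hpsd hrank
  have h2 : ∀ᶠ t in 𝓝 t0, δ'.eval t ≠ 0 :=
    δ'.continuous.continuousAt.eventually_ne hδ'
  filter_upwards [h1, h2] with t ht1 ht2
  obtain ⟨T, hT⟩ := exists_factor ht1 (d5N_rank (δ := δ') hs' hd' t).2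
  exact ⟨T, (hcoord t ht2 T hT).symm⟩

/-- equality with `T Tᵀ` where there is no pole -/
private theorem d5_eqN {B : Matrix V (Fin k) ℝ} {p : Fin l → V × V}
    {Δ : MvPolynomial (Fin l) ℝ} {A : Fin k → Fin k → MvPolynomial (Fin l) ℝ}
    (hA : ∀ (T : Matrix (Fin k) (Fin r) ℝ) (s t : Fin k),
      MvPolynomial.eval (qm B p T) Δ * (T * Tᵀ) s t = MvPolynomial.eval (qm B p T) (A s t))
    {y0 y1 : Fin l → ℝ} {δ' : Polynomial ℝ} {a' : Fin k → Fin k → Polynomial ℝ}
    (haδ : ∀ s s', d5L y0 y1 (A s s') * δ' = a' s s' * d5L y0 y1 Δ) {t : ℝ}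
    (h1 : δ'.eval t ≠ 0) (h2 : (d5L y0 y1 Δ).eval t ≠ 0) {T : Matrix (Fin k) (Fin r) ℝ}
    (hT : y0 - t • y1 = qm B p T) : d5N δ' a' t = T * Tᵀ := by
  ext s s'
  have h3 := congrArg (Polynomial.eval t) (haδ s s')
  rw [Polynomial.eval_mul, Polynomial.eval_mul, d5_eval, hT, ← hA T s s', ← hT, ← d5_eval] at h3
  simp only [d5N, Matrix.of_apply]
  rw [div_eq_iff h1]
  refine mul_right_cancel₀ h2 ?_
  rw [← h3]
  ring

private theorem d5_local (hP : ∀ i, P i i) {hrk : r ≤ k} {B : Matrix V (Fin k) ℝ}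
    {p : Fin l → V × V} {c : V → V → Fin l → ℝ} (h : QS P r k l hrk B p c)
    {Δ : MvPolynomial (Fin l) ℝ} {A : Fin k → Fin k → MvPolynomial (Fin l) ℝ}
    (hA : ∀ (T : Matrix (Fin k) (Fin r) ℝ) (s t : Fin k),
      MvPolynomial.eval (qm B p T) Δ * (T * Tᵀ) s t = MvPolynomial.eval (qm B p T) (A s t))
    {y0 y1 : Fin l → ℝ} (hy0 : MvPolynomial.eval y0 Δ ≠ 0)
    (hav : ∀ (t : ℝ) (T : Matrix (Fin k) (Fin r) ℝ), T.rank < r → y0 - t • y1 ≠ qm B p T)
    {t0 : ℝ} (ht0 : 0 ≤ t0) (hS : ∀ t ∈ Set.Icc 0 t0, y0 - t • y1 ∈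
      Set.range (fun T : Matrix (Fin k) (Fin r) ℝ => qm B p T)) :
    ∀ᶠ t in 𝓝 t0, y0 - t • y1 ∈ Set.range (fun T : Matrix (Fin k) (Fin r) ℝ => qm B p T) := by
  have hL0 : (d5L y0 y1 Δ).eval 0 = MvPolynomial.eval y0 Δ := by
    rw [d5_eval, zero_smul, sub_zero]
  have hne : d5L y0 y1 Δ ≠ 0 := by
    intro h0
    rw [h0, Polynomial.eval_zero] at hL0
    exact hy0 hL0.symm
  by_cases hδ0 : (d5L y0 y1 Δ).eval t0 = 0
  · -- a possible pole
    have ht0' : 0 < t0 := by
      rcases ht0.lt_or_eq with h1 | h1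
      · exact h1
      · rw [← h1, hL0] at hδ0
        exact absurd hδ0 hy0
    obtain ⟨C, hC⟩ := h.inj
    obtain ⟨D, hD⟩ : ∃ D : V → (Fin l → ℝ) → ℝ, D = fun i y => ∑ a, c i i a * y a := ⟨_, rfl⟩
    obtain ⟨m, hm⟩ : ∃ m : Fin k → ℝ, m = fun s =>
      ∑ i, |C s i| * (|D i y0| + t0 * |D i y1| + 1) := ⟨_, rfl⟩
    have hm0 : ∀ s, 0 ≤ m s := by
      intro s
      rw [hm]
      exact Finset.sum_nonneg fun i _ => by positivity
    obtain ⟨M, hM⟩ : ∃ M : ℝ, M = ∑ s, m s := ⟨_, rfl⟩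
    have hmM : ∀ s, m s ≤ M := fun s => by
      rw [hM]
      exact Finset.single_le_sum (fun s _ => hm0 s) (Finset.mem_univ s)
    have hM0 : 0 ≤ M := by
      rw [hM]
      exact Finset.sum_nonneg fun s _ => hm0 s
    have hTb : ∀ t ∈ Set.Icc 0 t0, ∀ T : Matrix (Fin k) (Fin r) ℝ, qm B p T = y0 - t • y1 →
        ∀ s s', |T s s'| ≤ M := by
      intro t ht T hT s s'
      refine ((d5_bound hP h hC T s s').trans ?_).trans (hmM s)
      rw [hm]
      refine Finset.sum_le_sum fun i _ => mul_le_mul_of_nonneg_left ?_ (abs_nonneg _)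
      rw [hT]
      have e1 : ∑ a, c i i a * (y0 - t • y1) a = D i y0 - t * D i y1 := by
        rw [hD]
        simp only [Pi.sub_apply, Pi.smul_apply, smul_eq_mul]
        rw [Finset.mul_sum, ← Finset.sum_sub_distrib]
        exact Finset.sum_congr rfl fun a _ => by ring
      rw [e1]
      have e2 := le_abs_self (D i y0)
      have e3 : -(t * D i y1) ≤ t0 * |D i y1| := by
        have e4 : t * |D i y1| ≤ t0 * |D i y1| :=
          mul_le_mul_of_nonneg_right ht.2 (abs_nonneg _)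
        have e5 : t * (-(D i y1)) ≤ t * |D i y1| :=
          mul_le_mul_of_nonneg_left (neg_le_abs _) ht.1
        linarith
      linarith
    have hTT : ∀ t ∈ Set.Icc 0 t0, ∀ T : Matrix (Fin k) (Fin r) ℝ, qm B p T = y0 - t • y1 →
        ∀ s s', |(T * Tᵀ) s s'| ≤ r * (M * M) := by
      intro t ht T hT s s'
      rw [Matrix.mul_apply]
      refine (Finset.abs_sum_le_sum_abs _ _).trans ?_
      have e1 : ∀ x ∈ (Finset.univ : Finset (Fin r)), |T s x * Tᵀ x s'| ≤ M * M := by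
        intro x _
        rw [abs_mul, Matrix.transpose_apply]
        exact mul_le_mul (hTb t ht T hT s x) (hTb t ht T hT s' x) (abs_nonneg _) hM0
      refine (Finset.sum_le_card_nsmul _ _ _ e1).trans ?_
      rw [Finset.card_univ, Fintype.card_fin, nsmul_eq_mul]
    have hleft : ∀ᶠ t in 𝓝[<] t0, t ∈ Set.Ico 0 t0 := Ico_mem_nhdsLT ht0'
    obtain ⟨δ', a'', hδ', haδ⟩ := poly_cancel hne (κ := Fin k × Fin k)
      (fun q => d5L y0 y1 (A q.1 q.2)) (t0 := t0) (C := r * (M * M)) (by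
        intro q
        filter_upwards [hleft] with t ht
        obtain ⟨T, hT⟩ := hS t ⟨ht.1, ht.2.le⟩
        have hT' : qm B p T = y0 - t • y1 := hT
        rw [d5_eval, d5_eval, ← hT', ← hA, abs_mul, mul_comm]
        exact mul_le_mul_of_nonneg_right (hTT t ⟨ht.1, ht.2.le⟩ T hT' q.1 q.2) (abs_nonneg _))
    have haδ' : ∀ s s', d5L y0 y1 (A s s') * δ' = (fun s s' => a'' (s, s')) s s' *
        d5L y0 y1 Δ := fun s s' => haδ (s, s')
    refine d5_ext h hA hne hav hδ' haδ' ?_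
    -- the limit from the left is positive semidefinite
    have hroots : ∀ᶠ t in 𝓝[<] t0, (d5L y0 y1 Δ).eval t ≠ 0 := by
      have hfin : ({x | (d5L y0 y1 Δ).IsRoot x} \ {t0} : Set ℝ).Finite :=
        (Polynomial.finite_setOfPred_isRoot hne).subset Set.diff_subset
      have h1 : ∀ᶠ t in 𝓝 t0, t ∉ ({x | (d5L y0 y1 Δ).IsRoot x} \ {t0} : Set ℝ) :=
        hfin.isClosed.isOpen_compl.mem_nhds (fun h => h.2 rfl)
      filter_upwards [nhdsWithin_le_nhds h1, self_mem_nhdsWithin] with t ht1 ht2 ht3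
      exact ht1 ⟨ht3, fun h => (ne_of_lt ht2) h⟩
    have hδn : ∀ᶠ t in 𝓝[<] t0, δ'.eval t ≠ 0 :=
      nhdsWithin_le_nhds (δ'.continuous.continuousAt.eventually_ne hδ')
    have hpsd : ∀ᶠ t in 𝓝[<] t0, (d5N δ' (fun s s' => a'' (s, s')) t).PosSemidef := by
      filter_upwards [hleft, hroots, hδn] with t ht1 ht2 ht3
      obtain ⟨T, hT⟩ := hS t ⟨ht1.1, ht1.2.le⟩
      rw [d5_eqN hA haδ' ht3 ht2 (T := T) hT.symm]
      have := Matrix.posSemidef_self_mul_conjTranspose T
      rwa [Matrix.conjTranspose_eq_transpose_of_trivial] at this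
    have hcont := d5N_cont (a := fun s s' => a'' (s, s')) hδ'
    have hlim : Tendsto (d5N δ' (fun s s' => a'' (s, s'))) (𝓝[<] t0)
        (𝓝 (d5N δ' (fun s s' => a'' (s, s')) t0)) := hcont.tendsto.mono_left nhdsWithin_le_nhds
    refine Matrix.PosSemidef.of_dotProduct_mulVec_nonneg ?_ fun x => ?_
    · have h1 : Tendsto (fun t => (d5N δ' (fun s s' => a'' (s, s')) t)ᴴ) (𝓝[<] t0)
          (𝓝 (d5N δ' (fun s s' => a'' (s, s')) t0)ᴴ) :=
        (continuous_id.matrix_conjTranspose.tendsto _).comp hlim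
      have h2 : (fun t => (d5N δ' (fun s s' => a'' (s, s')) t)ᴴ) =ᶠ[𝓝[<] t0]
          (d5N δ' (fun s s' => a'' (s, s'))) := by
        filter_upwards [hpsd] with t ht
        exact ht.1
      exact tendsto_nhds_unique (h1.congr' h2) hlim
    · have h1 : Continuous fun N : Matrix (Fin k) (Fin k) ℝ => Star.star x ⬝ᵥ (N *ᵥ x) :=
        continuous_const.dotProduct (continuous_id.matrix_mulVec continuous_const)
      refine ge_of_tendsto ((h1.tendsto _).comp hlim) ?_
      filter_upwards [hpsd] with t ht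
      exact ht.dotProduct_mulVec_nonneg x
  · -- no pole
    refine d5_ext h hA hne hav (δ' := d5L y0 y1 Δ) (a' := fun s s' => d5L y0 y1 (A s s')) hδ0
      (fun s s' => rfl) ?_
    obtain ⟨T, hT⟩ := hS t0 ⟨ht0, le_rfl⟩
    rw [d5_eqN hA (fun s s' => rfl) hδ0 hδ0 (T := T) hT.symm]
    have := Matrix.posSemidef_self_mul_conjTranspose T
    rwa [Matrix.conjTranspose_eq_transpose_of_trivial] at this

end main

/-- D5A (the line argument; hint, see A6 (d) of `/team-store/ML_proof.md`). Let `U ⊆ range qm` be open and nonempty.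
`D_i(y) = ∑ c i i a * y_a`; for `y = qm B p T`: `D_i(y) = ∑_k (BT)_{ik}^2 ≥ 0` (`rel`), so `D_i ≥ 0` on `U`, and for a
row `i` with `B i ≠ 0` the functional `D_i` is nonzero, so positive on `U`. The image of `qm` is closed (if
`qm B p T_m` is bounded then all `D_i`, hence `B T_m`, hence `T_m` are bounded). Choose `y₀, y₁ ∈ U` with
`eval y₀ Δ ≠ 0` and `(y₀,y₁)` in the set of `avoid`. `δ(t) = eval (y₀ - t y₁) Δ`,
`a_st(t) = eval (y₀ - t y₁) (A s t)` are polynomials in `t`, `δ ≠ 0`. Let `E` = set of `τ ≥ 0` with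
`y₀ - t y₁ ∈ range qm` for all `t ∈ [0,τ]`. `D_i(y₀ - t y₁) ≥ 0` bounds `E`; let `t*` be its supremum,
`t* ∈ E` (closedness). `y₀ - t* y₁ = qm B p T*`, so at `t*` (if `δ(t*) ≠ 0`) or after
`poly_cancel` (the quotient `a_st/δ = (T Tᵀ)_st` is bounded on `[0,t*)` by the diagonal; for `t* = 0` use
`δ(0) ≠ 0`) there are `δ'`, `a'` with `δ'(t*) ≠ 0` and `N(t) = a'(t)/δ'(t)` continuous near `t*`, equal to
`T_t T_tᵀ` for `t ∈ E`, `δ(t) ≠ 0`; `N(t*)` is the limit from the left (or the value at `0`), so positive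
semidefinite with Gram coordinates `y₀ - t* y₁`, hence of rank exactly `r` by `avoid`. All
`(r+1)`-minors of `A` vanish identically (`eq_zero_of_qm`), so `rank N(t) ≤ r` near `t*`; `psd_cont`,
`exists_factor`: `N(t) = T_t T_tᵀ` for `t` near `t*`, and `qm B p T_t = y₀ - t y₁` because the polynomial
identity `(B A Bᵀ)(p a) = Δ * X_a` holds (`eq_zero_of_qm`). So `E` contains points beyond `t*`. -/
theorem line_contra {V : Type} [Fintype V] [DecidableEq V] {P : V → V → Prop} {r k l : ℕ}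
    (hP : ∀ i, P i i) (hr : 1 ≤ r) {hrk : r < k} {B : Matrix V (Fin k) ℝ} {p : Fin l → V × V}
    {c : V → V → Fin l → ℝ} (h : QS P r k l hrk.le B p c)
    (hΔ : ∃ (Δ : MvPolynomial (Fin l) ℝ) (A : Fin k → Fin k → MvPolynomial (Fin l) ℝ), Δ ≠ 0 ∧
      ∀ (T : Matrix (Fin k) (Fin r) ℝ) (s t : Fin k),
        MvPolynomial.eval (qm B p T) Δ * (T * Tᵀ) s t = MvPolynomial.eval (qm B p T) (A s t)) :
    False := by
  obtain ⟨Δ, A, hΔ0, hA⟩ := hΔ
  obtain ⟨R, hR⟩ : ∃ R : Set (Fin l → ℝ),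
    R = Set.range (fun T : Matrix (Fin k) (Fin r) ℝ => qm B p T) := ⟨_, rfl⟩
  have hRc : IsClosed R := by
    rw [hR]
    exact qm_closed hP h
  have hUne : (interior R).Nonempty := by
    rw [hR]
    exact h.opn
  -- a nonzero entry of `B`
  obtain ⟨i0, s0, hB0⟩ : ∃ i s, B i s ≠ 0 := by
    by_contra hcon
    push Not at hcon
    obtain ⟨C, hC⟩ := h.inj
    have hk : 0 < k := by omega
    have h1 := congrFun (congrFun hC ⟨0, hk⟩) ⟨0, hk⟩
    rw [Matrix.mul_apply, Matrix.one_apply_eq] at h1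
    have h2 : ∑ j, C ⟨0, hk⟩ j * B j ⟨0, hk⟩ = 0 :=
      Finset.sum_eq_zero fun j _ => by rw [hcon, mul_zero]
    rw [h2] at h1
    exact zero_ne_one h1
  obtain ⟨D, hD⟩ : ∃ D : (Fin l → ℝ) → ℝ, D = fun y => ∑ a, c i0 i0 a * y a := ⟨_, rfl⟩
  have hDlin : ∀ (y z : Fin l → ℝ) (t : ℝ), D (y - t • z) = D y - t * D z := by
    intro y z t
    rw [hD]
    simp only [Pi.sub_apply, Pi.smul_apply, smul_eq_mul]
    rw [Finset.mul_sum, ← Finset.sum_sub_distrib]
    exact Finset.sum_congr rfl fun a _ => by ring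
  have hDR : ∀ y ∈ R, 0 ≤ D y := by
    intro y hy
    rw [hR] at hy
    obtain ⟨T, rfl⟩ := hy
    rw [hD]
    simp only
    rw [d5_diag hP h T i0]
    exact Finset.sum_nonneg fun s _ => sq_nonneg _
  obtain ⟨z, hz⟩ : ∃ z, 0 < D z := by
    obtain ⟨T, hT⟩ : ∃ T : Matrix (Fin k) (Fin r) ℝ,
      T = Matrix.of fun s _ => if s = s0 then 1 else 0 := ⟨_, rfl⟩
    refine ⟨qm B p T, ?_⟩
    rw [hD]
    simp only
    rw [d5_diag hP h T i0]
    have h1 : ∀ x, (B * T) i0 x = B i0 s0 := by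
      intro x
      rw [Matrix.mul_apply, hT]
      simp
    refine Finset.sum_pos (fun x _ => ?_) ⟨⟨0, hr⟩, Finset.mem_univ _⟩
    rw [h1]
    positivity
  have hDpos : ∀ y ∈ interior R, 0 < D y := by
    intro y hy
    have h1 : Tendsto (fun ε : ℝ => y - ε • z) (𝓝 0) (𝓝 y) := by
      have h2 : Continuous fun ε : ℝ => y - ε • z :=
        continuous_const.sub (continuous_id.smul continuous_const)
      have h3 := h2.tendsto 0
      rwa [zero_smul, sub_zero] at h3
    have h2 : ∀ᶠ ε : ℝ in 𝓝 0, y - ε • z ∈ R :=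
      h1 (mem_interior_iff_mem_nhds.1 hy)
    have h3 : ∀ᶠ ε : ℝ in 𝓝[>] 0, y - ε • z ∈ R := nhdsWithin_le_nhds h2
    obtain ⟨ε, hε1, hε2⟩ := (h3.and self_mem_nhdsWithin).exists
    have h4 := hDR _ hε1
    rw [hDlin] at h4
    have h5 : 0 < ε * D z := mul_pos hε2 hz
    linarith
  -- the two points
  obtain ⟨y0, y1, hy0U, hy1U, hy0Δ, hav⟩ : ∃ y0 y1 : Fin l → ℝ, y0 ∈ interior R ∧
      y1 ∈ interior R ∧ MvPolynomial.eval y0 Δ ≠ 0 ∧
      ∀ (t : ℝ) (T : Matrix (Fin k) (Fin r) ℝ), T.rank < r → y0 - t • y1 ≠ qm B p T := by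
    have hd1 := avoid hr hrk h.dim B p
    obtain ⟨ho, hd2⟩ := dense_open_ne hΔ0
    have hO : IsOpen ((interior R ∩ {y : Fin l → ℝ | MvPolynomial.eval y Δ ≠ 0}) ×ˢ
        interior R) := (isOpen_interior.inter ho).prod isOpen_interior
    have hne : ((interior R ∩ {y : Fin l → ℝ | MvPolynomial.eval y Δ ≠ 0}) ×ˢ
        interior R).Nonempty := by
      obtain ⟨y0, hy0⟩ := hd2.inter_open_nonempty _ isOpen_interior hUne
      obtain ⟨y1, hy1⟩ := hUne
      exact ⟨(y0, y1), hy0, hy1⟩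
    obtain ⟨⟨y0, y1⟩, h1, h2⟩ := hd1.inter_open_nonempty _ hO hne
    exact ⟨y0, y1, h1.1.1, h1.2, h1.1.2, h2⟩
  have hDy0 := hDpos y0 hy0U
  have hDy1 := hDpos y1 hy1U
  have hLc : Continuous fun t : ℝ => y0 - t • y1 :=
    continuous_const.sub (continuous_id.smul continuous_const)
  have hy0R : y0 - (0 : ℝ) • y1 ∈ R := by
    rw [zero_smul, sub_zero]
    exact interior_subset hy0U
  -- the first exit time
  obtain ⟨S, hS⟩ : ∃ S : Set ℝ, S = {t : ℝ | 0 ≤ t ∧ y0 - t • y1 ∉ R} := ⟨_, rfl⟩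
  have hSne : S.Nonempty := by
    refine ⟨D y0 / D y1 + 1, ?_⟩
    rw [hS]
    refine ⟨by positivity, fun hmem => ?_⟩
    have h1 := hDR _ hmem
    rw [hDlin] at h1
    have h2 : (D y0 / D y1 + 1) * D y1 = D y0 + D y1 := by
      field_simp
    linarith
  have hSb : BddBelow S := ⟨0, fun t ht => by rw [hS] at ht; exact ht.1⟩
  obtain ⟨t1, ht1⟩ : ∃ t1, t1 = sInf S := ⟨_, rfl⟩
  have ht1nn : 0 ≤ t1 := by
    rw [ht1]
    exact le_csInf hSne fun t ht => by rw [hS] at ht; exact ht.1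
  have hbefore : ∀ t, 0 ≤ t → t < t1 → y0 - t • y1 ∈ R := by
    intro t h0 h1
    by_contra hcon
    have h2 : t ∈ S := by rw [hS]; exact ⟨h0, hcon⟩
    have h3 := csInf_le hSb h2
    rw [← ht1] at h3
    linarith
  have hafter : ∀ ε > 0, ∃ t ∈ S, t < t1 + ε := by
    intro ε hε
    exact exists_lt_of_csInf_lt hSne (by rw [← ht1]; linarith)
  have ht1R : y0 - t1 • y1 ∈ R := by
    rcases ht1nn.lt_or_eq with hlt | heq
    · have h1 : Tendsto (fun t : ℝ => y0 - t • y1) (𝓝[<] t1) (𝓝 (y0 - t1 • y1)) :=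
        (hLc.tendsto t1).mono_left nhdsWithin_le_nhds
      refine hRc.mem_of_tendsto h1 ?_
      filter_upwards [Ico_mem_nhdsLT hlt] with t ht
      exact hbefore t ht.1 ht.2
    · rw [← heq]
      exact hy0R
  have hall : ∀ t ∈ Set.Icc 0 t1, y0 - t • y1 ∈
      Set.range (fun T : Matrix (Fin k) (Fin r) ℝ => qm B p T) := by
    intro t ht
    rw [← hR]
    rcases ht.2.lt_or_eq with hlt | heq
    · exact hbefore t ht.1 hlt
    · rw [heq]
      exact ht1R
  have hloc := d5_local hP h hA hy0Δ hav ht1nn hall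
  rw [← hR] at hloc
  obtain ⟨ε, hε, hball⟩ := Metric.eventually_nhds_iff.1 hloc
  obtain ⟨t, htS, htlt⟩ := hafter ε hε
  have h1 : t1 ≤ t := by
    rw [ht1]
    exact csInf_le hSb htS
  rw [hS] at htS
  refine htS.2 (hball ?_)
  rw [Real.dist_eq, abs_lt]
  constructor <;> linarith

end Pool.Agent.Helper55.ML
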