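import Pool.Agent.Helper55.MLA.G8

set_option autoImplicit false
open Finset Matrix Filter Topology

namespace Pool.Agent.Helper55.ML

/-- G9 (hint): `IntermediateField.mem_adjoin_range_iff`, common denominator. -/
theorem rational_formula {V : Type} [Fintype V] [DecidableEq V] {P : V → V → Prop} {r k l : ℕ}
    {hrk : r ≤ k} {B : Matrix V (Fin k) ℝ} {p : Fin l → V × V} {c : V → V → Fin l → ℝ}
    (h : QS P r k l hrk B p c)
    (hUG : ∀ (Ω : Type) [Field Ω] [Algebra ℚ Ω] (X : Matrix V (Fin r) Ω), AlgInd X →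
      ∀ M : Matrix V V Ω, M.IsSymm → M.rank ≤ r →
        (∀ i j, P i j → M i j = ∑ k, X i k * X j k) → M = X * Xᵀ) :
    ∃ (Δ : MvPolynomial (Fin l) ℝ) (A : Fin k → Fin k → MvPolynomial (Fin l) ℝ), Δ ≠ 0 ∧
      ∀ (T : Matrix (Fin k) (Fin r) ℝ) (s t : Fin k),
        MvPolynomial.eval (qm B p T) Δ * (T * Tᵀ) s t = MvPolynomial.eval (qm B p T) (A s t) := by
  have key : ∀ i : Fin k × Fin k, ∃ R S : MvPolynomial (Fin l) ℝ, S ≠ 0 ∧
      MvPolynomial.aeval (qm B p (TG k r)) S * (TG k r * (TG k r)ᵀ) i.1 i.2 =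
        MvPolynomial.aeval (qm B p (TG k r)) R := by
    intro i
    have h1 := N_mem h hUG i.1 i.2
    rw [IntermediateField.mem_adjoin_range_iff] at h1
    obtain ⟨R, S, hRS⟩ := h1
    have e : ∀ Q : MvPolynomial (Fin l) ℝ, MvPolynomial.aeval (fun a =>
        algebraMap (MvPolynomial (Fin k × Fin r) ℝ)
          (FractionRing (MvPolynomial (Fin k × Fin r) ℝ)) (qm B p (TG k r) a)) Q =
        algebraMap (MvPolynomial (Fin k × Fin r) ℝ)
          (FractionRing (MvPolynomial (Fin k × Fin r) ℝ))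
          (MvPolynomial.aeval (qm B p (TG k r)) Q) := fun Q =>
      MvPolynomial.aeval_algebraMap_apply _ _ _
    have hinj := IsFractionRing.injective (MvPolynomial (Fin k × Fin r) ℝ)
      (FractionRing (MvPolynomial (Fin k × Fin r) ℝ))
    rw [e, e] at hRS
    by_cases hS : MvPolynomial.aeval (qm B p (TG k r)) S = 0
    · refine ⟨0, 1, one_ne_zero, ?_⟩
      rw [hS, map_zero, div_zero] at hRS
      have h0 : (TG k r * (TG k r)ᵀ) i.1 i.2 = 0 := hinj (by rw [hRS, map_zero])
      rw [h0, mul_zero, map_zero]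
    · refine ⟨R, S, ?_, ?_⟩
      · rintro rfl
        exact hS (map_zero _)
      · apply hinj
        rw [map_mul, hRS, mul_div_cancel₀]
        intro h0
        exact hS (hinj (by rw [h0, map_zero]))
  choose R S hS hRS using key
  refine ⟨∏ i, S i, fun s t => R (s, t) * ∏ i ∈ Finset.univ.erase (s, t), S i,
    Finset.prod_ne_zero_iff.mpr (fun i _ => hS i), ?_⟩
  intro T s t
  have h2 : MvPolynomial.aeval (qm B p (TG k r)) (∏ i, S i) * (TG k r * (TG k r)ᵀ) s t =
      MvPolynomial.aeval (qm B p (TG k r)) (R (s, t) * ∏ i ∈ Finset.univ.erase (s, t), S i) := by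
    rw [← Finset.mul_prod_erase Finset.univ S (Finset.mem_univ (s, t)), map_mul, map_mul,
      ← hRS (s, t)]
    ring
  have h3 := congrArg (MvPolynomial.aeval (R := ℝ) (fun q : Fin k × Fin r => T q.1 q.2)) h2
  have e2 : ∀ Q : MvPolynomial (Fin l) ℝ,
      (MvPolynomial.aeval (R := ℝ) (fun q : Fin k × Fin r => T q.1 q.2))
        (MvPolynomial.aeval (qm B p (TG k r)) Q) = MvPolynomial.eval (qm B p T) Q := by
    intro Q
    rw [MvPolynomial.comp_aeval_apply]
    have h2 : (fun a => (MvPolynomial.aeval (R := ℝ) (fun q : Fin k × Fin r => T q.1 q.2))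
        (qm B p (TG k r) a)) = qm B p T := by
      funext a
      rw [G7_qm_map, G7_TG_map]
    rw [h2, ← MvPolynomial.coe_aeval_eq_eval]
    rfl
  rw [map_mul, e2, e2] at h3
  rw [← h3]
  congr 1
  simp [Matrix.mul_apply, TG]

end Pool.Agent.Helper55.ML
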