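import Pool.Agent.Helper55.MLA.G6
import Pool.Agent.Helper55.MLA.G9
import Pool.Agent.Helper55.MLA.D5A

set_option autoImplicit false
open Finset Matrix Filter Topology

namespace Pool.Agent.Helper55.ML

/-- D6A: existence of a stress of rank `n - r` at a generic real point. -/
theorem exists_max_stress {V : Type} [Fintype V] [DecidableEq V] {P : V → V → Prop} {r : ℕ}
    (h : GRH V P r) (hr : 1 ≤ r) :
    ∃ (X0 : Matrix V (Fin r) ℝ) (K0 : Matrix V V ℝ), AlgInd X0 ∧ Stress P X0 K0 ∧
      ∀ w : V → ℝ, K0.mulVec w = 0 → ∃ a : Fin r → ℝ, w = X0.mulVec a := by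
  rcases exists_QS h hr with h1 | ⟨k, l, hrk, B, p, c, hQ⟩
  · exact h1
  · exact (line_contra (hrk := hrk) h.refl hr hQ (rational_formula hQ
      (fun Ω _ _ X hX M hM hMr hMP => UG h hX hM hMr hMP))).elim

end Pool.Agent.Helper55.ML
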