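import Pool.Agent.Helper55.ML.Basic

/-!
# Project ML, Part A: definitions (Gram maps, stresses, motions)

`V` is a finite vertex type, `P : V → V → Prop` the relation equal or adjacent, configurations
are matrices `X : Matrix V (Fin r) F` whose rows are the vectors of the vertices.
-/

set_option autoImplicit false
open Finset Matrix

namespace Pool.Agent.Helper55.ML

section general

variable {V : Type*} {r : ℕ} {F : Type*}

/-- Symmetric matrices supported on `P`. -/
def SuppOn [Zero F] (P : V → V → Prop) (K : Matrix V V F) : Prop :=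
  K.IsSymm ∧ ∀ i j, ¬ P i j → K i j = 0

/-- Symmetric matrices supported on `P` that kill the configuration. -/
def Stress [Fintype V] [NonUnitalNonAssocSemiring F] (P : V → V → Prop) (X : Matrix V (Fin r) F)
    (K : Matrix V V F) : Prop := SuppOn P K ∧ K * X = 0

/-- No nonzero stress. -/
def Free [Fintype V] [NonUnitalNonAssocSemiring F] (P : V → V → Prop) (X : Matrix V (Fin r) F) :
    Prop := ∀ K : Matrix V V F, Stress P X K → K = 0

/-- Derivative of the Gram matrix at `X` in direction `Z`. -/
def dG [CommSemiring F] (X Z : Matrix V (Fin r) F) (i j : V) : F :=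
  ∑ k, (X i k * Z j k + Z i k * X j k)

/-- `Z` does not change the Gram entries on `P` to first order. -/
def Motion [CommSemiring F] (P : V → V → Prop) (X Z : Matrix V (Fin r) F) : Prop :=
  ∀ i j, P i j → dG X Z i j = 0

/-- Infinitesimal rigidity. -/
def InfRigid [CommSemiring F] (P : V → V → Prop) (X : Matrix V (Fin r) F) : Prop :=
  ∀ Z : Matrix V (Fin r) F, Motion P X Z → ∀ i j, dG X Z i j = 0

/-- All entries of `X` are algebraically independent over the rationals. -/
def AlgInd [Field F] [Algebra ℚ F] (X : Matrix V (Fin r) F) : Prop :=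
  AlgebraicIndependent ℚ (fun q : V × Fin r => X q.1 q.2)

/-- The generic configuration over the polynomial ring. -/
noncomputable def XG (V : Type*) (r : ℕ) : Matrix V (Fin r) (MvPolynomial (V × Fin r) ℚ) :=
  Matrix.of (fun i k => MvPolynomial.X (i, k))

/-- The Gram entry of a pair. -/
def gram [CommSemiring F] (X : Matrix V (Fin r) F) (e : Sym2 V) : F :=
  e.lift ⟨fun i j => ∑ k, X i k * X j k, fun i j => by
    simp only
    exact Finset.sum_congr rfl (fun k _ => mul_comm _ _)⟩

end general

/-- Hypotheses on the graph `P` used in the deterministic part. -/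
structure GRH (V : Type) [Fintype V] [DecidableEq V] (P : V → V → Prop) (r : ℕ) : Prop where
  refl : ∀ i, P i i
  symm : ∀ i j, P i j → P j i
  /-- every vertex has at least `r` neighbours -/
  deg : ∀ v, ∃ N : Finset V, r ≤ N.card ∧ ∀ u ∈ N, u ≠ v ∧ P v u
  /-- connected -/
  conn : ∀ S : Set V, S.Nonempty → S ≠ Set.univ → ∃ a ∈ S, ∃ b, b ∉ S ∧ P a b
  /-- after the deletion of any vertex the graph is rigid -/
  rig : ∀ v, ∃ Q : Finset (Sym2 V), (∀ e ∈ Q, v ∉ e) ∧ (∀ i j, s(i, j) ∈ Q → P i j) ∧
    Q.card + r * (r - 1) / 2 = r * (Fintype.card V - 1) ∧ Free (fun i j => s(i, j) ∈ Q) (XG V r)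
  /-- generic infinitesimal rigidity -/
  inf : ∀ X : Matrix V (Fin r) ℝ, AlgInd X → InfRigid P X

/-! ## The generic rank function -/

/-- The field of rational functions in the coordinates of all points. -/
abbrev FK (r : ℕ) : Type := FractionRing (MvPolynomial (ℕ × Fin r) ℚ)

/-- The generic points. -/
noncomputable def gx (r : ℕ) (i : ℕ) (k : Fin r) : FK r :=
  algebraMap (MvPolynomial (ℕ × Fin r) ℚ) (FK r) (MvPolynomial.X (i, k))

/-- Row of the pair `e` at the configuration `x` (derivative of the Gram entry). -/
def row {F : Type*} [Field F] {r : ℕ} (x : ℕ → Fin r → F) (e : Sym2 ℕ) : ℕ × Fin r → F :=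
  e.lift ⟨fun i j => fun q => (if q.1 = i then x j q.2 else 0) + (if q.1 = j then x i q.2 else 0),
    fun i j => by
      funext q
      exact add_comm _ _⟩

/-- The span of the rows of the diagonal pairs. -/
def Dg {F : Type*} [Field F] {r : ℕ} (x : ℕ → Fin r → F) : Submodule F (ℕ × Fin r → F) :=
  Submodule.span F (Set.range (fun i : ℕ => row x s(i, i)))

/-- Rank of a set of pairs modulo the diagonal rows. -/
noncomputable def rk {F : Type*} [Field F] {r : ℕ} (x : ℕ → Fin r → F) (S : Finset (Sym2 ℕ)) : ℕ :=
  Module.finrank F (Submodule.span F ((fun e => (Dg x).mkQ (row x e)) '' (S : Set (Sym2 ℕ))))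

end Pool.Agent.Helper55.ML
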