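import Pool.Agent.Helper55.MLA.I1
import Pool.Agent.Helper55.MLA.AB
import Pool.Agent.Helper55.MLA.B8

set_option autoImplicit false
open Finset Matrix Filter Topology

namespace Pool.Agent.Helper55.ML

/-- I2: `ae_algInd`, `exists_psd_stress` (`n = 0` is trivial). -/
theorem mem_Aset {n r : ℕ} {P : Fin n → Fin n → Prop} (hP : ∀ i j, P i j → P j i)
    (hr : ∀ i, P i i)
    (hfree : ∀ X : Matrix (Fin n) (Fin r) ℝ, AlgInd X → Free P X) : r ∈ Aset n P := by
  change ∀ᵐ X : Fin r → Fin n → ℝ, ∃ K : Matrix (Fin n) (Fin n) ℝ, K.PosDef ∧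
    ∀ i j : Fin n, P i j → K i j = ∑ k, X k i * X k j
  filter_upwards [ae_algInd r n] with X hX
  rcases Nat.eq_zero_or_pos n with hn | hn
  · subst hn
    refine ⟨1, Matrix.PosDef.one, fun i => i.elim0⟩
  · have : Nonempty (Fin n) := ⟨⟨0, hn⟩⟩
    have h1 : AlgInd (Matrix.of (fun (i : Fin n) (k : Fin r) => X k i)) := hX
    by_contra hcon
    obtain ⟨K, hK, _, hK0⟩ := exists_psd_stress hP hr
      (Matrix.of (fun (i : Fin n) (k : Fin r) => X k i)) hcon
    exact hK0 (hfree _ h1 K hK)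

end Pool.Agent.Helper55.ML
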