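import Pool.Agent.Helper55.MLA.AB
import Pool.Agent.Helper55.MLA.B8

set_option autoImplicit false
open Finset Matrix Filter Topology

namespace Pool.Agent.Helper55.ML

/-- coordinate functional -/
private noncomputable def i3_co {n r : ℕ} (i : Fin n) (k : Fin r) :
    (Fin n → Fin r → ℝ) →L[ℝ] ℝ :=
  (ContinuousLinearMap.proj (R := ℝ) (φ := fun _ : Fin r => ℝ) k).comp
    (ContinuousLinearMap.proj (R := ℝ) (φ := fun _ : Fin n => Fin r → ℝ) i)

private theorem i3_co_apply {n r : ℕ} (i : Fin n) (k : Fin r) (Z : Fin n → Fin r → ℝ) :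
    i3_co i k Z = Z i k := rfl

private theorem i3_deriv {n r : ℕ} (X0 : Fin n → Fin r → ℝ) (a b : Fin n) :
    HasStrictFDerivAt (fun Y : Fin n → Fin r → ℝ => ∑ k, Y a k * Y b k)
      (∑ k, (X0 a k • i3_co b k + X0 b k • i3_co a k)) X0 := by
  apply HasStrictFDerivAt.fun_sum
  intro k _
  have h1 : HasStrictFDerivAt (fun Y : Fin n → Fin r → ℝ => Y a k) (i3_co a k) X0 :=
    (i3_co a k).hasStrictFDerivAt
  have h2 : HasStrictFDerivAt (fun Y : Fin n → Fin r → ℝ => Y b k) (i3_co b k) X0 :=
    (i3_co b k).hasStrictFDerivAt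
  exact h1.mul h2

/-- I3 (hint): take an algebraically independent `X0` (`exists_algInd`). The derivative of the map
`Y ↦ (∑ k, Y q.1 k * Y q.2 k)_q` at `X0` is onto, because a linear functional `(c_q)` vanishing on its
range gives the stress `K i j = c_(i,j)` (`i < j`), `K i i = 2 c_(i,i)`. So the map is open at `X0`
(`HasStrictFDerivAt.map_nhds_eq_of_surj`). -/
theorem mem_Bset {n r : ℕ} {P : Fin n → Fin n → Prop} (hP : ∀ i j, P i j → P j i)
    (hfree : ∀ X : Matrix (Fin n) (Fin r) ℝ, AlgInd X → Free P X) : r ∈ Bset n P := by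
  classical
  obtain ⟨x, hx⟩ := exists_algInd (Fin n × Fin r)
  set X0 : Fin n → Fin r → ℝ := fun i k => x (i, k) with hX0
  have hAI : AlgInd (Matrix.of X0) := by
    unfold AlgInd
    exact hx
  have hF := hfree (Matrix.of X0) hAI
  set Q := {q : Fin n × Fin n // q.1 ≤ q.2 ∧ P q.1 q.2} with hQ
  set Ψ : (Fin n → Fin r → ℝ) → Q → ℝ := fun Y q =>
    ∑ k, Y (q : Fin n × Fin n).1 k * Y (q : Fin n × Fin n).2 k with hΨ
  set D : (Fin n → Fin r → ℝ) →L[ℝ] (Q → ℝ) := ContinuousLinearMap.pi fun q : Q =>
    ∑ k, (X0 q.1.1 k • i3_co q.1.2 k + X0 q.1.2 k • i3_co q.1.1 k) with hD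
  have hder : HasStrictFDerivAt Ψ D X0 := by
    rw [hasStrictFDerivAt_pi']
    intro q
    exact i3_deriv X0 q.1.1 q.1.2
  have hDapply : ∀ Z q, D Z q = ∑ k, (X0 q.1.1 k * Z q.1.2 k + X0 q.1.2 k * Z q.1.1 k) := by
    intro Z q
    simp only [hD, ContinuousLinearMap.coe_pi', _root_.sum_apply,
      _root_.add_apply, _root_.smul_apply, i3_co_apply, smul_eq_mul]
  have hsurj : D.range = ⊤ := by
    by_contra hne
    obtain ⟨f, hf0, hfle⟩ := Submodule.exists_le_ker_of_lt_top _ (lt_top_iff_ne_top.2 hne)
    set c : Q → ℝ := fun q => f (Pi.single q 1) with hc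
    have hfv : ∀ v : Q → ℝ, f v = ∑ q, v q * c q := by
      intro v
      rw [LinearMap.pi_apply_eq_sum_univ f v]
      refine Finset.sum_congr rfl fun q _ => ?_
      rw [smul_eq_mul, hc]
      congr 2
      funext j
      by_cases h : q = j
      · subst h; simp
      · simp [h]
    set c' : Fin n × Fin n → ℝ := fun p => if h : p.1 ≤ p.2 ∧ P p.1 p.2 then c ⟨p, h⟩ else 0
      with hc'
    have hzero : ∀ Z : Fin n → Fin r → ℝ, ∑ p : Fin n × Fin n,
        (∑ k, (X0 p.1 k * Z p.2 k + X0 p.2 k * Z p.1 k)) * c' p = 0 := by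
      intro Z
      have h1 : f (D Z) = 0 := hfle ⟨Z, rfl⟩
      rw [hfv] at h1
      rw [← h1]
      have h2 : ∑ p : Fin n × Fin n,
          (∑ k, (X0 p.1 k * Z p.2 k + X0 p.2 k * Z p.1 k)) * c' p =
          ∑ p ∈ Finset.univ.filter (fun p : Fin n × Fin n => p.1 ≤ p.2 ∧ P p.1 p.2),
            (∑ k, (X0 p.1 k * Z p.2 k + X0 p.2 k * Z p.1 k)) * c' p := by
        rw [Finset.sum_filter]
        refine Finset.sum_congr rfl fun p _ => ?_
        by_cases h : p.1 ≤ p.2 ∧ P p.1 p.2
        · rw [if_pos h]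
        · rw [if_neg h]
          simp only [hc']
          rw [dif_neg h, mul_zero]
      rw [h2, Finset.sum_subtype (p := fun p : Fin n × Fin n => p.1 ≤ p.2 ∧ P p.1 p.2)
        (F := inferInstance) _ (by intro p; simp)]
      refine Finset.sum_congr rfl fun q _ => ?_
      rw [hDapply]
      congr 1
      simp only [hc']
      rw [dif_pos q.2]
    set K : Matrix (Fin n) (Fin n) ℝ := Matrix.of fun i j => c' (i, j) + c' (j, i) with hK
    have hKapply : ∀ i j, K i j = c' (i, j) + c' (j, i) := fun i j => rfl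
    have hKs : Stress P (Matrix.of X0) K := by
      refine ⟨⟨?_, ?_⟩, ?_⟩
      · ext i j
        rw [Matrix.transpose_apply, hKapply, hKapply, add_comm]
      · intro i j hij
        rw [hKapply]
        simp only [hc']
        rw [dif_neg (fun h => hij h.2), dif_neg (fun h => hij (hP _ _ h.2)), add_zero]
      · ext i k
        rw [Matrix.mul_apply, Matrix.zero_apply]
        have h3 := hzero (fun a b => if a = i ∧ b = k then 1 else 0)
        rw [← h3]
        have h4 : ∀ p : Fin n × Fin n, (∑ b, (X0 p.1 b * (if p.2 = i ∧ b = k then (1 : ℝ) else 0) +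
            X0 p.2 b * (if p.1 = i ∧ b = k then (1 : ℝ) else 0))) * c' p =
            (if p.2 = i then X0 p.1 k * c' p else 0) + (if p.1 = i then X0 p.2 k * c' p else 0) := by
          intro p
          rw [Finset.sum_add_distrib, add_mul]
          congr 1
          · by_cases h : p.2 = i
            · simp [h]
            · simp [h]
          · by_cases h : p.1 = i
            · simp [h]
            · simp [h]
        rw [Finset.sum_congr rfl (fun p _ => h4 p), Finset.sum_add_distrib,
          Fintype.sum_prod_type, Fintype.sum_prod_type]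
        simp only [Finset.sum_ite_eq', Finset.sum_ite_irrel, Finset.sum_const_zero,
          Finset.mem_univ, if_true]
        have h5 : ∑ x : Fin n, (if x = i then ∑ y, X0 y k * c' (x, y) else 0) =
            ∑ y, X0 y k * c' (i, y) := by simp
        simp only [Matrix.of_apply, hKapply]
        rw [← Finset.sum_add_distrib]
        refine Finset.sum_congr rfl fun j _ => ?_
        ring
    have hK0 := hF K hKs
    apply hf0
    ext q
    have h6 : K q.1.1 q.1.2 = 0 := by rw [hK0]; rfl
    rw [hKapply] at h6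
    have h7 : c' (q.1.1, q.1.2) = c q := by
      simp only [hc']
      rw [dif_pos q.2]
    have h8 : c q = 0 := by
      rcases eq_or_lt_of_le q.2.1 with h | h
      · rw [h] at h6
        have : c' (q.1.2, q.1.2) = c q := by rw [← h7, h]
        rw [this] at h6
        linarith
      · have h9 : c' (q.1.2, q.1.1) = 0 := by
          simp only [hc']
          rw [dif_neg (fun h' => absurd h'.1 (not_le.2 h))]
        rw [h7, h9, add_zero] at h6
        exact h6
    simpa [hc] using h8
  have hmap := hder.map_nhds_eq_of_surj hsurj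
  change (interior (Set.range Ψ)).Nonempty
  refine ⟨Ψ X0, mem_interior_iff_mem_nhds.2 ?_⟩
  rw [← hmap]
  exact Filter.mem_map.2 (Filter.univ_mem' fun Y => Set.mem_range_self Y)

end Pool.Agent.Helper55.ML
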