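import Pool.Agent.Helper55.MLA.AB
import Pool.Agent.Helper55.MLA.D1A

set_option autoImplicit false
open Finset Matrix Filter Topology

namespace Pool.Agent.Helper55.ML

private theorem i4_pairs (r : ℕ) :
    (Finset.univ.filter (fun p : Fin r × Fin r => p.1 < p.2)).card = r * (r - 1) / 2 := by
  have h1 : (Finset.univ.filter (fun p : Fin r × Fin r => p.1 < p.2)).card =
      ∑ t : Fin r, (t : ℕ) := by
    rw [Finset.card_filter, Fintype.sum_prod_type_right]
    refine Finset.sum_congr rfl fun t _ => ?_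
    rw [← Finset.card_filter]
    have : Finset.univ.filter (fun s : Fin r => s < t) = Finset.Iio t := by
      ext s; simp
    rw [this, Fin.card_Iio]
  rw [h1, Fin.sum_univ_eq_sum_range (fun i => i) r, Finset.sum_range_id]

/-- the number of free coordinates in triangular form -/
private theorem i4_card_I {n r : ℕ} (A' : Finset (Fin n)) (e : Fin r → Fin n)
    (he : Function.Injective e) (heA : ∀ s, e s ∈ A') :
    (Finset.univ.filter (fun p : Fin n × Fin r => p.1 ∈ A' ∧ ∀ s, s < p.2 → p.1 ≠ e s)).card +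
      r * (r - 1) / 2 ≤ A'.card * r := by
  classical
  rw [← i4_pairs r]
  have hinj : Function.Injective (fun p : Fin r × Fin r => ((e p.1, p.2) : Fin n × Fin r)) := by
    rintro ⟨a, b⟩ ⟨c, d⟩ h
    simp only [Prod.mk.injEq] at h
    rw [he h.1, h.2]
  rw [← Finset.card_image_of_injective _ hinj, ← Finset.card_union_of_disjoint]
  · have hle : (Finset.univ.filter (fun p : Fin n × Fin r => p.1 ∈ A' ∧ ∀ s, s < p.2 → p.1 ≠ e s)) ∪
        (Finset.univ.filter (fun p : Fin r × Fin r => p.1 < p.2)).image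
          (fun p : Fin r × Fin r => ((e p.1, p.2) : Fin n × Fin r)) ⊆ A' ×ˢ Finset.univ := by
      intro p hp
      rw [Finset.mem_product]
      refine ⟨?_, Finset.mem_univ _⟩
      rcases Finset.mem_union.1 hp with h | h
      · exact (Finset.mem_filter.1 h).2.1
      · obtain ⟨q, -, rfl⟩ := Finset.mem_image.1 h
        exact heA q.1
    have := Finset.card_le_card hle
    rwa [Finset.card_product, Finset.card_univ, Fintype.card_fin] at this
  · rw [Finset.disjoint_left]
    intro p hp hq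
    obtain ⟨q, hq1, rfl⟩ := Finset.mem_image.1 hq
    exact (Finset.mem_filter.1 hp).2.2 q.1 (Finset.mem_filter.1 hq1).2 rfl

/-- the number of pairs inside `A` -/
private theorem i4_card_Q {n : ℕ} {G : Finset (Sym2 ℕ)} (hG : G ⊆ En n) {A : Finset ℕ}
    (hA : A ⊆ range n) : (ins A G).card + A.card ≤
      (Finset.univ.filter (fun q : Fin n × Fin n => (q.1 ≤ q.2 ∧
        (q.1 = q.2 ∨ s((q.1 : ℕ), (q.2 : ℕ)) ∈ G)) ∧ (q.1 : ℕ) ∈ A ∧ (q.2 : ℕ) ∈ A)).card := by
  classical
  have hdi : Function.Injective (fun a : ℕ => s(a, a)) := by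
    intro a b h
    simpa using h
  rw [← Finset.card_image_of_injective A hdi, ← Finset.card_union_of_disjoint]
  · have hsub : ins A G ∪ A.image (fun a : ℕ => s(a, a)) ⊆
        (Finset.univ.filter (fun q : Fin n × Fin n => (q.1 ≤ q.2 ∧
          (q.1 = q.2 ∨ s((q.1 : ℕ), (q.2 : ℕ)) ∈ G)) ∧ (q.1 : ℕ) ∈ A ∧ (q.2 : ℕ) ∈ A)).image
            (fun q => s((q.1 : ℕ), (q.2 : ℕ))) := by
      intro f hf
      rcases Finset.mem_union.1 hf with h | h
      · rw [mem_ins] at h
        obtain ⟨hfG, hfA⟩ := h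
        have hfE := hG hfG
        induction f using Sym2.ind with
        | _ a b =>
          rw [mk_mem_En] at hfE
          have haA := hfA a (Sym2.mem_mk_left a b)
          have hbA := hfA b (Sym2.mem_mk_right a b)
          rw [Finset.mem_image]
          rcases le_total a b with hab | hab
          · refine ⟨(⟨a, hfE.1⟩, ⟨b, hfE.2.1⟩), ?_, rfl⟩
            rw [Finset.mem_filter]
            exact ⟨Finset.mem_univ _, ⟨hab, Or.inr hfG⟩, haA, hbA⟩
          · refine ⟨(⟨b, hfE.2.1⟩, ⟨a, hfE.1⟩), ?_, Sym2.eq_swap⟩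
            rw [Finset.mem_filter]
            refine ⟨Finset.mem_univ _, ⟨hab, Or.inr ?_⟩, hbA, haA⟩
            rw [Sym2.eq_swap]
            exact hfG
      · obtain ⟨a, ha, rfl⟩ := Finset.mem_image.1 h
        have han := Finset.mem_range.1 (hA ha)
        rw [Finset.mem_image]
        refine ⟨(⟨a, han⟩, ⟨a, han⟩), ?_, rfl⟩
        rw [Finset.mem_filter]
        exact ⟨Finset.mem_univ _, ⟨le_rfl, Or.inl rfl⟩, ha, ha⟩
    exact (Finset.card_le_card hsub).trans Finset.card_image_le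
  · rw [Finset.disjoint_left]
    intro f hf hf'
    obtain ⟨a, -, rfl⟩ := Finset.mem_image.1 hf'
    exact (mk_mem_En.1 (hG (ins_subset A G hf))).2.2 rfl

/-- I4 (hint). Project the coordinates to the pairs inside `A` (an open map). The Gram image of the points
of `A` is the image of the configurations with `Y' (e s) t = 0` for `s < t` (`exists_triangular`, `e` an
enumeration of `r` elements of `A`; `r ≤ |A|`), a space of dimension `r |A| - r(r-1)/2`, smaller than the
number of pairs: `ContDiff.dense_compl_range_of_finrank_lt_finrank`. -/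
theorem not_mem_Bset {n r : ℕ} {G : Finset (Sym2 ℕ)} (hG : G ⊆ En n) {A : Finset ℕ}
    (hA : A ⊆ range n) (hrA : r ≤ A.card)
    (h : r * A.card + 1 ≤ (ins A G).card + A.card + r * (r - 1) / 2) :
    r ∉ Bset n (fun i j => i = j ∨ s((i : ℕ), (j : ℕ)) ∈ G) := by
  classical
  set P : Fin n → Fin n → Prop := fun i j => i = j ∨ s((i : ℕ), (j : ℕ)) ∈ G with hP
  set A' : Finset (Fin n) := Finset.univ.filter (fun i : Fin n => (i : ℕ) ∈ A) with hA'
  have hcardA : A'.card = A.card := by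
    have h1 : A'.image (fun i : Fin n => (i : ℕ)) = A := by
      ext a
      rw [Finset.mem_image]
      constructor
      · rintro ⟨i, hi, rfl⟩
        exact (Finset.mem_filter.1 hi).2
      · intro ha
        exact ⟨⟨a, Finset.mem_range.1 (hA ha)⟩, Finset.mem_filter.2 ⟨Finset.mem_univ _, ha⟩, rfl⟩
    rw [← h1, Finset.card_image_of_injective _ Fin.val_injective]
  -- an enumeration of `r` elements of `A`
  obtain ⟨B, hBA, hBr⟩ := Finset.exists_subset_card_eq (show r ≤ A'.card by rw [hcardA]; exact hrA)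
  set e : Fin r → Fin n := fun s => (B.orderEmbOfFin hBr) s with he
  have he_inj : Function.Injective e := (B.orderEmbOfFin hBr).injective
  have heA : ∀ s, e s ∈ A' := fun s => hBA (B.orderEmbOfFin_mem hBr s)
  -- index types
  set QA := {q : Fin n × Fin n // (q.1 ≤ q.2 ∧ P q.1 q.2) ∧ (q.1 : ℕ) ∈ A ∧ (q.2 : ℕ) ∈ A}
    with hQA
  set I := {p : Fin n × Fin r // p.1 ∈ A' ∧ ∀ s, s < p.2 → p.1 ≠ e s} with hI
  set Yc : (I → ℝ) → Fin n → Fin r → ℝ := fun z a t =>
    if hp : (a, t).1 ∈ A' ∧ ∀ s, s < (a, t).2 → (a, t).1 ≠ e s then z ⟨(a, t), hp⟩ else 0 with hYc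
  set Φ : (I → ℝ) → QA → ℝ := fun z q => ∑ k, Yc z q.1.1 k * Yc z q.1.2 k with hΦ
  have hYsm : ∀ a t, ContDiff ℝ 1 (fun z => Yc z a t) := by
    intro a t
    by_cases hp : (a, t).1 ∈ A' ∧ ∀ s, s < (a, t).2 → (a, t).1 ≠ e s
    · have : (fun z => Yc z a t) = fun z : I → ℝ => z ⟨(a, t), hp⟩ := by
        funext z
        simp only [hYc]
        rw [dif_pos hp]
      rw [this]
      exact contDiff_apply ℝ ℝ _
    · have : (fun z => Yc z a t) = fun _ : I → ℝ => (0 : ℝ) := by
        funext z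
        simp only [hYc]
        rw [dif_neg hp]
      rw [this]
      exact contDiff_const
  have hΦsm : ContDiff ℝ 1 Φ := by
    rw [contDiff_pi]
    intro q
    exact ContDiff.sum fun k _ => (hYsm _ _).mul (hYsm _ _)
  have hdim : Module.finrank ℝ (I → ℝ) < Module.finrank ℝ (QA → ℝ) := by
    rw [Module.finrank_fintype_fun_eq_card, Module.finrank_fintype_fun_eq_card]
    have h1 := i4_card_I A' e he_inj heA
    have h2 := i4_card_Q hG hA
    have h3 : Fintype.card I =
        (Finset.univ.filter (fun p : Fin n × Fin r => p.1 ∈ A' ∧ ∀ s, s < p.2 → p.1 ≠ e s)).card :=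
      Fintype.card_subtype _
    have h4 : Fintype.card QA =
        (Finset.univ.filter (fun q : Fin n × Fin n => (q.1 ≤ q.2 ∧
          (q.1 = q.2 ∨ s((q.1 : ℕ), (q.2 : ℕ)) ∈ G)) ∧ (q.1 : ℕ) ∈ A ∧ (q.2 : ℕ) ∈ A)).card :=
      Fintype.card_subtype _
    rw [h3, h4]
    rw [hcardA] at h1
    have h5 : A.card * r = r * A.card := mul_comm _ _
    omega
  have hdense : Dense (Set.range Φ)ᶜ :=
    ContDiff.dense_compl_range_of_finrank_lt_finrank hΦsm hdim
  -- the projection to the pairs inside `A`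
  set Q := {q : Fin n × Fin n // q.1 ≤ q.2 ∧ P q.1 q.2} with hQ
  set ρ : (Q → ℝ) →L[ℝ] (QA → ℝ) := ContinuousLinearMap.pi fun q : QA =>
    ContinuousLinearMap.proj (R := ℝ) (φ := fun _ : Q => ℝ) (⟨q.1, q.2.1⟩ : Q) with hρ
  have hρa : ∀ v q, ρ v q = v ⟨q.1, q.2.1⟩ := fun v q => rfl
  have hρs : Function.Surjective ρ := by
    intro w
    refine ⟨fun q => if hq : (q.1.1 : ℕ) ∈ A ∧ (q.1.2 : ℕ) ∈ A then w ⟨q.1, q.2, hq⟩ else 0, ?_⟩
    funext q
    rw [hρa, dif_pos q.2.2]
  have hopen : IsOpenMap ρ := ρ.isOpenMap hρs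
  have hdense2 : Dense (ρ ⁻¹' (Set.range Φ)ᶜ) := hdense.preimage hopen
  intro hB
  unfold Bset at hB
  rw [Set.mem_setOf_eq] at hB
  obtain ⟨v, hv⟩ := hB
  obtain ⟨u, hu1, hu2⟩ := hdense2.inter_open_nonempty _ isOpen_interior ⟨v, hv⟩
  obtain ⟨Y, hY⟩ := interior_subset hu1
  apply hu2
  obtain ⟨Y', hY'1, hY'2⟩ := exists_triangular (Matrix.of Y) e
  refine ⟨fun i => Y' i.1.1 i.1.2, ?_⟩
  have hYY : ∀ a, a ∈ A' → ∀ t, Yc (fun i => Y' i.1.1 i.1.2) a t = Y' a t := by
    intro a ha t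
    simp only [hYc]
    by_cases hp : (a, t).1 ∈ A' ∧ ∀ s, s < (a, t).2 → (a, t).1 ≠ e s
    · rw [dif_pos hp]
    · rw [dif_neg hp]
      push Not at hp
      obtain ⟨s, hs1, hs2⟩ := hp ha
      have := hY'2 s t hs1
      rw [← hs2] at this
      exact this.symm
  funext q
  rw [hρa, ← hY]
  simp only [hΦ]
  have hq1 : q.1.1 ∈ A' := Finset.mem_filter.2 ⟨Finset.mem_univ _, q.2.2.1⟩
  have hq2 : q.1.2 ∈ A' := Finset.mem_filter.2 ⟨Finset.mem_univ _, q.2.2.2⟩
  have h6 := hY'1 q.1.1 q.1.2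
  simp only [Matrix.of_apply] at h6
  rw [← h6]
  exact Finset.sum_congr rfl fun k _ => by rw [hYY _ hq1, hYY _ hq2]

end Pool.Agent.Helper55.ML
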