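import Pool.Agent.Helper55.MLA.Defs

set_option autoImplicit false
open Finset Matrix Filter Topology

namespace Pool.Agent.Helper55.ML

/-- The bilinear value of a matrix. -/
private def i1q {V : Type} [Fintype V] (M : Matrix V V ℝ) (x : V → ℝ) : ℝ :=
  ∑ i, ∑ j, x i * M i j * x j

private theorem i1q_eq {V : Type} [Fintype V] (M : Matrix V V ℝ) (x : V → ℝ) :
    (Star.star x) ⬝ᵥ (M *ᵥ x) = i1q M x := by
  simp only [dotProduct, mulVec, i1q, Finset.mul_sum, star_trivial, Pi.star_apply]
  refine Finset.sum_congr rfl (fun i _ => Finset.sum_congr rfl (fun j _ => by ring))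

private theorem i1q_smul {V : Type} [Fintype V] (M : Matrix V V ℝ) (x : V → ℝ) (a : ℝ) :
    i1q M (a • x) = a ^ 2 * i1q M x := by
  simp only [i1q, Finset.mul_sum, Pi.smul_apply, smul_eq_mul]
  refine Finset.sum_congr rfl (fun i _ => Finset.sum_congr rfl (fun j _ => by ring))

private theorem i1q_add {V : Type} [Fintype V] (M N : Matrix V V ℝ) (x : V → ℝ) :
    i1q (M + N) x = i1q M x + i1q N x := by
  simp only [i1q, Matrix.add_apply, mul_add, add_mul, Finset.sum_add_distrib]

private theorem i1q_smul' {V : Type} [Fintype V] (M : Matrix V V ℝ) (x : V → ℝ) (a : ℝ) :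
    i1q (a • M) x = a * i1q M x := by
  simp only [i1q, Matrix.smul_apply, smul_eq_mul, Finset.mul_sum]
  refine Finset.sum_congr rfl (fun i _ => Finset.sum_congr rfl (fun j _ => by ring))

private theorem i1q_transpose {V : Type} [Fintype V] (M : Matrix V V ℝ) (x : V → ℝ) :
    i1q Mᵀ x = i1q M x := by
  simp only [i1q, Matrix.transpose_apply]
  rw [Finset.sum_comm]
  refine Finset.sum_congr rfl (fun i _ => Finset.sum_congr rfl (fun j _ => by ring))

private theorem i1q_cont {V : Type} [Fintype V] :
    Continuous (fun z : Matrix V V ℝ × (V → ℝ) => i1q z.1 z.2) := by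
  unfold i1q
  refine continuous_finsetSum _ (fun i _ => continuous_finsetSum _ (fun j _ => ?_))
  have h1 : Continuous (fun z : Matrix V V ℝ × (V → ℝ) => z.2 i) :=
    (continuous_apply i).comp continuous_snd
  have h2 : Continuous (fun z : Matrix V V ℝ × (V → ℝ) => z.2 j) :=
    (continuous_apply j).comp continuous_snd
  have h3 : Continuous (fun z : Matrix V V ℝ × (V → ℝ) => z.1 i j) :=
    (continuous_apply_apply i j).comp continuous_fst
  exact (h1.mul h3).mul h2

private theorem i1_open {V : Type} [Fintype V] :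
    IsOpen {M : Matrix V V ℝ | ∀ x : V → ℝ, x ≠ 0 → 0 < i1q M x} := by
  rw [isOpen_iff_eventually]
  intro M hM
  have hK : IsCompact (Metric.sphere (0 : V → ℝ) 1) := isCompact_sphere 0 1
  have h1 : ∀ᶠ N in 𝓝 M, ∀ y ∈ Metric.sphere (0 : V → ℝ) 1, 0 < i1q N y := by
    apply hK.eventually_forall_of_forall_eventually
    intro y hy
    have hy0 : y ≠ 0 := by
      rintro rfl
      simp at hy
    have h2 : 0 < i1q M y := hM y hy0
    exact (i1q_cont.continuousAt (x := (M, y))).eventually_const_lt h2
  refine h1.mono (fun N hN => ?_)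
  intro x hx
  have hx' : 0 < ‖x‖ := norm_pos_iff.mpr hx
  have h3 : ‖x‖⁻¹ • x ∈ Metric.sphere (0 : V → ℝ) 1 := by
    rw [mem_sphere_zero_iff_norm, norm_smul, norm_inv, norm_norm]
    exact inv_mul_cancel₀ hx'.ne'
  have h4 := hN _ h3
  rw [i1q_smul] at h4
  by_contra hcon
  push Not at hcon
  have h5 : (‖x‖⁻¹) ^ 2 * i1q N x ≤ 0 := mul_nonpos_of_nonneg_of_nonpos (by positivity) hcon
  linarith

open scoped ComplexOrder MatrixOrder Matrix.Norms.L2Operator in
private theorem i1_factor {V : Type} [Fintype V] [DecidableEq V] {K : Matrix V V ℝ}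
    (h : K.PosSemidef) : ∃ B : Matrix V V ℝ, K = Bᴴ * B := by
  obtain ⟨B, hB⟩ := CStarAlgebra.nonneg_iff_eq_star_mul_self.mp h.nonneg
  exact ⟨B, hB⟩

/-- I1 (separation; hint). The set of positive definite matrices is open and convex (in the space of
symmetric matrices), the set of symmetric matrices agreeing with `X Xᵀ` on `P` is a nonempty affine
subspace disjoint from it; `geometric_hahn_banach_open` gives a functional `M ↦ -∑ K i j M i j`
(`K` symmetric) that is smaller on the positive definite matrices; it is constant on the affine subspace,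
so `K` is supported on `P` (`hP`: test with the matrix with entries one at `(i,j)`, `(j,i)`); scaling the
positive definite matrices by `s → ∞` and `s → 0` gives `K` positive semidefinite and
`∑ K i j (X Xᵀ) i j ≤ 0`, so `K X = 0`; `K ≠ 0`. Functionals on `Matrix V V ℝ` are
`M ↦ ∑ L i j M i j`; symmetrise `L`. To have an open set work with all matrices `M` and the open convex set
`{M | ∀ x ≠ 0, 0 < xᵀ M x}` (symmetric part positive definite), or with the submodule of symmetric
matrices. -/
theorem exists_psd_stress {V : Type} [Fintype V] [DecidableEq V] [Nonempty V] {P : V → V → Prop}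
    (hP : ∀ i j, P i j → P j i) (hr : ∀ i, P i i) {r : ℕ} (X : Matrix V (Fin r) ℝ)
    (h : ¬ ∃ K : Matrix V V ℝ, K.PosDef ∧ ∀ i j, P i j → K i j = ∑ k, X i k * X j k) :
    ∃ K : Matrix V V ℝ, Stress P X K ∧ K.PosSemidef ∧ K ≠ 0 := by
  classical
  set S : Set (Matrix V V ℝ) := {M | ∀ x : V → ℝ, x ≠ 0 → 0 < i1q M x} with hS
  set G : Matrix V V ℝ := Matrix.of (fun i j => ∑ k, X i k * X j k) with hG
  have hGa : ∀ i j, G i j = ∑ k, X i k * X j k := fun i j => rfl
  have hGs : ∀ i j, G i j = G j i := by
    intro i j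
    rw [hGa, hGa]
    exact Finset.sum_congr rfl (fun k _ => mul_comm _ _)
  set T : Set (Matrix V V ℝ) := {M | ∀ i j, P i j → M i j = G i j} with hT
  have hSc : Convex ℝ S := by
    intro M hM N hN a b ha hb hab
    intro x hx
    rw [i1q_add, i1q_smul', i1q_smul']
    have h1 := hM x hx
    have h2 := hN x hx
    rcases ha.lt_or_eq with ha' | ha'
    · have : 0 ≤ b * i1q N x := by positivity
      have : 0 < a * i1q M x := by positivity
      linarith
    · have hb1 : b = 1 := by linarith
      rw [← ha', hb1]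
      linarith
  have hTc : Convex ℝ T := by
    intro M hM N hN a b ha hb hab
    intro i j hij
    have h1 := hM i j hij
    have h2 := hN i j hij
    simp only [Matrix.add_apply, Matrix.smul_apply, smul_eq_mul]
    rw [h1, h2, ← add_mul, hab, one_mul]
  have hdisj : Disjoint S T := by
    rw [Set.disjoint_left]
    intro M hMS hMT
    apply h
    refine ⟨(1 / 2 : ℝ) • (M + Mᵀ), ?_, ?_⟩
    · apply Matrix.PosDef.of_dotProduct_mulVec_pos
      · ext i j
        simp only [Matrix.conjTranspose_apply, Matrix.smul_apply, Matrix.add_apply,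
          Matrix.transpose_apply, star_trivial, smul_eq_mul]
        ring
      · intro x hx
        rw [i1q_eq, i1q_smul', i1q_add, i1q_transpose]
        have := hMS x hx
        linarith
    · intro i j hij
      simp only [Matrix.smul_apply, Matrix.add_apply, Matrix.transpose_apply, smul_eq_mul]
      rw [hMT i j hij, hMT j i (hP i j hij), ← hGa, hGs j i]
      ring
  obtain ⟨f, u, hf1, hf2⟩ := geometric_hahn_banach_open hSc i1_open hTc hdisj
  set L : Matrix V V ℝ := Matrix.of (fun i j => f (Matrix.single i j 1)) with hL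
  have hfL : ∀ M : Matrix V V ℝ, f M = ∑ i, ∑ j, L i j * M i j := by
    intro M
    conv_lhs => rw [Matrix.matrix_eq_sum_single M]
    simp only [map_sum]
    refine Finset.sum_congr rfl (fun i _ => Finset.sum_congr rfl (fun j _ => ?_))
    have : Matrix.single i j (M i j) = (M i j) • Matrix.single i j (1 : ℝ) := by
      rw [Matrix.smul_single, smul_eq_mul, mul_one]
    rw [this, map_smul, smul_eq_mul, mul_comm]
    rfl
  have hfG : u ≤ f G := hf2 G (fun i j _ => rfl)
  have hLsupp : ∀ i j, ¬ P i j → L i j = 0 := by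
    intro i j hij
    have h1 : ∀ t : ℝ, u ≤ f G + t * L i j := by
      intro t
      have h2 : G + t • Matrix.single i j (1 : ℝ) ∈ T := by
        intro a b hab
        have : ¬ (i = a ∧ j = b) := by
          rintro ⟨rfl, rfl⟩
          exact hij hab
        rw [Matrix.add_apply, Matrix.smul_apply, Matrix.single_apply, if_neg this]
        simp
      have h3 := hf2 _ h2
      rw [map_add, map_smul, smul_eq_mul] at h3
      exact h3
    by_contra hne
    have h2 := h1 ((u - f G - 1) / L i j)
    rw [div_mul_cancel₀ _ hne] at h2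
    linarith
  have hscale : ∀ M ∈ S, ∀ s : ℝ, 0 < s → s * f M < u := by
    intro M hM s hs
    have h1 : s • M ∈ S := by
      intro x hx
      rw [i1q_smul']
      exact mul_pos hs (hM x hx)
    have h2 := hf1 _ h1
    rwa [map_smul, smul_eq_mul] at h2
  have h1S : (1 : Matrix V V ℝ) ∈ S := by
    intro x hx
    have hq : i1q (1 : Matrix V V ℝ) x = ∑ i, x i * x i := by
      unfold i1q
      refine Finset.sum_congr rfl (fun i _ => ?_)
      rw [Finset.sum_eq_single i]
      · rw [Matrix.one_apply_eq]; ring
      · intro j _ hj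
        rw [Matrix.one_apply_ne hj.symm]; ring
      · intro hh; exact absurd (Finset.mem_univ i) hh
    rw [hq]
    obtain ⟨i, hi⟩ : ∃ i, x i ≠ 0 := by
      by_contra hcon
      push Not at hcon
      exact hx (funext hcon)
    exact Finset.sum_pos' (fun i _ => mul_self_nonneg _) ⟨i, Finset.mem_univ _,
      mul_self_pos.mpr hi⟩
  have hu0 : 0 ≤ u := by
    by_contra hcon
    push Not at hcon
    -- s * f 1 < u < 0 for all s > 0
    by_cases hf0 : f 1 = 0
    · have := hscale 1 h1S 1 one_pos
      rw [hf0] at this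
      have h5 := hscale 1 h1S 1 one_pos
      rw [hf0, mul_zero] at h5
      have h6 := hfG
      -- use scaling of G : not available, use s small with f 1 = 0 : 0 < u
      linarith
    · have hpos : 0 < |f 1| := abs_pos.mpr hf0
      have hnu : 0 < -u := by linarith
      have h5 := hscale 1 h1S ((-u) / (2 * |f 1|)) (by positivity)
      have h6 : -(|f 1|) ≤ f 1 := neg_abs_le _
      have h7 : (-u) / (2 * |f 1|) * (-(|f 1|)) ≤ (-u) / (2 * |f 1|) * f 1 :=
        mul_le_mul_of_nonneg_left h6 (by positivity)
      have h8 : (-u) / (2 * |f 1|) * (-(|f 1|)) = u / 2 := by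
        field_simp
      linarith
  have hfS : ∀ M ∈ S, f M ≤ 0 := by
    intro M hM
    by_contra hcon
    push Not at hcon
    have h5 := hscale M hM ((u + 1) / f M) (by positivity)
    rw [div_mul_cancel₀ _ hcon.ne'] at h5
    linarith
  set K : Matrix V V ℝ := (-(1 / 2) : ℝ) • (L + Lᵀ) with hK
  have hKsymm : K.IsSymm := by
    ext i j
    simp only [hK, Matrix.transpose_apply, Matrix.smul_apply, Matrix.add_apply, smul_eq_mul]
    ring
  have hKL : ∀ M : Matrix V V ℝ, (∀ i j, M i j = M j i) →
      ∑ i, ∑ j, K i j * M i j = - f M := by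
    intro M hM
    rw [hfL]
    have e1 : ∑ i, ∑ j, L j i * M i j = ∑ i, ∑ j, L i j * M i j := by
      rw [Finset.sum_comm]
      exact Finset.sum_congr rfl (fun i _ => Finset.sum_congr rfl (fun j _ => by rw [hM]))
    have e2 : ∑ i, ∑ j, K i j * M i j
        = (-(1 / 2) : ℝ) * (∑ i, ∑ j, L i j * M i j + ∑ i, ∑ j, L j i * M i j) := by
      rw [← Finset.sum_add_distrib, Finset.mul_sum]
      refine Finset.sum_congr rfl (fun i _ => ?_)
      rw [← Finset.sum_add_distrib, Finset.mul_sum]
      refine Finset.sum_congr rfl (fun j _ => ?_)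
      simp only [hK, Matrix.transpose_apply, Matrix.smul_apply, Matrix.add_apply, smul_eq_mul]
      ring
    rw [e2, e1]
    ring
  have hKq : ∀ x : V → ℝ, i1q K x = - f (Matrix.of (fun i j => x i * x j)) := by
    intro x
    rw [← hKL _ (fun i j => by simp only [Matrix.of_apply]; ring)]
    unfold i1q
    refine Finset.sum_congr rfl (fun i _ => Finset.sum_congr rfl (fun j _ => ?_))
    simp only [Matrix.of_apply]
    ring
  have hKnn : ∀ x : V → ℝ, 0 ≤ i1q K x := by
    intro x
    rw [hKq]
    have h9 : ∀ ε : ℝ, 0 < ε → f (Matrix.of (fun i j => x i * x j)) + ε * f 1 ≤ 0 := by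
      intro ε hε
      have h10 : Matrix.of (fun i j => x i * x j) + ε • (1 : Matrix V V ℝ) ∈ S := by
        intro y hy
        rw [i1q_add, i1q_smul']
        have h11 : i1q (Matrix.of (fun i j => x i * x j)) y = (∑ i, y i * x i) ^ 2 := by
          unfold i1q
          rw [sq, Finset.sum_mul_sum]
          refine Finset.sum_congr rfl (fun i _ => Finset.sum_congr rfl (fun j _ => ?_))
          simp only [Matrix.of_apply]
          ring
        rw [h11]
        have h12 := h1S y hy
        have h13 : 0 < ε * i1q 1 y := mul_pos hε h12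
        positivity
      have := hfS _ h10
      rwa [map_add, map_smul, smul_eq_mul] at this
    by_contra hcon
    push Not at hcon
    have hp : 0 < f (Matrix.of (fun i j => x i * x j)) := by linarith
    have h14 : 0 < |f 1| + 1 := by positivity
    have h15 := h9 (f (Matrix.of (fun i j => x i * x j)) / (2 * (|f 1| + 1))) (by positivity)
    have h6 : -(|f 1| + 1) ≤ f 1 := by
      have := neg_abs_le (f 1)
      linarith
    have h7 : f (Matrix.of (fun i j => x i * x j)) / (2 * (|f 1| + 1)) * (-(|f 1| + 1))
        ≤ f (Matrix.of (fun i j => x i * x j)) / (2 * (|f 1| + 1)) * f 1 :=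
      mul_le_mul_of_nonneg_left h6 (by positivity)
    have h8 : f (Matrix.of (fun i j => x i * x j)) / (2 * (|f 1| + 1)) * (-(|f 1| + 1))
        = - (f (Matrix.of (fun i j => x i * x j)) / 2) := by
      field_simp
    linarith
  have hKpsd : K.PosSemidef := by
    apply Matrix.PosSemidef.of_dotProduct_mulVec_nonneg
    · rw [Matrix.IsHermitian, Matrix.conjTranspose_eq_transpose_of_trivial]
      exact hKsymm
    · intro x
      rw [i1q_eq]
      exact hKnn x
  have hKG : ∑ i, ∑ j, K i j * G i j ≤ 0 := by
    rw [hKL G hGs]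
    linarith
  have hsum : ∑ i, ∑ j, K i j * G i j = ∑ k, i1q K (fun i => X i k) := by
    unfold i1q
    have e1 : ∀ i, ∑ j, K i j * G i j = ∑ k, ∑ j, X i k * K i j * X j k := by
      intro i
      rw [Finset.sum_comm]
      refine Finset.sum_congr rfl (fun j _ => ?_)
      rw [hGa, Finset.mul_sum]
      exact Finset.sum_congr rfl (fun k _ => by ring)
    rw [Finset.sum_congr rfl (fun i _ => e1 i), Finset.sum_comm]
  have hzero : ∀ k, i1q K (fun i => X i k) = 0 := by
    have hs0 : ∑ k, i1q K (fun i => X i k) = 0 := by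
      apply le_antisymm
      · rw [← hsum]; exact hKG
      · exact Finset.sum_nonneg (fun k _ => hKnn _)
    intro k
    exact (Finset.sum_eq_zero_iff_of_nonneg (fun k _ => hKnn _)).mp hs0 k (Finset.mem_univ k)
  refine ⟨K, ⟨⟨hKsymm, ?_⟩, ?_⟩, hKpsd, ?_⟩
  · intro i j hij
    have hji : ¬ P j i := fun hh => hij (hP j i hh)
    simp only [hK, Matrix.transpose_apply, Matrix.smul_apply, Matrix.add_apply, smul_eq_mul]
    rw [hLsupp i j hij, hLsupp j i hji]
    ring
  · ext i k
    have h1 : K *ᵥ (fun i => X i k) = 0 := by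
      rw [← hKpsd.dotProduct_mulVec_zero_iff, i1q_eq]
      exact hzero k
    have h2 := congrFun h1 i
    simpa [Matrix.mul_apply, Matrix.mulVec, dotProduct] using h2
  · intro hK0
    have h1 : f 1 = 0 := by
      have := hKL 1 (fun i j => by rw [Matrix.one_apply, Matrix.one_apply]; simp only [eq_comm])
      rw [hK0] at this
      simp at this
      linarith
    have h2 : f G = 0 := by
      have := hKL G hGs
      rw [hK0] at this
      simp at this
      linarith
    have h3 := hf1 1 h1S
    linarith

/-- The converse obstruction (hint): `0 = ∑ K (X Xᵀ) = ∑ K M > 0`. -/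
theorem no_completion_of_psd_stress {V : Type} [Fintype V] [DecidableEq V] {P : V → V → Prop}
    {r : ℕ} {X : Matrix V (Fin r) ℝ} {K : Matrix V V ℝ} (hK : Stress P X K)
    (hpsd : K.PosSemidef) (h0 : K ≠ 0) :
    ¬ ∃ M : Matrix V V ℝ, M.PosDef ∧ ∀ i j, P i j → M i j = ∑ k, X i k * X j k := by
  classical
  rintro ⟨M, hM, hMP⟩
  obtain ⟨⟨hKs, hKsupp⟩, hKX⟩ := hK
  -- tr (K M) = 0
  have h1 : ∑ i, ∑ j, K i j * M i j = 0 := by
    have e1 : ∑ i, ∑ j, K i j * M i j = ∑ i, ∑ j, K i j * ∑ k, X i k * X j k := by
      refine Finset.sum_congr rfl (fun i _ => Finset.sum_congr rfl (fun j _ => ?_))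
      by_cases hij : P i j
      · rw [hMP i j hij]
      · rw [hKsupp i j hij]; ring
    rw [e1]
    have e2 : ∀ i, ∑ j, K i j * ∑ k, X i k * X j k = ∑ k, X i k * (K * X) i k := by
      intro i
      simp only [Matrix.mul_apply, Finset.mul_sum]
      rw [Finset.sum_comm]
      exact Finset.sum_congr rfl (fun k _ => Finset.sum_congr rfl (fun j _ => by ring))
    rw [Finset.sum_congr rfl (fun i _ => e2 i), hKX]
    simp
  -- K = Bᵀ B
  obtain ⟨B, hB⟩ := i1_factor hpsd
  have hKe : ∀ i j, K i j = ∑ k, B k i * B k j := by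
    intro i j
    rw [hB, Matrix.mul_apply]
    simp [Matrix.conjTranspose_apply]
  have h2 : ∑ i, ∑ j, K i j * M i j = ∑ k, i1q M (fun i => B k i) := by
    unfold i1q
    have e1 : ∀ i, ∑ j, K i j * M i j = ∑ k, ∑ j, B k i * M i j * B k j := by
      intro i
      rw [Finset.sum_comm]
      refine Finset.sum_congr rfl (fun j _ => ?_)
      rw [hKe, Finset.sum_mul]
      exact Finset.sum_congr rfl (fun k _ => by ring)
    rw [Finset.sum_congr rfl (fun i _ => e1 i), Finset.sum_comm]
  have hMpos : ∀ x : V → ℝ, x ≠ 0 → 0 < i1q M x := by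
    intro x hx
    rw [← i1q_eq]
    exact hM.dotProduct_mulVec_pos hx
  have hMnn : ∀ x : V → ℝ, 0 ≤ i1q M x := by
    intro x
    by_cases hx : x = 0
    · subst hx
      simp [i1q]
    · exact (hMpos x hx).le
  have h3 : ∑ k, i1q M (fun i => B k i) = 0 := by rw [← h2, h1]
  have h4 : ∀ k, (fun i => B k i) = 0 := by
    intro k
    by_contra hne
    have h5 := (Finset.sum_eq_zero_iff_of_nonneg (fun k _ => hMnn _)).mp h3 k (Finset.mem_univ k)
    have h6 := hMpos _ hne
    linarith
  apply h0
  ext i j
  rw [hKe]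
  simp only [Matrix.zero_apply]
  refine Finset.sum_eq_zero (fun k _ => ?_)
  have := congrFun (h4 k) i
  simp only [Pi.zero_apply] at this
  rw [this, zero_mul]

end Pool.Agent.Helper55.ML
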