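import Pool.Agent.Helper55.MLA.Defs

set_option autoImplicit false
open Finset Matrix Filter Topology

namespace Pool.Agent.Helper55.ML

/-- V7 (constant rank; hint). Choose `A : F →ₗ (Fin ρ → ℝ)`, `ρ = rank (L x1)`, with `A ∘ L x1` onto, and a
right inverse `B` of `A ∘ L x1`. For `x` near `x1`: `A (L x) B` is near the identity, so invertible;
`κ(x) = κ1 - B (A (L x) B)⁻¹ (A (L x) κ1)` is killed by `A ∘ L x`, whose kernel equals the kernel of `L x`
by the rank condition. -/
theorem exists_kernel_selection {X E F : Type} [TopologicalSpace X] [NormedAddCommGroup E]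
    [NormedSpace ℝ E] [FiniteDimensional ℝ E] [NormedAddCommGroup F] [NormedSpace ℝ F]
    [FiniteDimensional ℝ F] (L : X → E →L[ℝ] F) {x1 : X} (hL : ContinuousAt L x1)
    (hrank : ∀ᶠ x in 𝓝 x1, Module.finrank ℝ (LinearMap.range (L x).toLinearMap) ≤
      Module.finrank ℝ (LinearMap.range (L x1).toLinearMap))
    {κ1 : E} (hκ : L x1 κ1 = 0) :
    ∃ κ : X → E, ContinuousAt κ x1 ∧ κ x1 = κ1 ∧ ∀ᶠ x in 𝓝 x1, L x (κ x) = 0 := by
  classical
  set R : Submodule ℝ F := LinearMap.range (L x1).toLinearMap with hR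
  obtain ⟨W, hW⟩ := Submodule.exists_isCompl (LinearMap.ker (L x1).toLinearMap)
  obtain ⟨A0, hA0⟩ := LinearMap.exists_leftInverse_of_injective R.subtype
    (LinearMap.ker_eq_bot.2 R.injective_subtype)
  have hA0' : ∀ y : R, A0 (y : F) = y := fun y => by
    have := LinearMap.congr_fun hA0 y
    simpa using this
  let A : F →L[ℝ] R := LinearMap.toContinuousLinearMap A0
  have hAeq : ∀ y : F, A y = A0 y := fun y => rfl
  let M : X → (W →L[ℝ] R) := fun x => A.comp ((L x).comp W.subtypeL)
  have hMapp : ∀ x (w : W), M x w = A (L x (w : E)) := fun x w => rfl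
  have hMc : ContinuousAt M x1 := by
    have h1 : ContinuousAt (fun x => (L x).comp W.subtypeL) x1 :=
      hL.clm_comp continuousAt_const
    exact continuousAt_const.clm_comp h1
  have hbij : Function.Bijective (M x1).toLinearMap := by
    constructor
    · rw [injective_iff_map_eq_zero]
      intro w hw
      have h1 : A (L x1 (w : E)) = 0 := hw
      have h2 : L x1 (w : E) ∈ R := ⟨(w : E), rfl⟩
      have h3 : A0 (L x1 (w : E)) = ⟨L x1 (w : E), h2⟩ := hA0' ⟨L x1 (w : E), h2⟩
      rw [hAeq, h3] at h1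
      have h4 : L x1 (w : E) = 0 := congrArg Subtype.val h1
      have h5 : (w : E) ∈ LinearMap.ker (L x1).toLinearMap := h4
      have h6 : (w : E) ∈ LinearMap.ker (L x1).toLinearMap ⊓ W := ⟨h5, w.2⟩
      rw [hW.inf_eq_bot] at h6
      exact Subtype.ext ((Submodule.mem_bot ℝ).1 h6)
    · intro y
      obtain ⟨u, hu⟩ := y.2
      have hu' : u ∈ LinearMap.ker (L x1).toLinearMap ⊔ W := by
        rw [hW.sup_eq_top]; trivial
      obtain ⟨a, ha, b, hb, rfl⟩ := Submodule.mem_sup.1 hu'
      refine ⟨⟨b, hb⟩, ?_⟩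
      have ha' : L x1 a = 0 := ha
      have h1 : L x1 b = (y : F) := by
        have : L x1 (a + b) = (y : F) := hu
        rw [map_add, ha', zero_add] at this
        exact this
      change A (L x1 b) = y
      rw [h1, hAeq]
      exact hA0' y
  let e : W ≃L[ℝ] R := (LinearEquiv.ofBijective (M x1).toLinearMap hbij).toContinuousLinearEquiv
  have he : (e : W →L[ℝ] R) = M x1 := by
    ext w
    rfl
  haveI : CompleteSpace W := FiniteDimensional.complete ℝ W
  have hinv : ContinuousAt (ContinuousLinearMap.inverse : (W →L[ℝ] R) → (R →L[ℝ] W)) (M x1) := by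
    rw [← he]
    exact (contDiffAt_map_inverse (𝕜 := ℝ) (n := 0) e).continuousAt
  have hinvM : ContinuousAt (fun x => ContinuousLinearMap.inverse (M x)) x1 :=
    ContinuousAt.comp (f := M) (g := ContinuousLinearMap.inverse) hinv hMc
  have hunit : ∀ᶠ x in 𝓝 x1, ∃ f : W ≃L[ℝ] R, (f : W →L[ℝ] R) = M x := by
    have h1 : Set.range ((↑) : (W ≃L[ℝ] R) → (W →L[ℝ] R)) ∈ 𝓝 (M x1) := by
      rw [← he]
      exact ContinuousLinearEquiv.nhds e
    exact hMc h1
  refine ⟨fun x => κ1 - ((ContinuousLinearMap.inverse (M x)) (A (L x κ1)) : W), ?_, ?_, ?_⟩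
  · have h1 : ContinuousAt (fun x => A (L x κ1)) x1 :=
      A.continuous.continuousAt.comp (hL.clm_apply continuousAt_const)
    have h2 : ContinuousAt (fun x => (ContinuousLinearMap.inverse (M x)) (A (L x κ1))) x1 :=
      hinvM.clm_apply h1
    exact continuousAt_const.sub (continuous_subtype_val.continuousAt.comp h2)
  · simp [hκ]
  · filter_upwards [hrank, hunit] with x hx hf
    obtain ⟨f, hf⟩ := hf
    set κ : E := κ1 - ((ContinuousLinearMap.inverse (M x)) (A (L x κ1)) : W) with hκdef
    have h1 : A (L x κ) = 0 := by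
      have h2 : M x ((ContinuousLinearMap.inverse (M x)) (A (L x κ1))) = A (L x κ1) := by
        rw [← hf, ContinuousLinearMap.inverse_equiv]
        exact f.apply_symm_apply _
      rw [hκdef, map_sub, map_sub]
      have h3 : A (L x (((ContinuousLinearMap.inverse (M x)) (A (L x κ1)) : W) : E)) =
          A (L x κ1) := h2
      rw [h3, sub_self]
    -- `A` restricted to the range of `L x` is onto `R`, so it is injective
    let S : Submodule ℝ F := LinearMap.range (L x).toLinearMap
    let g : S →ₗ[ℝ] R := A0.comp S.subtype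
    have hsurj : Function.Surjective g := by
      intro y
      obtain ⟨w, hw⟩ := f.surjective y
      refine ⟨⟨L x (w : E), ⟨(w : E), rfl⟩⟩, ?_⟩
      have : M x w = y := by rw [← hf]; exact hw
      exact this
    have hfin : Module.finrank ℝ S = Module.finrank ℝ R := by
      apply le_antisymm hx
      exact LinearMap.finrank_le_finrank_of_surjective hsurj
    have hinj : Function.Injective g :=
      (LinearMap.injective_iff_surjective_of_finrank_eq_finrank hfin).2 hsurj
    have h4 : g ⟨L x κ, ⟨κ, rfl⟩⟩ = 0 := h1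
    have h5 := (injective_iff_map_eq_zero g).1 hinj _ h4
    exact congrArg Subtype.val h5

end Pool.Agent.Helper55.ML
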