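import Pool.Agent.Helper55.MLA.Defs

set_option autoImplicit false
open Finset Matrix Filter Topology

namespace Pool.Agent.Helper55.ML

namespace V8aux

/-- Skew-symmetric matrices from their entries above the diagonal. -/
def sk (r : ℕ) : ({q : Fin r × Fin r // q.1 < q.2} → ℝ) →ₗ[ℝ] Matrix (Fin r) (Fin r) ℝ where
  toFun f := Matrix.of fun i j =>
    if h : i < j then f ⟨(i, j), h⟩ else if h : j < i then - f ⟨(j, i), h⟩ else 0
  map_add' f g := by
    ext i j
    simp only [Matrix.of_apply, Matrix.add_apply, Pi.add_apply]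
    split_ifs <;> ring
  map_smul' c f := by
    ext i j
    simp only [Matrix.of_apply, Matrix.smul_apply, Pi.smul_apply, smul_eq_mul, RingHom.id_apply]
    split_ifs <;> ring

theorem sk_apply (r : ℕ) (f : {q : Fin r × Fin r // q.1 < q.2} → ℝ) (i j : Fin r) :
    sk r f i j = if h : i < j then f ⟨(i, j), h⟩ else if h : j < i then - f ⟨(j, i), h⟩ else 0 :=
  rfl

theorem sk_inj (r : ℕ) : Function.Injective (sk r) := by
  intro f g h
  funext q
  obtain ⟨⟨i, j⟩, hij⟩ := q
  have h1 : sk r f i j = sk r g i j := by rw [h]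
  rw [sk_apply, sk_apply, dif_pos hij, dif_pos hij] at h1
  exact h1

theorem sk_skew (r : ℕ) (f : {q : Fin r × Fin r // q.1 < q.2} → ℝ) :
    (sk r f)ᵀ = - sk r f := by
  ext i j
  rw [Matrix.transpose_apply, Matrix.neg_apply, sk_apply, sk_apply]
  rcases lt_trichotomy i j with h | h | h
  · rw [dif_neg h.asymm, dif_pos h, dif_pos h]
  · subst h
    simp
  · rw [dif_pos h, dif_neg h.asymm, dif_pos h, neg_neg]

theorem exists_sk {r : ℕ} {A : Matrix (Fin r) (Fin r) ℝ} (hA : A + Aᵀ = 0) :
    ∃ f, sk r f = A := by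
  refine ⟨fun q => A q.1.1 q.1.2, ?_⟩
  have h1 : ∀ i j, A i j + A j i = 0 := fun i j => by
    have := congrFun (congrFun hA i) j
    simpa using this
  ext i j
  rw [sk_apply]
  rcases lt_trichotomy i j with h | h | h
  · rw [dif_pos h]
  · subst h
    have := h1 i i
    simp only [lt_self_iff_false, dite_false]
    linarith
  · rw [dif_neg h.asymm, dif_pos h]
    have := h1 i j
    simp only
    linarith

theorem card_pairs (r : ℕ) : Fintype.card {q : Fin r × Fin r // q.1 < q.2} = r * (r - 1) / 2 := by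
  rw [← Finset.sum_range_id, ← Fin.sum_univ_eq_sum_range (fun i => i) r]
  rw [Fintype.card_subtype]
  have h1 : (Finset.univ.filter fun q : Fin r × Fin r => q.1 < q.2).card =
      ∑ j : Fin r, (Finset.univ.filter fun i : Fin r => i < j).card := by
    rw [Finset.card_eq_sum_card_fiberwise (f := fun q : Fin r × Fin r => q.2)
      (t := Finset.univ) (fun _ _ => Finset.mem_coe.2 (Finset.mem_univ _))]
    refine Finset.sum_congr rfl (fun j _ => ?_)
    apply Finset.card_bij (fun q _ => q.1)
    · intro q hq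
      simp only [Finset.mem_filter, Finset.mem_univ, true_and] at hq ⊢
      rw [← hq.2]; exact hq.1
    · intro q hq q' hq' h
      simp only [Finset.mem_filter, Finset.mem_univ, true_and] at hq hq'
      exact Prod.ext h (hq.2.trans hq'.2.symm)
    · intro i hi
      simp only [Finset.mem_filter, Finset.mem_univ, true_and] at hi
      exact ⟨(i, j), by simp [hi], rfl⟩
  rw [h1]
  refine Finset.sum_congr rfl (fun j _ => ?_)
  have h2 : (Finset.univ.filter fun i : Fin r => i < j) = Finset.Iio j := by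
    ext i; simp
  rw [h2, Fin.card_Iio]

theorem finrank_range_sk (r : ℕ) :
    Module.finrank ℝ (LinearMap.range (sk r)) = r * (r - 1) / 2 := by
  rw [LinearMap.finrank_range_of_inj (sk_inj r), Module.finrank_fintype_fun_eq_card, card_pairs]

/-- The map `Y ↦ Xᵀ Y - Yᵀ X`. -/
noncomputable def Phi {V : Type} [Fintype V] {r : ℕ} (X : Matrix V (Fin r) ℝ) :
    Matrix V (Fin r) ℝ →ₗ[ℝ] Matrix (Fin r) (Fin r) ℝ where
  toFun Y := Xᵀ * Y - Yᵀ * X
  map_add' Y Z := by
    rw [Matrix.mul_add, Matrix.transpose_add, Matrix.add_mul]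
    abel
  map_smul' c Y := by
    rw [Matrix.mul_smul, Matrix.transpose_smul, Matrix.smul_mul, RingHom.id_apply, smul_sub]

theorem finrank_mat {V : Type} [Fintype V] {r : ℕ} :
    Module.finrank ℝ (Matrix V (Fin r) ℝ) = r * Fintype.card V := by
  rw [Module.finrank_matrix, Fintype.card_fin, Module.finrank_self, mul_one, mul_comm]

end V8aux

open V8aux

/-- V8 (hint): `K ↦ K X` from the space `E` of symmetric matrices supported on `P`. Its range is contained in
`{Y : Xᵀ Y symmetric}`, of dimension `n r - r(r-1)/2` if `X` has a left inverse; and its range is the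
orthogonal complement of the motions (the adjoint is `Z ↦ dG X Z` on `P`), which at an infinitesimally
rigid `X` are the `X A`, `A` skew. -/
theorem finrank_range_le {V : Type} [Fintype V] [DecidableEq V] {r : ℕ} {P : V → V → Prop}
    {X : Matrix V (Fin r) ℝ} (hX : ∃ C : Matrix (Fin r) V ℝ, C * X = 1)
    (S : Submodule ℝ (Matrix V (Fin r) ℝ))
    (hS : ∀ Y, Y ∈ S ↔ ∃ K : Matrix V V ℝ, SuppOn P K ∧ K * X = Y) :
    Module.finrank ℝ S + r * (r - 1) / 2 ≤ r * Fintype.card V := by
  obtain ⟨C, hC⟩ := hX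
  have h1 : S ≤ LinearMap.ker (Phi X) := by
    intro Y hY
    obtain ⟨K, hK, rfl⟩ := (hS Y).1 hY
    rw [LinearMap.mem_ker]
    change Xᵀ * (K * X) - (K * X)ᵀ * X = 0
    have h2 : Kᵀ = K := hK.1
    rw [Matrix.transpose_mul, h2, Matrix.mul_assoc, sub_self]
  have h2 : LinearMap.range (sk r) ≤ LinearMap.range (Phi X) := by
    rintro _ ⟨f, rfl⟩
    refine ⟨(2 : ℝ)⁻¹ • (Cᵀ * sk r f), ?_⟩
    change Xᵀ * ((2 : ℝ)⁻¹ • (Cᵀ * sk r f)) - ((2 : ℝ)⁻¹ • (Cᵀ * sk r f))ᵀ * X = sk r f
    have h3 : Xᵀ * Cᵀ = 1 := by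
      rw [← Matrix.transpose_mul, hC, Matrix.transpose_one]
    rw [Matrix.mul_smul, ← Matrix.mul_assoc, h3, Matrix.one_mul, Matrix.transpose_smul,
      Matrix.transpose_mul, Matrix.transpose_transpose, Matrix.smul_mul, Matrix.mul_assoc, hC,
      Matrix.mul_one, sk_skew, smul_neg, sub_neg_eq_add, ← add_smul]
    norm_num
  have h3 := LinearMap.finrank_range_add_finrank_ker (Phi X)
  have h4 := Submodule.finrank_mono h1
  have h5 := Submodule.finrank_mono h2
  rw [finrank_range_sk] at h5
  rw [finrank_mat] at h3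
  omega

theorem finrank_range_eq {V : Type} [Fintype V] [DecidableEq V] {r : ℕ} {P : V → V → Prop}
    (hP : ∀ i j, P i j → P j i)
    {X : Matrix V (Fin r) ℝ} (hX : ∃ C : Matrix (Fin r) V ℝ, C * X = 1) (hinf : InfRigid P X)
    (S : Submodule ℝ (Matrix V (Fin r) ℝ))
    (hS : ∀ Y, Y ∈ S ↔ ∃ K : Matrix V V ℝ, SuppOn P K ∧ K * X = Y) :
    Module.finrank ℝ S + r * (r - 1) / 2 = r * Fintype.card V := by
  apply le_antisymm (finrank_range_le hX S hS)
  obtain ⟨C, hC⟩ := hX
  -- the pairing with `S`
  let Psi : Matrix V (Fin r) ℝ →ₗ[ℝ] Module.Dual ℝ S :=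
    { toFun := fun Z =>
        { toFun := fun Y => Matrix.trace ((Y : Matrix V (Fin r) ℝ)ᵀ * Z)
          map_add' := fun Y Y' => by
            rw [Submodule.coe_add, Matrix.transpose_add, Matrix.add_mul, Matrix.trace_add]
          map_smul' := fun c Y => by
            rw [Submodule.coe_smul, Matrix.transpose_smul, Matrix.smul_mul, Matrix.trace_smul,
              RingHom.id_apply] }
      map_add' := fun Z Z' => by
        ext Y
        change Matrix.trace ((Y : Matrix V (Fin r) ℝ)ᵀ * (Z + Z')) = _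
        rw [Matrix.mul_add, Matrix.trace_add]
        rfl
      map_smul' := fun c Z => by
        ext Y
        change Matrix.trace ((Y : Matrix V (Fin r) ℝ)ᵀ * (c • Z)) = _
        rw [Matrix.mul_smul, Matrix.trace_smul]
        rfl }
  have hPsi : ∀ Z (Y : S), Psi Z Y = Matrix.trace ((Y : Matrix V (Fin r) ℝ)ᵀ * Z) :=
    fun _ _ => rfl
  let XA : ({q : Fin r × Fin r // q.1 < q.2} → ℝ) →ₗ[ℝ] Matrix V (Fin r) ℝ :=
    { toFun := fun f => X * sk r f
      map_add' := fun f g => by rw [map_add, Matrix.mul_add]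
      map_smul' := fun c f => by rw [map_smul, Matrix.mul_smul, RingHom.id_apply] }
  have hker : LinearMap.ker Psi ≤ LinearMap.range XA := by
    intro Z hZ
    rw [LinearMap.mem_ker] at hZ
    have hmot : Motion P X Z := by
      intro i j hij
      let K : Matrix V V ℝ := Matrix.single i j 1 + Matrix.single j i 1
      have hK : SuppOn P K := by
        constructor
        · change Kᵀ = K
          simp only [K, Matrix.transpose_add, Matrix.transpose_single]
          exact add_comm _ _
        · intro a b hab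
          have h1 : ¬ (i = a ∧ j = b) := by rintro ⟨rfl, rfl⟩; exact hab hij
          have h2 : ¬ (j = a ∧ i = b) := by rintro ⟨rfl, rfl⟩; exact hab (hP _ _ hij)
          simp only [K, Matrix.add_apply, Matrix.single_apply, if_neg h1, if_neg h2, add_zero]
      have hmem : K * X ∈ S := (hS _).2 ⟨K, hK, rfl⟩
      have h1 : Matrix.trace ((K * X)ᵀ * Z) = 0 := by
        have := hPsi Z ⟨K * X, hmem⟩
        rw [hZ] at this
        exact this.symm
      have hKt : Kᵀ = K := hK.1
      rw [Matrix.transpose_mul, hKt, Matrix.mul_assoc, Matrix.trace_mul_comm, Matrix.mul_assoc] at h1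
      have h2 : ∀ (a b : V) (M : Matrix V V ℝ), Matrix.trace (Matrix.single a b 1 * M) = M b a := by
        intro a b M
        rw [Matrix.trace_single_mul]
        simp
      have h3 : Matrix.trace (K * (Z * Xᵀ)) = (Z * Xᵀ) j i + (Z * Xᵀ) i j := by
        simp only [K]
        rw [Matrix.add_mul, Matrix.trace_add, h2, h2]
      rw [h3] at h1
      unfold dG
      rw [Finset.sum_add_distrib]
      have h4 : (Z * Xᵀ) j i = ∑ k, X i k * Z j k := by
        rw [Matrix.mul_apply]
        exact Finset.sum_congr rfl (fun k _ => mul_comm _ _)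
      have h5 : (Z * Xᵀ) i j = ∑ k, Z i k * X j k := by
        rw [Matrix.mul_apply]
        rfl
      rw [← h4, ← h5]
      exact h1
    have h0 := hinf Z hmot
    have h1 : X * Zᵀ + Z * Xᵀ = 0 := by
      ext i j
      have := h0 i j
      unfold dG at this
      rw [Finset.sum_add_distrib] at this
      simpa [Matrix.mul_apply, Matrix.add_apply] using this
    have hCt : Xᵀ * Cᵀ = 1 := by rw [← Matrix.transpose_mul, hC, Matrix.transpose_one]
    have h2 : Z = X * (-(Zᵀ * Cᵀ)) := by
      have h3 : (X * Zᵀ + Z * Xᵀ) * Cᵀ = 0 := by rw [h1, Matrix.zero_mul]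
      rw [Matrix.add_mul, Matrix.mul_assoc, Matrix.mul_assoc, hCt, Matrix.mul_one] at h3
      rw [Matrix.mul_neg]
      exact eq_neg_of_add_eq_zero_right h3
    have h3 : -(Zᵀ * Cᵀ) + (-(Zᵀ * Cᵀ))ᵀ = 0 := by
      have h4 : C * ((X * Zᵀ + Z * Xᵀ) * Cᵀ) = 0 := by
        rw [h1, Matrix.zero_mul, Matrix.mul_zero]
      rw [Matrix.add_mul, Matrix.mul_assoc, Matrix.mul_assoc, hCt, Matrix.mul_one,
        Matrix.mul_add, ← Matrix.mul_assoc, hC, Matrix.one_mul] at h4
      rw [Matrix.transpose_neg, Matrix.transpose_mul, Matrix.transpose_transpose,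
        Matrix.transpose_transpose, ← neg_add, h4, neg_zero]
    obtain ⟨f, hf⟩ := exists_sk h3
    refine ⟨f, ?_⟩
    change X * sk r f = Z
    rw [hf, ← h2]
  have h1 := LinearMap.finrank_range_add_finrank_ker Psi
  have h2 := Submodule.finrank_mono hker
  have h3 : Module.finrank ℝ (LinearMap.range XA) ≤ r * (r - 1) / 2 := by
    refine (LinearMap.finrank_range_le XA).trans ?_
    rw [Module.finrank_fintype_fun_eq_card, card_pairs]
  have h4 : Module.finrank ℝ (LinearMap.range Psi) ≤ Module.finrank ℝ S := by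
    refine (Submodule.finrank_le _).trans ?_
    rw [Subspace.dual_finrank_eq]
  rw [finrank_mat] at h1
  omega

end Pool.Agent.Helper55.ML
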