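import Pool.Agent.Helper55.MLA.V6
import Pool.Agent.Helper55.MLA.V7
import Pool.Agent.Helper55.MLA.V8
import Pool.Agent.Helper55.MLA.D4A
import Pool.Agent.Helper55.MLA.T1

set_option autoImplicit false
open Finset Matrix Filter Topology

namespace Pool.Agent.Helper55.ML

/-- Positive definiteness is an open condition among the symmetric real matrices. -/
private theorem V9_posDef_open {ι : Type*} [Fintype ι] {A : Matrix ι ι ℝ} (hA : A.PosDef) :
    ∀ᶠ B in 𝓝 A, B.IsSymm → B.PosDef := by
  classical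
  have hS : IsCompact (Metric.sphere (0 : ι → ℝ) 1) := isCompact_sphere 0 1
  have hc : Continuous (fun z : Matrix ι ι ℝ × (ι → ℝ) => z.2 ⬝ᵥ (z.1 *ᵥ z.2)) := by
    have : (fun z : Matrix ι ι ℝ × (ι → ℝ) => z.2 ⬝ᵥ (z.1 *ᵥ z.2)) =
        fun z => ∑ i, z.2 i * ∑ j, z.1 i j * z.2 j := by
      funext z; rfl
    rw [this]
    refine continuous_finsetSum _ fun i _ => ?_
    refine Continuous.mul ((continuous_apply i).comp continuous_snd) ?_
    refine continuous_finsetSum _ fun j _ => ?_
    refine Continuous.mul ?_ ((continuous_apply j).comp continuous_snd)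
    exact (continuous_apply j).comp ((continuous_apply i).comp continuous_fst)
  have h1 : ∀ᶠ B in 𝓝 A, ∀ y ∈ Metric.sphere (0 : ι → ℝ) 1, 0 < y ⬝ᵥ (B *ᵥ y) := by
    refine hS.eventually_forall_of_forall_eventually (P := fun B y => 0 < y ⬝ᵥ (B *ᵥ y)) ?_
    intro y hy
    have hy0 : y ≠ 0 := by
      intro h
      rw [h] at hy
      simp at hy
    have hpos : 0 < y ⬝ᵥ (A *ᵥ y) := by
      have := hA.dotProduct_mulVec_pos hy0
      simpa using this
    exact hc.continuousAt.eventually (isOpen_Ioi.mem_nhds hpos)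
  filter_upwards [h1] with B hB hsymm
  refine Matrix.PosDef.of_dotProduct_mulVec_pos ?_ ?_
  · rw [Matrix.IsHermitian, Matrix.conjTranspose_eq_transpose_of_trivial]
    exact hsymm
  · intro x hx
    have hn : 0 < ‖x‖ := norm_pos_iff.mpr hx
    have hy : ‖x‖⁻¹ • x ∈ Metric.sphere (0 : ι → ℝ) 1 := by
      rw [mem_sphere_zero_iff_norm, norm_smul, norm_inv, norm_norm, inv_mul_cancel₀ hn.ne']
    have h2 := hB _ hy
    rw [Matrix.mulVec_smul, dotProduct_smul, smul_dotProduct, smul_eq_mul, smul_eq_mul] at h2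
    have h3 : 0 < ‖x‖⁻¹ := inv_pos.mpr hn
    have h4 : 0 < x ⬝ᵥ (B *ᵥ x) := by
      by_contra hneg
      push Not at hneg
      have : ‖x‖⁻¹ * (‖x‖⁻¹ * (x ⬝ᵥ (B *ᵥ x))) ≤ 0 :=
        mul_nonpos_of_nonneg_of_nonpos h3.le (mul_nonpos_of_nonneg_of_nonpos h3.le hneg)
      linarith
    simpa using h4

/-- The space of symmetric matrices supported on `P`. -/
private def V9_E {V : Type} (P : V → V → Prop) : Submodule ℝ (V → V → ℝ) where
  carrier := {K | SuppOn P (Matrix.of K)}
  zero_mem' := by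
    refine ⟨?_, fun i j _ => rfl⟩
    ext i j; rfl
  add_mem' := by
    rintro a b ⟨ha, ha'⟩ ⟨hb, hb'⟩
    refine ⟨?_, fun i j hij => ?_⟩
    · ext i j
      have h1 := congrFun (congrFun ha i) j
      have h2 := congrFun (congrFun hb i) j
      simp only [Matrix.transpose_apply, Matrix.of_apply] at h1 h2
      simp [Matrix.transpose_apply, Matrix.of_apply, h1, h2]
    · have h1 := ha' i j hij
      have h2 := hb' i j hij
      simp only [Matrix.of_apply] at h1 h2
      simp [Matrix.of_apply, h1, h2]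
  smul_mem' := by
    rintro c a ⟨ha, ha'⟩
    refine ⟨?_, fun i j hij => ?_⟩
    · ext i j
      have h1 := congrFun (congrFun ha i) j
      simp only [Matrix.transpose_apply, Matrix.of_apply] at h1
      simp [Matrix.transpose_apply, Matrix.of_apply, h1]
    · have h1 := ha' i j hij
      simp only [Matrix.of_apply] at h1
      simp [Matrix.of_apply, h1]

/-- `X ↦ (K ↦ K * X)`. -/
private noncomputable def V9_L0 {V : Type} [Fintype V] (P : V → V → Prop) (r : ℕ) :
    (V → Fin r → ℝ) →ₗ[ℝ] (V9_E P →ₗ[ℝ] (V → Fin r → ℝ)) :=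
  LinearMap.mk₂ ℝ (fun X (K : V9_E P) => fun i k => ∑ j, (K : V → V → ℝ) i j * X j k)
    (by
      intro X Y K
      funext i k
      simp [mul_add, Finset.sum_add_distrib])
    (by
      intro c X K
      funext i k
      simp only [Pi.smul_apply, smul_eq_mul, Finset.mul_sum]
      exact Finset.sum_congr rfl fun j _ => by ring)
    (by
      intro X K K'
      funext i k
      simp [add_mul, Finset.sum_add_distrib])
    (by
      intro c X K
      funext i k
      simp only [Submodule.coe_smul, Pi.smul_apply, smul_eq_mul, Finset.mul_sum]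
      exact Finset.sum_congr rfl fun j _ => by ring)

private theorem V9_L0_apply {V : Type} [Fintype V] (P : V → V → Prop) (r : ℕ)
    (X : V → Fin r → ℝ) (K : V9_E P) :
    V9_L0 P r X K = Matrix.of (K : V → V → ℝ) * (Matrix.of X : Matrix V (Fin r) ℝ) := by
  funext i k
  rfl

/-- V9 (hint): apply `exists_kernel_selection` with `E` = symmetric matrices supported on `P` (a submodule of
`Matrix V V ℝ`, with any norm), `L X = (K ↦ K * X)`, at `X1`; near `X1` the configuration has a left
inverse. `κ(X)` has rank at most `n - r` (it kills `X`) and, as `K1` has a nonsingular (so positive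
definite) principal block of size `n - r` (`symm_structure`), `κ(X)` has a positive definite one near
`X1`: `psd_of_block`. -/
theorem open_psd {V : Type} [Fintype V] [DecidableEq V] [Nonempty V] {P : V → V → Prop} {r : ℕ}
    (h : GRH V P r) (hr : 1 ≤ r) :
    ∃ U : Set (Matrix V (Fin r) ℝ), IsOpen U ∧ U.Nonempty ∧
      ∀ X ∈ U, ∃ K : Matrix V V ℝ, Stress P X K ∧ K.PosSemidef ∧ K ≠ 0 := by
  classical
  obtain ⟨X1, K1, hst, hpsd, hrank, ⟨C, hC⟩, hinf⟩ := exists_psd_point h hr
  -- the size of `V`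
  have hcard : r + 1 ≤ Fintype.card V := by
    obtain ⟨v⟩ := (inferInstance : Nonempty V)
    obtain ⟨N, hN, hNv⟩ := h.deg v
    have h1 : v ∉ N := fun hv => (hNv v hv).1 rfl
    have h2 := Finset.card_le_univ (insert v N)
    rw [Finset.card_insert_of_notMem h1] at h2
    omega
  -- the family of operators
  let L : Matrix V (Fin r) ℝ → V9_E P →L[ℝ] (V → Fin r → ℝ) :=
    fun X => LinearMap.toContinuousLinearMap (V9_L0 P r (fun i k => X i k))
  have hLapp : ∀ X K, L X K = Matrix.of (K : V → V → ℝ) * X := by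
    intro X K
    exact V9_L0_apply P r _ K
  have hLc : Continuous L := by
    let Φ : (V → Fin r → ℝ) →ₗ[ℝ] (V9_E P →L[ℝ] (V → Fin r → ℝ)) :=
      ((LinearMap.toContinuousLinearMap :
        (V9_E P →ₗ[ℝ] (V → Fin r → ℝ)) ≃ₗ[ℝ] (V9_E P →L[ℝ] (V → Fin r → ℝ))).toLinearMap).comp
          (V9_L0 P r)
    have hΦ := LinearMap.continuous_of_finiteDimensional (𝕜 := ℝ) (E := V → Fin r → ℝ)
      (F' := V9_E P →L[ℝ] (V → Fin r → ℝ)) Φ
    exact hΦ
  -- left inverses nearby
  have hleft : ∀ᶠ X : Matrix V (Fin r) ℝ in 𝓝 X1,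
      ∃ C' : Matrix (Fin r) V ℝ, C' * X = (1 : Matrix (Fin r) (Fin r) ℝ) := by
    have h1 : Continuous (fun X : Matrix V (Fin r) ℝ => (C * X).det) := by
      refine Continuous.matrix_det ?_
      exact Continuous.matrix_mul continuous_const continuous_id
    have h2 : ∀ᶠ X in 𝓝 X1, (C * X).det ≠ 0 := by
      refine h1.continuousAt.eventually_ne ?_
      rw [hC, Matrix.det_one]
      exact one_ne_zero
    filter_upwards [h2] with X hX
    refine ⟨(C * X)⁻¹ * C, ?_⟩
    rw [Matrix.mul_assoc, Matrix.nonsing_inv_mul _ (isUnit_iff_ne_zero.mpr hX)]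
  have hmem : ∀ X Y, Y ∈ LinearMap.range (L X).toLinearMap ↔
      ∃ K : Matrix V V ℝ, SuppOn P K ∧ K * X = Y := by
    intro X Y
    constructor
    · rintro ⟨K, rfl⟩
      exact ⟨Matrix.of (K : V → V → ℝ), K.2, (hLapp X K).symm⟩
    · rintro ⟨K, hK, rfl⟩
      refine ⟨⟨fun i j => K i j, hK⟩, ?_⟩
      exact hLapp X _
  have hrk : ∀ᶠ X in 𝓝 X1, Module.finrank ℝ (LinearMap.range (L X).toLinearMap) ≤
      Module.finrank ℝ (LinearMap.range (L X1).toLinearMap) := by
    filter_upwards [hleft] with X hX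
    have h1 := finrank_range_le (P := P) hX (LinearMap.range (L X).toLinearMap) (hmem X)
    have h2 := finrank_range_eq (P := P) h.symm ⟨C, hC⟩ hinf
      (LinearMap.range (L X1).toLinearMap) (hmem X1)
    have h3 : Module.finrank ℝ (LinearMap.range (L X).toLinearMap) + r * (r - 1) / 2 ≤
      r * Fintype.card V := h1
    have h4 : Module.finrank ℝ (LinearMap.range (L X1).toLinearMap) + r * (r - 1) / 2 =
      r * Fintype.card V := h2
    omega
  let κ1 : V9_E P := ⟨fun i j => K1 i j, hst.1⟩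
  have hκ1 : L X1 κ1 = 0 := by
    rw [hLapp]
    exact hst.2
  obtain ⟨κ, hκc, hκX1, hκ⟩ := exists_kernel_selection L hLc.continuousAt hrk hκ1
  -- the positive definite block
  obtain ⟨I, hI, hdet, -⟩ := symm_structure K1 hst.1.1
  let sub : Matrix V V ℝ → Matrix I I ℝ := fun K => K.submatrix Subtype.val Subtype.val
  have hposI : (sub K1).PosDef := by
    have h1 : (sub K1).PosSemidef := hpsd.submatrix _
    rw [h1.posDef_iff_isUnit, Matrix.isUnit_iff_isUnit_det]
    exact hdet
  let M : Matrix V (Fin r) ℝ → Matrix V V ℝ := fun X => Matrix.of ((κ X : V9_E P) : V → V → ℝ)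
  have hMc : ContinuousAt M X1 := by
    have h1 : ContinuousAt (fun X => ((κ X : V9_E P) : V → V → ℝ)) X1 :=
      continuous_subtype_val.continuousAt.comp hκc
    exact h1
  have hM1 : M X1 = K1 := by
    show Matrix.of ((κ X1 : V9_E P) : V → V → ℝ) = K1
    rw [hκX1]
    rfl
  have hsubc : Continuous sub := by
    refine continuous_matrix fun i j => ?_
    exact (continuous_apply (j : V)).comp (continuous_apply (i : V))
  have hev : ∀ᶠ X in 𝓝 X1, (sub (M X)).IsSymm → (sub (M X)).PosDef := by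
    have h1 : ContinuousAt (fun X => sub (M X)) X1 := hsubc.continuousAt.comp hMc
    have h2 : ∀ᶠ B in 𝓝 (sub (M X1)), B.IsSymm → B.PosDef := by
      rw [hM1]
      exact V9_posDef_open hposI
    exact h1.eventually h2
  obtain ⟨U, hUsub, hUo, hX1U⟩ := mem_nhds_iff.mp (Filter.inter_mem hκ
    (Filter.inter_mem hev hleft))
  refine ⟨U, hUo, ⟨X1, hX1U⟩, fun X hX => ⟨M X, ?_, ?_, ?_⟩⟩
  · refine ⟨(κ X).2, ?_⟩
    have := (hUsub hX).1
    have h1 : L X (κ X) = 0 := this
    rw [hLapp] at h1
    exact h1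
  · have hk : M X * X = 0 := by
      have h1 : L X (κ X) = 0 := (hUsub hX).1
      rw [hLapp] at h1
      exact h1
    have hsymm : (M X).IsSymm := (κ X).2.1
    have hpd : (sub (M X)).PosDef := (hUsub hX).2.1 (by
      show (sub (M X))ᵀ = sub (M X)
      ext i j
      exact congrFun (congrFun hsymm (i : V)) (j : V))
    refine psd_of_block hsymm hpd ?_
    obtain ⟨C', hC'⟩ := (hUsub hX).2.2
    have hrX : r ≤ X.rank := by
      have h1 : (C' * X).rank ≤ X.rank := Matrix.rank_mul_le_right C' X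
      rw [hC', Matrix.rank_one, Fintype.card_fin] at h1
      exact h1
    have h2 := Matrix.rank_add_rank_le_card_of_mul_eq_zero hk
    rw [hI]
    omega
  · intro h0
    have hsymm : (M X).IsSymm := (κ X).2.1
    have hpd : (sub (M X)).PosDef := (hUsub hX).2.1 (by
      show (sub (M X))ᵀ = sub (M X)
      ext i j
      exact congrFun (congrFun hsymm (i : V)) (j : V))
    have hIc : 0 < I.card := by
      rw [hI]
      omega
    obtain ⟨i, hi⟩ := Finset.card_pos.mp hIc
    have h1 : 0 < (sub (M X)) ⟨i, hi⟩ ⟨i, hi⟩ := hpd.diag_pos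
    have h2 : (sub (M X)) ⟨i, hi⟩ ⟨i, hi⟩ = 0 := by
      show (M X) i i = 0
      rw [h0]
      rfl
    rw [h2] at h1
    exact lt_irrefl _ h1

end Pool.Agent.Helper55.ML
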