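import Pool.Agent.Helper55.MLA.AB
import Pool.Agent.Helper55.MLA.I1
import Pool.Agent.Helper55.MLA.V9

set_option autoImplicit false
open Finset Matrix Filter Topology

namespace Pool.Agent.Helper55.ML

/-- I5 (hint): for `X` in the nonempty open set of configurations whose restriction to `A` lies in the set
of `open_psd` there is no positive definite completion: a completion for `Fin n` restricts to one for
`A` (principal submatrix), `no_completion_of_psd_stress`. A nonempty open set has positive measure. -/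
theorem not_mem_Aset {n r : ℕ} (hr : 1 ≤ r) {G : Finset (Sym2 ℕ)} (hG : G ⊆ En n) {A : Finset ℕ}
    (hA : A ⊆ range n) (hne : A.Nonempty) (h : GRH A (fun i j : A => i = j ∨ s((i : ℕ), (j : ℕ)) ∈ G) r) :
    r ∉ Aset n (fun i j => i = j ∨ s((i : ℕ), (j : ℕ)) ∈ G) := by
  intro hmem
  have : Nonempty A := hne.to_subtype
  obtain ⟨U, hU, hUne, hUp⟩ := open_psd h hr
  let e : A → Fin n := fun a => ⟨a.1, mem_range.1 (hA a.2)⟩
  have he : Function.Injective e := by
    intro a b hab
    exact Subtype.ext (Fin.mk.inj hab)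
  let Φ : (Fin r → Fin n → ℝ) → Matrix A (Fin r) ℝ := fun X a k => X k (e a)
  have hc : Continuous Φ :=
    continuous_pi fun a => continuous_pi fun k => (continuous_apply (e a)).comp (continuous_apply k)
  have hmem' : ∀ᵐ X : Fin r → Fin n → ℝ, ∃ K : Matrix (Fin n) (Fin n) ℝ, K.PosDef ∧
    ∀ i j : Fin n, (i = j ∨ s((i : ℕ), (j : ℕ)) ∈ G) → K i j = ∑ k, X k i * X k j := hmem
  have hdense := MeasureTheory.Measure.dense_of_ae hmem'
  obtain ⟨Y, hY⟩ := hUne
  have hne' : (Φ ⁻¹' U).Nonempty := by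
    refine ⟨fun k i => if hi : (i : ℕ) ∈ A then Y ⟨i, hi⟩ k else 0, ?_⟩
    rw [Set.mem_preimage]
    have : Φ (fun k i => if hi : (i : ℕ) ∈ A then Y ⟨i, hi⟩ k else 0) = Y := by
      funext a k
      simp [Φ, e]
    rw [this]
    exact hY
  obtain ⟨X, ⟨K, hK, hKe⟩, hX2⟩ := hdense.exists_mem_open (hU.preimage hc) hne'
  obtain ⟨S, hS1, hS2, hS3⟩ := hUp (Φ X) hX2
  refine no_completion_of_psd_stress hS1 hS2 hS3 ⟨K.submatrix e e, hK.submatrix he, ?_⟩
  intro i j hij
  rw [Matrix.submatrix_apply]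
  refine hKe (e i) (e j) ?_
  rcases hij with rfl | hij
  · exact Or.inl rfl
  · exact Or.inr hij

end Pool.Agent.Helper55.ML
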