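import Pool.Agent.Helper55.MLA.AB

set_option autoImplicit false
open Finset Matrix Filter Topology

namespace Pool.Agent.Helper55.ML

/-- perturbation of one coordinate inside an open set -/
theorem i6_perturb {ι : Type*} [DecidableEq ι] {S : Set (ι → ℝ)} (hS : IsOpen S) {q : ι → ℝ}
    (hq : q ∈ S) (e : ι) : ∃ t : ℝ, t ≠ 0 ∧ Function.update q e (q e + t) ∈ S := by
  have hc : Continuous (fun t : ℝ => Function.update q e (q e + t)) :=
    continuous_const.update e (continuous_const.add continuous_id)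
  have h0 : (fun t : ℝ => Function.update q e (q e + t)) 0 ∈ S := by
    simpa using hq
  have h1 : ∀ᶠ t in 𝓝 (0 : ℝ), Function.update q e (q e + t) ∈ S :=
    hc.continuousAt.eventually (hS.mem_nhds h0)
  have h2 : ∀ᶠ t in 𝓝[≠] (0 : ℝ), Function.update q e (q e + t) ∈ S ∧ t ≠ 0 :=
    (h1.filter_mono nhdsWithin_le_nhds).and eventually_mem_nhdsWithin
  obtain ⟨t, ht, ht0⟩ := h2.exists
  exact ⟨t, ht0, ht⟩

/-- I6: small cases. `r = 1` and an edge: `K i i = x_i^2`, `K j j = x_j^2`, `K i j = x_i x_j` is not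
positive definite; the Gram image satisfies `q_ii q_jj = q_ij^2`. `r = 0`: the diagonal entry is zero, the
image is one point. -/
theorem one_not_mem_Aset {n : ℕ} {P : Fin n → Fin n → Prop} (hr : ∀ i, P i i) {i j : Fin n}
    (hij : i ≠ j) (h : P i j) : 1 ∉ Aset n P := by
  intro hA
  obtain ⟨X, K, hK, hKP⟩ := (show ∀ᵐ X : Fin 1 → Fin n → ℝ, ∃ K : Matrix (Fin n) (Fin n) ℝ,
    K.PosDef ∧ ∀ i j : Fin n, P i j → K i j = ∑ k, X k i * X k j from hA).exists
  have h1 := hKP i i (hr i)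
  have h2 := hKP j j (hr j)
  have h3 := hKP i j h
  have h4 : K j i = K i j := by
    have := hK.isHermitian.apply i j
    simpa using this
  have hinj : Function.Injective ![i, j] := by
    intro a b hab
    fin_cases a <;> fin_cases b <;> simp_all
  have h5 := (hK.submatrix hinj).det_pos
  rw [Matrix.det_fin_two] at h5
  simp only [Matrix.submatrix_apply, Matrix.cons_val_zero, Matrix.cons_val_one] at h5
  rw [h4, h1, h2, h3] at h5
  simp only [Fin.sum_univ_one] at h5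
  nlinarith

theorem one_not_mem_Bset {n : ℕ} {P : Fin n → Fin n → Prop} (hr : ∀ i, P i i) {i j : Fin n}
    (hij : i < j) (h : P i j) : 1 ∉ Bset n P := by
  classical
  intro hB
  obtain ⟨q, hq⟩ := (show (interior (Set.range (fun Y : Fin n → Fin 1 → ℝ =>
    fun q : {q : Fin n × Fin n // q.1 ≤ q.2 ∧ P q.1 q.2} =>
      ∑ k, Y (q : Fin n × Fin n).1 k * Y (q : Fin n × Fin n).2 k))).Nonempty from hB)
  set S := interior (Set.range (fun Y : Fin n → Fin 1 → ℝ =>
    fun q : {q : Fin n × Fin n // q.1 ≤ q.2 ∧ P q.1 q.2} =>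
      ∑ k, Y (q : Fin n × Fin n).1 k * Y (q : Fin n × Fin n).2 k)) with hS
  let ii : {q : Fin n × Fin n // q.1 ≤ q.2 ∧ P q.1 q.2} := ⟨(i, i), le_rfl, hr i⟩
  let jj : {q : Fin n × Fin n // q.1 ≤ q.2 ∧ P q.1 q.2} := ⟨(j, j), le_rfl, hr j⟩
  let ij : {q : Fin n × Fin n // q.1 ≤ q.2 ∧ P q.1 q.2} := ⟨(i, j), hij.le, h⟩
  have hne1 : ii ≠ jj := fun he => hij.ne (congrArg (fun q => q.1.1) he)
  have hne2 : ii ≠ ij := fun he => hij.ne (congrArg (fun q => q.1.2) he)
  have hne3 : jj ≠ ij := fun he => hij.ne' (congrArg (fun q => q.1.1) he)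
  have key : ∀ q ∈ S, q ii * q jj = q ij ^ 2 := by
    intro q hq
    obtain ⟨Y, rfl⟩ := interior_subset hq
    simp only [Fin.sum_univ_one]
    change Y i 0 * Y i 0 * (Y j 0 * Y j 0) = (Y i 0 * Y j 0) ^ 2
    ring
  have key2 : ∀ q ∈ S, q jj = 0 := by
    intro q hq
    obtain ⟨t, ht, hm⟩ := i6_perturb isOpen_interior hq ii
    have e1 := key q hq
    have e2 := key _ hm
    rw [Function.update_self, Function.update_of_ne hne1.symm, Function.update_of_ne hne2.symm]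
      at e2
    have e3 : t * q jj = 0 := by linarith [add_mul (q ii) t (q jj)]
    exact (mul_eq_zero.1 e3).resolve_left ht
  obtain ⟨t, ht, hm⟩ := i6_perturb isOpen_interior hq jj
  have e1 := key2 q hq
  have e2 := key2 _ hm
  rw [Function.update_self, e1, zero_add] at e2
  exact ht e2

theorem zero_not_mem_Aset {n : ℕ} (hn : 0 < n) {P : Fin n → Fin n → Prop} (hr : ∀ i, P i i) :
    0 ∉ Aset n P := by
  intro hA
  obtain ⟨X, K, hK, hKP⟩ := (show ∀ᵐ X : Fin 0 → Fin n → ℝ, ∃ K : Matrix (Fin n) (Fin n) ℝ,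
    K.PosDef ∧ ∀ i j : Fin n, P i j → K i j = ∑ k, X k i * X k j from hA).exists
  have h1 := hKP ⟨0, hn⟩ ⟨0, hn⟩ (hr _)
  have h2 := hK.diag_pos (i := ⟨0, hn⟩)
  rw [h1] at h2
  simp at h2

theorem zero_not_mem_Bset {n : ℕ} (hn : 0 < n) {P : Fin n → Fin n → Prop} (hr : ∀ i, P i i) :
    0 ∉ Bset n P := by
  classical
  intro hB
  obtain ⟨q, hq⟩ := (show (interior (Set.range (fun Y : Fin n → Fin 0 → ℝ =>
    fun q : {q : Fin n × Fin n // q.1 ≤ q.2 ∧ P q.1 q.2} =>
      ∑ k, Y (q : Fin n × Fin n).1 k * Y (q : Fin n × Fin n).2 k))).Nonempty from hB)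
  let ii : {q : Fin n × Fin n // q.1 ≤ q.2 ∧ P q.1 q.2} := ⟨(⟨0, hn⟩, ⟨0, hn⟩), le_rfl, hr _⟩
  have key : ∀ q ∈ interior (Set.range (fun Y : Fin n → Fin 0 → ℝ =>
    fun q : {q : Fin n × Fin n // q.1 ≤ q.2 ∧ P q.1 q.2} =>
      ∑ k, Y (q : Fin n × Fin n).1 k * Y (q : Fin n × Fin n).2 k)), q ii = 0 := by
    intro q hq
    obtain ⟨Y, rfl⟩ := interior_subset hq
    simp
  obtain ⟨t, ht, hm⟩ := i6_perturb isOpen_interior hq ii
  have e1 := key q hq
  have e2 := key _ hm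
  rw [Function.update_self, e1, zero_add] at e2
  exact ht e2

end Pool.Agent.Helper55.ML
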