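import Pool.Agent.Helper55.ML.H2
import Pool.Agent.Helper55.ML.M2
import Pool.Agent.Helper55.ML.M3

set_option autoImplicit false
open Finset Matrix Filter Topology

namespace Pool.Agent.Helper55.ML

/-- In dimension one a connected set is a clique of the closure of its edges. -/
private theorem z1_clq {t : ℕ} (R : Rig 1 t) {G : Finset (Sym2 ℕ)} {W : Finset ℕ}
    (hW : Conn G W) : R.Clq (ins W G) W := by
  classical
  obtain ⟨w, hw⟩ := hW.1
  obtain ⟨C, hC, hmax⟩ := Finset.exists_max_image
    (W.powerset.filter (fun C => C.Nonempty ∧ R.Clq (ins W G) C)) Finset.card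
    ⟨{w}, Finset.mem_filter.2 ⟨Finset.mem_powerset.2 (Finset.singleton_subset_iff.2 hw),
      Finset.singleton_nonempty w, by
        intro a ha b hb hab
        rw [Finset.mem_singleton] at ha hb
        exact absurd (ha.trans hb.symm) hab⟩⟩
  rw [Finset.mem_filter, Finset.mem_powerset] at hC
  obtain ⟨hCW, hCne, hCc⟩ := hC
  by_cases hCW' : C = W
  · rwa [hCW'] at hCc
  · exfalso
    obtain ⟨a, ha, b, hb, hab⟩ := hW.2 C hCW hCne hCW'
    rw [Finset.mem_sdiff] at hb
    have h1 : R.Clq (ins W G) (insert b C) := by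
      refine R.Clq_insert hCc (N := {a}) (Finset.singleton_subset_iff.2 ha) (by simp) ?_
      intro u hu _
      rw [Finset.mem_singleton] at hu
      subst hu
      refine R.Cl_of_mem (mem_ins.2 ⟨by rwa [Sym2.eq_swap], fun x hx => ?_⟩)
      rcases Sym2.mem_iff.1 hx with h5 | h5
      · exact h5 ▸ hb.1
      · exact h5 ▸ hCW ha
    have h2 := hmax (insert b C) (Finset.mem_filter.2 ⟨Finset.mem_powerset.2
      (Finset.insert_subset hb.1 hCW), Finset.insert_nonempty b C, h1⟩)
    rw [Finset.card_insert_of_notMem hb.2] at h2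
    omega

/-- Parity: in a set `T` with internal degrees two, a part `A` of `T - v` without edges to the rest
of `T - v` receives an even number of edges from `v`. -/
private theorem z1_parity {n : ℕ} {G : Finset (Sym2 ℕ)} (hG : G ⊆ En n) {T A : Finset ℕ}
    (hTn : T ⊆ range n) (h2 : ∀ u ∈ T, (nb n G u ∩ T).card = 2) {v : ℕ} (hv : v ∈ T)
    (hA : A ⊆ T.erase v) (hno : ∀ a ∈ A, ∀ b ∈ T.erase v \ A, s(a, b) ∉ G) :
    Even (nb n G v ∩ A).card := by
  classical
  have hAT : A ⊆ T := hA.trans (Finset.erase_subset v T)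
  have hvA : v ∉ A := fun h => Finset.notMem_erase v T (hA h)
  have hvn : v < n := Finset.mem_range.1 (hTn hv)
  have hsum := sum_deg hG (hAT.trans hTn)
  have h3 : ∀ u ∈ A, (2 : ℤ) = ((nb n G u ∩ A).card : ℤ) + if u ∈ nb n G v then 1 else 0 := by
    intro u hu
    have hun : u < n := Finset.mem_range.1 (hTn (hAT hu))
    have h4 := h2 u (hAT hu)
    by_cases h5 : u ∈ nb n G v
    · have h6 : v ∈ nb n G u := by
        rw [mem_nb] at h5 ⊢
        exact ⟨hvn, by rw [Sym2.eq_swap]; exact h5.2⟩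
      have h7 : nb n G u ∩ T = insert v (nb n G u ∩ A) := by
        ext x
        rw [Finset.mem_inter, Finset.mem_insert, Finset.mem_inter]
        constructor
        · rintro ⟨h8, h9⟩
          by_cases h10 : x = v
          · exact Or.inl h10
          · refine Or.inr ⟨h8, ?_⟩
            by_contra h11
            exact hno u hu x (Finset.mem_sdiff.2 ⟨Finset.mem_erase.2 ⟨h10, h9⟩, h11⟩)
              (mem_nb.1 h8).2
        · rintro (h8 | ⟨h8, h9⟩)
          · exact h8 ▸ ⟨h6, hv⟩
          · exact ⟨h8, hAT h9⟩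
      rw [h7, Finset.card_insert_of_notMem (fun h => hvA (Finset.mem_inter.1 h).2)] at h4
      rw [if_pos h5]
      have : ((nb n G u ∩ A).card : ℤ) = 1 := by exact_mod_cast Nat.succ.inj h4
      rw [this]
      norm_num
    · have h6 : v ∉ nb n G u := by
        intro h6
        apply h5
        rw [mem_nb] at h6 ⊢
        exact ⟨hun, by rw [Sym2.eq_swap]; exact h6.2⟩
      have h7 : nb n G u ∩ T = nb n G u ∩ A := by
        ext x
        rw [Finset.mem_inter, Finset.mem_inter]
        constructor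
        · rintro ⟨h8, h9⟩
          refine ⟨h8, ?_⟩
          have h10 : x ≠ v := fun h => h6 (h ▸ h8)
          by_contra h11
          exact hno u hu x (Finset.mem_sdiff.2 ⟨Finset.mem_erase.2 ⟨h10, h9⟩, h11⟩)
            (mem_nb.1 h8).2
        · rintro ⟨h8, h9⟩
          exact ⟨h8, hAT h9⟩
      rw [h7] at h4
      rw [h4, if_neg h5]
      norm_num
  have h4 : (∑ u ∈ A, if u ∈ nb n G v then (1 : ℤ) else 0) = ((nb n G v ∩ A).card : ℤ) := by
    rw [Finset.sum_ite, Finset.sum_const_zero, add_zero, Finset.sum_const, nsmul_eq_mul, mul_one,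
      Finset.filter_mem_eq_inter, Finset.inter_comm]
  have h5 : ∑ _u ∈ A, (2 : ℤ) = 2 * (exc G A + A.card) + ((nb n G v ∩ A).card : ℤ) := by
    rw [← hsum, ← h4, ← Finset.sum_add_distrib]
    exact Finset.sum_congr rfl h3
  rw [Finset.sum_const, nsmul_eq_mul] at h5
  have h6 : ((nb n G v ∩ A).card : ℤ) = 2 * (- exc G A) := by linarith
  have h7 : Even ((nb n G v ∩ A).card : ℤ) := by
    rw [h6]
    exact even_two_mul _
  exact_mod_cast h7

/-- A cycle minus a vertex is connected. -/
private theorem z1_erase {n : ℕ} {G : Finset (Sym2 ℕ)} (hG : G ⊆ En n) {T : Finset ℕ}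
    (hTn : T ⊆ range n) (hT : Conn G T) (h2 : ∀ u ∈ T, (nb n G u ∩ T).card = 2) {v : ℕ}
    (hv : v ∈ T) : Conn G (T.erase v) := by
  classical
  have hself : v ∉ nb n G v := by
    intro h
    exact (mk_mem_En.1 (hG (mem_nb.1 h).2)).2.2 rfl
  -- a part with no edges to the rest receives exactly one edge from `v`
  have hpos : ∀ A ⊆ T.erase v, A.Nonempty → (∀ a ∈ A, ∀ b ∈ T.erase v \ A, s(a, b) ∉ G) →
      0 < (nb n G v ∩ A).card := by
    intro A hA hne hno
    have hAT : A ≠ T := by
      intro h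
      exact Finset.notMem_erase v T (hA (h.symm ▸ hv))
    obtain ⟨a, ha, b, hb, hab⟩ := hT.2 A (hA.trans (Finset.erase_subset v T)) hne hAT
    rw [Finset.mem_sdiff] at hb
    have hbv : b = v := by
      by_contra hbv
      exact hno a ha b (Finset.mem_sdiff.2 ⟨Finset.mem_erase.2 ⟨hbv, hb.1⟩, hb.2⟩) hab
    subst hbv
    refine Finset.card_pos.2 ⟨a, Finset.mem_inter.2 ⟨mem_nb.2 ⟨?_, ?_⟩, ha⟩⟩
    · exact Finset.mem_range.1 (hTn (Finset.mem_of_mem_erase (hA ha)))
    · rwa [Sym2.eq_swap]
  refine ⟨?_, fun A hA hne hAW => ?_⟩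
  · have h1 : 0 < (nb n G v ∩ T).card := by rw [h2 v hv]; norm_num
    obtain ⟨x, hx⟩ := Finset.card_pos.1 h1
    rw [Finset.mem_inter] at hx
    exact ⟨x, Finset.mem_erase.2 ⟨fun h => hself (h ▸ hx.1), hx.2⟩⟩
  · by_contra hcon
    push Not at hcon
    have hno : ∀ a ∈ A, ∀ b ∈ T.erase v \ A, s(a, b) ∉ G := hcon
    set B : Finset ℕ := T.erase v \ A with hB
    have hBsub : B ⊆ T.erase v := Finset.sdiff_subset
    have hBne : B.Nonempty := by
      rw [hB, Finset.sdiff_nonempty]
      intro h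
      exact hAW (Finset.Subset.antisymm hA h)
    have hBA : T.erase v \ B = A := by
      rw [hB, Finset.sdiff_sdiff_eq_self hA]
    have hno' : ∀ a ∈ B, ∀ b ∈ T.erase v \ B, s(a, b) ∉ G := by
      intro a ha b hb
      rw [hBA] at hb
      rw [Sym2.eq_swap]
      exact hno b hb a ha
    have h3 := hpos A hA hne hno
    have h4 := hpos B hBsub hBne hno'
    obtain ⟨k, hk⟩ := z1_parity hG hTn h2 hv hA hno
    obtain ⟨l, hl⟩ := z1_parity hG hTn h2 hv hBsub hno'
    have h5 : (nb n G v ∩ A).card + (nb n G v ∩ B).card ≤ (nb n G v ∩ T).card := by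
      rw [← Finset.card_union_of_disjoint]
      · refine Finset.card_le_card ?_
        intro x hx
        rw [Finset.mem_union, Finset.mem_inter, Finset.mem_inter] at hx
        rw [Finset.mem_inter]
        rcases hx with hx | hx
        · exact ⟨hx.1, Finset.mem_of_mem_erase (hA hx.2)⟩
        · exact ⟨hx.1, Finset.mem_of_mem_erase (hBsub hx.2)⟩
      · rw [Finset.disjoint_left]
        intro x hx hx'
        rw [Finset.mem_inter] at hx hx'
        exact (Finset.mem_sdiff.1 hx'.2).2 hx.2
    rw [h2 v hv] at h5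
    omega

/-- Z1 (dimension one; hint). Dependent: a circuit, so a nonempty set with internal degrees at least 2;
`exists_induced_cycle`: `T` connected with all internal degrees 2. `GR` with `A = T`: after the deletion
of `v` the rest is connected (otherwise a part has an odd degree sum, `sum_deg`), and a connected set is
a clique of the closure when `d = 1` (`Clq_insert`, grow a maximal clique through a vertex). -/
theorem Rig.main_one {t : ℕ} (R : Rig 1 t) {n : ℕ} {G : Finset (Sym2 ℕ)} (hG : G ⊆ En n)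
    (h : R.Dep G) : R.GR n G := by
  classical
  have hdiag : ∀ e ∈ G, ¬ e.IsDiag := fun e he => (mem_En.1 (hG he)).2
  obtain ⟨C, hCG, ⟨e, he⟩, -, hdeg⟩ := R.exists_circuit hdiag h
  set S : Finset ℕ := C.biUnion (fun e => e.toFinset) with hS
  have hmem : ∀ x, x ∈ S ↔ ∃ e ∈ C, x ∈ e := by
    intro x
    rw [hS, Finset.mem_biUnion]
    simp only [Sym2.mem_toFinset]
  have hSn : S ⊆ range n := by
    intro x hx
    obtain ⟨e, he, hxe⟩ := (hmem x).1 hx
    exact Finset.mem_range.2 ((mem_En.1 (hG (hCG he))).1 x hxe)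
  have hSne : S.Nonempty := by
    induction e using Sym2.ind with
    | _ a b => exact ⟨a, (hmem a).2 ⟨_, he, Sym2.mem_mk_left a b⟩⟩
  have hS2 : ∀ u ∈ S, 2 ≤ (nb n G u ∩ S).card := by
    intro u hu
    refine (hdeg u ((hmem u).1 hu)).trans ?_
    have h1 : C.filter (fun e => u ∈ e) ⊆ (nb n G u ∩ S).image (fun w => s(u, w)) := by
      intro f hf
      rw [Finset.mem_filter] at hf
      obtain ⟨w, rfl⟩ := Sym2.mem_iff_exists.1 hf.2
      refine Finset.mem_image.2 ⟨w, Finset.mem_inter.2 ⟨mem_nb.2 ⟨?_, hCG hf.1⟩, ?_⟩, rfl⟩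
      · exact (mk_mem_En.1 (hG (hCG hf.1))).2.1
      · exact (hmem w).2 ⟨_, hf.1, Sym2.mem_mk_right u w⟩
    exact (Finset.card_le_card h1).trans Finset.card_image_le
  obtain ⟨T, hTS, hT, hT2⟩ := exists_induced_cycle hG hSn hSne hS2
  have hTn : T ⊆ range n := hTS.trans hSn
  refine ⟨T, hTn, hT.1, fun v hv => ?_, fun v hv => ?_⟩
  · rw [hT2 v hv]
  · exact z1_clq R (z1_erase hG hTn hT hT2 hv)

end Pool.Agent.Helper55.ML
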