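import Pool.Agent.Helper55.ML.P4
import Pool.Agent.Helper55.ML.Q1
import Pool.Agent.Helper55.ML.Q7
import Pool.Agent.Helper55.ML.Q11
import Pool.Agent.Helper55.ML.M2

set_option autoImplicit false
open Finset Matrix Filter Topology

namespace Pool.Agent.Helper55.ML

/-- Z2 (hint): first moment over all sets of `s ≥ 1` vertices:
`C(n,s) C(s^2/2,⌈Rs/2⌉) (c/n)^⌈Rs/2⌉ ≤ [e (s/n)^(R/2-1) (e c/R)^(R/2)]^s`. For `R` large against `c` the
bracket is at most `1/4` for all `s ≤ n`, and for `s ≤ √n` it is at most `n^(-1/4)`, so the sum over `s` tends to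
zero. -/
theorem Neg_core_large {c : ℝ} (hc : 0 < c) : ∃ R0 : ℕ, ∀ R : ℕ, R0 ≤ R →
    Neg c (fun n G => ∃ S : Finset ℕ, S ⊆ range n ∧ S.Nonempty ∧
      R * S.card ≤ 2 * (ins S G).card) := by
  obtain ⟨β, hβ, hD⟩ := Neg_dense_small hc
  obtain ⟨m, hm⟩ := exists_nat_ge (2 * c / β)
  refine ⟨max 3 m, fun R hR => ?_⟩
  have hR3 : 3 ≤ R := le_trans (le_max_left _ _) hR
  have hRm : 2 * c / β ≤ (R : ℝ) :=
    le_trans hm (by exact_mod_cast le_trans (le_max_right _ _) hR)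
  rw [div_le_iff₀ hβ] at hRm
  refine Neg_or_mono hc hD (Neg_card hc) (Eventually.of_forall (fun n G _ h => ?_))
  obtain ⟨S, hS, hne, hd⟩ := h
  by_cases hs : (S.card : ℝ) ≤ β * n
  · exact Or.inl ⟨S, hS, hne, hs, le_trans (Nat.mul_le_mul_right _ hR3) hd⟩
  · right
    rw [not_le] at hs
    have h1 : (ins S G).card ≤ G.card := Finset.card_le_card (ins_subset S G)
    have h2 : ((R * S.card : ℕ) : ℝ) ≤ ((2 * G.card : ℕ) : ℝ) := by
      exact_mod_cast le_trans hd (Nat.mul_le_mul_left 2 h1)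
    push_cast at h2
    have h3 : (R : ℝ) * (β * n) ≤ (R : ℝ) * S.card :=
      mul_le_mul_of_nonneg_left hs.le (Nat.cast_nonneg R)
    have h4 : 2 * c * n ≤ (R : ℝ) * β * n := mul_le_mul_of_nonneg_right hRm (Nat.cast_nonneg n)
    nlinarith

/-- (hint) `exists_circuit_vertices`. -/
theorem Neg_Dep_large {c : ℝ} (hc : 0 < c) : ∃ R0 : ℕ, ∀ d : ℕ, R0 ≤ d →
    ∀ (t : ℕ) (R : Rig d t), Neg c (fun _ G => R.Dep G) := by
  obtain ⟨R0, hR0⟩ := Neg_core_large hc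
  refine ⟨R0, fun d hd t R => ?_⟩
  refine Neg_mono hc (hR0 (d + 1) (by omega)) (Eventually.of_forall (fun n G hG h => ?_))
  obtain ⟨C, hCG, V, hV, hne, hCV, _, hcard⟩ := R.exists_circuit_vertices hG h
  refine ⟨V, hV, hne, le_trans hcard (Nat.mul_le_mul_left 2 (Finset.card_le_card ?_))⟩
  intro e he
  rw [mem_ins]
  exact ⟨hCG he, hCV e he⟩

end Pool.Agent.Helper55.ML
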