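import Pool.Agent.Helper55.MLA.Defs

set_option autoImplicit false
open Finset Classical

namespace Pool.Agent.Helper55.ML

private theorem Z3_card (n : ℕ) : (En n).card = n.choose 2 := by
  have h1 : En n = (range n).offDiag.image Sym2.mk.uncurry := by
    ext e
    induction e using Sym2.ind with
    | _ a b =>
      rw [mk_mem_En, Finset.mem_image]
      constructor
      · rintro ⟨ha, hb, hab⟩
        exact ⟨(a, b), Finset.mem_offDiag.2 ⟨Finset.mem_range.2 ha, Finset.mem_range.2 hb, hab⟩, rfl⟩
      · rintro ⟨⟨x, y⟩, hxy, he⟩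
        rw [Finset.mem_offDiag] at hxy
        obtain ⟨hx, hy, hne⟩ := hxy
        simp only [Finset.mem_range] at hx hy
        rcases Sym2.eq_iff.1 he with ⟨e1, e2⟩ | ⟨e1, e2⟩
        · subst e1; subst e2
          exact ⟨hx, hy, hne⟩
        · subst e1; subst e2
          exact ⟨hy, hx, hne.symm⟩
  rw [h1, Sym2.card_image_offDiag, Finset.card_range]

/-- Z3 (hint): both sides are sums over the sets of pairs; the loopless `S` correspond to the subsets of
`En n` by `S ↦ S.image (Sym2.map Fin.val)`, `|En n| = n.choose 2`. -/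
theorem sum_eq_Pr (n : ℕ) (p : ℝ) (Good : Finset (Sym2 (Fin n)) → Prop)
    (B : Finset (Sym2 ℕ) → Prop)
    (h : ∀ S : Finset (Sym2 (Fin n)), (∀ e ∈ S, ¬ e.IsDiag) →
      (Good S ↔ B (S.image (Sym2.map (Fin.val : Fin n → ℕ))))) :
    (∑ S : Finset (Sym2 (Fin n)), if (∀ e ∈ S, ¬ e.IsDiag) ∧ Good S then
      p ^ S.card * (1 - p) ^ (n.choose 2 - S.card) else 0) = Pr n p B := by
  classical
  have hinj : Function.Injective (Sym2.map (Fin.val : Fin n → ℕ)) :=
    Sym2.map.injective Fin.val_injective
  have hmem : ∀ S : Finset (Sym2 (Fin n)), (∀ e ∈ S, ¬ e.IsDiag) →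
      S.image (Sym2.map (Fin.val : Fin n → ℕ)) ⊆ En n := by
    intro S hS e he
    obtain ⟨f, hf, rfl⟩ := Finset.mem_image.mp he
    have hd := hS f hf
    induction f using Sym2.ind with
    | _ a b =>
      rw [Sym2.map_mk, mk_mem_En]
      refine ⟨a.2, b.2, fun hab => hd ?_⟩
      rw [Sym2.mk_isDiag_iff]
      exact Fin.ext hab
  unfold Pr Ex BE
  have h1 : (∑ S : Finset (Sym2 (Fin n)), if (∀ e ∈ S, ¬ e.IsDiag) ∧ Good S then
      p ^ S.card * (1 - p) ^ (n.choose 2 - S.card) else 0) =
      ∑ S ∈ (Finset.univ : Finset (Finset (Sym2 (Fin n)))).filter (fun S => ∀ e ∈ S, ¬ e.IsDiag),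
        p ^ (S.image (Sym2.map (Fin.val : Fin n → ℕ))).card *
          (1 - p) ^ (En n \ S.image (Sym2.map (Fin.val : Fin n → ℕ))).card *
          ind (B (S.image (Sym2.map (Fin.val : Fin n → ℕ)))) := by
    rw [Finset.sum_filter]
    refine Finset.sum_congr rfl fun S _ => ?_
    by_cases hS : ∀ e ∈ S, ¬ e.IsDiag
    · rw [if_pos hS]
      have hc : (S.image (Sym2.map (Fin.val : Fin n → ℕ))).card = S.card :=
        Finset.card_image_of_injective _ hinj
      have hc2 : (En n \ S.image (Sym2.map (Fin.val : Fin n → ℕ))).card =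
          n.choose 2 - S.card := by
        rw [Finset.card_sdiff_of_subset (hmem S hS), hc, Z3_card]
      rw [hc, hc2]
      by_cases hG : Good S
      · rw [if_pos ⟨hS, hG⟩, ind_true ((h S hS).mp hG), mul_one]
      · rw [if_neg (fun hh => hG hh.2), ind_false (fun hB => hG ((h S hS).mpr hB)), mul_zero]
    · rw [if_neg hS, if_neg (fun hh => hS hh.1)]
  rw [h1]
  refine Finset.sum_nbij (fun S => S.image (Sym2.map (Fin.val : Fin n → ℕ))) ?_ ?_ ?_ ?_
  · intro S hS
    rw [Finset.mem_filter] at hS
    rw [Finset.mem_powerset]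
    exact hmem S hS.2
  · intro S _ T _ hST
    exact Finset.image_injective hinj hST
  · intro T hT
    have hT' : T ⊆ En n := Finset.mem_powerset.mp hT
    refine ⟨Finset.univ.filter (fun e : Sym2 (Fin n) =>
      Sym2.map (Fin.val : Fin n → ℕ) e ∈ T), ?_, ?_⟩
    · rw [Finset.mem_coe, Finset.mem_filter]
      refine ⟨Finset.mem_univ _, fun e he hd => ?_⟩
      have he' := (Finset.mem_filter.mp he).2
      have := mem_En.mp (hT' he')
      apply this.2
      induction e using Sym2.ind with
      | _ a b =>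
        rw [Sym2.map_mk, Sym2.mk_isDiag_iff]
        rw [Sym2.mk_isDiag_iff] at hd
        rw [hd]
    · ext e
      simp only [Finset.mem_image, Finset.mem_filter, Finset.mem_univ, true_and]
      constructor
      · rintro ⟨f, hf, rfl⟩
        exact hf
      · intro he
        have h2 := mem_En.mp (hT' he)
        induction e using Sym2.ind with
        | _ a b =>
          have ha : a < n := h2.1 a (Sym2.mem_mk_left a b)
          have hb : b < n := h2.1 b (Sym2.mem_mk_right a b)
          refine ⟨s(⟨a, ha⟩, ⟨b, hb⟩), ?_, ?_⟩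
          · rw [Sym2.map_mk]; exact he
          · rw [Sym2.map_mk]
  · intro S _
    rfl

end Pool.Agent.Helper55.ML
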