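import Pool.Agent.Helper55.ML.Main
import Pool.Agent.Helper55.MLA.B3
import Pool.Agent.Helper55.MLA.B7
import Pool.Agent.Helper55.MLA.I2
import Pool.Agent.Helper55.MLA.I3
import Pool.Agent.Helper55.MLA.I4
import Pool.Agent.Helper55.MLA.I5
import Pool.Agent.Helper55.MLA.I6
import Pool.Agent.Helper55.MLA.Z1
import Pool.Agent.Helper55.MLA.Z2
import Pool.Agent.Helper55.MLA.Z3

set_option autoImplicit false
open Finset Filter Topology

namespace Pool.Agent.Helper55.ML

theorem sInf_eq_of_iff {A B : Set ℕ} {R : ℕ} (hA : R ∈ A) (hB : R ∈ B)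
    (h : ∀ r < R, (r ∈ A ↔ r ∈ B)) : sInf A = sInf B := by
  have h1 : sInf A ∈ A := Nat.sInf_mem ⟨R, hA⟩
  have h2 : sInf B ∈ B := Nat.sInf_mem ⟨R, hB⟩
  have h3 : sInf A ≤ R := Nat.sInf_le hA
  have h4 : sInf B ≤ R := Nat.sInf_le hB
  apply le_antisymm
  · rcases lt_or_eq_of_le h4 with h5 | h5
    · exact Nat.sInf_le ((h _ h5).2 h2)
    · rw [h5]; exact h3
  · rcases lt_or_eq_of_le h3 with h5 | h5
    · exact Nat.sInf_le ((h _ h5).1 h1)
    · rw [h5]; exact h4

/-- Equal or adjacent in `G`. -/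
def PG (n : ℕ) (G : Finset (Sym2 ℕ)) : Fin n → Fin n → Prop :=
  fun i j => i = j ∨ s((i : ℕ), (j : ℕ)) ∈ G

theorem PG_symm {n : ℕ} {G : Finset (Sym2 ℕ)} : ∀ i j, PG n G i j → PG n G j i := by
  intro i j h
  rcases h with h | h
  · exact Or.inl h.symm
  · exact Or.inr (by rw [Sym2.eq_swap]; exact h)

theorem PG_refl {n : ℕ} {G : Finset (Sym2 ℕ)} : ∀ i, PG n G i i := fun _ => Or.inl rfl

theorem mem_sets_of_indep (r : ℕ) (hr : 1 ≤ r) {n : ℕ} {G : Finset (Sym2 ℕ)} (hG : G ⊆ En n)
    (h : ¬ (genericRig r hr).Dep G) : r ∈ Aset n (PG n G) ∧ r ∈ Bset n (PG n G) := by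
  have hf : ∀ X : Matrix (Fin n) (Fin r) ℝ, AlgInd X → Free (PG n G) X :=
    fun X hX => Free_real r hr hG h hX
  exact ⟨mem_Aset PG_symm PG_refl hf, mem_Bset PG_symm hf⟩

theorem not_mem_sets_of_GR (r : ℕ) (hr : 2 ≤ r) {n : ℕ} {G : Finset (Sym2 ℕ)} (hG : G ⊆ En n)
    (h : (genericRig r (by omega)).GR n G) : r ∉ Aset n (PG n G) ∧ r ∉ Bset n (PG n G) := by
  obtain ⟨A, hA, hne, hH, hc⟩ := GRH_of_GR r hr hG h
  refine ⟨not_mem_Aset (by omega) hG hA hne hH, not_mem_Bset hG hA ?_ hc⟩
  obtain ⟨v, hv⟩ := hne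
  obtain ⟨N, hN, _⟩ := hH.deg ⟨v, hv⟩
  have h1 : N.card ≤ Fintype.card A := Finset.card_le_univ N
  rw [Fintype.card_coe] at h1
  exact le_trans hN h1

/-- Deterministic conclusion. -/
theorem sInf_eq_of_good {n : ℕ} (hn : 0 < n) {G : Finset (Sym2 ℕ)} (hG : G ⊆ En n) {R : ℕ}
    (hR : 2 ≤ R) (hdep : ¬ (genericRig R (by omega)).Dep G)
    (h : ∀ (r : ℕ) (h3 : 3 ≤ r), r < R → (genericRig r (by omega)).Dep G →
      (genericRig r (by omega)).GR n G) :
    sInf (Aset n (PG n G)) = sInf (Bset n (PG n G)) := by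
  have hRm := mem_sets_of_indep R (by omega) hG hdep
  refine sInf_eq_of_iff hRm.1 hRm.2 (fun r hr => ?_)
  have key : ∀ hr1 : 1 ≤ r, ((genericRig r hr1).Dep G → r ∉ Aset n (PG n G) ∧
      r ∉ Bset n (PG n G)) → (r ∈ Aset n (PG n G) ↔ r ∈ Bset n (PG n G)) := by
    intro hr1 h1
    by_cases hd : (genericRig r hr1).Dep G
    · exact ⟨fun h' => absurd h' (h1 hd).1, fun h' => absurd h' (h1 hd).2⟩
    · exact ⟨fun _ => (mem_sets_of_indep r hr1 hG hd).2,
        fun _ => (mem_sets_of_indep r hr1 hG hd).1⟩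
  rcases Nat.lt_or_ge r 1 with h0 | h1
  · have : r = 0 := by omega
    subst this
    exact ⟨fun h' => absurd h' (zero_not_mem_Aset hn PG_refl),
      fun h' => absurd h' (zero_not_mem_Bset hn PG_refl)⟩
  rcases Nat.lt_or_ge r 2 with h2 | h2
  · have : r = 1 := by omega
    subst this
    refine key le_rfl (fun hd => ?_)
    have hne : G.Nonempty := by
      by_contra hemp
      rw [Finset.not_nonempty_iff_eq_empty] at hemp
      subst hemp
      exact absurd hd (by unfold Rig.Dep; simp)
    obtain ⟨e, he⟩ := hne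
    induction e with
    | h a b =>
      have hab := mk_mem_En.1 (hG he)
      have main : ∀ a b : ℕ, s(a, b) ∈ G → a < b → b < n →
          1 ∉ Aset n (PG n G) ∧ 1 ∉ Bset n (PG n G) := by
        intro a b h1 h2 h3
        have hab' : (⟨a, lt_trans h2 h3⟩ : Fin n) < ⟨b, h3⟩ := h2
        exact ⟨one_not_mem_Aset PG_refl (ne_of_lt hab') (Or.inr h1),
          one_not_mem_Bset PG_refl hab' (Or.inr h1)⟩
      rcases lt_or_gt_of_ne hab.2.2 with h3 | h3
      · exact main a b he h3 hab.2.1
      · exact main b a (by rw [Sym2.eq_swap]; exact he) h3 hab.1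
  rcases Nat.lt_or_ge r 3 with h3 | h3
  · have : r = 2 := by omega
    subst this
    exact key h1 (fun hd => not_mem_sets_of_GR 2 le_rfl hG (Rig.main_one (genericRig 2 h1) hG hd))
  · exact key h1 (fun hd => not_mem_sets_of_GR r h2 hG (h r h3 hr hd))

theorem Neg_bad {c : ℝ} (hc : 0 < c) :
    Neg c (fun n G => ¬ (sInf (Aset n (PG n G)) = sInf (Bset n (PG n G)))) := by
  obtain ⟨R0, hR0⟩ := Neg_Dep_large hc
  set R := max R0 2 + 1 with hR
  have hR2 : 2 ≤ R := by
    have := le_max_right R0 2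
    omega
  have hd : Neg c (fun _ G => (genericRig R (by omega)).Dep G) := by
    refine hR0 (R - 1) ?_ _ _
    have := le_max_left R0 2
    omega
  have hN : ∀ m : ℕ, Neg c (fun n G => ∃ (r : ℕ) (h3 : 3 ≤ r), r < m ∧
      (genericRig r (by omega)).Dep G ∧ ¬ (genericRig r (by omega)).GR n G) := by
    intro m
    induction m with
    | zero =>
      refine Neg_mono hc hd ?_
      exact Eventually.of_forall (fun n G _ h => by
        obtain ⟨r, _, h1, _⟩ := h
        omega)
    | succ m ih =>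
      rcases Nat.lt_or_ge m 3 with h3 | h3
      · refine Neg_mono hc ih ?_
        exact Eventually.of_forall (fun n G _ h => by
          obtain ⟨r, h1, h2, _⟩ := h
          omega)
      · have h4 : Neg c (fun n G => (genericRig m (by omega)).Dep G ∧
            ¬ (genericRig m (by omega)).GR n G) := by
          refine main_random (genericRig m (by omega)) (by omega) ?_ hc
          have : 3 * (3 + 1) ≤ m * (m + 1) := Nat.mul_le_mul h3 (by omega)
          omega
        refine Neg_mono hc (Neg_or hc ih h4) ?_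
        exact Eventually.of_forall (fun n G _ h => by
          obtain ⟨r, h1, h2, h5⟩ := h
          rcases Nat.lt_or_ge r m with h6 | h6
          · exact Or.inl ⟨r, h1, h6, h5⟩
          · have : r = m := by omega
            subst this
            exact Or.inr h5)
  refine Neg_mono hc (Neg_or hc hd (hN R)) ?_
  filter_upwards [eventually_gt_atTop 0] with n hn G hG hbad
  by_contra hcon
  obtain ⟨c1, c2⟩ := not_or.1 hcon
  refine hbad (sInf_eq_of_good hn hG hR2 c1 (fun r h3 hr hdr => ?_))
  by_contra hGR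
  exact c2 ⟨r, h3, hr, hdr, hGR⟩

theorem Pr_good {c : ℝ} (hc : 0 < c) :
    Tendsto (fun n : ℕ => Pr n (c / n) (fun G => sInf (Aset n (PG n G)) = sInf (Bset n (PG n G))))
      atTop (𝓝 1) := by
  have h := Neg_bad hc
  have h2 : Tendsto (fun n : ℕ => 1 - Pr n (c / n)
      (fun G => ¬ (sInf (Aset n (PG n G)) = sInf (Bset n (PG n G))))) atTop (𝓝 (1 - 0)) :=
    tendsto_const_nhds.sub h
  rw [sub_zero] at h2
  refine h2.congr (fun n => ?_)
  rw [← Pr_compl]
  simp only [not_not]

open Classical in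
theorem final {c : ℝ} (hc : 0 < c) :
    Tendsto
        (fun n : ℕ =>
          ∑ S : Finset (Sym2 (Fin n)),
            if (∀ e ∈ S, ¬ e.IsDiag) ∧
                sInf {d : ℕ | ∀ᵐ X : Fin d → Fin n → ℝ,
                    ∃ K : Matrix (Fin n) (Fin n) ℝ, K.PosDef ∧
                      ∀ i j : Fin n,
                        (i = j ∨ (SimpleGraph.fromEdgeSet (↑S : Set (Sym2 (Fin n)))).Adj i j) →
                        K i j = ∑ k, X k i * X k j}
                = sInf {r : ℕ | (interior (Set.range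
                    (fun Y : Fin n → Fin r → ℝ =>
                      fun q : {q : Fin n × Fin n // q.1 ≤ q.2 ∧
                          (q.1 = q.2 ∨
                            (SimpleGraph.fromEdgeSet (↑S : Set (Sym2 (Fin n)))).Adj q.1 q.2)} =>
                        ∑ k, Y q.1.1 k * Y q.1.2 k))).Nonempty}
            then (c / (n : ℝ)) ^ S.card * (1 - c / (n : ℝ)) ^ (n.choose 2 - S.card)
            else 0)
        atTop (𝓝 1) := by
  refine (Pr_good hc).congr (fun n => ?_)
  set P' : Finset (Sym2 (Fin n)) → Fin n → Fin n → Prop := fun S i j =>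
    i = j ∨ (SimpleGraph.fromEdgeSet (↑S : Set (Sym2 (Fin n)))).Adj i j with hP'
  have h := sum_eq_Pr n (c / n) (fun S => sInf (Aset n (P' S)) = sInf (Bset n (P' S)))
    (fun G => sInf (Aset n (PG n G)) = sInf (Bset n (PG n G))) (by
      intro S hS
      have hPP : P' S = PG n (S.image (Sym2.map (Fin.val : Fin n → ℕ))) := by
        funext i j
        apply propext
        simp only [hP', PG, SimpleGraph.fromEdgeSet_adj, Finset.mem_image, Finset.mem_coe]
        constructor
        · rintro (h | h)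
          · exact Or.inl h
          · exact Or.inr ⟨s(i, j), h.1, by simp⟩
        · rintro (h | ⟨e, he, h⟩)
          · exact Or.inl h
          · by_cases hij : i = j
            · exact Or.inl hij
            · right
              refine ⟨?_, hij⟩
              have h2 : Sym2.map (Fin.val : Fin n → ℕ) e =
                  Sym2.map (Fin.val : Fin n → ℕ) s(i, j) := by rw [h]; simp
              have h3 := Sym2.map.injective (Fin.val_injective) h2
              rw [← h3]; exact he
      rw [hPP])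
  rw [← h]
  refine Finset.sum_congr rfl (fun S _ => ?_)
  by_cases hS : (∀ e ∈ S, ¬ e.IsDiag) ∧ sInf (Aset n (P' S)) = sInf (Bset n (P' S))
  · exact (if_pos hS).trans (if_pos hS).symm
  · exact (if_neg hS).trans (if_neg hS).symm

end Pool.Agent.Helper55.ML
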