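import Pool.Agent.Helper55.MLA.B1
import Pool.Agent.Helper55.MLA.B8

set_option autoImplicit false
open Finset Matrix Filter Topology

namespace Pool.Agent.Helper55.ML

open Classical in
/-- The linear system describing the stresses of the configuration `X`. -/
noncomputable def G1_sys {A V : Type} [CommRing A] [Fintype V] [DecidableEq V] {r : ℕ}
    (P : V → V → Prop) (X : Matrix V (Fin r) A) :
    Matrix ((V × V) ⊕ ((V × V) ⊕ (V × Fin r))) (V × V) A :=
  Matrix.of (Sum.elim (fun p c => (if c = p then 1 else 0) - (if c = (p.2, p.1) then 1 else 0))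
    (Sum.elim (fun p c => if P p.1 p.2 then 0 else (if c = p then 1 else 0))
      (fun p c => if c.1 = p.1 then X c.2 p.2 else 0)))

theorem G1_sys_map {A B V : Type} [CommRing A] [CommRing B] [Fintype V] [DecidableEq V] {r : ℕ}
    (P : V → V → Prop) (X : Matrix V (Fin r) A) (φ : A →+* B) :
    (G1_sys P X).map φ = G1_sys P (X.map φ) := by
  ext a c
  rcases a with p | p | p
  · simp only [G1_sys, Matrix.map_apply, Matrix.of_apply, Sum.elim_inl, map_sub, apply_ite φ,
      map_one, map_zero]
  · simp only [G1_sys, Matrix.map_apply, Matrix.of_apply, Sum.elim_inl, Sum.elim_inr, apply_ite φ,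
      map_one, map_zero]
  · simp only [G1_sys, Matrix.map_apply, Matrix.of_apply, Sum.elim_inr, apply_ite φ, map_zero]

theorem G1_sys_iff {A V : Type} [CommRing A] [Fintype V] [DecidableEq V] {r : ℕ}
    (P : V → V → Prop) (X : Matrix V (Fin r) A) (K : Matrix V V A) :
    (G1_sys P X).mulVec (fun c => K c.1 c.2) = 0 ↔ Stress P X K := by
  classical
  have e1 : ∀ i j, (G1_sys P X).mulVec (fun c => K c.1 c.2) (Sum.inl (i, j)) = K i j - K j i := by
    intro i j
    simp only [G1_sys, Matrix.mulVec, dotProduct, Matrix.of_apply, Sum.elim_inl, sub_mul, ite_mul,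
      one_mul, zero_mul, Finset.sum_sub_distrib, Finset.sum_ite_eq', Finset.mem_univ, if_true]
  have e2 : ∀ i j, (G1_sys P X).mulVec (fun c => K c.1 c.2) (Sum.inr (Sum.inl (i, j))) =
      if P i j then 0 else K i j := by
    intro i j
    simp only [G1_sys, Matrix.mulVec, dotProduct, Matrix.of_apply, Sum.elim_inl, Sum.elim_inr]
    by_cases h : P i j
    · simp [h]
    · simp [h]
  have e3 : ∀ i k, (G1_sys P X).mulVec (fun c => K c.1 c.2) (Sum.inr (Sum.inr (i, k))) =
      (K * X) i k := by
    intro i k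
    simp only [G1_sys, Matrix.mulVec, dotProduct, Matrix.of_apply, Sum.elim_inr,
      Fintype.sum_prod_type, Matrix.mul_apply]
    rw [Finset.sum_eq_single i]
    · simp only [if_true]
      exact Finset.sum_congr rfl (fun b _ => mul_comm _ _)
    · intro b _ hb
      simp [hb]
    · simp
  constructor
  · intro h
    refine ⟨⟨?_, ?_⟩, ?_⟩
    · ext i j
      have := e1 j i
      rw [h] at this
      simp only [Matrix.transpose_apply]
      exact sub_eq_zero.mp this.symm
    · intro i j hij
      have := e2 i j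
      rw [h, if_neg hij] at this
      exact this.symm
    · ext i k
      rw [← e3 i k, h]
      rfl
  · rintro ⟨⟨h1, h2⟩, h3⟩
    funext a
    rcases a with ⟨i, j⟩ | ⟨i, j⟩ | ⟨i, k⟩
    · rw [e1, Pi.zero_apply, sub_eq_zero]
      exact (h1.apply i j).symm
    · rw [e2, Pi.zero_apply]
      split_ifs with h
      · rfl
      · exact h2 i j h
    · rw [e3, h3]
      rfl

/-- The module of generic stresses. -/
def G1_mod {A V : Type} [CommRing A] [Fintype V] {r : ℕ}
    (P : V → V → Prop) (X : Matrix V (Fin r) A) : Submodule A (Matrix V V A) where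
  carrier := {K | Stress P X K}
  add_mem' := by
    rintro K L ⟨⟨a1, a2⟩, a3⟩ ⟨⟨b1, b2⟩, b3⟩
    refine ⟨⟨a1.add b1, fun i j h => ?_⟩, ?_⟩
    · simp [a2 i j h, b2 i j h]
    · rw [Matrix.add_mul, a3, b3, add_zero]
  zero_mem' := by
    refine ⟨⟨Matrix.isSymm_zero, fun i j _ => rfl⟩, Matrix.zero_mul X⟩
  smul_mem' := by
    rintro c K ⟨⟨a1, a2⟩, a3⟩
    refine ⟨⟨a1.smul c, fun i j h => ?_⟩, ?_⟩
    · simp [a2 i j h]
    · rw [Matrix.smul_mul, a3, smul_zero]

theorem G1_mem {A V : Type} [CommRing A] [Fintype V] {r : ℕ}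
    {P : V → V → Prop} {X : Matrix V (Fin r) A} {K : Matrix V V A} :
    K ∈ G1_mod P X ↔ Stress P X K := Iff.rfl

/-- Directional derivative at the point given by `θ`. -/
noncomputable def G1_d {ι : Type} [Fintype ι] (θ : MvPolynomial ι ℚ →ₐ[ℚ] ℝ) (z : ι → ℝ)
    (f : MvPolynomial ι ℚ) : ℝ := ∑ a, z a * θ (MvPolynomial.pderiv a f)

theorem G1_d_add {ι : Type} [Fintype ι] (θ : MvPolynomial ι ℚ →ₐ[ℚ] ℝ) (z : ι → ℝ)
    (f g : MvPolynomial ι ℚ) : G1_d θ z (f + g) = G1_d θ z f + G1_d θ z g := by
  simp only [G1_d, map_add, mul_add, Finset.sum_add_distrib]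

theorem G1_d_zero {ι : Type} [Fintype ι] (θ : MvPolynomial ι ℚ →ₐ[ℚ] ℝ) (z : ι → ℝ) :
    G1_d θ z 0 = 0 := by
  simp [G1_d]

theorem G1_d_sum {ι κ : Type} [Fintype ι] (θ : MvPolynomial ι ℚ →ₐ[ℚ] ℝ) (z : ι → ℝ)
    (s : Finset κ) (f : κ → MvPolynomial ι ℚ) :
    G1_d θ z (∑ k ∈ s, f k) = ∑ k ∈ s, G1_d θ z (f k) := by
  classical
  induction s using Finset.induction_on with
  | empty => simp [G1_d_zero]
  | insert a s ha ih => rw [Finset.sum_insert ha, Finset.sum_insert ha, G1_d_add, ih]

theorem G1_d_mul {ι : Type} [Fintype ι] (θ : MvPolynomial ι ℚ →ₐ[ℚ] ℝ) (z : ι → ℝ)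
    (f g : MvPolynomial ι ℚ) :
    G1_d θ z (f * g) = G1_d θ z f * θ g + θ f * G1_d θ z g := by
  simp only [G1_d, Derivation.leibniz, smul_eq_mul, map_add, map_mul, Finset.sum_mul,
    Finset.mul_sum, ← Finset.sum_add_distrib]
  exact Finset.sum_congr rfl (fun a _ => by ring)

theorem G1_d_X {ι : Type} [Fintype ι] [DecidableEq ι] (θ : MvPolynomial ι ℚ →ₐ[ℚ] ℝ) (z : ι → ℝ)
    (b : ι) : G1_d θ z (MvPolynomial.X b) = z b := by
  simp only [G1_d]
  rw [Finset.sum_eq_single b]
  · simp [MvPolynomial.pderiv_X_self]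
  · intro a _ hab
    rw [MvPolynomial.pderiv_X_of_ne (Ne.symm hab)]
    simp
  · simp

theorem G1_d_matmul {ι m n k : Type} [Fintype ι] [Fintype n] (θ : MvPolynomial ι ℚ →ₐ[ℚ] ℝ)
    (z : ι → ℝ) (M : Matrix m n (MvPolynomial ι ℚ)) (N : Matrix n k (MvPolynomial ι ℚ)) :
    (M * N).map (G1_d θ z) = M.map (G1_d θ z) * N.map θ + M.map θ * N.map (G1_d θ z) := by
  ext i j
  simp only [Matrix.map_apply, Matrix.mul_apply, Matrix.add_apply, G1_d_sum, G1_d_mul,
    Finset.sum_add_distrib]

theorem G1_d_mulVec {ι m n : Type} [Fintype ι] [Fintype n] (θ : MvPolynomial ι ℚ →ₐ[ℚ] ℝ)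
    (z : ι → ℝ) (M : Matrix m n (MvPolynomial ι ℚ)) (u : n → MvPolynomial ι ℚ) :
    (fun i => G1_d θ z (M.mulVec u i)) =
      (M.map (G1_d θ z)).mulVec (fun i => θ (u i)) + (M.map θ).mulVec (fun i => G1_d θ z (u i)) := by
  funext i
  simp only [Matrix.mulVec, dotProduct, Matrix.map_apply, Pi.add_apply, G1_d_sum, G1_d_mul,
    Finset.sum_add_distrib]

/-- G1 (generic stress). -/
theorem exists_tangent {V : Type} [Fintype V] [DecidableEq V] (r : ℕ) (P : V → V → Prop) :
    ∃ (X0 : Matrix V (Fin r) ℝ) (K0 : Matrix V V ℝ), AlgInd X0 ∧ Stress P X0 K0 ∧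
      ∀ K' : Matrix V V ℝ, SuppOn P K' → (∃ Z : Matrix V (Fin r) ℝ, K' * X0 = K0 * Z) →
        ∀ u w : V → ℝ, K0.mulVec u = 0 → K0.mulVec w = 0 → u ⬝ᵥ K'.mulVec w = 0 := by
  classical
  obtain ⟨t, ht⟩ := IsNoetherian.noetherian (G1_mod P (XG V r))
  obtain ⟨y, hy⟩ := exists_algInd ((V × Fin r) ⊕ {x // x ∈ t})
  set θ : MvPolynomial ((V × Fin r) ⊕ {x // x ∈ t}) ℚ →ₐ[ℚ] ℝ := MvPolynomial.aeval y with hθ
  have hinj : Function.Injective θ := hy
  set ρ : MvPolynomial (V × Fin r) ℚ →ₐ[ℚ] MvPolynomial ((V × Fin r) ⊕ {x // x ∈ t}) ℚ :=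
    MvPolynomial.rename Sum.inl with hρ
  have hρinj : Function.Injective ρ := MvPolynomial.rename_injective _ Sum.inl_injective
  set Kg : Matrix V V (MvPolynomial ((V × Fin r) ⊕ {x // x ∈ t}) ℚ) :=
    ∑ i : {x // x ∈ t}, (MvPolynomial.X (Sum.inr i) : MvPolynomial ((V × Fin r) ⊕ {x // x ∈ t}) ℚ) •
      (i : Matrix V V (MvPolynomial (V × Fin r) ℚ)).map ρ with hKg
  set Xg : Matrix V (Fin r) (MvPolynomial ((V × Fin r) ⊕ {x // x ∈ t}) ℚ) := (XG V r).map ρ with hXg
  have hgen : ∀ i : {x // x ∈ t}, Stress P (XG V r) (i : Matrix V V (MvPolynomial (V × Fin r) ℚ)) := by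
    intro i
    have : (i : Matrix V V (MvPolynomial (V × Fin r) ℚ)) ∈ G1_mod P (XG V r) := by
      rw [← ht]
      exact Submodule.subset_span i.2
    exact this
  -- mapping stresses
  have hmapS : ∀ {A B : Type} [CommRing A] [CommRing B] (φ : A →+* B) (X : Matrix V (Fin r) A)
      (K : Matrix V V A), Stress P X K → Stress P (X.map φ) (K.map φ) := by
    intro A B _ _ φ X K hK
    refine ⟨⟨?_, ?_⟩, ?_⟩
    · ext i j
      simp only [Matrix.transpose_apply, Matrix.map_apply]
      rw [hK.1.1.apply i j]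
    · intro i j h
      simp [hK.1.2 i j h]
    · rw [← Matrix.map_mul, hK.2]
      ext i j
      simp
  have hKgS : Stress P Xg Kg := by
    have : Kg ∈ G1_mod P Xg := by
      rw [hKg]
      refine Submodule.sum_mem _ (fun i _ => Submodule.smul_mem _ _ ?_)
      exact hmapS ρ.toRingHom _ _ (hgen i)
    exact this
  set X0 : Matrix V (Fin r) ℝ := Xg.map θ with hX0
  set K0 : Matrix V V ℝ := Kg.map θ with hK0
  have hX0y : X0 = Matrix.of (fun i k => y (Sum.inl (i, k))) := by
    ext i k
    simp [hX0, hXg, hρ, hθ, XG]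
  have hK0S : Stress P X0 K0 := hmapS θ.toRingHom _ _ hKgS
  refine ⟨X0, K0, ?_, hK0S, ?_⟩
  · rw [hX0y]
    have := hy.comp Sum.inl Sum.inl_injective
    exact this
  rintro K' hK' ⟨Z', hZ'⟩ u w hu hw
  -- the direction
  set z1 : (V × Fin r) ⊕ {x // x ∈ t} → ℝ := Sum.elim (fun q => - Z' q.1 q.2) (fun _ => 0) with hz1
  have hXd : ∀ μ : {x // x ∈ t} → ℝ,
      Xg.map (G1_d θ (Sum.elim (fun q => - Z' q.1 q.2) μ)) = - Z' := by
    intro μ
    ext i k
    have : Xg i k = MvPolynomial.X (Sum.inl (i, k)) := by simp [hXg, hρ, XG]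
    rw [Matrix.map_apply, this, G1_d_X]
    simp
  have hdsupp : ∀ z, SuppOn P (Kg.map (G1_d θ z)) := by
    intro z
    refine ⟨?_, ?_⟩
    · ext i j
      simp only [Matrix.transpose_apply, Matrix.map_apply]
      rw [hKgS.1.1.apply i j]
    · intro i j h
      rw [Matrix.map_apply, hKgS.1.2 i j h, G1_d_zero]
  have hd1 : Kg.map (G1_d θ z1) * X0 = K0 * Z' := by
    have h1 := G1_d_matmul θ z1 Kg Xg
    rw [hKgS.2, hXd] at h1
    have h2 : (0 : Matrix V (Fin r) (MvPolynomial ((V × Fin r) ⊕ {x // x ∈ t}) ℚ)).map (G1_d θ z1)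
        = 0 := by
      ext i k
      simp [G1_d_zero]
    rw [h2, Matrix.mul_neg] at h1
    have h3 : Kg.map (G1_d θ z1) * Xg.map θ - Kg.map θ * Z' = 0 := by
      rw [sub_eq_add_neg]
      exact h1.symm
    exact sub_eq_zero.mp h3
  have hLS : Stress P X0 (K' - Kg.map (G1_d θ z1)) := by
    refine ⟨⟨hK'.1.sub (hdsupp z1).1, ?_⟩, ?_⟩
    · intro i j h
      rw [Matrix.sub_apply, hK'.2 i j h, (hdsupp z1).2 i j h, sub_zero]
    · rw [Matrix.sub_mul, hd1, hZ', sub_self]
  -- L is a combination of the generators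
  have hcomb : ∃ μ : {x // x ∈ t} → ℝ, K' - Kg.map (G1_d θ z1) =
      ∑ i : {x // x ∈ t}, μ i • ((i : Matrix V V (MvPolynomial (V × Fin r) ℚ)).map (θ ∘ ρ)) := by
    set θ0 : MvPolynomial (V × Fin r) ℚ →+* ℝ := θ.toRingHom.comp ρ.toRingHom with hθ0
    have hθ0inj : Function.Injective θ0 := by
      intro a b hab
      exact hρinj (hinj hab)
    have hX0' : (XG V r).map θ0 = X0 := by
      ext i k
      rfl
    have hk := ker_spec θ0 hθ0inj (G1_sys P (XG V r))
      (fun c : V × V => (K' - Kg.map (G1_d θ z1)) c.1 c.2) (by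
        rw [G1_sys_map, hX0', G1_sys_iff]
        exact hLS)
    -- the span is contained in the set of combinations
    have key : ∀ v ∈ Submodule.span ℝ {w' : V × V → ℝ | ∃ u : V × V → MvPolynomial (V × Fin r) ℚ,
        (G1_sys P (XG V r)).mulVec u = 0 ∧ w' = fun i => θ0 (u i)},
        (Matrix.of (fun i j => v (i, j)) : Matrix V V ℝ) ∈
          Submodule.span ℝ (Set.range (fun i : {x // x ∈ t} =>
            (i : Matrix V V (MvPolynomial (V × Fin r) ℚ)).map (θ ∘ ρ))) := by
      intro v hv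
      induction hv using Submodule.span_induction with
      | mem v hv =>
        obtain ⟨u, hu, rfl⟩ := hv
        have hu' : (Matrix.of (fun i j => u (i, j)) : Matrix V V _) ∈ G1_mod P (XG V r) := by
          rw [G1_mem, ← G1_sys_iff]
          exact hu
        rw [← ht] at hu'
        -- induction on the span over the polynomial ring
        have h4 : ∀ K ∈ Submodule.span (MvPolynomial (V × Fin r) ℚ)
            (t : Set (Matrix V V (MvPolynomial (V × Fin r) ℚ))),
            K.map (θ ∘ ρ) ∈ Submodule.span ℝ (Set.range (fun i : {x // x ∈ t} =>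
              (i : Matrix V V (MvPolynomial (V × Fin r) ℚ)).map (θ ∘ ρ))) := by
          intro K hK
          induction hK using Submodule.span_induction with
          | mem K hK => exact Submodule.subset_span ⟨⟨K, hK⟩, rfl⟩
          | zero =>
            have : (0 : Matrix V V (MvPolynomial (V × Fin r) ℚ)).map (θ ∘ ρ) = 0 := by
              ext i j
              simp
            rw [this]
            exact Submodule.zero_mem _
          | add K L _ _ h1 h2 =>
            have : (K + L).map (θ ∘ ρ) = K.map (θ ∘ ρ) + L.map (θ ∘ ρ) := by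
              ext i j
              simp
            rw [this]
            exact Submodule.add_mem _ h1 h2
          | smul c K _ h1 =>
            have : (c • K).map (θ ∘ ρ) = (θ (ρ c)) • K.map (θ ∘ ρ) := by
              ext i j
              simp
            rw [this]
            exact Submodule.smul_mem _ _ h1
        exact h4 _ hu'
      | zero =>
        have : (Matrix.of (fun i j => (0 : V × V → ℝ) (i, j)) : Matrix V V ℝ) = 0 := by
          ext i j
          simp
        rw [this]
        exact Submodule.zero_mem _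
      | add a b _ _ h1 h2 =>
        have : (Matrix.of (fun i j => (a + b) (i, j)) : Matrix V V ℝ) =
            Matrix.of (fun i j => a (i, j)) + Matrix.of (fun i j => b (i, j)) := by
          ext i j
          simp
        rw [this]
        exact Submodule.add_mem _ h1 h2
      | smul c a _ h1 =>
        have : (Matrix.of (fun i j => (c • a) (i, j)) : Matrix V V ℝ) =
            c • Matrix.of (fun i j => a (i, j)) := by
          ext i j
          simp
        rw [this]
        exact Submodule.smul_mem _ _ h1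
    have h5 := key _ hk
    rw [Submodule.mem_span_range_iff_exists_fun] at h5
    obtain ⟨μ, hμ⟩ := h5
    exact ⟨μ, hμ.symm⟩
  obtain ⟨μ, hμ⟩ := hcomb
  set z : (V × Fin r) ⊕ {x // x ∈ t} → ℝ := Sum.elim (fun q => - Z' q.1 q.2) μ with hz
  have hK'd : K' = Kg.map (G1_d θ z) := by
    have h6 : Kg.map (G1_d θ z) = Kg.map (G1_d θ z1) +
        ∑ i : {x // x ∈ t}, μ i • ((i : Matrix V V (MvPolynomial (V × Fin r) ℚ)).map (θ ∘ ρ)) := by
      have h7 : ∀ f, G1_d θ z f = G1_d θ z1 f + ∑ i : {x // x ∈ t}, μ i *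
          θ (MvPolynomial.pderiv (Sum.inr i) f) := by
        intro f
        simp only [G1_d, Fintype.sum_sum_type, hz, hz1, Sum.elim_inl, Sum.elim_inr, zero_mul,
          Finset.sum_const_zero, add_zero]
      have h8 : ∀ (i : {x // x ∈ t}) (a b : V), MvPolynomial.pderiv (Sum.inr i) (Kg a b) =
          ρ ((i : Matrix V V (MvPolynomial (V × Fin r) ℚ)) a b) := by
        intro i a b
        rw [hKg, Matrix.sum_apply, map_sum, Finset.sum_eq_single i]
        · rw [Matrix.smul_apply, Matrix.map_apply, smul_eq_mul, Derivation.leibniz,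
            MvPolynomial.pderiv_X_self, smul_eq_mul, smul_eq_mul, mul_one]
          have : MvPolynomial.pderiv (Sum.inr i)
              (ρ ((i : Matrix V V (MvPolynomial (V × Fin r) ℚ)) a b)) = 0 := by
            apply MvPolynomial.pderiv_eq_zero_of_notMem_vars
            intro hmem
            have := MvPolynomial.vars_rename Sum.inl
              ((i : Matrix V V (MvPolynomial (V × Fin r) ℚ)) a b) hmem
            simp at this
          rw [this, mul_zero, zero_add]
        · intro j _ hj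
          rw [Matrix.smul_apply, Matrix.map_apply, smul_eq_mul, Derivation.leibniz,
            MvPolynomial.pderiv_X_of_ne (fun h => hj (Sum.inr_injective h)), smul_zero, add_zero]
          have : MvPolynomial.pderiv (Sum.inr i)
              (ρ ((j : Matrix V V (MvPolynomial (V × Fin r) ℚ)) a b)) = 0 := by
            apply MvPolynomial.pderiv_eq_zero_of_notMem_vars
            intro hmem
            have := MvPolynomial.vars_rename Sum.inl
              ((j : Matrix V V (MvPolynomial (V × Fin r) ℚ)) a b) hmem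
            simp at this
          rw [this, smul_zero]
        · simp
      ext a b
      rw [Matrix.map_apply, h7, Matrix.add_apply, Matrix.map_apply, Matrix.sum_apply]
      congr 1
      refine Finset.sum_congr rfl (fun i _ => ?_)
      rw [h8, Matrix.smul_apply, Matrix.map_apply, smul_eq_mul]
      rfl
    rw [h6, ← hμ]
    abel
  -- the kernel of K0
  have hw' := ker_spec θ.toRingHom hinj Kg w hw
  have hfin : ∀ w ∈ Submodule.span ℝ {w' : V → ℝ | ∃ u : V → MvPolynomial
      ((V × Fin r) ⊕ {x // x ∈ t}) ℚ, Kg.mulVec u = 0 ∧ w' = fun i => θ.toRingHom (u i)},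
      u ⬝ᵥ K'.mulVec w = 0 := by
    intro w hw
    induction hw using Submodule.span_induction with
    | mem w hw =>
      obtain ⟨v, hv, rfl⟩ := hw
      have h9 := G1_d_mulVec θ z Kg v
      rw [hv] at h9
      have h10 : (fun i => G1_d θ z ((0 : V → MvPolynomial ((V × Fin r) ⊕ {x // x ∈ t}) ℚ) i)) = 0 := by
        funext i
        simp [G1_d_zero]
      rw [h10, ← hK'd] at h9
      have h11 : K'.mulVec (fun i => θ.toRingHom (v i)) =
          - (K0.mulVec (fun i => G1_d θ z (v i))) := by
        exact eq_neg_of_add_eq_zero_left h9.symm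
      rw [h11, dotProduct_neg, Matrix.dotProduct_mulVec]
      have h12 : u ᵥ* K0 = 0 := by
        rw [← Matrix.mulVec_transpose, hK0S.1.1, hu]
      rw [h12, zero_dotProduct, neg_zero]
    | zero => rw [Matrix.mulVec_zero, dotProduct_zero]
    | add a b _ _ h1 h2 => rw [Matrix.mulVec_add, dotProduct_add, h1, h2, add_zero]
    | smul c a _ h1 => rw [Matrix.mulVec_smul, dotProduct_smul, h1, smul_zero]
  exact hfin w hw'

end Pool.Agent.Helper55.ML
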