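import Pool.Agent.Helper55.MLA.Defs

set_option autoImplicit false
open Finset Matrix Filter Topology

namespace Pool.Agent.Helper55.ML

/-- A vector outside a subspace of a finite dimensional coordinate space is separated from it by a
coefficient vector. -/
private theorem g2_sep {ι : Type} [Fintype ι] [DecidableEq ι] (D : Submodule ℝ (ι → ℝ)) (t : ι → ℝ)
    (ht : t ∉ D) : ∃ c : ι → ℝ, (∑ q, c q * t q) ≠ 0 ∧ ∀ f ∈ D, ∑ q, c q * f q = 0 := by
  obtain ⟨φ, hφ, hφ'⟩ := D.exists_dual_map_eq_bot_of_notMem ht inferInstance
  have key : ∀ f : ι → ℝ, φ f = ∑ q, φ (Pi.single q 1) * f q := by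
    intro f
    conv_lhs => rw [pi_eq_sum_univ' f]
    rw [map_sum]
    apply Finset.sum_congr rfl
    intro q _
    rw [map_smul, smul_eq_mul, mul_comm]
  refine ⟨fun q => φ (Pi.single q 1), ?_, ?_⟩
  · rw [← key]; exact hφ
  · intro f hf
    rw [← key]
    have h1 : φ f ∈ D.map φ := Submodule.mem_map_of_mem hf
    rw [hφ'] at h1
    simpa using h1

/-- A vector orthogonal to the kernel of a symmetric matrix lies in its range. -/
private theorem g2_range {V : Type} [Fintype V] [DecidableEq V] {K0 : Matrix V V ℝ} (hK : K0.IsSymm)
    (b : V → ℝ) (hb : ∀ z : V → ℝ, K0.mulVec z = 0 → ∑ j, z j * b j = 0) :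
    ∃ y : V → ℝ, K0.mulVec y = b := by
  by_contra hne
  have hnot : b ∉ LinearMap.range (Matrix.mulVecLin K0) := by
    rintro ⟨y, hy⟩
    exact hne ⟨y, by simpa using hy⟩
  obtain ⟨c, hc, hc'⟩ := g2_sep _ b hnot
  apply hc
  apply hb
  funext i
  have h1 := hc' (K0.mulVec (Pi.single i 1)) ⟨Pi.single i 1, by simp⟩
  have h2 : ∑ q, c q * (K0.mulVec (Pi.single i 1)) q = (K0.mulVec c) i := by
    unfold Matrix.mulVec dotProduct
    apply Finset.sum_congr rfl
    intro q _
    have h3 : ∑ j, K0 q j * (Pi.single i (1 : ℝ) : V → ℝ) j = K0 q i := by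
      rw [Finset.sum_eq_single i]
      · rw [Pi.single_eq_same, mul_one]
      · intro j _ hj
        rw [Pi.single_eq_of_ne hj, mul_zero]
      · intro h; exact absurd (Finset.mem_univ i) h
    have h4 : K0 q i = K0 i q := hK.apply i q
    calc c q * ∑ j, K0 q j * (Pi.single i (1 : ℝ) : V → ℝ) j = c q * K0 q i := by rw [h3]
      _ = K0 i q * c q := by rw [h4, mul_comm]
  rw [← h2, h1]
  rfl

/-- G2 (duality; hint). Suppose the function `(i,j) ↦ u i w j + w i u j` on the pairs with `P i j` is not
in the subspace of the functions `(i,j) ↦ dG X0 Z i j` with `K0 * Z = 0`. Then some linear functional on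
the functions on `{(i,j) | P i j}` vanishes on the subspace but not on it; symmetrise its coefficients to
get `K'` supported on `P` with `∑ K' i j * dG X0 Z i j = 0` for all `Z` with `K0 * Z = 0`, i.e.
`trace(Zᵀ K' X0) = 0`, so every column of `K' X0` is orthogonal to `ker K0`, hence in the range of `K0`
(`K0` symmetric); and `u ⬝ᵥ K' *ᵥ w ≠ 0`: contradiction to `htan`. -/
theorem ker_span {V : Type} [Fintype V] [DecidableEq V] {r : ℕ} {P : V → V → Prop}
    (hP : ∀ i j, P i j → P j i) {X0 : Matrix V (Fin r) ℝ} {K0 : Matrix V V ℝ}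
    (hK : K0.IsSymm)
    (htan : ∀ K' : Matrix V V ℝ, SuppOn P K' → (∃ Z : Matrix V (Fin r) ℝ, K' * X0 = K0 * Z) →
        ∀ u w : V → ℝ, K0.mulVec u = 0 → K0.mulVec w = 0 → u ⬝ᵥ K'.mulVec w = 0)
    {u w : V → ℝ} (hu : K0.mulVec u = 0) (hw : K0.mulVec w = 0) :
    ∃ Z : Matrix V (Fin r) ℝ, K0 * Z = 0 ∧ ∀ i j, P i j → u i * w j + w i * u j = dG X0 Z i j := by
  classical
  -- the linear map to restricted functions
  let L : Matrix V (Fin r) ℝ →ₗ[ℝ] (V × V → ℝ) :=
    { toFun := fun Z q => if P q.1 q.2 then dG X0 Z q.1 q.2 else 0
      map_add' := by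
        intro Z Z'
        funext q
        simp only [Pi.add_apply]
        split_ifs
        · unfold dG
          rw [← Finset.sum_add_distrib]
          apply Finset.sum_congr rfl
          intro k _
          simp only [Matrix.add_apply]
          ring
        · simp
      map_smul' := by
        intro a Z
        funext q
        simp only [Pi.smul_apply, RingHom.id_apply, smul_eq_mul]
        split_ifs
        · unfold dG
          rw [Finset.mul_sum]
          apply Finset.sum_congr rfl
          intro k _
          simp only [Matrix.smul_apply, smul_eq_mul]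
          ring
        · simp }
  let N : Submodule ℝ (Matrix V (Fin r) ℝ) :=
    { carrier := {Z | K0 * Z = 0}
      add_mem' := by
        intro a b ha hb
        have ha' : K0 * a = 0 := ha
        have hb' : K0 * b = 0 := hb
        show K0 * (a + b) = 0
        rw [Matrix.mul_add, ha', hb', add_zero]
      zero_mem' := by simp
      smul_mem' := by
        intro c a ha
        have ha' : K0 * a = 0 := ha
        show K0 * (c • a) = 0
        rw [Matrix.mul_smul, ha', smul_zero] }
  let t : V × V → ℝ := fun q => if P q.1 q.2 then u q.1 * w q.2 + w q.1 * u q.2 else 0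
  by_cases hmem : t ∈ N.map L
  · obtain ⟨Z, hZ, hLZ⟩ := hmem
    refine ⟨Z, hZ, fun i j hij => ?_⟩
    have := congrFun hLZ (i, j)
    simp only [L, t, LinearMap.coe_mk, AddHom.coe_mk, if_pos hij] at this
    exact this.symm
  · exfalso
    obtain ⟨c, hc, hc'⟩ := g2_sep _ t hmem
    let K' : Matrix V V ℝ := Matrix.of fun i j => if P i j then c (i, j) + c (j, i) else 0
    have hPs : ∀ i j, P i j ↔ P j i := fun i j => ⟨hP i j, hP j i⟩
    have hsym : ∀ i j, K' i j = K' j i := by
      intro i j
      simp only [K', Matrix.of_apply]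
      by_cases h : P i j
      · rw [if_pos h, if_pos (hP i j h), add_comm]
      · rw [if_neg h, if_neg (fun h' => h (hP j i h'))]
    have hSupp : SuppOn P K' := by
      refine ⟨?_, ?_⟩
      · ext i j
        rw [Matrix.transpose_apply]
        exact hsym j i
      · intro i j h
        simp only [K', Matrix.of_apply]
        rw [if_neg h]
    -- pairing with a symmetric function
    have hpair : ∀ g : V → V → ℝ, (∀ i j, g i j = g j i) →
        ∑ i, ∑ j, K' i j * g i j = 2 * ∑ q : V × V, c q * (if P q.1 q.2 then g q.1 q.2 else 0) := by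
      intro g hg
      have h1 : ∀ i j, K' i j * g i j = c (i, j) * (if P i j then g i j else 0)
          + c (j, i) * (if P j i then g j i else 0) := by
        intro i j
        simp only [K', Matrix.of_apply]
        by_cases h : P i j
        · rw [if_pos h, if_pos h, if_pos (hP i j h), ← hg i j]; ring
        · rw [if_neg h, if_neg h, if_neg (fun h' => h (hP j i h'))]; ring
      simp_rw [h1]
      simp_rw [Finset.sum_add_distrib]
      rw [Finset.sum_comm (f := fun i j => c (j, i) * (if P j i then g j i else 0))]
      rw [Fintype.sum_prod_type]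
      ring
    -- trace computation
    have htr : ∀ Z : Matrix V (Fin r) ℝ, ∑ i, ∑ j, K' i j * dG X0 Z i j
        = 2 * ∑ j, ∑ k, Z j k * (K' * X0) j k := by
      intro Z
      have e1 : ∀ i j, K' i j * dG X0 Z i j = (∑ k, K' i j * X0 i k * Z j k) +
          (∑ k, K' j i * X0 j k * Z i k) := by
        intro i j
        unfold dG
        rw [Finset.mul_sum, ← Finset.sum_add_distrib]
        apply Finset.sum_congr rfl
        intro k _
        rw [hsym j i]
        ring
      simp_rw [e1]
      simp_rw [Finset.sum_add_distrib]
      rw [Finset.sum_comm (f := fun i j => ∑ k, K' j i * X0 j k * Z i k)]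
      rw [← two_mul]
      congr 1
      rw [Finset.sum_comm]
      apply Finset.sum_congr rfl
      intro j _
      rw [Finset.sum_comm]
      apply Finset.sum_congr rfl
      intro k _
      rw [Matrix.mul_apply, Finset.mul_sum]
      apply Finset.sum_congr rfl
      intro i _
      rw [hsym j i]
      ring
    have horth : ∀ Z : Matrix V (Fin r) ℝ, K0 * Z = 0 → ∑ j, ∑ k, Z j k * (K' * X0) j k = 0 := by
      intro Z hZ
      have h1 := htr Z
      have hgs : ∀ i j, dG X0 Z i j = dG X0 Z j i := by
        intro i j
        unfold dG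
        apply Finset.sum_congr rfl
        intro k _
        ring
      rw [hpair (fun i j => dG X0 Z i j) hgs] at h1
      have h2 := hc' (L Z) ⟨Z, hZ, rfl⟩
      have h3 : ∑ q : V × V, c q * (if P q.1 q.2 then dG X0 Z q.1 q.2 else 0) = 0 := h2
      rw [h3] at h1
      linarith
    have hcol : ∀ k : Fin r, ∃ y : V → ℝ, K0.mulVec y = fun j => (K' * X0) j k := by
      intro k
      apply g2_range hK
      intro z hz
      have h1 := horth (Matrix.of fun j k' => if k' = k then z j else 0) (by
        ext i k'
        rw [Matrix.mul_apply, Matrix.zero_apply]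
        simp only [Matrix.of_apply]
        by_cases h : k' = k
        · simp only [h, if_true]
          exact congrFun hz i
        · simp [h])
      rw [← h1]
      apply Finset.sum_congr rfl
      intro j _
      rw [Finset.sum_eq_single k]
      · simp
      · intro k' _ hk'
        simp [hk']
      · intro h; exact absurd (Finset.mem_univ k) h
    choose y hy using hcol
    have hex : ∃ Z : Matrix V (Fin r) ℝ, K' * X0 = K0 * Z := by
      refine ⟨Matrix.of fun j k => y k j, ?_⟩
      ext i k
      have := congrFun (hy k) i
      rw [← this, Matrix.mul_apply]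
      rfl
    have hfin := htan K' hSupp hex u w hu hw
    apply hc
    have h4 := hpair (fun i j => u i * w j + w i * u j) (fun i j => by ring)
    have h5 : ∑ i, ∑ j, K' i j * (u i * w j + w i * u j) = 2 * (u ⬝ᵥ K'.mulVec w) := by
      have e1 : ∀ i j, K' i j * (u i * w j + w i * u j) = u i * (K' i j * w j) +
          u j * (K' j i * w i) := by
        intro i j
        rw [hsym j i]
        ring
      simp_rw [e1]
      simp_rw [Finset.sum_add_distrib]
      rw [Finset.sum_comm (f := fun i j => u j * (K' j i * w i))]
      rw [← two_mul]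
      congr 1
      unfold dotProduct Matrix.mulVec dotProduct
      apply Finset.sum_congr rfl
      intro i _
      rw [Finset.mul_sum]
    rw [h5, hfin] at h4
    have h6 : ∑ q : V × V, c q * (if P q.1 q.2 then u q.1 * w q.2 + w q.1 * u q.2 else 0) = 0 := by
      linarith
    exact h6

end Pool.Agent.Helper55.ML
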