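import Pool.Agent.Helper55.MLA.Defs

set_option autoImplicit false
open Finset Matrix Filter Topology

namespace Pool.Agent.Helper55.ML

/-- The Gram coordinates `p` of `B T`. -/
def qm {V : Type} {k r l : ℕ} {F : Type*} [CommRing F] [Algebra ℝ F] (B : Matrix V (Fin k) ℝ)
    (p : Fin l → V × V) (T : Matrix (Fin k) (Fin r) F) : Fin l → F :=
  fun a => (B.map (algebraMap ℝ F) * T * (B.map (algebraMap ℝ F) * T)ᵀ) (p a).1 (p a).2

/-- The linear system: `B` is a real matrix with `k` independent columns, the first `r` of which form an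
algebraically independent configuration, and the Gram entries on `P` of the matrices `B N Bᵀ` are
determined by the `l` entries at the places `p a`, where `l` is the dimension of the set of
matrices `T Tᵀ`. -/
structure QS {V : Type} [Fintype V] [DecidableEq V] (P : V → V → Prop) (r k l : ℕ) (hrk : r ≤ k)
    (B : Matrix V (Fin k) ℝ) (p : Fin l → V × V) (c : V → V → Fin l → ℝ) : Prop where
  inj : ∃ C : Matrix (Fin k) V ℝ, C * B = 1
  ind : AlgInd (Matrix.of fun (i : V) (s : Fin r) => B i (Fin.castLE hrk s))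
  dim : l + r * (r - 1) / 2 = k * r
  mem : ∀ a, P (p a).1 (p a).2
  rel : ∀ N : Matrix (Fin k) (Fin k) ℝ, N.IsSymm → ∀ i j, P i j →
    (B * N * Bᵀ) i j = ∑ a, c i j a * (B * N * Bᵀ) (p a).1 (p a).2
  opn : (interior (Set.range (fun T : Matrix (Fin k) (Fin r) ℝ => qm B p T))).Nonempty

/-- G3a (linear algebra; hint): choose a basis of `ker K0` that starts with the columns of `X0`. -/
theorem exists_B {V : Type} [Fintype V] [DecidableEq V] {r : ℕ} {X0 : Matrix V (Fin r) ℝ}
    {K0 : Matrix V V ℝ} (hX : ∃ C : Matrix (Fin r) V ℝ, C * X0 = 1) (h0 : K0 * X0 = 0) :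
    (∀ w : V → ℝ, K0.mulVec w = 0 → ∃ a : Fin r → ℝ, w = X0.mulVec a) ∨
      ∃ (k : ℕ) (hrk : r < k) (B : Matrix V (Fin k) ℝ), (∃ C : Matrix (Fin k) V ℝ, C * B = 1) ∧
        (∀ i s, B i (Fin.castLE hrk.le s) = X0 i s) ∧ K0 * B = 0 ∧
        ∀ w : V → ℝ, K0.mulVec w = 0 → ∃ a : Fin k → ℝ, w = B.mulVec a := by
  classical
  obtain ⟨C0, hC0⟩ := hX
  let W : Submodule ℝ (V → ℝ) := LinearMap.ker K0.mulVecLin
  let R : Submodule ℝ (V → ℝ) := LinearMap.range X0.mulVecLin
  have hRW : R ≤ W := by
    rintro _ ⟨a, rfl⟩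
    rw [LinearMap.mem_ker, Matrix.mulVecLin_apply, Matrix.mulVecLin_apply, Matrix.mulVec_mulVec, h0,
      Matrix.zero_mulVec]
  obtain ⟨D, hD⟩ := Submodule.exists_isCompl R
  let E : Submodule ℝ (V → ℝ) := D ⊓ W
  have hdec : ∀ w ∈ W, ∃ x ∈ R, ∃ y ∈ E, x + y = w := by
    intro w hw
    have : w ∈ R ⊔ D := by rw [hD.sup_eq_top]; trivial
    obtain ⟨x, hx, y, hy, hxy⟩ := Submodule.mem_sup.1 this
    refine ⟨x, hx, y, ⟨hy, ?_⟩, hxy⟩
    have : y = w - x := by rw [← hxy]; abel
    rw [this]
    exact W.sub_mem hw (hRW hx)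
  by_cases hE : E = ⊥
  · left
    intro w hw
    obtain ⟨x, ⟨a, rfl⟩, y, hy, hxy⟩ := hdec w (by
      rw [LinearMap.mem_ker, Matrix.mulVecLin_apply]; exact hw)
    rw [hE, Submodule.mem_bot] at hy
    exact ⟨a, by rw [← hxy, hy, add_zero, Matrix.mulVecLin_apply]⟩
  · right
    let m := Module.finrank ℝ E
    let b : Module.Basis (Fin m) ℝ E := Module.finBasis ℝ E
    have hm : 0 < m := by
      rw [Nat.pos_iff_ne_zero]
      intro h
      exact hE (Submodule.finrank_eq_zero.1 h)
    refine ⟨r + m, by omega, Matrix.of (fun i j => Fin.addCases (fun s => X0 i s)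
      (fun t => (b t : V → ℝ) i) j), ?_, ?_, ?_, ?_⟩
    all_goals
      set B : Matrix V (Fin (r + m)) ℝ := Matrix.of (fun i j => Fin.addCases (fun s => X0 i s)
        (fun t => (b t : V → ℝ) i) j) with hB
    all_goals
      have hmul : ∀ a : Fin (r + m) → ℝ, B.mulVec a = X0.mulVec (fun s => a (Fin.castAdd m s)) +
          ((∑ t, a (Fin.natAdd r t) • b t : E) : V → ℝ) := by
        intro a
        funext i
        rw [Matrix.mulVec, dotProduct, Fin.sum_univ_add, Pi.add_apply, Matrix.mulVec, dotProduct]
        congr 1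
        · refine Finset.sum_congr rfl fun s _ => ?_
          rw [hB, Matrix.of_apply, Fin.addCases_left]
        · rw [Submodule.coe_sum, Finset.sum_apply]
          refine Finset.sum_congr rfl fun t _ => ?_
          rw [hB, Matrix.of_apply, Fin.addCases_right, Submodule.coe_smul, Pi.smul_apply,
            smul_eq_mul, mul_comm]
    · have hinj : LinearMap.ker B.mulVecLin = ⊥ := by
        rw [LinearMap.ker_eq_bot']
        intro a ha
        rw [Matrix.mulVecLin_apply, hmul] at ha
        set x : V → ℝ := X0.mulVec (fun s => a (Fin.castAdd m s)) with hx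
        set y : E := ∑ t, a (Fin.natAdd r t) • b t with hy
        have hxR : x ∈ R := ⟨_, rfl⟩
        have hyD : (y : V → ℝ) ∈ D := y.2.1
        have hxy : x = - (y : V → ℝ) := eq_neg_of_add_eq_zero_left ha
        have hx0 : x = 0 := by
          have h1 : x ∈ D := by rw [hxy]; exact D.neg_mem hyD
          have h2 : x ∈ R ⊓ D := ⟨hxR, h1⟩
          rw [hD.inf_eq_bot] at h2
          exact h2
        have hy0 : y = 0 := by
          rw [hx0, zero_add] at ha
          exact Subtype.ext ha
        have h1 : (fun s => a (Fin.castAdd m s)) = 0 := by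
          have := congrArg (fun z => C0.mulVec z) hx0
          simp only [hx, Matrix.mulVec_mulVec, hC0, Matrix.one_mulVec, Matrix.mulVec_zero] at this
          exact this
        have h2 : ∀ t, a (Fin.natAdd r t) = 0 := by
          have hb := b.linearIndependent
          rw [Fintype.linearIndependent_iff] at hb
          exact hb _ hy0
        funext j
        refine Fin.addCases (fun s => ?_) (fun t => ?_) j
        · exact congrFun h1 s
        · exact h2 t
      obtain ⟨g, hg⟩ := LinearMap.exists_leftInverse_of_injective B.mulVecLin hinj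
      refine ⟨LinearMap.toMatrix' g, ?_⟩
      have h1 : LinearMap.toMatrix' (g ∘ₗ Matrix.toLin' B) = 1 := by
        have : Matrix.toLin' B = B.mulVecLin := rfl
        rw [this, hg, LinearMap.toMatrix'_id]
      rwa [LinearMap.toMatrix'_comp, LinearMap.toMatrix'_toLin'] at h1
    · intro i s
      rw [hB, Matrix.of_apply]
      exact Fin.addCases_left s
    · ext i j
      rw [Matrix.zero_apply]
      refine Fin.addCases (fun s => ?_) (fun t => ?_) j
      · have := congrFun (congrFun h0 i) s
        rw [Matrix.mul_apply] at this ⊢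
        rw [Matrix.zero_apply] at this
        rw [← this]
        refine Finset.sum_congr rfl fun v _ => ?_
        rw [hB, Matrix.of_apply, Fin.addCases_left]
      · have h1 : ((b t : E) : V → ℝ) ∈ W := (b t).2.2
        rw [LinearMap.mem_ker, Matrix.mulVecLin_apply] at h1
        have h2 := congrFun h1 i
        rw [Matrix.mulVec, dotProduct, Pi.zero_apply] at h2
        rw [Matrix.mul_apply, ← h2]
        refine Finset.sum_congr rfl fun v _ => ?_
        rw [hB, Matrix.of_apply, Fin.addCases_right]
    · intro w hw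
      obtain ⟨x, ⟨a, rfl⟩, y, hy, hxy⟩ := hdec w (by
        rw [LinearMap.mem_ker, Matrix.mulVecLin_apply]; exact hw)
      refine ⟨Fin.addCases a (fun t => b.repr ⟨y, hy⟩ t), ?_⟩
      rw [hmul, ← hxy]
      congr 1
      · rw [Matrix.mulVecLin_apply]
        congr 1
        funext s
        rw [Fin.addCases_left]
      · have h1 := b.sum_repr ⟨y, hy⟩
        have h2 : (∑ t, (Fin.addCases a (fun t => b.repr ⟨y, hy⟩ t) (Fin.natAdd r t) : ℝ) • b t : E)
            = ⟨y, hy⟩ := by
          rw [← h1]
          refine Finset.sum_congr rfl fun t _ => ?_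
          rw [Fin.addCases_right, h1]
        rw [h2]

/-- G3b (coordinates; hint): the restrictions of the coordinate functionals to `W` span the dual of
`W`; choose a basis among them. -/
theorem exists_coords {ι : Type} [Fintype ι] (W : Submodule ℝ (ι → ℝ)) :
    ∃ (p : Fin (Module.finrank ℝ W) → ι) (c : ι → Fin (Module.finrank ℝ W) → ℝ),
      (∀ y ∈ W, ∀ i, y i = ∑ a, c i a * y (p a)) ∧
      ∀ z : Fin (Module.finrank ℝ W) → ℝ, ∃ y ∈ W, ∀ a, y (p a) = z a := by
  classical
  let φ : ι → Module.Dual ℝ W := fun i => (LinearMap.proj i : (ι → ℝ) →ₗ[ℝ] ℝ) ∘ₗ W.subtype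
  have hφ : ∀ (i : ι) (y : W), φ i y = (y : ι → ℝ) i := fun i y => rfl
  have hspan : Submodule.span ℝ (Set.range φ) = ⊤ := by
    by_contra hne
    obtain ⟨y, hy0, hy⟩ : ∃ y : W, y ≠ 0 ∧ ∀ f ∈ Submodule.span ℝ (Set.range φ), f y = 0 := by
      have hne' : (Submodule.span ℝ (Set.range φ)).dualCoannihilator ≠ ⊥ := by
        intro h
        apply hne
        have h2 := congrArg Submodule.dualAnnihilator h
        rwa [Subspace.dualCoannihilator_dualAnnihilator_eq, Submodule.dualAnnihilator_bot] at h2
      obtain ⟨y, hy, hy0⟩ := Submodule.exists_mem_ne_zero_of_ne_bot hne'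
      exact ⟨y, hy0, fun f hf => (Submodule.mem_dualCoannihilator y).1 hy f hf⟩
    apply hy0
    apply Subtype.ext
    funext i
    have := hy (φ i) (Submodule.subset_span ⟨i, rfl⟩)
    rwa [hφ] at this
  obtain ⟨b, hb1, hb2, hb3⟩ := exists_linearIndependent ℝ (Set.range φ)
  rw [hspan] at hb2
  let bb : Module.Basis b ℝ (Module.Dual ℝ W) := Module.Basis.mk hb3 (by
    rw [Subtype.range_coe_subtype, Set.ofPred_mem_eq, hb2])
  have hbb : ∀ i : b, bb i = (i : Module.Dual ℝ W) := fun i => by
    simp only [bb, Module.Basis.mk_apply]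
  have hfin : Finite b := Module.Finite.finite_basis bb
  have hft : Fintype b := Fintype.ofFinite b
  have hcard : Fintype.card b = Module.finrank ℝ W := by
    rw [← Module.finrank_eq_card_basis bb, Subspace.dual_finrank_eq]
  let e : Fin (Module.finrank ℝ W) ≃ b := (Fintype.equivFinOfCardEq hcard).symm
  let B2 : Module.Basis (Fin (Module.finrank ℝ W)) ℝ (Module.Dual ℝ W) := bb.reindex e.symm
  have hB2 : ∀ a, B2 a = ((e a : b) : Module.Dual ℝ W) := fun a => by
    simp only [B2, Module.Basis.reindex_apply, Equiv.symm_symm, hbb]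
  have hch : ∀ a, ∃ i, φ i = ((e a : b) : Module.Dual ℝ W) := fun a => hb1 (e a).2
  choose p hp using hch
  have hsum : ∀ (y : W) (i : ι), (y : ι → ℝ) i = ∑ a, B2.repr (φ i) a * (y : ι → ℝ) (p a) := by
    intro y i
    have h1 := B2.sum_repr (φ i)
    have h2 := congrArg (fun f : Module.Dual ℝ W => f y) h1
    simp only [LinearMap.sum_apply, LinearMap.smul_apply, smul_eq_mul] at h2
    rw [← hφ i y, ← h2]
    refine Finset.sum_congr rfl fun a _ => ?_
    rw [hB2, ← hp a, hφ]
  refine ⟨p, fun i a => B2.repr (φ i) a, fun y hy i => hsum ⟨y, hy⟩ i, ?_⟩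
  let T : W →ₗ[ℝ] (Fin (Module.finrank ℝ W) → ℝ) := LinearMap.pi (fun a => φ (p a))
  have hTinj : Function.Injective T := by
    rw [injective_iff_map_eq_zero]
    intro y hy
    apply Subtype.ext
    funext i
    rw [hsum y i]
    apply Finset.sum_eq_zero
    intro a _
    have : (y : ι → ℝ) (p a) = 0 := congrFun hy a
    rw [this, mul_zero]
  have hTsurj : Function.Surjective T := by
    rw [← LinearMap.injective_iff_surjective_of_finrank_eq_finrank (by
      rw [Module.finrank_fin_fun])]
    exact hTinj
  intro z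
  obtain ⟨y, hy⟩ := hTsurj z
  exact ⟨y, y.2, fun a => congrFun hy a⟩

theorem g3_det_ne_zero {V : Type} [Fintype V] [DecidableEq V] {r : ℕ} {F : Type}
    [Field F] [Algebra ℚ F] {X : Matrix V (Fin r) F} (hX : AlgInd X) {f : Fin r → V}
    (hf : Function.Injective f) : (X.submatrix f id).det ≠ 0 := by
  classical
  let M : Matrix (Fin r) (Fin r) (MvPolynomial (V × Fin r) ℚ) :=
    Matrix.of (fun i j => MvPolynomial.X (f i, j))
  have h1 : M.det ≠ 0 := by
    intro h
    have h2 := congrArg (MvPolynomial.eval (fun q : V × Fin r =>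
      if q.1 = f q.2 then (1 : ℚ) else 0)) h
    rw [RingHom.map_det, map_zero] at h2
    have h3 : (MvPolynomial.eval (fun q : V × Fin r =>
      if q.1 = f q.2 then (1 : ℚ) else 0)).mapMatrix M = 1 := by
      ext i j
      have h5 : M i j = MvPolynomial.X (f i, j) := rfl
      rw [RingHom.mapMatrix_apply, Matrix.map_apply, h5, MvPolynomial.eval_X,
        Matrix.one_apply]
      simp only [hf.eq_iff]
    rw [h3, Matrix.det_one] at h2
    exact one_ne_zero h2
  have h4 : (X.submatrix f id).det =
      MvPolynomial.aeval (fun q : V × Fin r => X q.1 q.2) M.det := by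
    rw [AlgHom.map_det]
    congr 1
    ext i j
    have h5 : M i j = MvPolynomial.X (f i, j) := rfl
    rw [AlgHom.mapMatrix_apply, Matrix.map_apply, h5, MvPolynomial.aeval_X,
      Matrix.submatrix_apply, id]
  rw [h4]
  intro h
  apply h1
  have hinj : Function.Injective (MvPolynomial.aeval (R := ℚ)
    (fun q : V × Fin r => X q.1 q.2)) := hX
  apply hinj
  rw [h, map_zero]

/-- A generic configuration has full column rank (`r ≤ |V|`). (hint) A row relation: the columns of `X`
are linearly independent because an `r × r` minor is a nonzero polynomial at an algebraically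
independent point. -/
theorem AlgInd.exists_left_inv {V : Type} [Fintype V] [DecidableEq V] {r : ℕ} {F : Type}
    [Field F] [Algebra ℚ F] {X : Matrix V (Fin r) F} (hX : AlgInd X)
    (hr : r ≤ Fintype.card V) : ∃ C : Matrix (Fin r) V F, C * X = 1 := by
  classical
  have hc : Fintype.card (Fin r) ≤ Fintype.card V := by rwa [Fintype.card_fin]
  obtain ⟨f⟩ := Function.Embedding.nonempty_of_card_le hc
  have hdet := g3_det_ne_zero hX f.injective
  refine ⟨(X.submatrix f id)⁻¹ * (1 : Matrix V V F).submatrix f id, ?_⟩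
  have h1 : (1 : Matrix V V F).submatrix f id * X = X.submatrix f id := by
    have := Matrix.submatrix_mul (1 : Matrix V V F) X f (id : V → V) (id : Fin r → Fin r)
      Function.bijective_id
    rw [Matrix.one_mul] at this
    rw [this, Matrix.submatrix_id_id]
  rw [Matrix.mul_assoc, h1]
  exact Matrix.nonsing_inv_mul _ (isUnit_iff_ne_zero.2 hdet)

/-- Any `r` rows of a generic configuration form an invertible matrix. -/
theorem AlgInd.det_ne_zero {V : Type} [Fintype V] [DecidableEq V] {r : ℕ} {F : Type}
    [Field F] [Algebra ℚ F] {X : Matrix V (Fin r) F} (hX : AlgInd X) {f : Fin r → V}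
    (hf : Function.Injective f) : (X.submatrix f id).det ≠ 0 :=
  g3_det_ne_zero hX hf

end Pool.Agent.Helper55.ML
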