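import Pool.Agent.Helper55.MLA.G3
import Pool.Agent.Helper55.MLA.V8

set_option autoImplicit false
open Finset Matrix Filter Topology

namespace Pool.Agent.Helper55.ML

theorem G4_dG_eq {V : Type} {r : ℕ} (X Z : Matrix V (Fin r) ℝ) (i j : V) :
    dG X Z i j = (X * Zᵀ + Z * Xᵀ) i j := by
  simp only [dG, Matrix.add_apply, Matrix.mul_apply, Matrix.transpose_apply,
    Finset.sum_add_distrib]

/-- G4 (dimension of the tangent image; hint). `LL` = space of the functions `(i,j) ↦ dG X0 (B Z') i j` on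
`{(i,j) | P i j}`, `Z'` a `k × r` matrix. Kernel of `Z' ↦ …`: by `InfRigid`, `dG X0 (B Z') = 0` for all
pairs, i.e. `X0 (BZ')ᵀ + (BZ') X0ᵀ = 0`, so `B Z' = X0 A` with `A` skew (`A = (C (B Z'))`, `C X0 = 1`), and
conversely every skew `A` occurs (`X0 = B * (first r coordinates)`); so the kernel has dimension
`r(r-1)/2`. -/
theorem finrank_LL {V : Type} [Fintype V] [DecidableEq V] {r k : ℕ} {P : V → V → Prop}
    {X0 : Matrix V (Fin r) ℝ} (hrk : r ≤ k) {B : Matrix V (Fin k) ℝ}
    (hB : ∃ C : Matrix (Fin k) V ℝ, C * B = 1) (hBX : ∀ i s, B i (Fin.castLE hrk s) = X0 i s)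
    (hinf : InfRigid P X0) :
    ∃ LL : Submodule ℝ ({q : V × V // P q.1 q.2} → ℝ),
      Module.finrank ℝ LL + r * (r - 1) / 2 = k * r ∧
      (∀ y, y ∈ LL ↔ ∃ Z' : Matrix (Fin k) (Fin r) ℝ,
        ∀ q : {q : V × V // P q.1 q.2}, y q = dG X0 (B * Z') (q : V × V).1 (q : V × V).2) := by
  obtain ⟨C, hC⟩ := hB
  let E : Matrix (Fin k) (Fin r) ℝ := Matrix.of fun a s => if a = Fin.castLE hrk s then 1 else 0
  have hBE : B * E = X0 := by
    ext i s
    rw [← hBX i s, Matrix.mul_apply]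
    simp [E]
  have hEE : Eᵀ * E = 1 := by
    ext s t
    rw [Matrix.mul_apply, Matrix.one_apply]
    simp only [Matrix.transpose_apply, E, Matrix.of_apply, mul_ite, mul_one, mul_zero,
      Finset.sum_ite_eq', Finset.mem_univ, if_true]
    by_cases h : s = t
    · subst h; simp
    · rw [if_neg h, if_neg]
      intro h1
      exact h (Fin.castLE_injective hrk h1.symm)
  have hBt : Bᵀ * Cᵀ = 1 := by rw [← Matrix.transpose_mul, hC, Matrix.transpose_one]
  have hXt : X0ᵀ = Eᵀ * Bᵀ := by rw [← hBE, Matrix.transpose_mul]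
  let Φ : Matrix (Fin k) (Fin r) ℝ →ₗ[ℝ] ({q : V × V // P q.1 q.2} → ℝ) :=
    { toFun := fun Z' q => (X0 * (B * Z')ᵀ + (B * Z') * X0ᵀ) (q : V × V).1 (q : V × V).2
      map_add' := fun Y Z => by
        funext q
        rw [Pi.add_apply, ← Matrix.add_apply]
        have h0 : X0 * (B * (Y + Z))ᵀ + (B * (Y + Z)) * X0ᵀ =
            (X0 * (B * Y)ᵀ + (B * Y) * X0ᵀ) + (X0 * (B * Z)ᵀ + (B * Z) * X0ᵀ) := by
          rw [Matrix.mul_add, Matrix.transpose_add, Matrix.mul_add, Matrix.add_mul]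
          abel
        rw [h0]
      map_smul' := fun c Y => by
        funext q
        rw [Pi.smul_apply, ← Matrix.smul_apply]
        have h0 : X0 * (B * (c • Y))ᵀ + (B * (c • Y)) * X0ᵀ =
            c • (X0 * (B * Y)ᵀ + (B * Y) * X0ᵀ) := by
          rw [Matrix.mul_smul, Matrix.transpose_smul, Matrix.mul_smul, Matrix.smul_mul, smul_add]
        rw [h0, RingHom.id_apply] }
  let ES : ({q : Fin r × Fin r // q.1 < q.2} → ℝ) →ₗ[ℝ] Matrix (Fin k) (Fin r) ℝ :=
    { toFun := fun f => E * V8aux.sk r f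
      map_add' := fun f g => by rw [map_add, Matrix.mul_add]
      map_smul' := fun c f => by rw [map_smul, Matrix.mul_smul, RingHom.id_apply] }
  have hΦ : ∀ Z' q, Φ Z' q = dG X0 (B * Z') (q : V × V).1 (q : V × V).2 := fun Z' q => by
    rw [G4_dG_eq]; rfl
  have hker : LinearMap.ker Φ =
      LinearMap.range ES := by
    ext Z'
    rw [LinearMap.mem_ker, LinearMap.mem_range]
    constructor
    · intro h
      have h1 : Motion P X0 (B * Z') := by
        intro i j hij
        have := congrFun h ⟨(i, j), hij⟩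
        rw [hΦ] at this
        exact this
      have h2 : X0 * (B * Z')ᵀ + (B * Z') * X0ᵀ = 0 := by
        ext i j
        rw [← G4_dG_eq, hinf _ h1 i j]
        rfl
      have h3 : E * Z'ᵀ + Z' * Eᵀ = 0 := by
        have h4 : B * (E * Z'ᵀ + Z' * Eᵀ) * Bᵀ = 0 := by
          rw [← h2, Matrix.transpose_mul, hXt, ← hBE]
          simp only [Matrix.mul_add, Matrix.add_mul, Matrix.mul_assoc]
        calc E * Z'ᵀ + Z' * Eᵀ = (C * B) * (E * Z'ᵀ + Z' * Eᵀ) * (Bᵀ * Cᵀ) := by
              rw [hC, hBt, Matrix.one_mul, Matrix.mul_one]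
          _ = C * (B * (E * Z'ᵀ + Z' * Eᵀ) * Bᵀ) * Cᵀ := by
              simp only [Matrix.mul_assoc]
          _ = 0 := by rw [h4, Matrix.mul_zero, Matrix.zero_mul]
      have h5 : Z'ᵀ * E + Eᵀ * Z' = 0 := by
        calc Z'ᵀ * E + Eᵀ * Z' = (Eᵀ * E) * (Z'ᵀ * E) + (Eᵀ * Z') * (Eᵀ * E) := by
              rw [hEE, Matrix.one_mul, Matrix.mul_one]
          _ = Eᵀ * (E * Z'ᵀ + Z' * Eᵀ) * E := by
              simp only [Matrix.mul_add, Matrix.add_mul, Matrix.mul_assoc]
          _ = 0 := by rw [h3, Matrix.mul_zero, Matrix.zero_mul]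
      have h6 : Z' = E * (-(Z'ᵀ * E)) := by
        have h7 : (E * Z'ᵀ + Z' * Eᵀ) * E = 0 := by rw [h3, Matrix.zero_mul]
        rw [Matrix.add_mul, Matrix.mul_assoc Z', hEE, Matrix.mul_one, Matrix.mul_assoc] at h7
        rw [Matrix.mul_neg]
        exact eq_neg_of_add_eq_zero_right h7
      obtain ⟨f, hf⟩ := V8aux.exists_sk (A := -(Z'ᵀ * E)) (by
        rw [Matrix.transpose_neg, Matrix.transpose_mul, Matrix.transpose_transpose, ← neg_add, h5,
          neg_zero])
      refine ⟨f, ?_⟩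
      change E * (V8aux.sk r f) = Z'
      rw [hf, ← h6]
    · rintro ⟨f, rfl⟩
      change Φ (E * V8aux.sk r f) = 0
      funext q
      change (X0 * (B * (E * V8aux.sk r f))ᵀ + (B * (E * V8aux.sk r f)) * X0ᵀ) _ _ = 0
      have : X0 * (B * (E * V8aux.sk r f))ᵀ + (B * (E * V8aux.sk r f)) * X0ᵀ = 0 := by
        rw [← Matrix.mul_assoc B, hBE, Matrix.transpose_mul, V8aux.sk_skew, Matrix.neg_mul,
          Matrix.mul_neg, Matrix.mul_assoc, neg_add_cancel]
      rw [this]
      rfl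
  refine ⟨LinearMap.range Φ, ?_, ?_⟩
  · have h1 := LinearMap.finrank_range_add_finrank_ker Φ
    have hinj : Function.Injective ES := by
      intro f g h
      apply V8aux.sk_inj
      have h2 : E * V8aux.sk r f = E * V8aux.sk r g := h
      have h3 : (Eᵀ * E) * V8aux.sk r f = (Eᵀ * E) * V8aux.sk r g := by
        rw [Matrix.mul_assoc, h2, ← Matrix.mul_assoc]
      rwa [hEE, Matrix.one_mul, Matrix.one_mul] at h3
    rw [hker, LinearMap.finrank_range_of_inj hinj, Module.finrank_fintype_fun_eq_card,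
      V8aux.card_pairs, Module.finrank_matrix, Fintype.card_fin, Fintype.card_fin,
      Module.finrank_self, mul_one] at h1
    exact h1
  · intro y
    rw [LinearMap.mem_range]
    constructor
    · rintro ⟨Z', rfl⟩
      exact ⟨Z', fun q => hΦ Z' q⟩
    · rintro ⟨Z', h⟩
      exact ⟨Z', funext fun q => by rw [hΦ, h q]⟩

end Pool.Agent.Helper55.ML
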