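import Pool.Agent.Helper55.MLA.G3

set_option autoImplicit false
open Finset Matrix Filter Topology

namespace Pool.Agent.Helper55.ML

/-- The entry `(i, s)` of `B T`, as a continuous linear functional of `T`. -/
private noncomputable def g5L {V : Type} {r k : ℕ} (B : Matrix V (Fin k) ℝ) (i : V) (s : Fin r) :
    (Fin k → Fin r → ℝ) →L[ℝ] ℝ :=
  ∑ j : Fin k, B i j • ((ContinuousLinearMap.proj (R := ℝ) (φ := fun _ : Fin r => ℝ) s).comp
    (ContinuousLinearMap.proj (R := ℝ) (φ := fun _ : Fin k => Fin r → ℝ) j))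

private theorem g5L_apply {V : Type} {r k : ℕ} (B : Matrix V (Fin k) ℝ) (i : V) (s : Fin r)
    (T : Matrix (Fin k) (Fin r) ℝ) : g5L B i s T = (B * T) i s := by
  simp only [g5L, ContinuousLinearMap.sum_apply, ContinuousLinearMap.smul_apply,
    ContinuousLinearMap.comp_apply, ContinuousLinearMap.proj_apply, smul_eq_mul, Matrix.mul_apply]

/-- G5 (submersion; hint). Let `T0` = the `k × r` matrix with `B T0 = X0`. The derivative of `T ↦ qm B p T` at
`T0` in direction `Z'` is `a ↦ dG X0 (B Z') (p a)`, onto by hypothesis; so `qm B p` is open at `T0`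
(`HasStrictFDerivAt.map_nhds_eq_of_surj`). -/
theorem qm_open {V : Type} [Fintype V] [DecidableEq V] {r k l : ℕ} (hrk : r ≤ k)
    {X0 : Matrix V (Fin r) ℝ} {B : Matrix V (Fin k) ℝ} {p : Fin l → V × V}
    (hBX : ∀ i s, B i (Fin.castLE hrk s) = X0 i s)
    (hsurj : ∀ z : Fin l → ℝ, ∃ Z' : Matrix (Fin k) (Fin r) ℝ,
      ∀ a, dG X0 (B * Z') (p a).1 (p a).2 = z a) :
    (interior (Set.range (fun T : Matrix (Fin k) (Fin r) ℝ => qm B p T))).Nonempty := by
  classical
  set T0 : Matrix (Fin k) (Fin r) ℝ := Matrix.of fun j s => if j = Fin.castLE hrk s then 1 else 0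
    with hT0
  have hB0 : B * T0 = X0 := by
    ext i s
    rw [Matrix.mul_apply, ← hBX i s]
    simp [hT0]
  have hd : HasStrictFDerivAt (fun T : Fin k → Fin r → ℝ => fun a : Fin l =>
      ∑ s : Fin r, g5L B (p a).1 s T * g5L B (p a).2 s T)
      (ContinuousLinearMap.pi fun a : Fin l => ∑ s : Fin r,
        (g5L B (p a).1 s T0 • g5L B (p a).2 s + g5L B (p a).2 s T0 • g5L B (p a).1 s)) T0 := by
    rw [hasStrictFDerivAt_pi']
    intro a
    rw [ContinuousLinearMap.proj_pi]
    refine HasStrictFDerivAt.fun_sum fun s _ => ?_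
    exact (g5L B (p a).1 s).hasStrictFDerivAt.mul (g5L B (p a).2 s).hasStrictFDerivAt
  have hfe : (fun T : Matrix (Fin k) (Fin r) ℝ => qm B p T) =
      (fun T : Fin k → Fin r → ℝ => fun a : Fin l =>
        ∑ s : Fin r, g5L B (p a).1 s T * g5L B (p a).2 s T) := by
    funext T a
    have hmap : B.map (algebraMap ℝ ℝ) = B := by
      ext i j
      rfl
    simp only [qm, hmap]
    rw [Matrix.mul_apply]
    refine Finset.sum_congr rfl fun s _ => ?_
    rw [Matrix.transpose_apply]
    exact (congrArg₂ (· * ·) (g5L_apply B (p a).1 s T) (g5L_apply B (p a).2 s T)).symm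
  have hr : (ContinuousLinearMap.pi fun a : Fin l => ∑ s : Fin r,
        (g5L B (p a).1 s T0 • g5L B (p a).2 s + g5L B (p a).2 s T0 • g5L B (p a).1 s)).range
        = ⊤ := by
    rw [LinearMap.range_eq_top]
    intro z
    obtain ⟨Z', hZ'⟩ := hsurj z
    refine ⟨Z', ?_⟩
    funext a
    rw [← hZ' a]
    simp only [ContinuousLinearMap.coe_coe, ContinuousLinearMap.pi_apply, ContinuousLinearMap.sum_apply,
      ContinuousLinearMap.add_apply, ContinuousLinearMap.smul_apply, smul_eq_mul, dG]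
    refine Finset.sum_congr rfl fun s _ => ?_
    have h1 : g5L B (p a).1 s Z' = (B * Z') (p a).1 s := g5L_apply B _ s Z'
    have h2 : g5L B (p a).2 s Z' = (B * Z') (p a).2 s := g5L_apply B _ s Z'
    have h3 : g5L B (p a).1 s T0 = X0 (p a).1 s := by rw [← hB0]; exact g5L_apply B _ s T0
    have h4 : g5L B (p a).2 s T0 = X0 (p a).2 s := by rw [← hB0]; exact g5L_apply B _ s T0
    rw [h1, h2, h3, h4]
    ring
  have hmapn := hd.map_nhds_eq_of_surj hr
  rw [hfe]
  refine ⟨fun a : Fin l => ∑ s : Fin r, g5L B (p a).1 s T0 * g5L B (p a).2 s T0,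
    mem_interior_iff_mem_nhds.2 ?_⟩
  rw [← hmapn]
  exact Filter.range_mem_map

end Pool.Agent.Helper55.ML
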