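import Pool.Agent.Helper55.MLA.G1
import Pool.Agent.Helper55.MLA.G2
import Pool.Agent.Helper55.MLA.G4
import Pool.Agent.Helper55.MLA.G5

set_option autoImplicit false
open Finset Matrix Filter Topology

namespace Pool.Agent.Helper55.ML

/-- A matrix killed by `K0` factors through the basis `B` of the kernel. -/
private theorem g6_factor {V : Type} [Fintype V] [DecidableEq V] {r k : ℕ}
    {K0 : Matrix V V ℝ} {B : Matrix V (Fin k) ℝ}
    (hker : ∀ w : V → ℝ, K0.mulVec w = 0 → ∃ a : Fin k → ℝ, w = B.mulVec a)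
    {Z : Matrix V (Fin r) ℝ} (hZ : K0 * Z = 0) : ∃ Z' : Matrix (Fin k) (Fin r) ℝ, Z = B * Z' := by
  have hcol : ∀ m : Fin r, ∃ a : Fin k → ℝ, (fun i => Z i m) = B.mulVec a := by
    intro m
    apply hker
    funext i
    have := congrFun (congrFun hZ i) m
    simpa [Matrix.mul_apply, Matrix.mulVec, dotProduct] using this
  choose a ha using hcol
  refine ⟨Matrix.of fun s m => a m s, ?_⟩
  ext i m
  have := congrFun (ha m) i
  simpa [Matrix.mul_apply, Matrix.mulVec, dotProduct] using this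

/-- Symmetric combination of the products of the columns of `B`. -/
private theorem g6_sym {V : Type} {k : ℕ} (B : Matrix V (Fin k) ℝ) {N : Matrix (Fin k) (Fin k) ℝ}
    (hN : N.IsSymm) (i j : V) :
    (B * N * Bᵀ) i j = ∑ s, ∑ t, (N s t / 2) * (B i s * B j t + B i t * B j s) := by
  have h1 : (B * N * Bᵀ) i j = ∑ s, ∑ t, N s t * (B i s * B j t) := by
    simp only [Matrix.mul_apply, Matrix.transpose_apply, Finset.sum_mul]
    rw [Finset.sum_comm]
    refine Finset.sum_congr rfl fun s _ => Finset.sum_congr rfl fun t _ => ?_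
    ring
  have h2 : ∑ s, ∑ t, N s t * (B i t * B j s) = ∑ s, ∑ t, N s t * (B i s * B j t) := by
    rw [Finset.sum_comm]
    refine Finset.sum_congr rfl fun s _ => Finset.sum_congr rfl fun t _ => ?_
    rw [← hN.apply s t]
  have h3 : ∑ s, ∑ t, (N s t / 2) * (B i s * B j t + B i t * B j s)
      = (∑ s, ∑ t, N s t * (B i s * B j t)) / 2 + (∑ s, ∑ t, N s t * (B i t * B j s)) / 2 := by
    simp only [Finset.sum_div, ← Finset.sum_add_distrib]
    refine Finset.sum_congr rfl fun s _ => Finset.sum_congr rfl fun t _ => ?_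
    ring
  rw [h3, h2, h1]
  ring

/-- G6 (hint): combine `exists_tangent`, `ker_span`, `exists_B`, `finrank_LL`, `exists_coords`, `qm_open`. For
`N` symmetric `B N Bᵀ = ∑ N_st b_s b_tᵀ` restricted to `P` is in `LL` by `ker_span` (bilinearly; the matrix
`Z` of `ker_span` satisfies `K0 Z = 0`, so `Z = B Z'`). -/
theorem exists_QS {V : Type} [Fintype V] [DecidableEq V] {P : V → V → Prop} {r : ℕ}
    (h : GRH V P r) (hr : 1 ≤ r) :
    (∃ (X0 : Matrix V (Fin r) ℝ) (K0 : Matrix V V ℝ), AlgInd X0 ∧ Stress P X0 K0 ∧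
      ∀ w : V → ℝ, K0.mulVec w = 0 → ∃ a : Fin r → ℝ, w = X0.mulVec a) ∨
    ∃ (k l : ℕ) (hrk : r < k) (B : Matrix V (Fin k) ℝ) (p : Fin l → V × V)
      (c : V → V → Fin l → ℝ), QS P r k l hrk.le B p c := by
  classical
  obtain ⟨X0, K0, hA, hS, htan⟩ := exists_tangent (V := V) r P
  rcases isEmpty_or_nonempty V with hV | hV
  · left
    refine ⟨X0, K0, hA, hS, fun w _ => ⟨0, ?_⟩⟩
    funext i
    exact (hV.false i).elim
  obtain ⟨v⟩ := hV
  have hcard : r ≤ Fintype.card V := by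
    obtain ⟨N, hN, _⟩ := h.deg v
    exact hN.trans (Finset.card_le_univ N)
  obtain ⟨C, hC⟩ := hA.exists_left_inv hcard
  rcases exists_B (K0 := K0) ⟨C, hC⟩ hS.2 with hl | ⟨k, hrk, B, hB, hBX, hKB, hker⟩
  · exact Or.inl ⟨X0, K0, hA, hS, hl⟩
  right
  obtain ⟨LL, hdim, hLL⟩ := finrank_LL hrk.le hB hBX (h.inf X0 hA)
  obtain ⟨p, c, hc, hsurj⟩ := exists_coords LL
  have hKcol : ∀ s : Fin k, K0.mulVec (fun i => B i s) = 0 := by
    intro s
    funext i
    have := congrFun (congrFun hKB i) s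
    simpa [Matrix.mul_apply, Matrix.mulVec, dotProduct] using this
  have hst : ∀ s t : Fin k,
      (fun q : {q : V × V // P q.1 q.2} => B q.1.1 s * B q.1.2 t + B q.1.1 t * B q.1.2 s) ∈ LL := by
    intro s t
    obtain ⟨Z, hZ0, hZ⟩ := ker_span h.symm hS.1.1 htan (hKcol s) (hKcol t)
    obtain ⟨Z', rfl⟩ := g6_factor hker hZ0
    rw [hLL]
    exact ⟨Z', fun q => hZ q.1.1 q.1.2 q.2⟩
  refine ⟨k, Module.finrank ℝ LL, hrk, B, fun a => (p a).1,
    fun i j a => if hP : P i j then c ⟨(i, j), hP⟩ a else 0, ?_⟩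
  refine ⟨hB, ?_, hdim, fun a => (p a).2, ?_, ?_⟩
  · have : (Matrix.of fun (i : V) (s : Fin r) => B i (Fin.castLE hrk.le s)) = X0 := by
      ext i s
      exact hBX i s
    rw [this]
    exact hA
  · intro N hN i j hij
    have hmem : (fun q : {q : V × V // P q.1 q.2} => (B * N * Bᵀ) q.1.1 q.1.2) ∈ LL := by
      have heq : (fun q : {q : V × V // P q.1 q.2} => (B * N * Bᵀ) q.1.1 q.1.2)
          = ∑ s, ∑ t, (N s t / 2) •
            (fun q : {q : V × V // P q.1 q.2} => B q.1.1 s * B q.1.2 t + B q.1.1 t * B q.1.2 s) := by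
        funext q
        rw [g6_sym B hN]
        simp [Finset.sum_apply]
      rw [heq]
      exact Submodule.sum_mem _ fun s _ => Submodule.sum_mem _ fun t _ =>
        Submodule.smul_mem _ _ (hst s t)
    have := hc _ hmem ⟨(i, j), hij⟩
    simpa [hij] using this
  · apply qm_open hrk.le hBX
    intro z
    obtain ⟨y, hy, hyz⟩ := hsurj z
    obtain ⟨Z', hZ'⟩ := (hLL y).1 hy
    exact ⟨Z', fun a => by rw [← hyz a, hZ' (p a)]⟩

end Pool.Agent.Helper55.ML
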