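import Pool.Agent.Helper55.MLA.T1

set_option autoImplicit false
open Finset Matrix Filter Topology

namespace Pool.Agent.Helper55.ML

/-- the entries of the inverse of a matrix with entries in a subfield are in the subfield -/
theorem t2_inv {k Ω ι : Type} [Field k] [Field Ω] [Algebra k Ω] [Fintype ι] [DecidableEq ι]
    (K : IntermediateField k Ω) (N : Matrix ι ι Ω) (hN : IsUnit N.det)
    (h : ∀ a b, N a b ∈ K) : ∀ a b, N⁻¹ a b ∈ K := by
  let N' : Matrix ι ι K := fun a b => ⟨N a b, h a b⟩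
  have hmap : N'.map (algebraMap K Ω) = N := rfl
  have hdet : algebraMap K Ω N'.det = N.det := by
    rw [RingHom.map_det, RingHom.mapMatrix_apply, hmap]
  have hu : IsUnit N'.det := by
    rw [isUnit_iff_ne_zero]
    intro h0
    rw [h0, map_zero] at hdet
    exact hN.ne_zero hdet.symm
  have h1 : N'⁻¹ * N' = 1 := Matrix.nonsing_inv_mul _ hu
  have h2 : (N'⁻¹).map (algebraMap K Ω) * N = 1 := by
    rw [← hmap, ← Matrix.map_mul, h1, Matrix.map_one _ (map_zero _) (map_one _)]
  have h3 : N⁻¹ = (N'⁻¹).map (algebraMap K Ω) := Matrix.inv_eq_left_inv h2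
  intro a b
  rw [h3, Matrix.map_apply]
  exact (N'⁻¹ a b).2

/-- T2 (hint): by `symm_structure` all entries are rational functions of the entries `M i j` with
`i ∈ I`; by symmetry `ρ(ρ+1)/2 + ρ(n-ρ) = ρ n - ρ(ρ-1)/2` of them are enough (choose any linear order on
`V` or `Fintype.equivFin`). -/
theorem symm_trdeg {k Ω V : Type} [Field k] [Field Ω] [Algebra k Ω] [Fintype V] [DecidableEq V]
    (M : Matrix V V Ω) (hM : M.IsSymm) : ∃ S : Finset Ω,
      S.card + M.rank * (M.rank - 1) / 2 ≤ M.rank * Fintype.card V ∧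
      (∀ y ∈ S, ∃ i j, y = M i j) ∧
      ∀ i j, M i j ∈ IntermediateField.adjoin k (S : Set Ω) := by
  classical
  obtain ⟨I, hI, hdet, hst⟩ := symm_structure M hM
  let f : Sym2 V → Ω := Sym2.lift ⟨fun i j => M i j, fun i j => (hM.apply i j).symm⟩
  have hf : ∀ i j, f s(i, j) = M i j := fun i j => rfl
  let S1 : Finset Ω := (I ×ˢ (univ \ I)).image (fun p => M p.1 p.2)
  let S2 : Finset Ω := I.sym2.image f
  have hmem : ∀ a ∈ I, ∀ i, M a i ∈ S1 ∪ S2 := by
    intro a ha i
    rw [mem_union]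
    by_cases hi : i ∈ I
    · right
      exact mem_image.2 ⟨s(a, i), Finset.mk_mem_sym2_iff.2 ⟨ha, hi⟩, rfl⟩
    · left
      exact mem_image.2 ⟨(a, i), mem_product.2 ⟨ha, mem_sdiff.2 ⟨mem_univ _, hi⟩⟩, rfl⟩
  refine ⟨S1 ∪ S2, ?_, ?_, ?_⟩
  · rw [← hI]
    have h1 : S1.card ≤ I.card * (Fintype.card V - I.card) := by
      refine card_image_le.trans ?_
      rw [card_product, card_sdiff_of_subset (subset_univ _), card_univ]
    have h2 : S2.card ≤ (I.card + 1) * I.card / 2 := by
      refine card_image_le.trans ?_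
      rw [Finset.card_sym2, Nat.choose_two_right, Nat.add_sub_cancel]
    have h3 := card_union_le S1 S2
    have h4 : I.card ≤ Fintype.card V := card_le_univ I
    generalize I.card = ρ at h1 h2 h4 ⊢
    generalize Fintype.card V = n at h1 h4 ⊢
    obtain ⟨t, rfl⟩ : ∃ t, n = ρ + t := ⟨n - ρ, by omega⟩
    rw [Nat.add_sub_cancel_left] at h1
    have h5 : (ρ + 1) * ρ / 2 + ρ * (ρ - 1) / 2 ≤ ρ * ρ := by
      have e1 := Nat.div_mul_le_self ((ρ + 1) * ρ) 2
      have e2 := Nat.div_mul_le_self (ρ * (ρ - 1)) 2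
      have e3 : (ρ + 1) * ρ + ρ * (ρ - 1) = 2 * (ρ * ρ) := by
        rcases ρ with _ | r
        · rfl
        · rw [Nat.add_sub_cancel]
          ring
      omega
    have h6 : ρ * (ρ + t) = ρ * ρ + ρ * t := by ring
    omega
  · intro y hy
    rw [mem_union] at hy
    rcases hy with hy | hy
    · obtain ⟨p, _, rfl⟩ := mem_image.1 hy
      exact ⟨p.1, p.2, rfl⟩
    · obtain ⟨e, _, rfl⟩ := mem_image.1 hy
      induction e using Sym2.ind with
      | _ i j => exact ⟨i, j, rfl⟩
  · set K := IntermediateField.adjoin k ((S1 ∪ S2 : Finset Ω) : Set Ω) with hK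
    have hrow : ∀ a ∈ I, ∀ i, M a i ∈ K := fun a ha i =>
      IntermediateField.subset_adjoin k _ (mem_coe.2 (hmem a ha i))
    have hcol : ∀ a ∈ I, ∀ i, M i a ∈ K := by
      intro a ha i
      rw [← hM.apply i a]
      exact hrow a ha i
    have hinv := t2_inv K (M.submatrix (Subtype.val : I → V) (Subtype.val : I → V)) hdet
      (fun a b => hrow a.1 a.2 b.1)
    intro i j
    rw [hst i j]
    exact sum_mem fun a _ => sum_mem fun b _ =>
      mul_mem (mul_mem (hcol a.1 a.2 i) (hinv a b)) (hrow b.1 b.2 j)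

end Pool.Agent.Helper55.ML
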