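import Pool.Agent.Helper55.MLA.Defs

set_option autoImplicit false
open Finset Matrix Filter Topology

namespace Pool.Agent.Helper55.ML

private theorem t3_isAlg {k Ω : Type} [Field k] [Field Ω] [Algebra k Ω] (S : Set Ω) :
    Algebra.IsAlgebraic
      (Algebra.adjoin k {x : IntermediateField.adjoin k S | (x : Ω) ∈ S})
      (IntermediateField.adjoin k S) := by
  set E := IntermediateField.adjoin k S with hE
  set sE : Set E := {x : E | (x : Ω) ∈ S} with hsE
  have himg : E.val '' sE = S := by
    ext x
    constructor
    · rintro ⟨y, hy, rfl⟩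
      exact hy
    · intro hx
      exact ⟨⟨x, IntermediateField.subset_adjoin k S hx⟩, hx, rfl⟩
  have htop : IntermediateField.adjoin k sE = ⊤ := by
    apply IntermediateField.map_injective E.val
    rw [IntermediateField.adjoin_map, himg, ← AlgHom.fieldRange_eq_map,
      IntermediateField.fieldRange_val]
  refine ⟨fun y => ?_⟩
  have hy : y ∈ IntermediateField.adjoin k sE := htop ▸ IntermediateField.mem_top
  obtain ⟨r, hr, s, hs, rfl⟩ := IntermediateField.mem_adjoin_iff_div.mp hy
  have h1 : IsAlgebraic (Algebra.adjoin k sE) r :=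
    isAlgebraic_algebraMap (⟨r, hr⟩ : Algebra.adjoin k sE)
  have h2 : IsAlgebraic (Algebra.adjoin k sE) s :=
    isAlgebraic_algebraMap (⟨s, hs⟩ : Algebra.adjoin k sE)
  rw [div_eq_mul_inv]
  exact h1.mul h2.inv

/-- T3 (hint): transcendence degree of `E = adjoin k S` over `k` is at most `|S|`
(`trdeg_le_cardinalMk`-like); an algebraically independent family of `|S|` elements of `E` is a
transcendence basis (`AlgebraicIndependent.isTranscendenceBasis_of_lift_trdeg_le_of_finite`,
`IsTranscendenceBasis.isAlgebraic_field`). -/
theorem alg_of_card {k Ω : Type} [Field k] [Field Ω] [Algebra k Ω] {κ : Type} [Fintype κ]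
    (S : Finset Ω) (q : κ → Ω) (hq : AlgebraicIndependent k q)
    (hmem : ∀ a, q a ∈ IntermediateField.adjoin k (S : Set Ω)) :
    Fintype.card κ ≤ S.card ∧ (S.card ≤ Fintype.card κ →
      ∀ y ∈ IntermediateField.adjoin k (S : Set Ω),
        IsAlgebraic (IntermediateField.adjoin k (Set.range q)) y) := by
  classical
  set E := IntermediateField.adjoin k (S : Set Ω) with hE
  let qE : κ → E := fun a => ⟨q a, hmem a⟩
  have hqE : AlgebraicIndependent k qE :=
    AlgebraicIndependent.of_comp E.val (by exact hq)
  have halg := t3_isAlg (k := k) (S : Set Ω)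
  set sE : Set E := {x : E | (x : Ω) ∈ (S : Set Ω)} with hsE
  have htr : Algebra.trdeg k E ≤ Cardinal.mk sE :=
    Algebra.IsAlgebraic.trdeg_le_cardinalMk k sE
  have hcard : Cardinal.mk sE ≤ (S.card : Cardinal) := by
    have h1 : Cardinal.mk sE ≤ Cardinal.mk (S : Set Ω) :=
      Cardinal.mk_le_of_injective (f := fun x : sE => (⟨(x.1 : Ω), x.2⟩ : (S : Set Ω)))
        (by
          intro x y hxy
          simp only [Subtype.mk.injEq] at hxy
          exact Subtype.ext (Subtype.ext hxy))
    refine h1.trans (le_of_eq ?_)
    simp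
  constructor
  · have h3 := hqE.cardinalMk_le_trdeg
    have h4 := h3.trans (htr.trans hcard)
    rw [Cardinal.mk_fintype] at h4
    exact_mod_cast h4
  · intro hle y hy
    have hb : IsTranscendenceBasis k qE := by
      refine hqE.isTranscendenceBasis_of_trdeg_le_of_finite ?_
      refine htr.trans (hcard.trans ?_)
      rw [Cardinal.mk_fintype]
      exact_mod_cast hle
    have h5 := hb.isAlgebraic_field
    have h6 : IsAlgebraic (IntermediateField.adjoin k (Set.range qE)) (⟨y, hy⟩ : E) :=
      h5.isAlgebraic _
    -- transfer along `E.val`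
    obtain ⟨p, hp0, hp⟩ := h6
    have himg : (IntermediateField.adjoin k (Set.range qE)).map E.val
        = IntermediateField.adjoin k (Set.range q) := by
      rw [IntermediateField.adjoin_map, ← Set.range_comp]
      rfl
    let φ : IntermediateField.adjoin k (Set.range qE) →+*
        IntermediateField.adjoin k (Set.range q) :=
      { toFun := fun x => ⟨((x : E) : Ω), by
          rw [← himg]
          exact ⟨x.1, x.2, rfl⟩⟩
        map_one' := rfl
        map_mul' := fun _ _ => rfl
        map_zero' := rfl
        map_add' := fun _ _ => rfl }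
    refine ⟨p.map φ, ?_, ?_⟩
    · exact (Polynomial.map_ne_zero_iff φ.injective).mpr hp0
    · have h7 : Polynomial.aeval y (p.map φ)
          = ((Polynomial.aeval (⟨y, hy⟩ : E) p : E) : Ω) := by
        rw [Polynomial.aeval_def, Polynomial.eval₂_map, Polynomial.aeval_def]
        have h8 := Polynomial.hom_eval₂ p
          (algebraMap (IntermediateField.adjoin k (Set.range qE)) E) (E.val : E →+* Ω) ⟨y, hy⟩
        exact h8.symm
      rw [h7, hp]
      rfl

end Pool.Agent.Helper55.ML
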