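import Pool.Agent.Helper55.MLA.T7

set_option autoImplicit false
open Finset Matrix Filter Topology

namespace Pool.Agent.Helper55.ML

/-- T8 (global uniqueness; hint). The relation `i ~ j :↔ M i j = x_i·x_j` is reflexive and symmetric, contains
`P`, and is transitive: if `i ~ v`, `v ~ j`, apply `step_T` to `v` with `Q` from `h.rig v` and
`N = {u : u ≠ v, u ~ v}` (contains the neighbours of `v`, and `i`, `j` if different from `v`). By
`h.conn` (the class of a vertex is everything) all pairs are related. -/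
theorem UG {V : Type} [Fintype V] [DecidableEq V] {P : V → V → Prop} {r : ℕ} (h : GRH V P r)
    {Ω : Type} [Field Ω] [Algebra ℚ Ω] {X : Matrix V (Fin r) Ω} (hX : AlgInd X)
    {M : Matrix V V Ω} (hM : M.IsSymm) (hrank : M.rank ≤ r)
    (hMP : ∀ i j, P i j → M i j = ∑ k, X i k * X j k) : M = X * Xᵀ := by
  classical
  have hsymm : ∀ i j, M i j = M j i := fun i j => (hM.apply i j).symm
  have hrel : ∀ i j, M i j = ∑ k, X i k * X j k → M j i = ∑ k, X j k * X i k := by
    intro i j hij
    rw [← hsymm i j, hij]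
    exact Finset.sum_congr rfl (fun k _ => mul_comm _ _)
  have htrans : ∀ i v j, M i v = ∑ k, X i k * X v k → M v j = ∑ k, X v k * X j k →
      M i j = ∑ k, X i k * X j k := by
    intro i v j hiv hvj
    by_cases hi : i = v
    · rw [hi]
      exact hvj
    by_cases hj : j = v
    · rw [hj]
      exact hiv
    obtain ⟨Q, hQ1, hQ2, hQ3, hQ4⟩ := h.rig v
    obtain ⟨N0, hN0, hN1⟩ := h.deg v
    set N : Finset V := Finset.univ.filter (fun u => u ≠ v ∧ M v u = ∑ k, X v k * X u k) with hN
    have hsub : N0 ⊆ N := by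
      intro u hu
      rw [hN, Finset.mem_filter]
      exact ⟨Finset.mem_univ _, (hN1 u hu).1, hMP v u (hN1 u hu).2⟩
    refine step_T hX hM hrank hQ1 hQ3 hQ4 (fun a b hab => hMP a b (hQ2 a b hab)) (N := N)
      (hN0.trans (Finset.card_le_card hsub)) (fun u hu => (Finset.mem_filter.1 hu).2)
      (hMP v v (h.refl v)) i ?_ j ?_
    · rw [hN, Finset.mem_filter]
      exact ⟨Finset.mem_univ _, hi, hrel i v hiv⟩
    · rw [hN, Finset.mem_filter]
      exact ⟨Finset.mem_univ _, hj, hvj⟩
  have hall : ∀ a b, M a b = ∑ k, X a k * X b k := by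
    intro a b
    by_contra hab
    have hne : ({c : V | M a c = ∑ k, X a k * X c k} : Set V) ≠ Set.univ := by
      intro hu
      have : b ∈ ({c : V | M a c = ∑ k, X a k * X c k} : Set V) := by
        rw [hu]
        exact Set.mem_univ b
      exact hab this
    obtain ⟨x, hx, y, hy, hxy⟩ := h.conn {c : V | M a c = ∑ k, X a k * X c k}
      ⟨a, hMP a a (h.refl a)⟩ hne
    exact hy (htrans a x y hx (hMP x y hxy))
  ext i j
  rw [hall i j, Matrix.mul_apply]
  rfl

end Pool.Agent.Helper55.ML
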