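import Pool.Agent.Helper55.MLA.G7
import Pool.Agent.Helper55.MLA.T2
import Pool.Agent.Helper55.MLA.T3
import Pool.Agent.Helper55.MLA.T8

set_option autoImplicit false
open Finset Matrix Filter Topology

namespace Pool.Agent.Helper55.ML

/-- The rank of a square matrix does not change under a field homomorphism. -/
theorem G8_rank_map {F G : Type*} [Field F] [Field G] {m : Type} [Fintype m] [DecidableEq m]
    (f : F →+* G) (M : Matrix m m F) : (M.map f).rank = M.rank := by
  classical
  obtain ⟨V, U, e, hV, hU, hVU⟩ := M.exists_rank_normal_form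
  have hV' : IsUnit (V.map f) := by
    have := hV.map f.mapMatrix
    simpa using this
  have hU' : IsUnit (U.map f) := by
    have := hU.map f.mapMatrix
    simpa using this
  have h1 : V.map f * M.map f * U.map f = (fromBlocks 1 0 0 0 : Matrix (Fin M.rank ⊕
      Fin (Fintype.card m - M.rank)) (Fin M.rank ⊕ Fin (Fintype.card m - M.rank)) G).submatrix e e := by
    rw [← Matrix.map_mul, ← Matrix.map_mul, hVU, ← Matrix.submatrix_map, Matrix.fromBlocks_map]
    simp
  have h2 : (V.map f * M.map f * U.map f).rank = (M.map f).rank := by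
    rw [Matrix.rank_mul_eq_left_of_isUnit_det _ _ ((Matrix.isUnit_iff_isUnit_det _).1 hU'),
      Matrix.rank_mul_eq_right_of_isUnit_det _ _ ((Matrix.isUnit_iff_isUnit_det _).1 hV')]
  rw [← h2, h1, Matrix.rank_submatrix]
  have h3 : (fromBlocks 1 0 0 0 : Matrix (Fin M.rank ⊕
      Fin (Fintype.card m - M.rank)) (Fin M.rank ⊕ Fin (Fintype.card m - M.rank)) G) =
      diagonal (Sum.elim (fun _ => 1) (fun _ => 0)) := by
    ext i j
    rcases i with i | i <;> rcases j with j | j <;>
      simp [Matrix.fromBlocks, Matrix.diagonal_apply, Matrix.one_apply]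
  rw [h3, Matrix.rank_diagonal]
  rw [Fintype.card_subtype]
  rw [show (Finset.univ.filter (fun i : Fin M.rank ⊕ Fin (Fintype.card m - M.rank) =>
    (Sum.elim (fun _ => (1 : G)) (fun _ => 0) i) ≠ 0)) = Finset.univ.map
      (Function.Embedding.inl : Fin M.rank ↪ Fin M.rank ⊕ Fin (Fintype.card m - M.rank)) from ?_]
  · simp
  · ext i
    rcases i with i | i <;> simp

theorem G8_arith {k r l ρ : ℕ} (hρ : ρ ≤ r) (hrk : r ≤ k) (hl : l + r * (r - 1) / 2 = k * r)
    {n : ℕ} (hn : n + ρ * (ρ - 1) / 2 ≤ ρ * k) : n ≤ l := by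
  have key : ∀ s, ρ ≤ s → s ≤ k → ρ * k + s * (s - 1) / 2 ≤ k * s + ρ * (ρ - 1) / 2 := by
    intro s hs
    induction s, hs using Nat.le_induction with
    | base => intro _; rw [mul_comm]
    | succ s hs ih =>
      intro hk
      have h1 := ih (by omega)
      have h2 : (s + 1) * (s + 1 - 1) / 2 = s * (s - 1) / 2 + s := by
        rw [← Nat.choose_two_right, ← Nat.choose_two_right, Nat.choose_succ_succ' s 1]
        simp [add_comm]
      rw [h2, mul_add, mul_one]
      omega
  have := key r hρ hrk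
  omega

theorem G8_rel {V : Type} [Fintype V] [DecidableEq V] {P : V → V → Prop} {r k l : ℕ}
    {hrk : r ≤ k} {B : Matrix V (Fin k) ℝ} {p : Fin l → V × V} {c : V → V → Fin l → ℝ}
    (h : QS P r k l hrk B p c) {Ω : Type*} [Field Ω] [Algebra ℝ Ω]
    (N : Matrix (Fin k) (Fin k) Ω) (hN : N.IsSymm) (i j : V) (hij : P i j) :
    (B.map (algebraMap ℝ Ω) * N * (B.map (algebraMap ℝ Ω))ᵀ) i j =
      ∑ a, algebraMap ℝ Ω (c i j a) *
        (B.map (algebraMap ℝ Ω) * N * (B.map (algebraMap ℝ Ω))ᵀ) (p a).1 (p a).2 := by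
  have h1 : ∀ s t : Fin k, B i s * B j t + B i t * B j s =
      ∑ a, c i j a * (B (p a).1 s * B (p a).2 t + B (p a).1 t * B (p a).2 s) := by
    intro s t
    have h2 := h.rel (Matrix.single s t 1 + Matrix.single t s 1) (by
      rw [Matrix.IsSymm, Matrix.transpose_add, Matrix.transpose_single, Matrix.transpose_single,
        add_comm]) i j hij
    have h3 : ∀ x y : V, (B * (Matrix.single s t 1 + Matrix.single t s 1 :
        Matrix (Fin k) (Fin k) ℝ) * Bᵀ) x y = B x s * B y t + B x t * B y s := by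
      intro x y
      simp [Matrix.mul_apply, Matrix.single_apply, mul_add, Finset.sum_add_distrib, add_mul,
        ite_and]
    rw [h3] at h2
    rw [h2]
    exact Finset.sum_congr rfl (fun a _ => by rw [h3])
  have h4 : ∀ x y : V, 2 * (B.map (algebraMap ℝ Ω) * N * (B.map (algebraMap ℝ Ω))ᵀ) x y =
      ∑ s, ∑ t, N s t * algebraMap ℝ Ω (B x s * B y t + B x t * B y s) := by
    intro x y
    have e1 : (B.map (algebraMap ℝ Ω) * N * (B.map (algebraMap ℝ Ω))ᵀ) x y =
        ∑ s, ∑ t, N s t * algebraMap ℝ Ω (B x s * B y t) := by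
      simp only [Matrix.mul_apply, Matrix.map_apply, Matrix.transpose_apply, Finset.sum_mul,
        map_mul]
      rw [Finset.sum_comm]
      exact Finset.sum_congr rfl (fun s _ => Finset.sum_congr rfl (fun t _ => by ring))
    have e2 : (B.map (algebraMap ℝ Ω) * N * (B.map (algebraMap ℝ Ω))ᵀ) x y =
        ∑ s, ∑ t, N s t * algebraMap ℝ Ω (B x t * B y s) := by
      rw [e1, Finset.sum_comm]
      exact Finset.sum_congr rfl (fun s _ => Finset.sum_congr rfl (fun t _ => by
        rw [hN.apply s t]))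
    rw [two_mul]
    nth_rewrite 1 [e1]
    rw [e2, ← Finset.sum_add_distrib]
    refine Finset.sum_congr rfl (fun s _ => ?_)
    rw [← Finset.sum_add_distrib]
    refine Finset.sum_congr rfl (fun t _ => ?_)
    rw [map_add, mul_add]
  have h5 : (2 : Ω) ≠ 0 := by
    have : (2 : Ω) = algebraMap ℝ Ω 2 := by rw [map_ofNat]
    rw [this]
    intro h0
    rw [map_eq_zero] at h0
    norm_num at h0
  apply mul_left_cancel₀ h5
  rw [h4, Finset.mul_sum]
  calc ∑ s, ∑ t, N s t * algebraMap ℝ Ω (B i s * B j t + B i t * B j s)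
      = ∑ s, ∑ t, ∑ a, algebraMap ℝ Ω (c i j a) * (N s t *
        algebraMap ℝ Ω (B (p a).1 s * B (p a).2 t + B (p a).1 t * B (p a).2 s)) := by
        refine Finset.sum_congr rfl (fun s _ => Finset.sum_congr rfl (fun t _ => ?_))
        rw [h1, map_sum, Finset.mul_sum]
        refine Finset.sum_congr rfl (fun a _ => ?_)
        rw [map_mul]; ring
    _ = ∑ a, algebraMap ℝ Ω (c i j a) * ∑ s, ∑ t, (N s t *
        algebraMap ℝ Ω (B (p a).1 s * B (p a).2 t + B (p a).1 t * B (p a).2 s)) := by
        rw [Finset.sum_congr rfl (fun s _ => Finset.sum_comm), Finset.sum_comm]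
        simp only [Finset.mul_sum]
    _ = _ := by
        refine Finset.sum_congr rfl (fun a _ => ?_)
        rw [← h4]; ring

theorem G8_qm {V : Type} {k r l : ℕ} {F : Type*} [CommRing F] [Algebra ℝ F]
    (B : Matrix V (Fin k) ℝ) (p : Fin l → V × V) (T : Matrix (Fin k) (Fin r) F) (a : Fin l) :
    qm B p T a = (B.map (algebraMap ℝ F) * (T * Tᵀ) * (B.map (algebraMap ℝ F))ᵀ) (p a).1 (p a).2 := by
  unfold qm
  rw [Matrix.transpose_mul, Matrix.mul_assoc, Matrix.mul_assoc, Matrix.mul_assoc]

theorem G8_galois {F E : Type*} [Field F] [Field E] [Algebra F E] [CharZero F] [IsAlgClosed E]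
    {m : Type} [Fintype m] [DecidableEq m] (N : Matrix m m E) (hN : ∀ s t, IsAlgebraic F (N s t))
    (H : ∀ N' : Matrix m m E, N'.rank = N.rank → (N.IsSymm → N'.IsSymm) →
      (∀ (d : m → m → F) (v : F), ∑ s, ∑ t, algebraMap F E (d s t) * N s t = algebraMap F E v →
        ∑ s, ∑ t, algebraMap F E (d s t) * N' s t = algebraMap F E v) → N' = N) (s t : m) :
    N s t ∈ Set.range (algebraMap F E) := by
  classical
  have hcl : IsAlgClosure F (algebraicClosure F E) := inferInstance
  have hnor : Normal F (algebraicClosure F E) := IsAlgClosure.normal F (algebraicClosure F E)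
  have hgal : IsGalois F (algebraicClosure F E) := { }
  let N0 : Matrix m m (algebraicClosure F E) :=
    Matrix.of fun s t => ⟨N s t, mem_algebraicClosure_iff.mpr (hN s t)⟩
  have hN0 : N0.map (algebraMap (algebraicClosure F E) E) = N := by
    ext s t; rfl
  have h1 : ∀ f : Gal((algebraicClosure F E)/F), f (N0 s t) = N0 s t := by
    intro f
    let ψ : algebraicClosure F E →ₐ[F] E :=
      (IsScalarTower.toAlgHom F (algebraicClosure F E) E).comp (f : (algebraicClosure F E) →ₐ[F]
        (algebraicClosure F E))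
    have hψ : ∀ x, ψ x = algebraMap (algebraicClosure F E) E (f x) := fun x => rfl
    have h2 := H (N0.map ψ) (by
      have e1 := G8_rank_map (ψ : algebraicClosure F E →+* E) N0
      have e2 := G8_rank_map (algebraMap (algebraicClosure F E) E) N0
      rw [hN0] at e2
      rw [e2, ← e1]
      rfl) (by
      intro hs
      rw [Matrix.IsSymm]
      ext s t
      have h5 : N0 t s = N0 s t := Subtype.ext (congrFun (congrFun hs s) t)
      rw [Matrix.transpose_apply, Matrix.map_apply, Matrix.map_apply, h5]) (by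
      intro d v hdv
      have e3 : ∑ s, ∑ t, algebraMap F (algebraicClosure F E) (d s t) * N0 s t =
          algebraMap F (algebraicClosure F E) v := by
        apply (algebraMap (algebraicClosure F E) E).injective
        rw [map_sum]
        simp only [map_sum, map_mul, ← IsScalarTower.algebraMap_apply]
        exact hdv
      have e4 := congrArg ψ e3
      simp only [map_sum, map_mul, AlgHom.commutes] at e4
      exact e4)
    apply (algebraMap (algebraicClosure F E) E).injective
    have h3 := congrFun (congrFun h2 s) t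
    rw [Matrix.map_apply, hψ] at h3
    rw [h3]
    rfl
  rw [← InfiniteGalois.mem_range_algebraMap_iff_fixed] at h1
  obtain ⟨y, hy⟩ := h1
  refine ⟨y, ?_⟩
  have h4 := congrArg (algebraMap (algebraicClosure F E) E) hy
  rw [← IsScalarTower.algebraMap_apply] at h4
  rw [h4]
  rfl

theorem G8_aux {V : Type} [Fintype V] [DecidableEq V] {P : V → V → Prop} {r k l : ℕ}
    {hrk : r ≤ k} {B : Matrix V (Fin k) ℝ} {p : Fin l → V × V} {c : V → V → Fin l → ℝ}
    (h : QS P r k l hrk B p c)
    (Ω : Type) [Field Ω] [Algebra ℝ Ω] [Algebra ℚ Ω] [IsAlgClosed Ω]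
    (T : Matrix (Fin k) (Fin r) Ω)
    (hq : AlgebraicIndependent ℝ (qm B p T))
    (hX : AlgInd (B.map (algebraMap ℝ Ω) * T))
    (hUG : ∀ (X : Matrix V (Fin r) Ω), AlgInd X →
      ∀ M : Matrix V V Ω, M.IsSymm → M.rank ≤ r →
        (∀ i j, P i j → M i j = ∑ k, X i k * X j k) → M = X * Xᵀ) (s t : Fin k) :
    (T * Tᵀ) s t ∈ IntermediateField.adjoin ℝ (Set.range (qm B p T)) := by
  classical
  have hNs : (T * Tᵀ).IsSymm := by
    rw [Matrix.IsSymm, Matrix.transpose_mul, Matrix.transpose_transpose]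
  have hNr : (T * Tᵀ).rank ≤ r :=
    (Matrix.rank_mul_le_left _ _).trans (Matrix.rank_le_width _)
  -- step A
  have hA : ∀ s t, IsAlgebraic (IntermediateField.adjoin ℝ (Set.range (qm B p T)))
      ((T * Tᵀ) s t) := by
    obtain ⟨S, hcard, hS1, hS2⟩ := symm_trdeg (k := ℝ) (T * Tᵀ) hNs
    have hmem : ∀ a, qm B p T a ∈ IntermediateField.adjoin ℝ (S : Set Ω) := by
      intro a
      rw [G8_qm, Matrix.mul_apply]
      refine sum_mem (fun x _ => mul_mem ?_ ?_)
      · rw [Matrix.mul_apply]
        refine sum_mem (fun y _ => mul_mem ?_ (hS2 y x))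
        rw [Matrix.map_apply]
        exact IntermediateField.algebraMap_mem _ _
      · rw [Matrix.transpose_apply, Matrix.map_apply]
        exact IntermediateField.algebraMap_mem _ _
    obtain ⟨-, h2⟩ := alg_of_card S (qm B p T) hq hmem
    rw [Fintype.card_fin] at h2 hcard
    intro s t
    exact h2 (G8_arith hNr hrk h.dim hcard) _ (hS2 s t)
  have hcz : CharZero (IntermediateField.adjoin ℝ (Set.range (qm B p T))) :=
    algebraRat.charZero _
  have hB : ∀ (M : Matrix (Fin k) (Fin k) Ω) (x y : V),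
      (B.map (algebraMap ℝ Ω) * M * (B.map (algebraMap ℝ Ω))ᵀ) x y =
      ∑ s, ∑ t, algebraMap (IntermediateField.adjoin ℝ (Set.range (qm B p T))) Ω
        (algebraMap ℝ (IntermediateField.adjoin ℝ (Set.range (qm B p T))) (B x s * B y t)) * M s t := by
    intro M x y
    simp only [← IsScalarTower.algebraMap_apply, Matrix.mul_apply, Matrix.map_apply,
      Matrix.transpose_apply, Finset.sum_mul, map_mul]
    rw [Finset.sum_comm]
    exact Finset.sum_congr rfl (fun s _ => Finset.sum_congr rfl (fun t _ => by ring))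
  have hres := G8_galois (T * Tᵀ) hA ?_ s t
  · obtain ⟨y, hy⟩ := hres
    rw [← hy]
    exact y.2
  intro N' hrank hsymm hrel
  have hs' := hsymm hNs
  obtain ⟨C, hC⟩ := h.inj
  -- the Gram entries of `B N' Bᵀ` on `P`
  have hpa : ∀ a, (B.map (algebraMap ℝ Ω) * N' * (B.map (algebraMap ℝ Ω))ᵀ) (p a).1 (p a).2 =
      (B.map (algebraMap ℝ Ω) * (T * Tᵀ) * (B.map (algebraMap ℝ Ω))ᵀ) (p a).1 (p a).2 := by
    intro a
    rw [hB N', hrel _ ⟨qm B p T a, IntermediateField.subset_adjoin _ _ ⟨a, rfl⟩⟩]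
    · rw [← G8_qm]
      rfl
    · rw [← hB, ← G8_qm]
      rfl
  have hM := hUG (B.map (algebraMap ℝ Ω) * T) hX
    (B.map (algebraMap ℝ Ω) * N' * (B.map (algebraMap ℝ Ω))ᵀ) (by
      rw [Matrix.IsSymm, Matrix.transpose_mul, Matrix.transpose_mul, Matrix.transpose_transpose,
        hs'.eq, Matrix.mul_assoc])
    ((Matrix.rank_mul_le_left _ _).trans ((Matrix.rank_mul_le_right _ _).trans
      (hrank.le.trans hNr))) (by
      intro i j hij
      rw [G8_rel h N' hs' i j hij]
      have e5 := G8_rel h (T * Tᵀ) hNs i j hij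
      rw [Finset.sum_congr rfl (fun a _ => by rw [hpa a]), ← e5]
      have e6 : B.map (algebraMap ℝ Ω) * (T * Tᵀ) * (B.map (algebraMap ℝ Ω))ᵀ =
          (B.map (algebraMap ℝ Ω) * T) * (B.map (algebraMap ℝ Ω) * T)ᵀ := by
        rw [Matrix.transpose_mul, Matrix.mul_assoc, Matrix.mul_assoc, Matrix.mul_assoc]
      rw [e6, Matrix.mul_apply]
      rfl)
  have hC' : C.map (algebraMap ℝ Ω) * B.map (algebraMap ℝ Ω) = 1 := by
    rw [← Matrix.map_mul, hC]
    simp
  have hC'' : (B.map (algebraMap ℝ Ω))ᵀ * (C.map (algebraMap ℝ Ω))ᵀ = 1 := by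
    rw [← Matrix.transpose_mul, hC', Matrix.transpose_one]
  have e7 : B.map (algebraMap ℝ Ω) * (T * Tᵀ) * (B.map (algebraMap ℝ Ω))ᵀ =
      (B.map (algebraMap ℝ Ω) * T) * (B.map (algebraMap ℝ Ω) * T)ᵀ := by
    rw [Matrix.transpose_mul, Matrix.mul_assoc, Matrix.mul_assoc, Matrix.mul_assoc]
  rw [← e7] at hM
  have e8 : ∀ M : Matrix (Fin k) (Fin k) Ω, C.map (algebraMap ℝ Ω) *
      (B.map (algebraMap ℝ Ω) * M * (B.map (algebraMap ℝ Ω))ᵀ) * (C.map (algebraMap ℝ Ω))ᵀ = M := by
    intro M
    rw [Matrix.mul_assoc, Matrix.mul_assoc (B.map (algebraMap ℝ Ω) * M), hC'', Matrix.mul_one,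
      ← Matrix.mul_assoc, hC', Matrix.one_mul]
  rw [← e8 N', hM, e8]

/-- G8 (rationality; hint). `Ω` = algebraic closure of the fraction field of
`MvPolynomial (Fin k × Fin r) ℝ`, `T` = image of `TG`, `N = T Tᵀ` (over `Ω`), `Y = B T`,
`q = qm B p T`, `k0 = adjoin ℝ (range q)`. (1) All entries of `N` are algebraic over `k0`: `symm_trdeg` for `N`
over `ℝ` (`rank N ≤ r ≤ k` so at most `kr - r(r-1)/2 = l` elements; if the rank is smaller even fewer),
`q` has `l` algebraically independent elements (`q_algInd`) in `adjoin ℝ (entries of N)`, `alg_of_card`.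
(2) Let `σ` be a `k0`-automorphism of the algebraic closure `Kc` of `k0` in `Ω`. `M' = B σ(N) Bᵀ`
is symmetric of rank at most `r`, and agrees with `Y Yᵀ` on `P` (at the places `p a` because `σ q = q`;
then by `rel`, which extends from real symmetric matrices to symmetric matrices over `Ω` by
linearity). By `hUG` (`Y` is algebraically independent over `ℚ` by `BTG_algInd`) `M' = Y Yᵀ = B N Bᵀ`, so
`σ(N) = N` (`C B = 1`). `Kc` is Galois over `k0` (characteristic zero), so the entries of `N` lie in `k0`. -/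
theorem N_mem {V : Type} [Fintype V] [DecidableEq V] {P : V → V → Prop} {r k l : ℕ}
    {hrk : r ≤ k} {B : Matrix V (Fin k) ℝ} {p : Fin l → V × V} {c : V → V → Fin l → ℝ}
    (h : QS P r k l hrk B p c)
    (hUG : ∀ (Ω : Type) [Field Ω] [Algebra ℚ Ω] (X : Matrix V (Fin r) Ω), AlgInd X →
      ∀ M : Matrix V V Ω, M.IsSymm → M.rank ≤ r →
        (∀ i j, P i j → M i j = ∑ k, X i k * X j k) → M = X * Xᵀ) :
    ∀ s t, algebraMap (MvPolynomial (Fin k × Fin r) ℝ)
        (FractionRing (MvPolynomial (Fin k × Fin r) ℝ)) ((TG k r * (TG k r)ᵀ) s t) ∈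
      IntermediateField.adjoin ℝ (Set.range (fun a =>
        algebraMap (MvPolynomial (Fin k × Fin r) ℝ)
          (FractionRing (MvPolynomial (Fin k × Fin r) ℝ)) (qm B p (TG k r) a))) := by
  intro s t
  set R := MvPolynomial (Fin k × Fin r) ℝ with hR
  set K := FractionRing R with hK
  set Ω := AlgebraicClosure K with hΩ
  let φ : R →ₐ[ℝ] Ω := (IsScalarTower.toAlgHom ℝ K Ω).comp (IsScalarTower.toAlgHom ℝ R K)
  have hφinj : Function.Injective φ :=
    (algebraMap K Ω).injective.comp (IsFractionRing.injective R K)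
  let T : Matrix (Fin k) (Fin r) Ω := (TG k r).map φ
  have hqT : qm B p T = φ ∘ qm B p (TG k r) := by
    funext a
    exact (G7_qm_map φ B p (TG k r) a).symm
  have hq : AlgebraicIndependent ℝ (qm B p T) := by
    rw [hqT]
    exact (q_algInd h).map' hφinj
  have hX : AlgInd (B.map (algebraMap ℝ Ω) * T) := by
    have h1 := (BTG_algInd h).map' (f := φ.restrictScalars ℚ) hφinj
    unfold AlgInd
    convert! h1 using 1
    funext q
    simp [T, Matrix.mul_apply, map_sum, map_mul]
  have h2 := G8_aux h Ω T hq hX (fun X hX M => hUG Ω X hX M) s t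
  have h3 : (T * Tᵀ) s t = (IsScalarTower.toAlgHom ℝ K Ω)
      (algebraMap R K ((TG k r * (TG k r)ᵀ) s t)) := by
    simp [T, Matrix.mul_apply, map_sum, map_mul, φ]
  have h4 : Set.range (qm B p T) = (IsScalarTower.toAlgHom ℝ K Ω) '' (Set.range (fun a =>
        algebraMap R K (qm B p (TG k r) a))) := by
    rw [hqT, ← Set.range_comp]
    rfl
  rw [h3, h4, ← IntermediateField.adjoin_map] at h2
  obtain ⟨y, hy, hy'⟩ := h2
  have h5 : y = algebraMap R K ((TG k r * (TG k r)ᵀ) s t) :=
    (IsScalarTower.toAlgHom ℝ K Ω).toRingHom.injective hy'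
  rw [← h5]
  exact hy

end Pool.Agent.Helper55.ML
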