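import Pool.Agent.Helper55.MLA.Final

/-!
# Monotonicity of the two sets of dimensions
-/

set_option autoImplicit false
open Finset Filter Topology MeasureTheory

namespace Pool.Agent.Helper55.ML

theorem Aset_succ {n : ℕ} {P : Fin n → Fin n → Prop} {d : ℕ} (h : d ∈ Aset n P) :
    d + 1 ∈ Aset n P := by
  have hqmp : Measure.QuasiMeasurePreserving
      (fun X : Fin (d + 1) → Fin n → ℝ => fun k : Fin d => X k.succ) volume volume := by
    have h1 := (volume_preserving_piFinSuccAbove (fun _ : Fin (d + 1) => Fin n → ℝ)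
      0).quasiMeasurePreserving
    have h2 : Measure.QuasiMeasurePreserving
        (Prod.snd : (Fin n → ℝ) × (Fin d → Fin n → ℝ) → (Fin d → Fin n → ℝ))
        (volume.prod volume) volume := Measure.quasiMeasurePreserving_snd
    have h3 := h2.comp h1
    have h5 : (fun X : Fin (d + 1) → Fin n → ℝ => fun k : Fin d => X k.succ) =
        Prod.snd ∘ ⇑(MeasurableEquiv.piFinSuccAbove (fun _ : Fin (d + 1) => Fin n → ℝ) 0) := by
      funext X k
      simp [MeasurableEquiv.piFinSuccAbove, Fin.insertNthEquiv, Fin.tail]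
    rw [h5]
    exact h3
  have h4 := hqmp.ae h
  show ∀ᵐ X : Fin (d + 1) → Fin n → ℝ, ∃ K : Matrix (Fin n) (Fin n) ℝ, K.PosDef ∧
    ∀ i j : Fin n, P i j → K i j = ∑ k, X k i * X k j
  filter_upwards [h4] with X hX
  obtain ⟨K, hK, hKe⟩ := hX
  refine ⟨K + Matrix.vecMulVec (X 0) (Star.star (X 0)), hK.add_posSemidef
    (Matrix.posSemidef_vecMulVec_self_star (X 0)), fun i j hij => ?_⟩
  rw [Matrix.add_apply, hKe i j hij, Fin.sum_univ_succ, Matrix.vecMulVec_apply, add_comm]
  simp

theorem Bset_succ {n : ℕ} {P : Fin n → Fin n → Prop} {r : ℕ} (h : r ∈ Bset n P) :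
    r + 1 ∈ Bset n P := by
  refine Set.Nonempty.mono (interior_mono ?_) h
  rintro _ ⟨Y, rfl⟩
  refine ⟨fun i => Fin.cons 0 (Y i), ?_⟩
  funext q
  simp [Fin.sum_univ_succ]

theorem Aset_le {n : ℕ} {P : Fin n → Fin n → Prop} {d e : ℕ} (h : d ∈ Aset n P) (hde : d ≤ e) :
    e ∈ Aset n P := by
  induction e, hde using Nat.le_induction with
  | base => exact h
  | succ e _ ih => exact Aset_succ ih

theorem Bset_le {n : ℕ} {P : Fin n → Fin n → Prop} {d e : ℕ} (h : d ∈ Bset n P) (hde : d ≤ e) :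
    e ∈ Bset n P := by
  induction e, hde using Nat.le_induction with
  | base => exact h
  | succ e _ ih => exact Bset_succ ih

end Pool.Agent.Helper55.ML
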