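import Pool.Agent.Helper55.MLA.Defs

set_option autoImplicit false
open Finset Matrix Filter Topology

namespace Pool.Agent.Helper55.ML

private theorem R1_finite {F : Type*} [Field F] {r : ℕ} (x : ℕ → Fin r → F)
    (S : Finset (Sym2 ℕ)) : Module.Finite F
      (Submodule.span F ((fun e => (Dg x).mkQ (row x e)) '' (S : Set (Sym2 ℕ)))) :=
  FiniteDimensional.span_of_finite F ((S.finite_toSet).image _)

private theorem R1_row {F : Type*} [Field F] {r : ℕ} (x : ℕ → Fin r → F) (a b : ℕ)
    (q : ℕ × Fin r) :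
    row x s(a, b) q = (if q.1 = a then x b q.2 else 0) + (if q.1 = b then x a q.2 else 0) := rfl

private theorem R1_row_single {F : Type*} [Field F] {r : ℕ} (x : ℕ → Fin r → F) (a b : ℕ) :
    row x s(a, b) = ∑ k : Fin r, (x b k • (Pi.single (a, k) (1 : F) : ℕ × Fin r → F) +
      x a k • (Pi.single (b, k) (1 : F) : ℕ × Fin r → F)) := by
  funext q
  obtain ⟨c, l⟩ := q
  rw [R1_row]
  simp only [Finset.sum_apply, Pi.add_apply, Pi.smul_apply, Pi.single_apply, Prod.mk.injEq,
    smul_eq_mul, mul_ite, mul_one, mul_zero, Finset.sum_add_distrib]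
  congr 1
  · by_cases h : c = a
    · simp [h]
    · simp [h]
  · by_cases h : c = b
    · simp [h]
    · simp [h]

/-- R1 (hint): `rk x S` is the dimension of the span of the images of the rows in the quotient by
`Dg x`; all facts are linear algebra of spans of finite sets (`Submodule.finrank_sup_add_finrank_inf_eq`
etc.; all spans here are finite dimensional). -/
theorem rk_empty {F : Type*} [Field F] {r : ℕ} (x : ℕ → Fin r → F) : rk x ∅ = 0 := by
  unfold rk
  rw [Finset.coe_empty, Set.image_empty, Submodule.span_empty, finrank_bot]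

theorem rk_mono {F : Type*} [Field F] {r : ℕ} (x : ℕ → Fin r → F) {S T : Finset (Sym2 ℕ)}
    (h : S ⊆ T) : rk x S ≤ rk x T := by
  have := R1_finite x T
  exact Submodule.finrank_mono (Submodule.span_mono (Set.image_mono (by exact_mod_cast h)))

theorem rk_insert {F : Type*} [Field F] {r : ℕ} (x : ℕ → Fin r → F) (e : Sym2 ℕ)
    (S : Finset (Sym2 ℕ)) : rk x (insert e S) ≤ rk x S + 1 := by
  have := R1_finite x S
  unfold rk
  rw [Finset.coe_insert, Set.image_insert_eq, Submodule.span_insert]
  refine (Submodule.finrank_add_le_finrank_add_finrank _ _).trans ?_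
  have h1 : Module.finrank F (Submodule.span F {(Dg x).mkQ (row x e)}) ≤ 1 := by
    by_cases h0 : (Dg x).mkQ (row x e) = 0
    · rw [h0, Submodule.span_zero_singleton, finrank_bot]
      exact Nat.zero_le _
    · exact (finrank_span_singleton h0).le
  omega

theorem rk_submod {F : Type*} [Field F] {r : ℕ} (x : ℕ → Fin r → F) (S T : Finset (Sym2 ℕ)) :
    rk x (S ∪ T) + rk x (S ∩ T) ≤ rk x S + rk x T := by
  have := R1_finite x S
  have := R1_finite x T
  have hsum := Submodule.finrank_sup_add_finrank_inf_eq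
    (Submodule.span F ((fun e => (Dg x).mkQ (row x e)) '' (S : Set (Sym2 ℕ))))
    (Submodule.span F ((fun e => (Dg x).mkQ (row x e)) '' (T : Set (Sym2 ℕ))))
  rw [← Submodule.span_union, ← Set.image_union, ← Finset.coe_union] at hsum
  unfold rk
  rw [← hsum]
  refine Nat.add_le_add_left ?_ _
  apply Submodule.finrank_mono
  refine le_inf (Submodule.span_mono (Set.image_mono ?_)) (Submodule.span_mono (Set.image_mono ?_))
  · exact_mod_cast Finset.inter_subset_left
  · exact_mod_cast Finset.inter_subset_right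

private theorem R1_mem_iff {F : Type*} [Field F] {r : ℕ} (x : ℕ → Fin r → F) (e : Sym2 ℕ)
    (S : Finset (Sym2 ℕ)) :
    (Dg x).mkQ (row x e) ∈
      Submodule.span F ((fun e => (Dg x).mkQ (row x e)) '' (S : Set (Sym2 ℕ))) ↔
      row x e ∈ Submodule.span F (row x '' (S : Set (Sym2 ℕ))) ⊔ Dg x := by
  have h1 : ((fun e => (Dg x).mkQ (row x e)) '' (S : Set (Sym2 ℕ))) =
      (Dg x).mkQ '' (row x '' (S : Set (Sym2 ℕ))) := by
    rw [Set.image_image]
  rw [h1, ← Submodule.map_span, sup_comm, ← Submodule.comap_map_mkQ, Submodule.mem_comap]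

/-- Closure in terms of spans. -/
theorem rk_insert_eq_iff {F : Type*} [Field F] {r : ℕ} (x : ℕ → Fin r → F) (e : Sym2 ℕ)
    (S : Finset (Sym2 ℕ)) : rk x (insert e S) = rk x S ↔
      row x e ∈ Submodule.span F (row x '' (S : Set (Sym2 ℕ))) ⊔ Dg x := by
  rw [← R1_mem_iff]
  constructor
  · intro h
    have := R1_finite x (insert e S)
    have h1 := Submodule.eq_of_le_of_finrank_eq
      (Submodule.span_mono (R := F) (Set.image_mono (f := fun e => (Dg x).mkQ (row x e))
        (by exact_mod_cast Finset.subset_insert e S :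
          (S : Set (Sym2 ℕ)) ⊆ ((insert e S : Finset (Sym2 ℕ)) : Set (Sym2 ℕ))))) h.symm
    rw [h1]
    exact Submodule.subset_span ⟨e, by simp, rfl⟩
  · intro h
    unfold rk
    rw [Finset.coe_insert, Set.image_insert_eq, Submodule.span_insert_eq_span h]

/-- Closure by duality: every velocity field annihilated by the rows of `S` and the diagonal rows is
annihilated by the row of `e = s(i,j)`. Only finitely many coordinates of the velocity field matter.
(The rows of `S ∪ {e}` and of the diagonal have finite support, so a linear functional vanishing on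
`span ⊔ Dg` is evaluated through the numbers `y i k = f (Pi.single (i,k) 1)`; use
`Submodule.exists_le_ker_of_notMem` or similar.) -/
theorem rk_insert_eq_of_dual {F : Type*} [Field F] {r : ℕ} (x : ℕ → Fin r → F)
    (hF : (2 : F) ≠ 0) (i j : ℕ) (S : Finset (Sym2 ℕ))
    (h : ∀ y : ℕ → Fin r → F, (∀ a b, s(a, b) ∈ S → ∑ k, (x a k * y b k + y a k * x b k) = 0) →
      (∀ a, ∑ k, x a k * y a k = 0) → ∑ k, (x i k * y j k + y i k * x j k) = 0) :
    rk x (insert s(i, j) S) = rk x S := by
  rw [rk_insert_eq_iff]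
  by_contra hn
  obtain ⟨f, hf1, hf2⟩ := Submodule.exists_le_ker_of_notMem hn
  set y : ℕ → Fin r → F := fun a k => f (Pi.single (a, k) (1 : F)) with hy
  have key : ∀ a b, f (row x s(a, b)) = ∑ k, (x a k * y b k + y a k * x b k) := by
    intro a b
    rw [R1_row_single, map_sum]
    refine Finset.sum_congr rfl (fun k _ => ?_)
    rw [map_add, map_smul, map_smul, smul_eq_mul, smul_eq_mul, hy]
    ring
  apply hf1
  rw [key]
  apply h
  · intro a b hab
    rw [← key]
    have : row x s(a, b) ∈ Submodule.span F (row x '' (S : Set (Sym2 ℕ))) ⊔ Dg x :=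
      Submodule.mem_sup_left (Submodule.subset_span ⟨_, by exact_mod_cast hab, rfl⟩)
    exact LinearMap.mem_ker.1 (hf2 this)
  · intro a
    have h1 : f (row x s(a, a)) = 0 := by
      have : row x s(a, a) ∈ Submodule.span F (row x '' (S : Set (Sym2 ℕ))) ⊔ Dg x :=
        Submodule.mem_sup_right (Submodule.subset_span ⟨a, rfl⟩)
      exact LinearMap.mem_ker.1 (hf2 this)
    rw [key] at h1
    have h2 : ∑ k, (x a k * y a k + y a k * x a k) = 2 * ∑ k, x a k * y a k := by
      rw [Finset.mul_sum]
      exact Finset.sum_congr rfl (fun k _ => by ring)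
    rw [h2] at h1
    exact (mul_eq_zero.1 h1).resolve_left hF

theorem rk_insert_eq_dual {F : Type*} [Field F] {r : ℕ} (x : ℕ → Fin r → F)
    {i j : ℕ} {S : Finset (Sym2 ℕ)} (h : rk x (insert s(i, j) S) = rk x S)
    {y : ℕ → Fin r → F} (h1 : ∀ a b, s(a, b) ∈ S → ∑ k, (x a k * y b k + y a k * x b k) = 0)
    (h2 : ∀ a, ∑ k, x a k * y a k = 0) : ∑ k, (x i k * y j k + y i k * x j k) = 0 := by
  rw [rk_insert_eq_iff] at h
  classical
  set T : Finset ℕ := insert i (insert j (S.biUnion (fun e => e.toFinset))) with hT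
  have hTi : i ∈ T := by simp [hT]
  have hTj : j ∈ T := by simp [hT]
  have hTS : ∀ a b, s(a, b) ∈ S → a ∈ T ∧ b ∈ T := by
    intro a b hab
    constructor
    · refine Finset.mem_insert_of_mem (Finset.mem_insert_of_mem ?_)
      exact Finset.mem_biUnion.2 ⟨_, hab, by simp⟩
    · refine Finset.mem_insert_of_mem (Finset.mem_insert_of_mem ?_)
      exact Finset.mem_biUnion.2 ⟨_, hab, by simp⟩
  let L : (ℕ × Fin r → F) →ₗ[F] F :=
    ∑ a ∈ T, ∑ k : Fin r, (y a k) • (LinearMap.proj (a, k) : (ℕ × Fin r → F) →ₗ[F] F)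
  have hL : ∀ v : ℕ × Fin r → F, L v = ∑ a ∈ T, ∑ k : Fin r, y a k * v (a, k) := by
    intro v
    simp [L, LinearMap.sum_apply]
  have hLrow : ∀ a b, L (row x s(a, b)) =
      (if a ∈ T then ∑ k, y a k * x b k else 0) + (if b ∈ T then ∑ k, y b k * x a k else 0) := by
    intro a b
    rw [hL]
    have : ∀ c ∈ T, ∑ k : Fin r, y c k * row x s(a, b) (c, k) =
        (if c = a then ∑ k, y a k * x b k else 0) + (if c = b then ∑ k, y b k * x a k else 0) := by
      intro c _
      simp only [R1_row, mul_add, Finset.sum_add_distrib]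
      congr 1
      · by_cases hc : c = a
        · simp [hc]
        · simp [hc]
      · by_cases hc : c = b
        · simp [hc]
        · simp [hc]
    rw [Finset.sum_congr rfl this, Finset.sum_add_distrib, Finset.sum_ite_eq', Finset.sum_ite_eq']
  have hLk : Submodule.span F (row x '' (S : Set (Sym2 ℕ))) ⊔ Dg x ≤ LinearMap.ker L := by
    refine sup_le ?_ ?_
    · rw [Submodule.span_le]
      rintro _ ⟨e, he, rfl⟩
      induction e using Sym2.ind with
      | _ a b =>
        have he' : s(a, b) ∈ S := by exact_mod_cast he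
        rw [SetLike.mem_coe, LinearMap.mem_ker, hLrow, if_pos (hTS a b he').1,
          if_pos (hTS a b he').2, ← Finset.sum_add_distrib]
        rw [← h1 a b he']
        exact Finset.sum_congr rfl (fun k _ => by ring)
    · unfold Dg
      rw [Submodule.span_le]
      rintro _ ⟨a, rfl⟩
      rw [SetLike.mem_coe, LinearMap.mem_ker, hLrow]
      have : ∑ k, y a k * x a k = 0 := by
        rw [← h2 a]
        exact Finset.sum_congr rfl (fun k _ => by ring)
      rw [this]
      simp
  have h3 := LinearMap.mem_ker.1 (hLk h)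
  rw [hLrow, if_pos hTi, if_pos hTj, ← Finset.sum_add_distrib] at h3
  rw [← h3]
  exact Finset.sum_congr rfl (fun k _ => by ring)

/-- Independence. -/
theorem rk_eq_card_iff {F : Type*} [Field F] {r : ℕ} (x : ℕ → Fin r → F)
    (S : Finset (Sym2 ℕ)) : rk x S = S.card ↔
      ∀ c : Sym2 ℕ → F, (∑ e ∈ S, c e • row x e) ∈ Dg x → ∀ e ∈ S, c e = 0 := by
  have h1 : (rk x S = S.card) ↔
      LinearIndepOn F (fun e => (Dg x).mkQ (row x e)) (S : Set (Sym2 ℕ)) := by
    unfold LinearIndepOn
    rw [linearIndependent_iff_card_eq_finrank_span]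
    unfold rk Set.finrank
    have h2 : Set.range (fun e : (S : Set (Sym2 ℕ)) => (Dg x).mkQ (row x (e : Sym2 ℕ))) =
        (fun e => (Dg x).mkQ (row x e)) '' (S : Set (Sym2 ℕ)) := by
      rw [Set.image_eq_range]
    rw [h2]
    simp only [Finset.coe_sort_coe, Fintype.card_coe]
    exact eq_comm
  rw [h1, linearIndepOn_finset_iff]
  refine forall_congr' (fun c => ?_)
  have h3 : (∑ e ∈ S, c e • (Dg x).mkQ (row x e)) = (Dg x).mkQ (∑ e ∈ S, c e • row x e) := by
    rw [map_sum]
    exact Finset.sum_congr rfl (fun e _ => by rw [map_smul])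
  rw [h3, Submodule.mkQ_apply, Submodule.Quotient.mk_eq_zero]

end Pool.Agent.Helper55.ML
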