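import Pool.Agent.Helper55.MLA.Defs

set_option autoImplicit false
open Finset Matrix Filter Topology

namespace Pool.Agent.Helper55.ML

/-- the semilinear map of configurations induced by a field automorphism and a permutation -/
private def r2_psi {F : Type} [Field F] (r : ℕ) (σ : Equiv.Perm ℕ) (φ : F ≃+* F) :
    (ℕ × Fin r → F) →ₛₗ[(φ : F →+* F)] (ℕ × Fin r → F) where
  toFun f := fun q => φ (f (σ.symm q.1, q.2))
  map_add' f g := by
    funext q
    simp
  map_smul' c f := by
    funext q
    simp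

private theorem r2_psi_apply {F : Type} [Field F] (r : ℕ) (σ : Equiv.Perm ℕ) (φ : F ≃+* F)
    (f : ℕ × Fin r → F) (q : ℕ × Fin r) : r2_psi r σ φ f q = φ (f (σ.symm q.1, q.2)) := rfl

private theorem r2_psi_inj {F : Type} [Field F] (r : ℕ) (σ : Equiv.Perm ℕ) (φ : F ≃+* F) :
    Function.Injective (r2_psi r σ φ) := by
  intro f g h
  funext q
  have := congrFun h (σ q.1, q.2)
  rw [r2_psi_apply, r2_psi_apply] at this
  simpa using this

private theorem r2_psi_row {F : Type} [Field F] {r : ℕ} (x : ℕ → Fin r → F) (σ : Equiv.Perm ℕ)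
    (φ : F ≃+* F) (hφ : ∀ i k, φ (x i k) = x (σ i) k) (e : Sym2 ℕ) :
    r2_psi r σ φ (row x e) = row x (Sym2.map σ e) := by
  induction e using Sym2.ind with
  | _ i j =>
    funext q
    rw [r2_psi_apply, Sym2.map_mk]
    simp only [row, Sym2.lift_mk, map_add, Equiv.symm_apply_eq]
    congr 1
    · split_ifs with h
      · exact hφ j q.2
      · exact map_zero φ
    · split_ifs with h
      · exact hφ i q.2
      · exact map_zero φ

private theorem r2_aux {F : Type} [Field F] {r : ℕ} (x : ℕ → Fin r → F) (σ : Equiv.Perm ℕ)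
    (φ : F ≃+* F) (hφ : ∀ i k, φ (x i k) = x (σ i) k) (S : Finset (Sym2 ℕ)) :
    rk x (S.image (Sym2.map σ)) = rk x S := by
  have : RingHomInvPair (φ : F →+* F) (φ.symm : F →+* F) := RingHomInvPair.of_ringEquiv φ
  have : RingHomInvPair (φ.symm : F →+* F) (φ : F →+* F) :=
    RingHomInvPair.symm (φ : F →+* F) (φ.symm : F →+* F)
  have : RingHomSurjective (φ : F →+* F) := ⟨φ.surjective⟩
  have hD : (Dg x).map (r2_psi r σ φ) = Dg x := by
    rw [Dg, Submodule.map_span]
    congr 1
    ext v
    constructor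
    · rintro ⟨_, ⟨i, rfl⟩, rfl⟩
      refine ⟨σ i, ?_⟩
      simp only
      rw [r2_psi_row x σ φ hφ, Sym2.map_mk]
    · rintro ⟨i, rfl⟩
      refine ⟨row x s(σ.symm i, σ.symm i), ⟨σ.symm i, rfl⟩, ?_⟩
      rw [r2_psi_row x σ φ hφ, Sym2.map_mk]
      simp
  have hle : Dg x ≤ (Dg x).comap (r2_psi r σ φ) := by
    rw [← Submodule.map_le_iff_le_comap, hD]
  set f := Submodule.mapQ (Dg x) (Dg x) (r2_psi r σ φ) hle with hf
  have hinj : Function.Injective f := by
    rw [injective_iff_map_eq_zero]
    intro a ha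
    obtain ⟨v, rfl⟩ := Submodule.Quotient.mk_surjective _ a
    rw [hf, Submodule.mapQ_apply, Submodule.Quotient.mk_eq_zero, ← hD] at ha
    obtain ⟨w, hw, hwv⟩ := ha
    have : w = v := r2_psi_inj r σ φ hwv
    rw [Submodule.Quotient.mk_eq_zero, ← this]
    exact hw
  have hspan : (Submodule.span F ((fun e => (Dg x).mkQ (row x e)) '' (S : Set (Sym2 ℕ)))).map f =
      Submodule.span F ((fun e => (Dg x).mkQ (row x e)) ''
        ((S.image (Sym2.map σ) : Finset (Sym2 ℕ)) : Set (Sym2 ℕ))) := by
    rw [Submodule.map_span, Finset.coe_image, Set.image_image, Set.image_image]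
    congr 1
    refine Set.image_congr fun e _ => ?_
    rw [← r2_psi_row x σ φ hφ]
    rfl
  rw [rk, rk, ← hspan]
  have e := Submodule.equivMapOfInjective f hinj
    (Submodule.span F ((fun e => (Dg x).mkQ (row x e)) '' (S : Set (Sym2 ℕ))))
  have h := rank_eq_of_equiv_equiv (φ : F → F) e.toAddEquiv φ.bijective
    (fun c m => e.map_smulₛₗ c m)
  rw [Module.finrank, Module.finrank, h]

/-- R2 (hint): the ring automorphism of `MvPolynomial (ℕ × Fin r) ℚ` induced by `σ` on the first
index extends to `FK r` (`IsFractionRing.ringEquivOfRingEquiv` or `IsFractionRing.map`); together with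
the permutation of the coordinates of `ℕ × Fin r → FK r` it gives a semilinear bijection that maps
`row (gx r) e` to `row (gx r) (Sym2.map σ e)` and `Dg` to `Dg`; finrank is invariant under semilinear
equivalences (`rank_eq_of_equiv_equiv`, `Module.finrank_eq_of...`, or argue with `rk_eq_card_iff`-like
linear independence of subsets: `finrank` of a span is the maximal size of an independent subset). -/
theorem rk_perm (r : ℕ) (σ : Equiv.Perm ℕ) (S : Finset (Sym2 ℕ)) :
    rk (gx r) (S.image (Sym2.map σ)) = rk (gx r) S := by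
  let τ : (ℕ × Fin r) ≃ (ℕ × Fin r) := σ.prodCongr (Equiv.refl _)
  let h : MvPolynomial (ℕ × Fin r) ℚ ≃+* MvPolynomial (ℕ × Fin r) ℚ :=
    (MvPolynomial.renameEquiv ℚ τ).toRingEquiv
  refine r2_aux (gx r) σ (IsFractionRing.ringEquivOfRingEquiv (K := FK r) (L := FK r) h) ?_ S
  intro i k
  rw [gx, gx, IsFractionRing.ringEquivOfRingEquiv_algebraMap]
  congr 1
  change MvPolynomial.rename τ (MvPolynomial.X (i, k)) = _
  rw [MvPolynomial.rename_X]
  rfl

end Pool.Agent.Helper55.ML
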