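import Pool.Agent.Helper55.MLA.Defs

set_option autoImplicit false
open Finset Matrix Filter Topology

namespace Pool.Agent.Helper55.ML

private theorem t4_chain {σ τ : Type*} [Fintype σ] (f : σ → MvPolynomial τ ℚ) (q : τ)
    (P : MvPolynomial σ ℚ) :
    MvPolynomial.pderiv q (MvPolynomial.aeval f P) =
      ∑ e, MvPolynomial.aeval f (MvPolynomial.pderiv e P) * MvPolynomial.pderiv q (f e) := by
  classical
  induction P using MvPolynomial.induction_on with
  | C a => simp
  | add p q hp hq =>
    simp only [map_add, hp, hq, add_mul, Finset.sum_add_distrib]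
  | mul_X p n hp =>
    simp only [map_mul, MvPolynomial.aeval_X, Derivation.leibniz, smul_eq_mul, hp,
      MvPolynomial.pderiv_X, map_add, add_mul, Finset.sum_add_distrib]
    congr 1
    · rw [Finset.sum_eq_single n]
      · simp
      · intro b _ hb
        rw [Pi.single_eq_of_ne (by exact fun h => hb h.symm)]
        simp
      · intro h
        exact absurd (Finset.mem_univ _) h
    · rw [Finset.mul_sum]
      refine Finset.sum_congr rfl fun e _ => ?_
      ring

private theorem t4_const {σ : Type*} (P : MvPolynomial σ ℚ)
    (h : ∀ e, MvPolynomial.pderiv e P = 0) : P = MvPolynomial.C (MvPolynomial.coeff 0 P) := by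
  classical
  ext m
  rw [MvPolynomial.coeff_C]
  split_ifs with hm
  · rw [← hm]
  · have hm' : m ≠ 0 := fun h' => hm h'.symm
    obtain ⟨i, hi⟩ := Finsupp.ne_iff.1 hm'
    have hi' : 1 ≤ m i := Nat.one_le_iff_ne_zero.2 (by simpa using hi)
    have h1 := MvPolynomial.coeff_pderiv (i := i) P (m - Finsupp.single i 1)
    rw [h i, MvPolynomial.coeff_zero] at h1
    have h2 : m - Finsupp.single i 1 + Finsupp.single i 1 = m := by
      ext j
      by_cases hj : j = i
      · subst hj
        simp
        omega
      · simp [Ne.symm hj]
    rw [h2] at h1
    have h3 := h1.symm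
    rcases mul_eq_zero.1 h3 with h4 | h4
    · exact h4
    · exfalso
      have : (((m - Finsupp.single i 1 : σ →₀ ℕ) i : ℕ) : ℚ) + 1 ≠ 0 := by positivity
      exact this (by exact_mod_cast h4)

private theorem t4_pderiv_gram {V : Type} [Fintype V] [DecidableEq V] {r : ℕ} (i : V) (k : Fin r)
    (e : Sym2 V) :
    MvPolynomial.pderiv (i, k) (gram (XG V r) e) =
      ∑ j, (if s(i, j) = e then (if i = j then 2 else 1) else 0) * (XG V r) j k := by
  induction e using Sym2.ind with
  | _ a b =>
  have h1 : MvPolynomial.pderiv (i, k) (gram (XG V r) s(a, b)) =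
      (if a = i then (XG V r) b k else 0) + (if b = i then (XG V r) a k else 0) := by
    simp only [gram, Sym2.lift_mk, XG, Matrix.of_apply, map_sum, Derivation.leibniz,
      MvPolynomial.pderiv_X, smul_eq_mul, Finset.sum_add_distrib]
    rw [add_comm]
    congr 1
    · rw [Finset.sum_eq_single k]
      · by_cases h : a = i
        · subst h; simp
        · rw [Pi.single_eq_of_ne (by
            intro h'; exact h (congrArg Prod.fst h'))]
          simp [h]
      · intro l _ hl
        rw [Pi.single_eq_of_ne (by
            intro h'; exact hl (congrArg Prod.snd h'))]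
        simp
      · intro h
        exact absurd (Finset.mem_univ _) h
    · rw [Finset.sum_eq_single k]
      · by_cases h : b = i
        · subst h; simp
        · rw [Pi.single_eq_of_ne (by
            intro h'; exact h (congrArg Prod.fst h'))]
          simp [h]
      · intro l _ hl
        rw [Pi.single_eq_of_ne (by
            intro h'; exact hl (congrArg Prod.snd h'))]
        simp
      · intro h
        exact absurd (Finset.mem_univ _) h
  rw [h1]
  by_cases hai : a = i
  · subst hai
    rw [Finset.sum_eq_single b]
    · by_cases hb : b = a
      · subst hb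
        simp
        ring
      · simp [hb, Ne.symm hb]
    · intro j _ hj
      have : s(a, j) ≠ s(a, b) := by
        intro h
        rw [Sym2.eq_iff] at h
        rcases h with h | h
        · exact hj h.2
        · exact hj (h.2.trans h.1)
      simp [this]
    · intro h
      exact absurd (Finset.mem_univ _) h
  · by_cases hbi : b = i
    · subst hbi
      rw [Finset.sum_eq_single a]
      · have : s(b, a) = s(a, b) := Sym2.eq_swap
        simp [this, hai, Ne.symm hai]
      · intro j _ hj
        have : s(b, j) ≠ s(a, b) := by
          intro h
          rw [Sym2.eq_iff] at h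
          rcases h with h | h
          · exact hai h.1.symm
          · exact hj h.2
        simp [this]
      · intro h
        exact absurd (Finset.mem_univ _) h
    · rw [Finset.sum_eq_zero]
      · simp [hai, hbi]
      · intro j _
        have : s(i, j) ≠ s(a, b) := by
          intro h
          rw [Sym2.eq_iff] at h
          rcases h with h | h
          · exact hai h.1.symm
          · exact hbi h.1.symm
        simp [this]

/-- T4 (Jacobian criterion; hint). Take a nonzero relation `P` of minimal total degree between the
polynomials `gram XG e`, `e ∈ Q`, and differentiate it with respect to the variable `(i,k)`: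
`∑_e (∂P/∂y_e)(gram) * ∂(gram e)/∂X_{ik} = 0`. So the symmetric matrix `K` with `K i j = (∂P/∂y_e)(gram)`,
`e = s(i,j) ∈ Q`, `i ≠ j`, `K i i = 2 (∂P/∂y_{s(i,i)})(gram)`, is a stress supported on `Q`, hence zero; by
minimality all `∂P/∂y_e = 0`, so `P` is constant (characteristic zero), so `P = 0`. -/
theorem gram_algInd {V : Type} [Fintype V] [DecidableEq V] {r : ℕ} (Q : Finset (Sym2 V))
    (h : Free (fun i j => s(i, j) ∈ Q) (XG V r)) :
    AlgebraicIndependent ℚ (fun e : Q => gram (XG V r) (e : Sym2 V)) := by
  classical
  set f : Q → MvPolynomial (V × Fin r) ℚ := fun e : Q => gram (XG V r) (e : Sym2 V) with hf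
  have key : ∀ P : MvPolynomial Q ℚ, MvPolynomial.aeval f P = 0 →
      ∀ e, MvPolynomial.aeval f (MvPolynomial.pderiv e P) = 0 := by
    intro P hP
    set K : Matrix V V (MvPolynomial (V × Fin r) ℚ) := Matrix.of (fun i j =>
      if hij : s(i, j) ∈ Q then (if i = j then 2 else 1) *
        MvPolynomial.aeval f (MvPolynomial.pderiv ⟨s(i, j), hij⟩ P) else 0) with hK
    have hK0 : K = 0 := by
      apply h
      refine ⟨⟨?_, ?_⟩, ?_⟩
      · refine Matrix.ext fun i j => ?_
        simp only [hK, Matrix.transpose_apply, Matrix.of_apply]
        have h1 : s(j, i) = s(i, j) := Sym2.eq_swap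
        by_cases hij : s(i, j) ∈ Q
        · have hji : s(j, i) ∈ Q := by rw [h1]; exact hij
          have h2 : (⟨s(j, i), hji⟩ : Q) = ⟨s(i, j), hij⟩ := Subtype.ext h1
          rw [dif_pos hij, dif_pos hji, h2]
          by_cases hx : i = j
          · simp [hx]
          · simp [hx, Ne.symm hx]
        · have hji : s(j, i) ∉ Q := by rw [h1]; exact hij
          rw [dif_neg hij, dif_neg hji]
      · intro i j hij
        simp only [hK, Matrix.of_apply]
        rw [dif_neg hij]
      · refine Matrix.ext fun i k => ?_
        have h1 := t4_chain f (i, k) P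
        rw [hP] at h1
        have h0 : MvPolynomial.pderiv (i, k) (0 : MvPolynomial (V × Fin r) ℚ) = 0 := map_zero _
        rw [h0] at h1
        rw [Matrix.zero_apply, Matrix.mul_apply]
        refine Eq.trans ?_ h1.symm
        have h2 : ∀ e : Q, MvPolynomial.aeval f (MvPolynomial.pderiv e P) *
            MvPolynomial.pderiv (i, k) (f e) = ∑ j, MvPolynomial.aeval f (MvPolynomial.pderiv e P) *
              ((if s(i, j) = (e : Sym2 V) then (if i = j then 2 else 1) else 0) *
                (XG V r) j k) := by
          intro e
          rw [← Finset.mul_sum, ← t4_pderiv_gram]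
        rw [Finset.sum_congr rfl fun e _ => h2 e, Finset.sum_comm]
        refine Finset.sum_congr rfl fun j _ => ?_
        by_cases hij : s(i, j) ∈ Q
        · rw [Finset.sum_eq_single (⟨s(i, j), hij⟩ : Q)]
          · simp only [hK, Matrix.of_apply]
            rw [dif_pos hij]
            simp only [if_true]
            ring
          · intro b _ hb
            have : s(i, j) ≠ (b : Sym2 V) := by
              intro h'
              exact hb (Subtype.ext h'.symm)
            simp [this]
          · intro h'
            exact absurd (Finset.mem_univ _) h'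
        · rw [Finset.sum_eq_zero]
          · simp only [hK, Matrix.of_apply]
            rw [dif_neg hij, zero_mul]
          · intro b _
            have : s(i, j) ≠ (b : Sym2 V) := by
              intro h'
              exact hij (h' ▸ b.2)
            simp [this]
    rintro ⟨e, he⟩
    induction e using Sym2.ind with
    | _ a b =>
    have h2 : K a b = 0 := by rw [hK0]; rfl
    simp only [hK, Matrix.of_apply] at h2
    rw [dif_pos he] at h2
    rcases mul_eq_zero.1 h2 with h3 | h3
    · exfalso
      split_ifs at h3 with hab
      · exact two_ne_zero h3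
      · exact one_ne_zero h3
    · exact h3
  have main : ∀ n : ℕ, ∀ P : MvPolynomial Q ℚ, (∀ m ∈ P.support, m.degree < n) →
      MvPolynomial.aeval f P = 0 → P = 0 := by
    intro n
    induction n with
    | zero =>
      intro P hm _
      rw [← MvPolynomial.support_eq_empty]
      exact Finset.eq_empty_of_forall_notMem fun m hmm => absurd (hm m hmm) (Nat.not_lt_zero _)
    | succ n ih =>
      intro P hm hP
      have h1 : ∀ e, MvPolynomial.pderiv e P = 0 := by
        intro e
        apply ih _ _ (key P hP e)
        intro m hmm
        rw [MvPolynomial.mem_support_iff, MvPolynomial.coeff_pderiv] at hmm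
        have h2 : MvPolynomial.coeff (m + Finsupp.single e 1) P ≠ 0 := by
          intro h0
          rw [h0, zero_mul] at hmm
          exact hmm rfl
        have h3 := hm _ (MvPolynomial.mem_support_iff.2 h2)
        rw [map_add, Finsupp.degree_single] at h3
        omega
      have h2 := t4_const P h1
      rw [h2, MvPolynomial.aeval_C] at hP
      have h3 : MvPolynomial.coeff 0 P = 0 := by
        have := (map_eq_zero_iff _ (MvPolynomial.C_injective (V × Fin r) ℚ)).1
          (by simpa [MvPolynomial.algebraMap_eq] using hP)
        exact this
      rw [h2, h3, map_zero]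
  rw [algebraicIndependent_iff]
  intro P hP
  refine main (P.totalDegree + 1) P ?_ hP
  intro m hm
  have := MvPolynomial.le_totalDegree hm
  rw [Nat.lt_succ_iff]
  rw [Finsupp.degree_eq_sum]
  rw [Finsupp.sum_fintype _ _ (fun _ => rfl)] at this
  exact this

/-- At an algebraically independent point. -/
theorem gram_algInd_at {V : Type} [Fintype V] [DecidableEq V] {r : ℕ} (Q : Finset (Sym2 V))
    (h : Free (fun i j => s(i, j) ∈ Q) (XG V r)) {Ω : Type} [Field Ω] [Algebra ℚ Ω]
    {X : Matrix V (Fin r) Ω} (hX : AlgInd X) :
    AlgebraicIndependent ℚ (fun e : Q => gram X (e : Sym2 V)) := by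
  have h1 := gram_algInd Q h
  have h2 := h1.map' (f := MvPolynomial.aeval (fun q : V × Fin r => X q.1 q.2)) hX
  have h3 : (fun e : Q => gram X (e : Sym2 V)) =
      (MvPolynomial.aeval (fun q : V × Fin r => X q.1 q.2)) ∘
        (fun e : Q => gram (XG V r) (e : Sym2 V)) := by
    funext e
    obtain ⟨e, he⟩ := e
    induction e using Sym2.ind with
    | _ a b => simp [gram, XG]
  rw [h3]
  exact h2

end Pool.Agent.Helper55.ML
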