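import Pool.Agent.Helper55.MLA.Defs

set_option autoImplicit false
open Finset Matrix Filter Topology

namespace Pool.Agent.Helper55.ML

/-- T5 (hint): `AlgebraicIndependent.iff_adjoin_image`, `AlgebraicIndependent.extendScalars`,
`AlgebraicIndependent.algebraicClosure`. -/
theorem vertex_algInd {V : Type} [Fintype V] [DecidableEq V] {r : ℕ} {Ω : Type} [Field Ω]
    [Algebra ℚ Ω] {X : Matrix V (Fin r) Ω} (hX : AlgInd X) (v : V) :
    AlgebraicIndependent (algebraicClosure
      (IntermediateField.adjoin ℚ {y : Ω | ∃ i k, i ≠ v ∧ y = X i k}) Ω) (fun k => X v k) := by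
  have hd : Disjoint ({q : V × Fin r | q.1 ≠ v}) ({q : V × Fin r | q.1 = v}) := by
    rw [Set.disjoint_left]
    intro q h1 h2
    exact h1 h2
  have h1 := AlgebraicIndependent.adjoin_of_disjoint hX hd
  have h2 := h1.comp (fun k : Fin r => (⟨(v, k), rfl⟩ : {q : V × Fin r | q.1 = v})) (by
    intro k l h
    simpa using h)
  have hs : ((fun q : V × Fin r => X q.1 q.2) '' {q : V × Fin r | q.1 ≠ v}) =
      {y : Ω | ∃ i k, i ≠ v ∧ y = X i k} := by
    ext y
    constructor
    · rintro ⟨⟨i, k⟩, hi, rfl⟩
      exact ⟨i, k, hi, rfl⟩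
    · rintro ⟨i, k, hi, rfl⟩
      exact ⟨(i, k), hi, rfl⟩
  rw [hs] at h2
  have h3 := (IntermediateField.algebraicIndependent_adjoin_iff).mpr h2
  exact AlgebraicIndependent.algebraicClosure h3

theorem lin_form {K Ω : Type} [Field K] [Field Ω] [Algebra K Ω] {r : ℕ} {x : Fin r → Ω}
    (hx : AlgebraicIndependent K x) (a : Fin r → K)
    (h : ∑ k, algebraMap K Ω (a k) * x k = 0) : a = 0 := by
  have hp : (∑ k, MvPolynomial.C (a k) * MvPolynomial.X k : MvPolynomial (Fin r) K) = 0 := by
    apply hx
    simp [map_sum, h]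
  funext m
  have := congrArg (MvPolynomial.coeff (Finsupp.single m 1)) hp
  simp only [MvPolynomial.coeff_sum, MvPolynomial.coeff_C_mul, MvPolynomial.coeff_X',
    MvPolynomial.coeff_zero] at this
  rw [Finset.sum_eq_single m] at this
  · simpa using this
  · intro k _ hk
    rw [if_neg, mul_zero]
    intro h
    exact hk (Finsupp.single_left_injective one_ne_zero h)
  · simp

theorem quad_form {K Ω : Type} [Field K] [Field Ω] [Algebra K Ω] {r : ℕ} {x : Fin r → Ω}
    (hx : AlgebraicIndependent K x) (M : Matrix (Fin r) (Fin r) K)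
    (h : ∑ k, ∑ l, algebraMap K Ω (M k l) * x k * x l = 0) : ∀ k l, M k l + M l k = 0 := by
  have hp : (∑ k, ∑ l, MvPolynomial.C (M k l) * MvPolynomial.X k * MvPolynomial.X l :
      MvPolynomial (Fin r) K) = 0 := by
    apply hx
    simp [map_sum, h]
  have key : ∀ y : Fin r → K, ∑ k, ∑ l, M k l * y k * y l = 0 := by
    intro y
    have := congrArg (MvPolynomial.eval y) hp
    simpa [map_sum] using this
  have hdiag : ∀ k, M k k = 0 := by
    intro k
    have := key (Pi.single k 1)
    rw [Finset.sum_eq_single k] at this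
    · rw [Finset.sum_eq_single k] at this
      · simpa using this
      · intro l _ hl
        simp [Pi.single_apply, hl]
      · simp
    · intro l _ hl
      simp [Pi.single_apply, hl]
    · simp
  intro k l
  by_cases hkl : k = l
  · subst hkl
    rw [hdiag, add_zero]
  have := key (Pi.single k 1 + Pi.single l 1)
  simp only [Pi.add_apply, mul_add, add_mul, Finset.sum_add_distrib] at this
  have e : ∀ p q : Fin r, ∑ k', ∑ l', M k' l' * (Pi.single p (1 : K) : Fin r → K) k' *
      (Pi.single q (1 : K) : Fin r → K) l' = M p q := by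
    intro p q
    rw [Finset.sum_eq_single p]
    · rw [Finset.sum_eq_single q]
      · simp
      · intro l _ hl
        simp [Pi.single_apply, hl]
      · simp
    · intro l _ hl
      simp [Pi.single_apply, hl]
    · simp
  rw [e, e, e, e, hdiag, hdiag] at this
  linear_combination this

end Pool.Agent.Helper55.ML
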