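import Pool.Agent.Helper55.MLA.T5

set_option autoImplicit false
open Finset Matrix Filter Topology

namespace Pool.Agent.Helper55.ML

/-- T6 (hint): see A4 in `/team-store/ML_proof.md`. With `X_f = X.submatrix f id` invertible,
`x_v = T u` (`T = X_f⁻¹ W_f` over `K`); `T` is invertible, because `a T = 0` gives `a·x_v = 0`
(`lin_form`). So `u = T⁻¹ x_v`, and `h1` is a linear form in `x_v`: `W j = Tᵀ X j`; `h2` is a quadratic
form in `x_v`: `S = Tᵀ T` (`S` symmetric). Then `W S⁻¹ Wᵀ = X Xᵀ`. -/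
theorem step_lin {K Ω J : Type} [Field K] [CharZero K] [Field Ω] [Algebra K Ω] [Fintype J]
    {r : ℕ} {xv : Fin r → Ω} (hx : AlgebraicIndependent K xv) (X W : Matrix J (Fin r) K)
    (hX : ∃ f : Fin r → J, IsUnit (X.submatrix f id).det)
    (S : Matrix (Fin r) (Fin r) K) (hS : S.IsSymm) (hSu : IsUnit S.det) (u : Fin r → Ω)
    (h1 : ∀ j, ∑ k, u k * algebraMap K Ω (W j k) = ∑ k, xv k * algebraMap K Ω (X j k))
    (h2 : ∑ k, ∑ l, u k * algebraMap K Ω (S k l) * u l = ∑ k, xv k * xv k) :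
    W * S⁻¹ * Wᵀ = X * Xᵀ := by
  obtain ⟨f, hf⟩ := hX
  set φ : K →+* Ω := algebraMap K Ω with hφ
  have H1 : (W.map φ) *ᵥ u = (X.map φ) *ᵥ xv := by
    funext j
    have := h1 j
    simp only [Matrix.mulVec, dotProduct, Matrix.map_apply]
    calc ∑ k, φ (W j k) * u k = ∑ k, u k * φ (W j k) := Finset.sum_congr rfl fun k _ => mul_comm _ _
      _ = ∑ k, xv k * φ (X j k) := this
      _ = ∑ k, φ (X j k) * xv k := Finset.sum_congr rfl fun k _ => mul_comm _ _
  set Xf : Matrix (Fin r) (Fin r) K := X.submatrix f id with hXf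
  set Wf : Matrix (Fin r) (Fin r) K := W.submatrix f id with hWf
  have H1f : (Wf.map φ) *ᵥ u = (Xf.map φ) *ᵥ xv := by
    funext a
    exact congrFun H1 (f a)
  set T : Matrix (Fin r) (Fin r) K := Xf⁻¹ * Wf with hT
  have hTu : (T.map φ) *ᵥ u = xv := by
    rw [hT, Matrix.map_mul, ← Matrix.mulVec_mulVec, H1f, Matrix.mulVec_mulVec, ← Matrix.map_mul,
      Matrix.nonsing_inv_mul _ hf, Matrix.map_one _ (map_zero φ) (map_one φ), Matrix.one_mulVec]
  have hTdet : IsUnit T.det := by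
    rw [isUnit_iff_ne_zero]
    intro h0
    obtain ⟨a, ha, haT⟩ := (Matrix.exists_vecMul_eq_zero_iff (M := T)).2 h0
    apply ha
    refine lin_form hx a ?_
    have h3 : (fun k => φ (a k)) ᵥ* (T.map φ) = 0 := by
      funext l
      have := congrFun haT l
      simp only [Matrix.vecMul, dotProduct, Matrix.map_apply, Pi.zero_apply] at this ⊢
      rw [← map_zero φ, ← this, map_sum]
      exact Finset.sum_congr rfl fun k _ => by rw [map_mul]
    have h4 : (fun k => φ (a k)) ⬝ᵥ xv = 0 := by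
      rw [← hTu, Matrix.dotProduct_mulVec, h3, zero_dotProduct]
    exact h4
  have hu : u = (T⁻¹.map φ) *ᵥ xv := by
    rw [← hTu, Matrix.mulVec_mulVec, ← Matrix.map_mul, Matrix.nonsing_inv_mul _ hTdet,
      Matrix.map_one _ (map_zero φ) (map_one φ), Matrix.one_mulVec]
  -- the linear forms
  have hW : W * T⁻¹ = X := by
    have h5 : ∀ j, (fun k => (W * T⁻¹) j k - X j k) = 0 := by
      intro j
      refine lin_form hx _ ?_
      have h6 : (((W * T⁻¹).map φ) *ᵥ xv) j = ((X.map φ) *ᵥ xv) j := by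
        rw [Matrix.map_mul, ← Matrix.mulVec_mulVec, ← hu, H1]
      simp only [Matrix.mulVec, dotProduct, Matrix.map_apply] at h6
      change ∑ k, φ ((W * T⁻¹) j k - X j k) * xv k = 0
      simp only [map_sub, sub_mul, Finset.sum_sub_distrib]
      rw [h6, sub_self]
    ext j k
    have := congrFun (h5 j) k
    simpa [sub_eq_zero] using this
  have hWT : W = X * T := by
    rw [← hW, Matrix.mul_assoc, Matrix.nonsing_inv_mul _ hTdet, Matrix.mul_one]
  -- the quadratic form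
  set M : Matrix (Fin r) (Fin r) K := (T⁻¹)ᵀ * S * T⁻¹ - 1 with hM
  have hMsymm : Mᵀ = M := by
    rw [hM, Matrix.transpose_sub, Matrix.transpose_mul, Matrix.transpose_mul,
      Matrix.transpose_transpose, hS.eq, Matrix.transpose_one, Matrix.mul_assoc]
  have hMq : ∑ k, ∑ l, φ (M k l) * xv k * xv l = 0 := by
    have e1 : ∑ k, ∑ l, φ (M k l) * xv k * xv l = xv ⬝ᵥ ((M.map φ) *ᵥ xv) := by
      simp only [dotProduct, Matrix.mulVec, Matrix.map_apply, Finset.mul_sum]
      exact Finset.sum_congr rfl fun k _ => Finset.sum_congr rfl fun l _ => by ring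
    have e2 : u ⬝ᵥ ((S.map φ) *ᵥ u) = xv ⬝ᵥ xv := by
      have : u ⬝ᵥ ((S.map φ) *ᵥ u) = ∑ k, ∑ l, u k * φ (S k l) * u l := by
        simp only [dotProduct, Matrix.mulVec, Matrix.map_apply, Finset.mul_sum]
        exact Finset.sum_congr rfl fun k _ => Finset.sum_congr rfl fun l _ => by ring
      rw [this, h2]
      rfl
    have e3 : xv ⬝ᵥ ((((T⁻¹)ᵀ * S * T⁻¹).map φ) *ᵥ xv) = u ⬝ᵥ ((S.map φ) *ᵥ u) := by
      rw [Matrix.map_mul, Matrix.map_mul, Matrix.mul_assoc, ← Matrix.mulVec_mulVec,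
        ← Matrix.mulVec_mulVec, ← hu, Matrix.transpose_map, Matrix.dotProduct_mulVec,
        Matrix.vecMul_transpose, ← hu]
    rw [e1]
    have e4 : M.map φ = ((T⁻¹)ᵀ * S * T⁻¹).map φ - 1 := by
      rw [hM]
      ext a b
      simp only [Matrix.map_apply, Matrix.sub_apply, map_sub]
      congr 1
      by_cases hab : a = b
      · subst hab; simp
      · simp [Matrix.one_apply_ne hab]
    rw [e4, Matrix.sub_mulVec, dotProduct_sub, e3, e2, Matrix.one_mulVec, sub_self]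
  have hM0 : M = 0 := by
    have h7 := quad_form hx M hMq
    ext k l
    have h8 := h7 k l
    have h9 : M l k = M k l := congrFun (congrFun hMsymm k) l
    rw [h9] at h8
    have h10 : (2 : K) * M k l = 0 := by linear_combination h8
    simpa using h10
  have hST : S = Tᵀ * T := by
    have h11 : (T⁻¹)ᵀ * S * T⁻¹ = 1 := sub_eq_zero.1 (hM ▸ hM0)
    have h12 : Tᵀ * ((T⁻¹)ᵀ * S * T⁻¹) * T = Tᵀ * 1 * T := by rw [h11]
    have h13 : Tᵀ * (T⁻¹)ᵀ = 1 := by
      rw [← Matrix.transpose_mul, Matrix.nonsing_inv_mul _ hTdet, Matrix.transpose_one]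
    have h14 : Tᵀ * ((T⁻¹)ᵀ * S * T⁻¹) * T = (Tᵀ * (T⁻¹)ᵀ) * S * (T⁻¹ * T) := by
      simp only [Matrix.mul_assoc]
    rw [h14, h13, Matrix.nonsing_inv_mul _ hTdet, Matrix.one_mul, Matrix.mul_one,
      Matrix.mul_one] at h12
    exact h12
  have hTtdet : IsUnit (Tᵀ).det := by rwa [Matrix.det_transpose]
  rw [hWT, hST, Matrix.mul_inv_rev Tᵀ T, Matrix.transpose_mul X T]
  calc X * T * (T⁻¹ * (Tᵀ)⁻¹) * (Tᵀ * Xᵀ)
      = X * (T * T⁻¹) * ((Tᵀ)⁻¹ * Tᵀ) * Xᵀ := by simp only [Matrix.mul_assoc]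
    _ = X * Xᵀ := by
      rw [Matrix.mul_nonsing_inv _ hTdet, Matrix.nonsing_inv_mul _ hTtdet, Matrix.mul_one,
        Matrix.mul_one]

end Pool.Agent.Helper55.ML
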