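import Pool.Agent.Helper55.MLA.T2
import Pool.Agent.Helper55.MLA.T3
import Pool.Agent.Helper55.MLA.T4
import Pool.Agent.Helper55.MLA.T6

set_option autoImplicit false
open Finset Matrix Filter Topology

namespace Pool.Agent.Helper55.ML

/-- A matrix of rank at most `|ι|` with a nonsingular `ι × ι` minor (Schur complement zero). -/
private theorem t7_schur {F V ι : Type*} [Field F] [Fintype V] [DecidableEq V] [Fintype ι]
    [DecidableEq ι] (M : Matrix V V F) (g : ι → V) (hdet : IsUnit (M.submatrix g g).det)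
    (hrank : M.rank ≤ Fintype.card ι) (i j : V) :
    M i j = ∑ a, ∑ b, M i (g a) * (M.submatrix g g)⁻¹ a b * M (g b) j := by
  have hli : LinearIndependent F (fun a : ι => M (g a)) := by
    have h1 : LinearIndependent F (fun a : ι => (M.submatrix g g) a) :=
      Matrix.linearIndependent_rows_of_det_ne_zero hdet.ne_zero
    exact LinearIndependent.of_comp (LinearMap.funLeft F F g) h1
  have hle : Submodule.span F (Set.range (fun a : ι => M (g a))) ≤
      Submodule.span F (Set.range M.row) := by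
    refine Submodule.span_mono ?_
    rintro _ ⟨a, rfl⟩
    exact ⟨g a, rfl⟩
  have heq := Submodule.eq_of_le_of_finrank_le hle (by
    rw [finrank_span_eq_card hli, ← Matrix.rank_eq_finrank_span_row]
    exact hrank)
  have hmem : M i ∈ Submodule.span F (Set.range (fun a : ι => M (g a))) := by
    rw [heq]
    exact Submodule.subset_span ⟨i, rfl⟩
  obtain ⟨c, hc⟩ := (Submodule.mem_span_range_iff_exists_fun F).1 hmem
  have hc' : ∀ j, M i j = ∑ a, c a * M (g a) j := by
    intro j
    rw [← hc]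
    simp [Finset.sum_apply]
  have hcS : ∀ b, M i (g b) = ∑ a, c a * (M.submatrix g g) a b := fun b => hc' (g b)
  have hcc : ∀ b, ∑ a, M i (g a) * (M.submatrix g g)⁻¹ a b = c b := by
    intro b
    have h2 : (fun a => M i (g a)) = Matrix.vecMul c (M.submatrix g g) := by
      funext a
      rw [hcS a]
      rfl
    have h3 : Matrix.vecMul (fun a => M i (g a)) (M.submatrix g g)⁻¹ = c := by
      rw [h2, Matrix.vecMul_vecMul, Matrix.mul_nonsing_inv _ hdet, Matrix.vecMul_one]
    exact congrFun h3 b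
  rw [Finset.sum_comm, hc' j]
  refine Finset.sum_congr rfl (fun b _ => ?_)
  rw [← hcc b, Finset.sum_mul]

private theorem t7_det {V : Type} {r : ℕ} {Ω : Type} [Field Ω]
    [Algebra ℚ Ω] {X : Matrix V (Fin r) Ω} (hX : AlgInd X) {f : Fin r → V}
    (hf : Function.Injective f) : (X.submatrix f id).det ≠ 0 := by
  have h1 : AlgebraicIndependent ℚ (fun p : Fin r × Fin r => (X.submatrix f id) p.1 p.2) := by
    have hinj : Function.Injective (fun p : Fin r × Fin r => (f p.1, p.2)) := by
      rintro ⟨a, b⟩ ⟨a', b'⟩ h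
      simp only [Prod.mk.injEq] at h
      rw [hf h.1, h.2]
    exact AlgebraicIndependent.comp hX _ hinj
  have h2 := Matrix.mvPolynomialX_mapMatrix_aeval ℚ (X.submatrix f id)
  rw [← h2, ← AlgHom.map_det]
  intro h3
  have h4 : Function.Injective
      (MvPolynomial.aeval (R := ℚ) fun p : Fin r × Fin r => (X.submatrix f id) p.1 p.2) := h1
  exact Matrix.det_mvPolynomialX_ne_zero (Fin r) ℚ (h4 (by rw [h3, map_zero]))

private theorem t7_arith (n r ρ c s : ℕ) (hρr : ρ ≤ r) (hrn : r ≤ n)
    (h1 : c + r * (r - 1) / 2 = r * n) (h2 : s + ρ * (ρ - 1) / 2 ≤ ρ * n) (h3 : c ≤ s) :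
    ρ = r ∧ s ≤ c := by
  have key : ∀ m, ρ + m = r → ρ * n + r * (r - 1) / 2 + m ≤ r * n + ρ * (ρ - 1) / 2 := by
    intro m hm
    have e1 : r * (r - 1) / 2 = ∑ i ∈ range r, i := by rw [Finset.sum_range_id]
    have e2 : ρ * (ρ - 1) / 2 = ∑ i ∈ range ρ, i := by rw [Finset.sum_range_id]
    rw [e1, e2]
    clear e1 e2 h1 h2 h3
    induction m generalizing r with
    | zero =>
      have : ρ = r := by omega
      subst this
      omega
    | succ m ih =>
      obtain ⟨r', rfl⟩ : ∃ r', r = r' + 1 := ⟨r - 1, by omega⟩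
      have h4 := ih r' (by omega) (by omega) (by omega)
      rw [Finset.sum_range_succ]
      have h5 : r' + 1 ≤ n := hrn
      nlinarith
  have h4 := key (r - ρ) (by omega)
  have h5 : ρ = r := by omega
  subst h5
  exact ⟨rfl, by omega⟩

/-- T7 (hint): A4 of `/team-store/ML_proof.md`. `M' = M` restricted to `V \ {v}` (as a matrix on the
subtype). Its entries on `Q` are the algebraically independent elements `gram X e`
(`gram_algInd_at`). `symm_trdeg` and `alg_of_card` over `ℚ`: `|Q| ≤ ρ(n-1) - ρ(ρ-1)/2` with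
`ρ = rank M' ≤ r ≤ n - 1`, so `ρ = r` and all entries of `M'` are algebraic over
`adjoin ℚ (range (gram X e))`, hence they lie in `L` = algebraic closure (in `Ω`) of
`adjoin ℚ {X i k : i ≠ v}`. `symm_structure` for `M'`: `I` with `r` elements. As `rank M ≤ r`, the
same formula holds for the row `v` of `M`: `M v j = ∑ u_a M a j`, `u = M_{vI} M_{II}⁻¹`, and
`M v v = u M_{II} uᵀ`. Apply `step_lin` over `K = L` with `J = N`, `W j = M_{I j}`, `S = M_{II}` (index
types reindexed to `Fin r`), `X j = x_j`; any `r` rows of `X` form an invertible matrix. -/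
theorem step_T {V : Type} [Fintype V] [DecidableEq V] {r : ℕ} {Ω : Type} [Field Ω]
    [Algebra ℚ Ω] {X : Matrix V (Fin r) Ω} (hX : AlgInd X) {M : Matrix V V Ω} (hM : M.IsSymm)
    (hrank : M.rank ≤ r) {v : V} {Q : Finset (Sym2 V)} (hQv : ∀ e ∈ Q, v ∉ e)
    (hQc : Q.card + r * (r - 1) / 2 = r * (Fintype.card V - 1))
    (hQf : Free (fun i j => s(i, j) ∈ Q) (XG V r))
    (hMQ : ∀ i j, s(i, j) ∈ Q → M i j = ∑ k, X i k * X j k) {N : Finset V} (hN : r ≤ N.card)
    (hNv : ∀ u ∈ N, u ≠ v ∧ M v u = ∑ k, X v k * X u k)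
    (hvv : M v v = ∑ k, X v k * X v k) :
    ∀ i ∈ N, ∀ j ∈ N, M i j = ∑ k, X i k * X j k := by
  classical
  -- the restricted matrix
  set M' : Matrix {i : V // i ≠ v} {i : V // i ≠ v} Ω :=
    M.submatrix Subtype.val Subtype.val with hM'
  have hM's : M'.IsSymm := by
    ext i j
    exact hM.apply _ _
  have hMr : M'.rank ≤ r := (Matrix.rank_submatrix_le M _ _).trans hrank
  have hcard : Fintype.card {i : V // i ≠ v} = Fintype.card V - 1 := by
    have h := Fintype.card_subtype_compl (fun i : V => i = v)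
    rw [Fintype.card_subtype_eq] at h
    exact h
  have hrn : r ≤ Fintype.card V - 1 := by
    have h1 : N ⊆ Finset.univ.erase v := by
      intro u hu
      exact Finset.mem_erase.2 ⟨(hNv u hu).1, Finset.mem_univ u⟩
    have h2 := Finset.card_le_card h1
    rw [Finset.card_erase_of_mem (Finset.mem_univ v), Finset.card_univ] at h2
    omega
  obtain ⟨S0, hS0c, hS0m, hS0⟩ := symm_trdeg (k := ℚ) M' hM's
  rw [hcard] at hS0c
  -- the fields
  set K0 : IntermediateField ℚ Ω :=
    IntermediateField.adjoin ℚ {y : Ω | ∃ i k, i ≠ v ∧ y = X i k} with hK0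
  have hXK0 : ∀ i k, i ≠ v → X i k ∈ K0 := fun i k hi =>
    IntermediateField.subset_adjoin ℚ _ ⟨i, k, hi, rfl⟩
  set L := algebraicClosure K0 Ω with hL
  have hK0L : ∀ y, y ∈ K0 → y ∈ L := by
    intro y hy
    rw [hL, mem_algebraicClosure_iff]
    exact isAlgebraic_algebraMap (⟨y, hy⟩ : K0)
  have hgram : ∀ e ∈ Q, ∃ i j, i ≠ v ∧ j ≠ v ∧ e = s(i, j) ∧ gram X e = ∑ k, X i k * X j k := by
    intro e he
    induction e using Sym2.inductionOn with
    | hf i j =>
      refine ⟨i, j, ?_, ?_, rfl, rfl⟩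
      · rintro rfl
        exact hQv _ he (Sym2.mem_mk_left _ _)
      · rintro rfl
        exact hQv _ he (Sym2.mem_mk_right _ _)
  have hq := gram_algInd_at Q hQf hX
  have hqmem : ∀ e : Q, gram X (e : Sym2 V) ∈ IntermediateField.adjoin ℚ (S0 : Set Ω) := by
    intro e
    obtain ⟨i, j, hi, hj, he, hg⟩ := hgram e e.2
    rw [hg, ← hMQ i j (he ▸ e.2)]
    exact hS0 ⟨i, hi⟩ ⟨j, hj⟩
  obtain ⟨hcl, halg⟩ := alg_of_card S0 (fun e : Q => gram X (e : Sym2 V)) hq hqmem
  rw [Fintype.card_coe] at hcl halg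
  obtain ⟨hρ, hsc⟩ := t7_arith _ _ _ _ _ hMr hrn hQc hS0c hcl
  have hML : ∀ i j, i ≠ v → j ≠ v → M i j ∈ L := by
    intro i j hi hj
    rw [hL, mem_algebraicClosure_iff]
    have h1 := halg hsc (M i j) (hS0 ⟨i, hi⟩ ⟨j, hj⟩)
    have hle : IntermediateField.adjoin ℚ (Set.range fun e : Q => gram X (e : Sym2 V)) ≤ K0 := by
      rw [IntermediateField.adjoin_le_iff]
      rintro _ ⟨e, rfl⟩
      obtain ⟨a, b, ha, hb, -, hg⟩ := hgram e e.2
      show gram X (e : Sym2 V) ∈ K0
      rw [hg]
      exact sum_mem (fun k _ => mul_mem (hXK0 a k ha) (hXK0 b k hb))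
    exact IsAlgebraic.tower_top_of_subalgebra_le
      (A := (IntermediateField.adjoin ℚ (Set.range fun e : Q => gram X (e : Sym2 V))).toSubalgebra)
      (B := K0.toSubalgebra) hle h1
  -- the nonsingular principal minor
  obtain ⟨I, hIc, hIu, -⟩ := symm_structure M' hM's
  rw [hρ] at hIc
  have eI : Fin r ≃ I := (Fintype.equivFinOfCardEq (by rw [Fintype.card_coe]; exact hIc)).symm
  set g : Fin r → V := fun k => ((eI k : {i : V // i ≠ v}) : V) with hg
  have hgv : ∀ k, g k ≠ v := fun k => ((eI k : {i : V // i ≠ v})).2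
  have hSu : IsUnit (M.submatrix g g).det := by
    have h1 : M.submatrix g g = ((M'.submatrix (Subtype.val : I → {i : V // i ≠ v})
        (Subtype.val : I → {i : V // i ≠ v})).submatrix eI eI) := rfl
    rw [h1, Matrix.det_submatrix_equiv_self]
    exact hIu
  have hform := t7_schur M g hSu (by rw [Fintype.card_fin]; exact hrank)
  -- objects over L
  let XN : Matrix N (Fin r) L := fun j k => ⟨X j k, hK0L _ (hXK0 j k (hNv j j.2).1)⟩
  let WN : Matrix N (Fin r) L := fun j k => ⟨M j (g k), hML j (g k) (hNv j j.2).1 (hgv k)⟩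
  let SN : Matrix (Fin r) (Fin r) L := fun k l => ⟨M (g k) (g l), hML _ _ (hgv k) (hgv l)⟩
  have hinjL : Function.Injective (algebraMap L Ω) := (algebraMap L Ω).injective
  have hSmap : (algebraMap L Ω).mapMatrix SN = M.submatrix g g := rfl
  have hSNs : SN.IsSymm := by
    ext k l
    exact hM.apply _ _
  have hSNu : IsUnit SN.det := by
    rw [isUnit_iff_ne_zero]
    intro h
    apply hSu.ne_zero
    rw [← hSmap, ← RingHom.map_det, h, map_zero]
  have hSinv : ∀ a b, algebraMap L Ω (SN⁻¹ a b) = (M.submatrix g g)⁻¹ a b := by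
    have h1 : (M.submatrix g g) * (algebraMap L Ω).mapMatrix SN⁻¹ = 1 := by
      rw [← hSmap, ← map_mul, Matrix.mul_nonsing_inv _ hSNu, map_one]
    have h2 := Matrix.inv_eq_right_inv h1
    intro a b
    rw [h2]
    rfl
  have hXf : ∃ f : Fin r → N, IsUnit (XN.submatrix f id).det := by
    have hcN : Fintype.card (Fin r) ≤ Fintype.card N := by
      rw [Fintype.card_fin, Fintype.card_coe]; exact hN
    obtain ⟨f⟩ := Function.Embedding.nonempty_of_card_le hcN
    refine ⟨f, ?_⟩
    rw [isUnit_iff_ne_zero]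
    intro h
    have hinj : Function.Injective (fun a => ((f a : N) : V)) :=
      Subtype.val_injective.comp f.injective
    apply t7_det hX hinj
    have h1 : X.submatrix (fun a => ((f a : N) : V)) id =
      (algebraMap L Ω).mapMatrix (XN.submatrix f id) := rfl
    rw [h1, ← RingHom.map_det, h, map_zero]
  -- the vector u
  set u : Fin r → Ω := fun b => ∑ a, M v (g a) * (M.submatrix g g)⁻¹ a b with hu
  have hrow : ∀ j, M v j = ∑ b, u b * M (g b) j := by
    intro j
    rw [hform v j, Finset.sum_comm]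
    refine Finset.sum_congr rfl (fun b _ => ?_)
    rw [hu, Finset.sum_mul]
  have h1 : ∀ j, ∑ k, u k * algebraMap L Ω (WN j k) =
      ∑ k, X v k * algebraMap L Ω (XN j k) := by
    intro j
    have e1 : ∀ k, algebraMap L Ω (WN j k) = M (g k) j := fun k => hM.apply _ _
    have e2 : ∀ k, algebraMap L Ω (XN j k) = X j k := fun k => rfl
    simp only [e1, e2]
    rw [← hrow, (hNv j j.2).2]
  have h2 : ∑ k, ∑ l, u k * algebraMap L Ω (SN k l) * u l = ∑ k, X v k * X v k := by
    have e1 : ∀ k l, algebraMap L Ω (SN k l) = M (g k) (g l) := fun k l => rfl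
    simp only [e1]
    rw [← hvv, hrow v, Finset.sum_comm]
    refine Finset.sum_congr rfl (fun l _ => ?_)
    rw [← Finset.sum_mul, ← hrow (g l), mul_comm, hM.apply]
  have : CharZero L := algebraRat.charZero L
  have hfin := step_lin (vertex_algInd hX v) XN WN hXf SN hSNs hSNu u h1 h2
  intro i hi j hj
  have h3 := congrArg (algebraMap L Ω) (congrFun (congrFun hfin ⟨i, hi⟩) ⟨j, hj⟩)
  rw [Matrix.mul_apply, Matrix.mul_apply, map_sum, map_sum] at h3
  have e3 : ∀ x : Fin r, algebraMap L Ω (XN ⟨i, hi⟩ x * XNᵀ x ⟨j, hj⟩) = X i x * X j x := by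
    intro x
    rw [map_mul]
    rfl
  rw [Finset.sum_congr rfl (fun x _ => e3 x)] at h3
  rw [← h3, hform i j, Finset.sum_comm]
  refine Finset.sum_congr rfl (fun b _ => ?_)
  rw [map_mul, Matrix.mul_apply, map_sum, Finset.sum_mul]
  refine Finset.sum_congr rfl (fun a _ => ?_)
  rw [map_mul, hSinv]
  have e4 : algebraMap L Ω (WN ⟨i, hi⟩ a) = M i (g a) := rfl
  have e5 : algebraMap L Ω (WNᵀ b ⟨j, hj⟩) = M (g b) j := hM.apply _ _
  rw [e4, e5]

end Pool.Agent.Helper55.ML
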