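import Pool.Agent.Helper55.MLA.G3

set_option autoImplicit false
open Finset Matrix Filter Topology

namespace Pool.Agent.Helper55.ML

/-- real spectral theorem in coordinates -/
theorem v1_spectral {V : Type} [Fintype V] [DecidableEq V] (K0 : Matrix V V ℝ)
    (hK : K0.IsSymm) : ∃ (U : V → V → ℝ) (ev : V → ℝ), (∀ v w, ∑ i, U i v * U i w =
      if v = w then 1 else 0) ∧ (∀ i j, K0 i j = ∑ v, U i v * U j v * ev v) ∧
      K0.rank = Fintype.card {v // ev v ≠ 0} := by
  have hA : K0.IsHermitian := by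
    rw [Matrix.IsHermitian, Matrix.conjTranspose_eq_transpose_of_trivial]
    exact hK
  refine ⟨fun i v => (hA.eigenvectorUnitary : Matrix V V ℝ) i v, hA.eigenvalues, fun v w => ?_, fun i j => ?_,
    hA.rank_eq_card_non_zero_eigs⟩
  · have h1 : Star.star (hA.eigenvectorUnitary : Matrix V V ℝ) *
        (hA.eigenvectorUnitary : Matrix V V ℝ) = 1 :=
      Unitary.coe_star_mul_self hA.eigenvectorUnitary
    have h2 := congrFun (congrFun h1 v) w
    rw [Matrix.mul_apply, Matrix.one_apply] at h2
    rw [← h2]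
    refine Finset.sum_congr rfl fun i _ => ?_
    rw [Matrix.star_apply]
    rfl
  · have h1 := hA.spectral_theorem
    rw [Unitary.conjStarAlgAut_apply] at h1
    have h2 := congrFun (congrFun h1 i) j
    refine h2.trans ?_
    rw [Matrix.mul_apply]
    refine Finset.sum_congr rfl fun v _ => ?_
    rw [Matrix.mul_diagonal]
    change _ * _ * (Star.star (hA.eigenvectorUnitary : Matrix V V ℝ)) v j = _
    rw [Matrix.star_apply]
    change (hA.eigenvectorUnitary : Matrix V V ℝ) i v * hA.eigenvalues v *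
      (hA.eigenvectorUnitary : Matrix V V ℝ) j v = _
    ring

/-- V1 (complex factorisation; hint): real spectral theorem or `symm_structure` and diagonalisation over
`ℂ`; `W` has `D` independent columns. -/
theorem exists_complex_factor {V : Type} [Fintype V] [DecidableEq V] (K0 : Matrix V V ℝ)
    (hK : K0.IsSymm) : ∃ W : Matrix V (Fin K0.rank) ℂ,
      W * Wᵀ = K0.map Complex.ofReal ∧
      ∀ a : Fin K0.rank → ℂ, W.mulVec a = 0 → a = 0 := by
  obtain ⟨U, ev, hU, hUK, hrank⟩ := v1_spectral K0 hK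
  have hcard : Fintype.card (Fin K0.rank) = Fintype.card {v // ev v ≠ 0} := by
    rw [Fintype.card_fin, hrank]
  let e : Fin K0.rank ≃ {v // ev v ≠ 0} := Fintype.equivOfCardEq hcard
  have hs : ∀ x : ℝ, ∃ z : ℂ, z ^ 2 = (x : ℂ) := fun x =>
    IsAlgClosed.exists_pow_nat_eq (x : ℂ) two_pos
  choose q hq using hs
  refine ⟨Matrix.of fun i a => (U i (e a) : ℂ) * q (ev (e a)), ?_, fun a ha => ?_⟩
  · ext i j
    rw [Matrix.mul_apply, Matrix.map_apply, hUK i j]
    have h1 : ∀ a : Fin K0.rank, (Matrix.of fun i a => (U i (e a) : ℂ) * q (ev (e a))) i a *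
        (Matrix.of fun i a => (U i (e a) : ℂ) * q (ev (e a)))ᵀ a j =
        (fun v : {v // ev v ≠ 0} => (U i v : ℂ) * U j v * ev v) (e a) := by
      intro a
      simp only [Matrix.of_apply, Matrix.transpose_apply]
      rw [← hq (ev (e a))]
      ring
    have h2 : ∑ v : {v // ev v ≠ 0}, (U i v : ℂ) * U j v * ev v =
        ∑ v ∈ Finset.univ.filter (fun v => ev v ≠ 0), (U i v : ℂ) * U j v * ev v :=
      (Finset.sum_subtype _ (by simp) (fun v => (U i v : ℂ) * U j v * ev v)).symm
    have h3 : ∑ v ∈ Finset.univ.filter (fun v => ev v ≠ 0), (U i v : ℂ) * U j v * ev v =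
        ∑ v, (U i v : ℂ) * U j v * ev v := by
      refine Finset.sum_filter_of_ne fun v _ h h' => h ?_
      rw [h', Complex.ofReal_zero, mul_zero]
    rw [Finset.sum_congr rfl fun a _ => h1 a,
      Equiv.sum_comp e (fun v : {v // ev v ≠ 0} => (U i v : ℂ) * U j v * ev v), h2, h3]
    push_cast
    rfl
  · funext b
    have h1 : ∀ i, ∑ b, (U i (e b) : ℂ) * q (ev (e b)) * a b = 0 := fun i => by
      have := congrFun ha i
      rw [Matrix.mulVec, dotProduct] at this
      simpa only [Matrix.of_apply, Pi.zero_apply] using this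
    have h2 : ∑ i, (U i (e b) : ℂ) * ∑ c, (U i (e c) : ℂ) * q (ev (e c)) * a c = 0 :=
      Finset.sum_eq_zero fun i _ => by rw [h1 i, mul_zero]
    have h3 : ∑ i, (U i (e b) : ℂ) * ∑ c, (U i (e c) : ℂ) * q (ev (e c)) * a c =
        ∑ c, (if b = c then 1 else 0) * (q (ev (e c)) * a c) := by
      have h9 : ∀ i, (U i (e b) : ℂ) * ∑ c, (U i (e c) : ℂ) * q (ev (e c)) * a c =
          ∑ c, (U i (e b) : ℂ) * ((U i (e c) : ℂ) * q (ev (e c)) * a c) := fun i =>
        Finset.mul_sum _ _ _
      rw [Finset.sum_congr rfl fun i _ => h9 i, Finset.sum_comm]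
      refine Finset.sum_congr rfl fun c _ => ?_
      have h4 : ∑ i, (U i (e b) : ℂ) * (U i (e c) : ℂ) = if b = c then 1 else 0 := by
        have h5 : ((∑ i, U i (e b) * U i (e c) : ℝ) : ℂ) =
            ((if (e b : V) = e c then 1 else 0 : ℝ) : ℂ) := by rw [hU]
        push_cast at h5
        rw [h5]
        by_cases hbc : b = c
        · rw [if_pos hbc, if_pos (by rw [hbc]), Complex.ofReal_one]
        · rw [if_neg hbc, if_neg fun h => hbc (e.injective (Subtype.ext h)), Complex.ofReal_zero]
      rw [← h4, Finset.sum_mul]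
      refine Finset.sum_congr rfl fun i _ => ?_
      ring
    rw [h3] at h2
    simp only [ite_mul, one_mul, zero_mul, Finset.sum_ite_eq, Finset.mem_univ, if_true] at h2
    have h6 : q (ev (e b)) ≠ 0 := by
      intro h
      have h7 := hq (ev (e b))
      rw [h] at h7
      have h8 : (ev (e b) : ℂ) = 0 := by rw [← h7]; norm_num
      exact (e b).2 (Complex.ofReal_eq_zero.1 h8)
    rcases mul_eq_zero.1 h2 with h | h
    · exact absurd h h6
    · exact h

end Pool.Agent.Helper55.ML
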