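import Pool.Agent.Helper55.MLA.V1

set_option autoImplicit false
open Finset Matrix Filter Topology

namespace Pool.Agent.Helper55.ML

theorem v2_ker {V : Type} [Fintype V] [DecidableEq V] {r D : ℕ} {X0 : Matrix V (Fin r) ℝ}
    {K0 : Matrix V V ℝ}
    (hker : ∀ w : V → ℝ, K0.mulVec w = 0 → ∃ a : Fin r → ℝ, w = X0.mulVec a)
    {W : Matrix V (Fin D) ℂ} (hW : W * Wᵀ = K0.map Complex.ofReal) (y : V → ℂ)
    (hy : Wᵀ.mulVec y = 0) :
    ∃ a b : Fin r → ℝ, (fun i => (y i).re) = X0.mulVec a ∧ (fun i => (y i).im) = X0.mulVec b := by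
  have h0 : (K0.map Complex.ofReal).mulVec y = 0 := by
    rw [← hW, ← Matrix.mulVec_mulVec, hy, Matrix.mulVec_zero]
  have hre : K0.mulVec (fun i => (y i).re) = 0 := by
    funext i
    have := congrArg Complex.re (congrFun h0 i)
    simpa [Matrix.mulVec, dotProduct, Complex.re_sum] using this
  have him : K0.mulVec (fun i => (y i).im) = 0 := by
    funext i
    have := congrArg Complex.im (congrFun h0 i)
    simpa [Matrix.mulVec, dotProduct, Complex.im_sum] using this
  obtain ⟨a, ha⟩ := hker _ hre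
  obtain ⟨b, hb⟩ := hker _ him
  exact ⟨a, b, ha, hb⟩

theorem v2_kerM {V : Type} [Fintype V] [DecidableEq V] {r D : ℕ} {X0 : Matrix V (Fin r) ℝ}
    {K0 : Matrix V V ℝ}
    (hker : ∀ w : V → ℝ, K0.mulVec w = 0 → ∃ a : Fin r → ℝ, w = X0.mulVec a)
    {W : Matrix V (Fin D) ℂ} (hW : W * Wᵀ = K0.map Complex.ofReal) {m : Type} [Fintype m]
    (Y : Matrix V m ℂ) (hy : Wᵀ * Y = 0) :
    ∃ B : Matrix (Fin r) m ℂ, Y = X0.map Complex.ofReal * B := by
  have h1 : ∀ j, ∃ a b : Fin r → ℝ, (fun i => (Y i j).re) = X0.mulVec a ∧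
      (fun i => (Y i j).im) = X0.mulVec b := by
    intro j
    apply v2_ker hker hW (fun i => Y i j)
    funext i
    exact congrFun (congrFun hy i) j
  choose a b ha hb using h1
  refine ⟨Matrix.of fun k j => (a j k : ℂ) + (b j k : ℂ) * Complex.I, ?_⟩
  ext i j
  apply Complex.ext
  · have h2 : (Y i j).re = X0.mulVec (a j) i := congrFun (ha j) i
    rw [h2]
    simp [Matrix.mul_apply, Matrix.mulVec, dotProduct, Complex.re_sum]
  · have h2 : (Y i j).im = X0.mulVec (b j) i := congrFun (hb j) i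
    rw [h2]
    simp [Matrix.mul_apply, Matrix.mulVec, dotProduct, Complex.im_sum]

/-- V2 (hint). `Wᵀ a = 0` iff `K0 a = 0` (over `ℂ`) iff `a = X0 b` for a complex `b` (real and imaginary
parts). If `a` is supported on `S`, `|S| + r ≤ |V|`, then `X0 b` vanishes on at least `r` vertices, so
`b = 0` (`AlgInd.det_ne_zero`). -/
theorem rows_indep {V : Type} [Fintype V] [DecidableEq V] {r D : ℕ} {X0 : Matrix V (Fin r) ℝ}
    (hX : AlgInd X0) {K0 : Matrix V V ℝ}
    (hker : ∀ w : V → ℝ, K0.mulVec w = 0 → ∃ a : Fin r → ℝ, w = X0.mulVec a)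
    {W : Matrix V (Fin D) ℂ} (hW : W * Wᵀ = K0.map Complex.ofReal)
    (hW1 : ∀ a : Fin D → ℂ, W.mulVec a = 0 → a = 0) {S : Finset V}
    (hS : S.card + r ≤ Fintype.card V) : LinearIndependent ℂ (fun i : S => W (i : V)) := by
  rw [Fintype.linearIndependent_iff]
  intro g hg
  -- extend `g` by zero
  set y : V → ℂ := fun i => if h : i ∈ S then g ⟨i, h⟩ else 0 with hy
  have hyW : Wᵀ.mulVec y = 0 := by
    funext k
    have h1 := congrFun hg k
    simp only [Finset.sum_apply, Pi.smul_apply, smul_eq_mul, Pi.zero_apply] at h1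
    simp only [Matrix.mulVec, dotProduct, Matrix.transpose_apply, Pi.zero_apply]
    rw [← h1]
    rw [← Finset.sum_subset (Finset.subset_univ S)]
    · rw [← Finset.sum_coe_sort S]
      apply Finset.sum_congr rfl
      intro i _
      simp [hy, mul_comm]
    · intro i _ hi
      simp [hy, hi]
  obtain ⟨a, b, ha, hb⟩ := v2_ker hker hW y hyW
  -- `r` vertices outside `S`
  have hcard : r ≤ (Sᶜ : Finset V).card := by
    rw [Finset.card_compl]
    omega
  obtain ⟨T, hTS, hT⟩ := Finset.exists_subset_card_eq hcard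
  let e := T.equivFinOfCardEq hT
  let f : Fin r → V := fun k => (e.symm k : V)
  have hf : Function.Injective f := fun k l h => e.symm.injective (Subtype.ext h)
  have hfS : ∀ k, f k ∉ S := fun k => by
    have := hTS (e.symm k).2
    simpa using this
  have hdet := hX.det_ne_zero hf
  have hvan : ∀ c : Fin r → ℝ, (∀ k, (X0.mulVec c) (f k) = 0) → c = 0 := by
    intro c hc
    apply Matrix.eq_zero_of_mulVec_eq_zero hdet
    funext k
    exact hc k
  have ha0 : a = 0 := hvan a (fun k => by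
    rw [← ha]
    simp [hy, hfS k])
  have hb0 : b = 0 := hvan b (fun k => by
    rw [← hb]
    simp [hy, hfS k])
  intro i
  have h1 : y i = g i := by
    simp [hy]
  rw [← h1]
  apply Complex.ext
  · have := congrFun ha (i : V)
    simpa [ha0] using this
  · have := congrFun hb (i : V)
    simpa [hb0] using this

/-- (hint) `N` vanishes (as a bilinear form) on the columns of `W`; the orthogonal complement (bilinear)
of the column space of `W` is the complex span of the columns of `X0`, so `N = X0 Zᵀ + Z X0ᵀ` for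
some complex `Z`; the real and imaginary parts of `Z` are motions, so by `InfRigid` `N = 0`. -/
theorem family_indep {V : Type} [Fintype V] [DecidableEq V] {r D : ℕ} {P : V → V → Prop}
    {X0 : Matrix V (Fin r) ℝ} (hX : AlgInd X0) (hr : r + D = Fintype.card V)
    (hinf : InfRigid P X0) {K0 : Matrix V V ℝ} (hKX : K0 * X0 = 0)
    (hker : ∀ w : V → ℝ, K0.mulVec w = 0 → ∃ a : Fin r → ℝ, w = X0.mulVec a)
    {W : Matrix V (Fin D) ℂ} (hW : W * Wᵀ = K0.map Complex.ofReal)
    (hW1 : ∀ a : Fin D → ℂ, W.mulVec a = 0 → a = 0) (N : Matrix V V ℂ) (hN : N.IsSymm)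
    (hNP : ∀ i j, P i j → N i j = 0) (h : Wᵀ * N * W = 0) : N = 0 := by
  set Xc : Matrix V (Fin r) ℂ := X0.map Complex.ofReal with hXc
  -- left inverse of `W`
  obtain ⟨L, hL⟩ : ∃ L : Matrix (Fin D) V ℂ, L * W = 1 := by
    have hinj : LinearMap.ker (Matrix.toLin' W) = ⊥ := by
      rw [LinearMap.ker_eq_bot']
      intro m hm
      exact hW1 m (by simpa using hm)
    obtain ⟨g, hg⟩ := LinearMap.exists_leftInverse_of_injective _ hinj
    refine ⟨LinearMap.toMatrix' g, ?_⟩
    have := congrArg LinearMap.toMatrix' hg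
    rwa [LinearMap.toMatrix'_comp, LinearMap.toMatrix'_toLin', LinearMap.toMatrix'_id] at this
  -- left inverse of `Xc`
  obtain ⟨C, hC⟩ := hX.exists_left_inv (by omega)
  have hCc : C.map Complex.ofReal * Xc = 1 := by
    have this : (C * X0).map Complex.ofReal = (1 : Matrix (Fin r) (Fin r) ℝ).map Complex.ofReal := by
      rw [hC]
    have h2 : (C * X0).map Complex.ofReal = C.map Complex.ofReal * X0.map Complex.ofReal :=
      Matrix.map_mul (L := C) (M := X0) (f := Complex.ofRealHom)
    rw [h2] at this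
    rw [hXc, this]
    ext i j
    simp only [Matrix.map_apply, Matrix.one_apply]
    split_ifs <;> simp
  have hXW : Wᵀ * Xc = 0 := by
    have h1 : W * (Wᵀ * Xc) = 0 := by
      rw [← Matrix.mul_assoc, hW]
      have h2 : (K0 * X0).map Complex.ofReal = K0.map Complex.ofReal * X0.map Complex.ofReal :=
        Matrix.map_mul (L := K0) (M := X0) (f := Complex.ofRealHom)
      rw [hXc, ← h2, hKX]
      ext i j
      simp
    calc Wᵀ * Xc = (L * W) * (Wᵀ * Xc) := by rw [hL, Matrix.one_mul]
      _ = L * (W * (Wᵀ * Xc)) := by rw [Matrix.mul_assoc]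
      _ = 0 := by rw [h1, Matrix.mul_zero]
  have hXW' : Xcᵀ * W = 0 := by
    have := congrArg Matrix.transpose hXW
    simpa [Matrix.transpose_mul] using this
  obtain ⟨B, hB⟩ := v2_kerM hker hW (N * W) (by rw [← Matrix.mul_assoc]; exact h)
  -- subtract
  set Z0 : Matrix V (Fin r) ℂ := (B * L)ᵀ with hZ0
  have hZ0W : Z0ᵀ * W = B := by
    rw [hZ0, Matrix.transpose_transpose, Matrix.mul_assoc, hL, Matrix.mul_one]
  set N' : Matrix V V ℂ := N - Xc * Z0ᵀ - Z0 * Xcᵀ with hN'
  have hN'W : N' * W = 0 := by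
    rw [hN', Matrix.sub_mul, Matrix.sub_mul, hB, Matrix.mul_assoc, hZ0W, Matrix.mul_assoc, hXW',
      Matrix.mul_zero, sub_self, sub_zero]
  have hN's : N'ᵀ = N' := by
    rw [hN']
    simp only [Matrix.transpose_sub, Matrix.transpose_mul, Matrix.transpose_transpose]
    rw [hN.eq]
    abel
  have hWN' : Wᵀ * N' = 0 := by
    have := congrArg Matrix.transpose hN'W
    simpa [Matrix.transpose_mul, hN's] using this
  obtain ⟨E, hE⟩ := v2_kerM hker hW N' hWN'
  have hEW : E * W = 0 := by
    calc E * W = (C.map Complex.ofReal * Xc) * (E * W) := by rw [hCc, Matrix.one_mul]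
      _ = C.map Complex.ofReal * ((Xc * E) * W) := by
        rw [Matrix.mul_assoc, Matrix.mul_assoc]
      _ = 0 := by rw [← hE, hN'W, Matrix.mul_zero]
  obtain ⟨F, hF⟩ := v2_kerM hker hW Eᵀ (by
    have := congrArg Matrix.transpose hEW
    simpa [Matrix.transpose_mul] using this)
  have hE' : E = Fᵀ * Xcᵀ := by
    have := congrArg Matrix.transpose hF
    simpa [Matrix.transpose_mul] using this
  set Z : Matrix V (Fin r) ℂ := Z0 + (1 / 2 : ℂ) • (Xc * F) with hZ
  have hNZ : N = Xc * Zᵀ + Z * Xcᵀ := by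
    have h1 : N' = Xc * Fᵀ * Xcᵀ := by
      rw [hE, hE', Matrix.mul_assoc]
    have h2 : N' = Xc * F * Xcᵀ := by
      rw [← hN's, h1]
      simp only [Matrix.transpose_mul, Matrix.transpose_transpose, Matrix.mul_assoc]
    have h3 : N = N' + Xc * Z0ᵀ + Z0 * Xcᵀ := by
      rw [hN']
      abel
    have h4 : N' = (1 / 2 : ℂ) • (Xc * Fᵀ * Xcᵀ) + (1 / 2 : ℂ) • (Xc * F * Xcᵀ) := by
      rw [← h1, ← h2, ← add_smul]
      norm_num
    rw [h3, h4, hZ]
    simp only [Matrix.transpose_add, Matrix.transpose_smul, Matrix.transpose_mul, Matrix.mul_add,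
      Matrix.add_mul, Matrix.mul_smul, Matrix.smul_mul, Matrix.mul_assoc]
    abel
  have hNent : ∀ i j, N i j = ∑ k, ((X0 i k : ℂ) * Z j k + Z i k * (X0 j k : ℂ)) := by
    intro i j
    rw [hNZ, Finset.sum_add_distrib]
    simp [Matrix.add_apply, Matrix.mul_apply, hXc]
  have hre : ∀ i j, dG X0 (Z.map Complex.re) i j = (N i j).re := by
    intro i j
    rw [hNent i j]
    simp [dG, Complex.re_sum]
  have him : ∀ i j, dG X0 (Z.map Complex.im) i j = (N i j).im := by
    intro i j
    rw [hNent i j]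
    simp [dG, Complex.im_sum]
  have h1 := hinf (Z.map Complex.re) (fun i j hij => by rw [hre, hNP i j hij]; rfl)
  have h2 := hinf (Z.map Complex.im) (fun i j hij => by rw [him, hNP i j hij]; rfl)
  ext i j
  apply Complex.ext
  · rw [← hre, h1]; rfl
  · rw [← him, h2]; rfl

end Pool.Agent.Helper55.ML
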