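import Pool.Agent.Helper55.MLA.Defs

set_option autoImplicit false
open Finset Matrix Filter Topology

namespace Pool.Agent.Helper55.ML

/-- V3 (hint): injectivity of a matrix over a field is the nonvanishing of a maximal minor; take this
minor of `M` as `Q`. -/
theorem inj_poly {σ a b : Type} [Fintype a] [Fintype b] [DecidableEq a] [DecidableEq b]
    (M : Matrix a b (MvPolynomial σ ℚ)) {L0 : Type} [Field L0] [Algebra ℚ L0] (x0 : σ → L0)
    (h0 : ∀ w : b → L0, (M.map (MvPolynomial.aeval x0)).mulVec w = 0 → w = 0) :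
    ∃ Q : MvPolynomial σ ℚ, MvPolynomial.aeval x0 Q ≠ 0 ∧
      ∀ (L1 : Type) [Field L1] [Algebra ℚ L1] (x1 : σ → L1), MvPolynomial.aeval x1 Q ≠ 0 →
        ∀ w : b → L1, (M.map (MvPolynomial.aeval x1)).mulVec w = 0 → w = 0 := by
  obtain ⟨N, hN⟩ : ∃ N : Matrix a b L0, N = M.map (MvPolynomial.aeval x0) := ⟨_, rfl⟩
  rw [← hN] at h0
  have hinj : Function.Injective N.mulVecLin := by
    rw [← LinearMap.ker_eq_bot, LinearMap.ker_eq_bot']
    intro w hw
    exact h0 w hw
  have hrank : N.rank = Fintype.card b := by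
    rw [Matrix.rank, LinearMap.finrank_range_of_inj hinj, Module.finrank_fintype_fun_eq_card]
  rw [Matrix.rank_eq_finrank_span_row] at hrank
  obtain ⟨κ, f, hf, hspan, hli⟩ := exists_linearIndependent' L0 N.row
  have : Finite κ := Finite.of_injective f hf
  have : Fintype κ := Fintype.ofFinite κ
  have hcard : Fintype.card κ = Fintype.card b := by
    rw [← hrank, ← hspan]
    exact (finrank_span_eq_card hli).symm
  have e : b ≃ κ := (Fintype.equivOfCardEq hcard).symm
  have hli2 : LinearIndependent L0 (N.submatrix (f ∘ e) id).row := by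
    have h1 := hli.comp e e.injective
    exact h1
  have hunit : IsUnit (N.submatrix (f ∘ e) id).det := by
    rw [← Matrix.isUnit_iff_isUnit_det]
    exact Matrix.linearIndependent_rows_iff_isUnit.1 hli2
  have hdet : ∀ (L1 : Type) [Field L1] [Algebra ℚ L1] (x1 : σ → L1),
      MvPolynomial.aeval x1 (M.submatrix (f ∘ e) id).det =
        ((M.map (MvPolynomial.aeval x1)).submatrix (f ∘ e) id).det := by
    intro L1 _ _ x1
    rw [AlgHom.map_det]
    rfl
  refine ⟨(M.submatrix (f ∘ e) id).det, ?_, ?_⟩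
  · rw [hdet, ← hN]
    exact hunit.ne_zero
  · intro L1 _ _ x1 hQ w hw
    rw [hdet] at hQ
    refine Matrix.eq_zero_of_mulVec_eq_zero hQ ?_
    funext i
    have := congrFun hw (f (e i))
    exact this

end Pool.Agent.Helper55.ML
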