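import Pool.Agent.Helper55.MLA.Defs

set_option autoImplicit false
open Finset Matrix Filter Topology

namespace Pool.Agent.Helper55.ML

/-- Generalised cross product of `m` vectors in dimension `m+1`. -/
def cross {m : ℕ} {R : Type*} [CommRing R] (a : Fin m → Fin (m + 1) → R) : Fin (m + 1) → R :=
  fun c => (Matrix.of (Fin.cons (Pi.single c 1) a : Fin (m + 1) → Fin (m + 1) → R)).det

private theorem V4_cross_eq {m : ℕ} {R : Type*} [CommRing R] (a : Fin m → Fin (m + 1) → R)
    (c : Fin (m + 1)) :
    cross a c = (-1) ^ (c : ℕ) * (Matrix.of (fun i j : Fin m => a i (c.succAbove j))).det := by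
  unfold cross
  rw [Matrix.det_succ_row_zero, Finset.sum_eq_single c]
  · simp only [Matrix.of_apply, Fin.cons_zero, Pi.single_eq_same, mul_one]
    congr 1
  · intro j _ hj
    simp [Pi.single_eq_of_ne hj]
  · simp

private theorem V4_det_cons {m : ℕ} {R : Type*} [CommRing R] (a : Fin m → Fin (m + 1) → R)
    (w : Fin (m + 1) → R) :
    (Matrix.of (Fin.cons w a : Fin (m + 1) → Fin (m + 1) → R)).det = ∑ c, w c * cross a c := by
  rw [Matrix.det_succ_row_zero]
  refine Finset.sum_congr rfl fun c _ => ?_
  rw [V4_cross_eq]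
  have h : (Matrix.of (Fin.cons w a : Fin (m + 1) → Fin (m + 1) → R)).submatrix Fin.succ
      c.succAbove = Matrix.of (fun i j : Fin m => a i (c.succAbove j)) := by
    ext i j
    simp
  rw [h]
  simp only [Matrix.of_apply, Fin.cons_zero]
  ring

/-- V4 (hint): the determinant is linear in the first row, and vanishes if it equals another row. -/
theorem cross_dot {m : ℕ} {R : Type*} [CommRing R] (a : Fin m → Fin (m + 1) → R) (i : Fin m) :
    ∑ c, cross a c * a i c = 0 := by
  have h := V4_det_cons a (a i)
  have h0 : (Matrix.of (Fin.cons (a i) a : Fin (m + 1) → Fin (m + 1) → R)).det = 0 := by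
    refine Matrix.det_zero_of_row_eq (i := 0) (j := i.succ) (Fin.succ_ne_zero i).symm ?_
    funext j
    simp
  rw [h0] at h
  rw [h]
  exact Finset.sum_congr rfl fun c _ => mul_comm _ _

theorem cross_map {m : ℕ} {R S : Type*} [CommRing R] [CommRing S] (f : R →+* S)
    (a : Fin m → Fin (m + 1) → R) (c : Fin (m + 1)) :
    f (cross a c) = cross (fun i j => f (a i j)) c := by
  rw [V4_cross_eq, V4_cross_eq, map_mul, RingHom.map_det, map_pow, map_neg, map_one]
  rfl

private theorem V4_extend {m s : ℕ} {F : Type*} [Field F] (W : Submodule F (Fin (m + 1) → F))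
    (hW : m ≤ Module.finrank F W) (b : Fin s → W) (hb : LinearIndependent F b) (k : ℕ)
    (hsk : s ≤ k) : k ≤ m → ∃ a : Fin k → W, LinearIndependent F a ∧
      ∀ i : Fin s, a (Fin.castLE hsk i) = b i := by
  induction k, hsk using Nat.le_induction with
  | base => exact fun _ => ⟨b, hb, fun i => rfl⟩
  | succ k hk ih =>
    intro hkm
    obtain ⟨a, ha, hab⟩ := ih (by omega)
    obtain ⟨x, hx⟩ := exists_linearIndependent_snoc_of_lt_finrank ha (by omega)
    refine ⟨Fin.snoc a x, hx, fun i => ?_⟩
    have : (Fin.castLE (Nat.le_succ_of_le hk) i : Fin (k + 1)) = Fin.castSucc (Fin.castLE hk i) := by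
      ext; rfl
    rw [this, Fin.snoc_castSucc, hab]

/-- (hint) `v ≠ 0`: the orthogonal complement of `v` has dimension `m`; extend the independent family
`b` to a basis `a` of it; `cross a ≠ 0` is orthogonal to all `a i`, so `v = t • cross a`. -/
theorem exists_cross {m s : ℕ} {F : Type*} [Field F] (hs : s ≤ m) (b : Fin s → Fin (m + 1) → F)
    (hb : LinearIndependent F b) (v : Fin (m + 1) → F) (hv : ∀ i, ∑ c, v c * b i c = 0) :
    ∃ (t : F) (a : Fin m → Fin (m + 1) → F), (∀ i : Fin s, a (Fin.castLE hs i) = b i) ∧
      ∀ c, v c = t * cross a c := by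
  classical
  by_cases hv0 : v = 0
  · refine ⟨0, fun i => if h : (i : ℕ) < s then b ⟨i, h⟩ else 0, fun i => ?_, fun c => ?_⟩
    · simp
    · simp [hv0]
  -- the functional `x ↦ v · x`
  let φ : (Fin (m + 1) → F) →ₗ[F] F :=
    { toFun := fun x => ∑ c, v c * x c
      map_add' := fun x y => by simp [mul_add, Finset.sum_add_distrib]
      map_smul' := fun t x => by
        simp only [Pi.smul_apply, smul_eq_mul, RingHom.id_apply, Finset.mul_sum]
        exact Finset.sum_congr rfl fun c _ => by ring }
  have hφ : ∀ x, φ x = ∑ c, v c * x c := fun x => rfl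
  have hdim := LinearMap.finrank_range_add_finrank_ker φ
  have hle : Module.finrank F (LinearMap.range φ) ≤ 1 := by
    have := Submodule.finrank_le (LinearMap.range φ)
    simpa using this
  have hW : m ≤ Module.finrank F (LinearMap.ker φ) := by
    rw [Module.finrank_fin_fun] at hdim
    omega
  let b' : Fin s → LinearMap.ker φ := fun i => ⟨b i, by rw [LinearMap.mem_ker, hφ]; exact hv i⟩
  have hb' : LinearIndependent F b' := by
    refine LinearIndependent.of_comp (LinearMap.ker φ).subtype ?_
    exact hb
  obtain ⟨a, ha, hab⟩ := V4_extend (LinearMap.ker φ) hW b' hb' m hs le_rfl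
  let a' : Fin m → Fin (m + 1) → F := fun i => (a i : Fin (m + 1) → F)
  have ha' : LinearIndependent F a' := by
    have := ha.map' (LinearMap.ker φ).subtype (Submodule.ker_subtype _)
    exact this
  obtain ⟨w, hw⟩ := exists_linearIndependent_cons_of_lt_finrank ha'
    (by rw [Module.finrank_fin_fun]; exact Nat.lt_succ_self m)
  set M : Matrix (Fin (m + 1)) (Fin (m + 1)) F :=
    Matrix.of (Fin.cons w a' : Fin (m + 1) → Fin (m + 1) → F) with hM
  have hMdet : M.det ≠ 0 := by
    have h1 : IsUnit M := Matrix.linearIndependent_rows_iff_isUnit.mp hw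
    exact ((Matrix.isUnit_iff_isUnit_det M).mp h1).ne_zero
  have hdet : M.det = ∑ c, w c * cross a' c := V4_det_cons a' w
  set t : F := (∑ c, w c * v c) / M.det with ht
  refine ⟨t, a', fun i => ?_, ?_⟩
  · show (a (Fin.castLE hs i) : Fin (m + 1) → F) = b i
    rw [hab]
  · have hz : M *ᵥ (fun c => v c - t * cross a' c) = 0 := by
      funext i
      refine Fin.cases ?_ (fun i => ?_) i
      · simp only [Matrix.mulVec, dotProduct, hM, Matrix.of_apply, Fin.cons_zero, Pi.zero_apply]
        have : ∑ c, w c * (v c - t * cross a' c) = (∑ c, w c * v c) - t * ∑ c, w c * cross a' c := by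
          rw [Finset.mul_sum, ← Finset.sum_sub_distrib]
          exact Finset.sum_congr rfl fun c _ => by ring
        rw [this, ← hdet, ht, div_mul_cancel₀ _ hMdet, sub_self]
      · simp only [Matrix.mulVec, dotProduct, hM, Matrix.of_apply, Fin.cons_succ, Pi.zero_apply]
        have h1 : ∑ c, v c * a' i c = 0 := by
          have := (a i).2
          rw [LinearMap.mem_ker, hφ] at this
          exact this
        have h2 := cross_dot a' i
        have : ∑ c, a' i c * (v c - t * cross a' c) =
            (∑ c, v c * a' i c) - t * ∑ c, cross a' c * a' i c := by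
          rw [Finset.mul_sum, ← Finset.sum_sub_distrib]
          exact Finset.sum_congr rfl fun c _ => by ring
        rw [this, h1, h2, mul_zero, sub_zero]
    have h0 := Matrix.eq_zero_of_mulVec_eq_zero hMdet hz
    intro c
    have := congrFun h0 c
    simp only [Pi.zero_apply] at this
    exact sub_eq_zero.mp this

end Pool.Agent.Helper55.ML
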