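import Pool.Agent.Helper55.MLA.V4

set_option autoImplicit false
open Finset Matrix Filter Topology

namespace Pool.Agent.Helper55.ML

open Classical in
/-- the earlier non-neighbours of `j` -/
private noncomputable def v5_N {n : ℕ} (P : Fin n → Fin n → Prop) (j : Fin n) : Finset (Fin n) :=
  Finset.univ.filter (fun i => i < j ∧ ¬ P i j)

private theorem v5_mem_N {n : ℕ} {P : Fin n → Fin n → Prop} {i j : Fin n} :
    i ∈ v5_N P j ↔ i < j ∧ ¬ P i j := by
  classical
  simp only [v5_N, Finset.mem_filter, Finset.mem_univ, true_and]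

private theorem v5_emb_lt {n : ℕ} (P : Fin n → Fin n → Prop) (j : Fin n)
    (i : Fin (v5_N P j).card) : ((v5_N P j).orderEmbOfFin rfl i : Fin n) < j :=
  (v5_mem_N.1 ((v5_N P j).orderEmbOfFin_mem rfl i)).1

open Classical in
/-- the parametrisation of the orthogonal representations -/
private noncomputable def v5_phi {n m : ℕ} (P : Fin n → Fin n → Prop) {R : Type} [CommRing R]
    (t : Fin n → R) (a : Fin n → Fin m → Fin (m + 1) → R) (j : Fin n) : Fin (m + 1) → R :=
  fun c => t j * cross (fun i : Fin m => if h : (i : ℕ) < (v5_N P j).card then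
    v5_phi P t a ((v5_N P j).orderEmbOfFin rfl ⟨i, h⟩) else a j i) c
termination_by j.val
decreasing_by exact v5_emb_lt P j _

private theorem v5_map {n m : ℕ} (P : Fin n → Fin n → Prop) {R S : Type} [CommRing R]
    [CommRing S] (f : R →+* S) (t : Fin n → R) (a : Fin n → Fin m → Fin (m + 1) → R) :
    ∀ (k : ℕ) (j : Fin n), j.val = k → ∀ c, f (v5_phi P t a j c) =
      v5_phi P (fun j => f (t j)) (fun j i c => f (a j i c)) j c := by
  intro k
  induction k using Nat.strong_induction_on with
  | _ k ih =>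
    intro j hj c
    rw [v5_phi, v5_phi, map_mul, cross_map]
    congr 2
    funext i c'
    by_cases h : (i : ℕ) < (v5_N P j).card
    · rw [dif_pos h, dif_pos h]
      exact ih _ (by rw [← hj]; exact v5_emb_lt P j ⟨i, h⟩) _ rfl c'
    · rw [dif_neg h, dif_neg h]

private theorem v5_orth {n m : ℕ} (P : Fin n → Fin n → Prop)
    (hcard : ∀ j, (v5_N P j).card ≤ m) {R : Type} [CommRing R]
    (t : Fin n → R) (a : Fin n → Fin m → Fin (m + 1) → R) {i j : Fin n} (hij : i < j)
    (hP : ¬ P i j) : ∑ c, v5_phi P t a j c * v5_phi P t a i c = 0 := by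
  have hmem : i ∈ v5_N P j := v5_mem_N.2 ⟨hij, hP⟩
  have hr : i ∈ Set.range ((v5_N P j).orderEmbOfFin rfl) := by
    rw [Finset.range_orderEmbOfFin]
    exact hmem
  obtain ⟨k, hk⟩ := hr
  have hkm : (k : ℕ) < m := lt_of_lt_of_le k.2 (hcard j)
  have h1 := cross_dot (fun i : Fin m => if h : (i : ℕ) < (v5_N P j).card then
    v5_phi P t a ((v5_N P j).orderEmbOfFin rfl ⟨i, h⟩) else a j i) ⟨k, hkm⟩
  simp only [] at h1
  rw [dif_pos k.2] at h1
  have h2 : (⟨((⟨k, hkm⟩ : Fin m) : ℕ), k.2⟩ : Fin (v5_N P j).card) = k := Fin.ext rfl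
  rw [h2, hk] at h1
  have h3 : ∀ c, v5_phi P t a j c = t j * cross (fun i : Fin m =>
      if h : (i : ℕ) < (v5_N P j).card then
        v5_phi P t a ((v5_N P j).orderEmbOfFin rfl ⟨i, h⟩) else a j i) c := by
    intro c
    rw [v5_phi]
  calc ∑ c, v5_phi P t a j c * v5_phi P t a i c
      = t j * ∑ c, cross (fun i : Fin m => if h : (i : ℕ) < (v5_N P j).card then
          v5_phi P t a ((v5_N P j).orderEmbOfFin rfl ⟨i, h⟩) else a j i) c *
            v5_phi P t a i c := by
        rw [Finset.mul_sum]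
        refine Finset.sum_congr rfl fun c _ => ?_
        rw [h3 c, mul_assoc]
    _ = 0 := by rw [h1, mul_zero]

/-- the given complex representation is a value of the parametrisation -/
private theorem v5_surj {n m : ℕ} (P : Fin n → Fin n → Prop)
    (hcard : ∀ j, (v5_N P j).card ≤ m) (W : Matrix (Fin n) (Fin (m + 1)) ℂ)
    (hW : ∀ i j, i ≠ j → ¬ P i j → ∑ c, W i c * W j c = 0)
    (hind : ∀ j, LinearIndependent ℂ (fun i : {i : Fin n // i < j ∧ ¬ P i j} => W (i : Fin n))) :
    ∃ (t : Fin n → ℂ) (a : Fin n → Fin m → Fin (m + 1) → ℂ), ∀ j c, v5_phi P t a j c = W j c := by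
  have hex : ∀ j : Fin n, ∃ (t : ℂ) (a : Fin m → Fin (m + 1) → ℂ),
      (∀ i : Fin (v5_N P j).card, a (Fin.castLE (hcard j) i) =
        W ((v5_N P j).orderEmbOfFin rfl i)) ∧ ∀ c, W j c = t * cross a c := by
    intro j
    refine exists_cross (hcard j) (fun i => W ((v5_N P j).orderEmbOfFin rfl i)) ?_ (W j) ?_
    · have h1 := (hind j).comp (fun i : Fin (v5_N P j).card =>
        (⟨(v5_N P j).orderEmbOfFin rfl i, v5_mem_N.1 ((v5_N P j).orderEmbOfFin_mem rfl i)⟩ :
          {i : Fin n // i < j ∧ ¬ P i j})) (by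
            intro x y hxy
            simp only [Subtype.mk.injEq] at hxy
            exact ((v5_N P j).orderEmbOfFin rfl).injective hxy)
      exact h1
    · intro i
      have h2 := v5_mem_N.1 ((v5_N P j).orderEmbOfFin_mem rfl i)
      have h3 := hW _ j h2.1.ne h2.2
      rw [← h3]
      exact Finset.sum_congr rfl fun c _ => mul_comm _ _
  choose t a ha hv using hex
  refine ⟨t, a, ?_⟩
  have key : ∀ (k : ℕ) (j : Fin n), j.val = k → v5_phi P t a j = W j := by
    intro k
    induction k using Nat.strong_induction_on with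
    | _ k ih =>
      intro j hj
      funext c
      rw [v5_phi, hv j c]
      congr 2
      funext i
      by_cases h : (i : ℕ) < (v5_N P j).card
      · rw [dif_pos h, ih _ (by rw [← hj]; exact v5_emb_lt P j ⟨i, h⟩) _ rfl, ← ha j ⟨i, h⟩]
        rfl
      · rw [dif_neg h]
  intro j c
  rw [key j.val j rfl]

/-- V5 (orthogonal representations; hint). Parametrise: for parameters `t j`, `a j i` (`i < m`) define
recursively `w j = t j • cross (a' j)`, where `a' j` consists of the vectors `w i` for the `i < j` with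
`¬ P i j` (in increasing order, `s j` of them) followed by the parameter vectors. This is a polynomial
map `Φ` with integer coefficients, natural for ring homomorphisms (`cross_map`), all its values satisfy
the orthogonality relations (`cross_dot`), and `W = Φ(parameters)` for suitable complex parameters
(`exists_cross`). So `Q ∘ Φ` (a polynomial over `ℚ` in the parameters, namely `Q` evaluated at `Φ` of the
indeterminates) is nonzero, hence nonzero at some real parameters (`MvPolynomial.funext`). Use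
`Nat`-indexed recursion (`Nat.strongRec`) or a `WellFounded.fix` over `Fin n`. -/
theorem real_of_complex {n m : ℕ} (P : Fin n → Fin n → Prop) (hP : ∀ i j, P i j → P j i)
    (W : Matrix (Fin n) (Fin (m + 1)) ℂ)
    (hW : ∀ i j, i ≠ j → ¬ P i j → ∑ c, W i c * W j c = 0)
    (hind : ∀ j, LinearIndependent ℂ (fun i : {i : Fin n // i < j ∧ ¬ P i j} => W (i : Fin n)))
    (hcard : ∀ j, ∀ S : Finset (Fin n), (∀ i ∈ S, i < j ∧ ¬ P i j) → S.card ≤ m)
    (Q : MvPolynomial (Fin n × Fin (m + 1)) ℚ)
    (hQ : MvPolynomial.aeval (fun q : Fin n × Fin (m + 1) => W q.1 q.2) Q ≠ 0) :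
    ∃ W1 : Matrix (Fin n) (Fin (m + 1)) ℝ,
      (∀ i j, i ≠ j → ¬ P i j → ∑ c, W1 i c * W1 j c = 0) ∧
      MvPolynomial.aeval (fun q : Fin n × Fin (m + 1) => W1 q.1 q.2) Q ≠ 0 := by
  classical
  have hc : ∀ j, (v5_N P j).card ≤ m := fun j => hcard j _ fun i hi => v5_mem_N.1 hi
  obtain ⟨t, a, hta⟩ := v5_surj P hc W hW hind
  -- the polynomial in the parameters
  set X0 : Fin n ⊕ (Fin n × Fin m × Fin (m + 1)) →
    MvPolynomial (Fin n ⊕ (Fin n × Fin m × Fin (m + 1))) ℚ := MvPolynomial.X with hX0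
  set F : Fin n × Fin (m + 1) → MvPolynomial (Fin n ⊕ (Fin n × Fin m × Fin (m + 1))) ℚ :=
    fun q => v5_phi P (fun j => X0 (Sum.inl j)) (fun j i c => X0 (Sum.inr (j, i, c))) q.1 q.2
    with hF
  set Q' : MvPolynomial (Fin n ⊕ (Fin n × Fin m × Fin (m + 1))) ℚ := MvPolynomial.aeval F Q
    with hQ'
  have hev : ∀ (L : Type) [Field L] [Algebra ℚ L] (z : Fin n ⊕ (Fin n × Fin m × Fin (m + 1)) → L),
      MvPolynomial.aeval z Q' = MvPolynomial.aeval (fun q : Fin n × Fin (m + 1) =>
        v5_phi P (fun j => z (Sum.inl j)) (fun j i c => z (Sum.inr (j, i, c))) q.1 q.2) Q := by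
    intro L _ _ z
    have h1 : (MvPolynomial.aeval z).comp (MvPolynomial.aeval F) =
        MvPolynomial.aeval (fun q : Fin n × Fin (m + 1) =>
          v5_phi P (fun j => z (Sum.inl j)) (fun j i c => z (Sum.inr (j, i, c))) q.1 q.2) := by
      apply MvPolynomial.algHom_ext
      intro q
      rw [AlgHom.comp_apply, MvPolynomial.aeval_X, MvPolynomial.aeval_X]
      have h2 := v5_map P (MvPolynomial.aeval z : MvPolynomial _ ℚ →ₐ[ℚ] L).toRingHom
        (fun j => X0 (Sum.inl j)) (fun j i c => X0 (Sum.inr (j, i, c))) q.1.val q.1 rfl q.2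
      have h3 : ∀ x, (MvPolynomial.aeval z : MvPolynomial _ ℚ →ₐ[ℚ] L).toRingHom (X0 x) = z x := by
        intro x
        rw [hX0]
        exact MvPolynomial.aeval_X z x
      simp only [h3] at h2
      exact h2
    rw [← h1, AlgHom.comp_apply]
  have hQ'0 : Q' ≠ 0 := by
    intro h0
    apply hQ
    have h1 := hev ℂ (Sum.elim t (fun p => a p.1 p.2.1 p.2.2))
    rw [h0, map_zero] at h1
    simp only [Sum.elim_inl, Sum.elim_inr] at h1
    rw [h1]
    congr 2
    funext q
    exact (hta q.1 q.2).symm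
  obtain ⟨x, hx⟩ : ∃ x : Fin n ⊕ (Fin n × Fin m × Fin (m + 1)) → ℚ,
      MvPolynomial.eval x Q' ≠ 0 := by
    by_contra hcon
    push Not at hcon
    exact hQ'0 (MvPolynomial.funext fun x => by rw [hcon x, map_zero])
  set z : Fin n ⊕ (Fin n × Fin m × Fin (m + 1)) → ℝ := fun s => algebraMap ℚ ℝ (x s) with hz
  set W1 : Matrix (Fin n) (Fin (m + 1)) ℝ := Matrix.of fun j c =>
    v5_phi P (fun j => z (Sum.inl j)) (fun j i c => z (Sum.inr (j, i, c))) j c with hW1
  refine ⟨W1, ?_, ?_⟩
  · intro i j hij hPij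
    rcases lt_or_gt_of_ne hij with h | h
    · have h1 := v5_orth P hc (fun j => z (Sum.inl j)) (fun j i c => z (Sum.inr (j, i, c))) h hPij
      rw [← h1]
      exact Finset.sum_congr rfl fun c _ => mul_comm _ _
    · exact v5_orth P hc (fun j => z (Sum.inl j)) (fun j i c => z (Sum.inr (j, i, c))) h
        (fun h' => hPij (hP _ _ h'))
  · have h1 := hev ℝ z
    have h2 : MvPolynomial.aeval z Q' = algebraMap ℚ ℝ (MvPolynomial.eval x Q') := by
      have h5 : z = algebraMap ℚ ℝ ∘ x := rfl
      rw [h5, MvPolynomial.aeval_algebraMap_apply]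
      exact congrArg _ (congrFun (congrArg DFunLike.coe (MvPolynomial.coe_aeval_eq_eval x)) Q')
    intro h3
    apply hx
    have h4 : MvPolynomial.aeval z Q' = 0 := by rw [h1]; exact h3
    rw [h2] at h4
    exact (map_eq_zero (algebraMap ℚ ℝ)).1 h4

end Pool.Agent.Helper55.ML
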