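import Pool.Agent.Helper55.MLA.V2
import Pool.Agent.Helper55.MLA.V3
import Pool.Agent.Helper55.MLA.V5
import Pool.Agent.Helper55.MLA.D6A

set_option autoImplicit false
open Finset Matrix Filter Topology

namespace Pool.Agent.Helper55.ML

/-- `real_of_complex` for an arbitrary vertex type. -/
private theorem v6_real {V : Type} [Fintype V] [DecidableEq V] {m : ℕ} (P : V → V → Prop)
    (hP : ∀ i j, P i j → P j i) (W : Matrix V (Fin (m + 1)) ℂ)
    (hW : ∀ i j, i ≠ j → ¬ P i j → ∑ c, W i c * W j c = 0)
    (hind : ∀ S : Finset V, S.card ≤ m → LinearIndependent ℂ (fun i : S => W (i : V)))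
    (hcard : ∀ j, ∀ S : Finset V, (∀ i ∈ S, i ≠ j ∧ ¬ P i j) → S.card ≤ m)
    (Q : MvPolynomial (V × Fin (m + 1)) ℚ)
    (hQ : MvPolynomial.aeval (fun q : V × Fin (m + 1) => W q.1 q.2) Q ≠ 0) :
    ∃ W1 : Matrix V (Fin (m + 1)) ℝ,
      (∀ i j, i ≠ j → ¬ P i j → ∑ c, W1 i c * W1 j c = 0) ∧
      MvPolynomial.aeval (fun q : V × Fin (m + 1) => W1 q.1 q.2) Q ≠ 0 := by
  classical
  set n := Fintype.card V with hn
  set e : V ≃ Fin n := Fintype.equivFin V with he
  have hcard' : ∀ j : Fin n, ∀ S : Finset (Fin n),
      (∀ i ∈ S, i < j ∧ ¬ P (e.symm i) (e.symm j)) → S.card ≤ m := by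
    intro j S hS
    have h1 := hcard (e.symm j) (S.map e.symm.toEmbedding) (by
      intro i hi
      obtain ⟨i', hi', rfl⟩ := Finset.mem_map.1 hi
      refine ⟨?_, (hS i' hi').2⟩
      intro h
      have := e.symm.injective h
      exact absurd this (hS i' hi').1.ne)
    simpa using h1
  obtain ⟨W1, h1, h2⟩ := real_of_complex (fun i j => P (e.symm i) (e.symm j))
    (fun i j h => hP _ _ h) (Matrix.of fun i c => W (e.symm i) c)
    (fun i j hij hPij => by
      simpa using hW (e.symm i) (e.symm j) (fun h => hij (e.symm.injective h)) hPij)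
    (fun j => by
      have hS : ((Finset.univ.filter fun i : Fin n =>
          i < j ∧ ¬ P (e.symm i) (e.symm j)).map e.symm.toEmbedding).card ≤ m := by
        rw [Finset.card_map]
        exact hcard' j _ (fun i hi => (Finset.mem_filter.1 hi).2)
      have hl := hind _ hS
      let f : {i : Fin n // i < j ∧ ¬ P (e.symm i) (e.symm j)} →
          ((Finset.univ.filter fun i : Fin n =>
          i < j ∧ ¬ P (e.symm i) (e.symm j)).map e.symm.toEmbedding : Finset V) :=
        fun i => ⟨e.symm i.1, Finset.mem_map.2 ⟨i.1, by simpa using i.2, rfl⟩⟩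
      have hf : Function.Injective f := by
        intro a b hab
        have := congrArg Subtype.val hab
        exact Subtype.ext (e.symm.injective this)
      exact hl.comp f hf)
    hcard' (MvPolynomial.rename (Prod.map e id) Q)
    (by
      rw [MvPolynomial.aeval_rename]
      have : ((fun q : Fin n × Fin (m + 1) => (Matrix.of fun i c => W (e.symm i) c) q.1 q.2) ∘
          (Prod.map (⇑e) (id : Fin (m + 1) → Fin (m + 1)))) = fun q : V × Fin (m + 1) => W q.1 q.2 := by
        funext q
        simp
      rw [this]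
      exact hQ)
  refine ⟨Matrix.of fun i c => W1 (e i) c, ?_, ?_⟩
  · intro i j hij hPij
    have := h1 (e i) (e j) (fun h => hij (e.injective h)) (by simpa using hPij)
    simpa using this
  · rw [MvPolynomial.aeval_rename] at h2
    exact h2

/-- The linear system expressing that a symmetric matrix supported on the non-pairs vanishes on the
columns of the generic matrix. -/
private noncomputable def v6M {V : Type} [DecidableEq V] (P : V → V → Prop) [DecidableRel P] (m : ℕ) :
    Matrix ((Fin (m + 1) × Fin (m + 1)) ⊕ ((V × V) ⊕ (V × V))) (V × V)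
      (MvPolynomial (V × Fin (m + 1)) ℚ) :=
  Matrix.of fun a q => Sum.elim (fun cd : Fin (m + 1) × Fin (m + 1) =>
      MvPolynomial.X (q.1, cd.1) * MvPolynomial.X (q.2, cd.2))
    (Sum.elim (fun ab : V × V => (if q = ab then 1 else 0) - (if q = (ab.2, ab.1) then 1 else 0))
      (fun ab : V × V => if P ab.1 ab.2 then (if q = ab then 1 else 0) else 0)) a

private theorem v6M_iff {V : Type} [Fintype V] [DecidableEq V] (P : V → V → Prop) [DecidableRel P]
    (m : ℕ) {L : Type} [Field L] [Algebra ℚ L] (x : V × Fin (m + 1) → L) (w : V × V → L) :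
    ((v6M P m).map (MvPolynomial.aeval x)).mulVec w = 0 ↔
      (∀ c d, ∑ q : V × V, x (q.1, c) * x (q.2, d) * w q = 0) ∧
      (∀ a b, w (a, b) = w (b, a)) ∧ (∀ a b, P a b → w (a, b) = 0) := by
  have h1 : ∀ c d, ((v6M P m).map (MvPolynomial.aeval x)).mulVec w (Sum.inl (c, d))
      = ∑ q : V × V, x (q.1, c) * x (q.2, d) * w q := by
    intro c d
    simp [v6M, Matrix.mulVec, dotProduct]
  have h2 : ∀ a b, ((v6M P m).map (MvPolynomial.aeval x)).mulVec w (Sum.inr (Sum.inl (a, b)))
      = w (a, b) - w (b, a) := by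
    intro a b
    simp only [v6M, Matrix.mulVec, dotProduct, Matrix.map_apply, Matrix.of_apply, Sum.elim_inr,
      Sum.elim_inl, map_sub, apply_ite (MvPolynomial.aeval x), map_one, map_zero, sub_mul, ite_mul,
      one_mul, zero_mul, Finset.sum_sub_distrib, Finset.sum_ite_eq', Finset.mem_univ, if_true]
  have h3 : ∀ a b, ((v6M P m).map (MvPolynomial.aeval x)).mulVec w (Sum.inr (Sum.inr (a, b)))
      = if P a b then w (a, b) else 0 := by
    intro a b
    by_cases hP : P a b
    · simp only [v6M, Matrix.mulVec, dotProduct, Matrix.map_apply, Matrix.of_apply, Sum.elim_inr,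
        if_pos hP, apply_ite (MvPolynomial.aeval x), map_one, map_zero, ite_mul,
        one_mul, zero_mul, Finset.sum_ite_eq', Finset.mem_univ, if_true]
    · simp [v6M, Matrix.mulVec, dotProduct, hP]
  constructor
  · intro h
    refine ⟨fun c d => by rw [← h1, h]; rfl, fun a b => ?_, fun a b hab => ?_⟩
    · have := h2 a b
      rw [h] at this
      exact (sub_eq_zero.1 this.symm)
    · have := h3 a b
      rw [h, if_pos hab] at this
      exact this.symm
  · rintro ⟨ha, hb, hc⟩
    funext a
    rcases a with ⟨c, d⟩ | ⟨a, b⟩ | ⟨a, b⟩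
    · rw [h1, ha]; rfl
    · rw [h2, hb, sub_self]; rfl
    · rw [h3]
      split_ifs with hP
      · rw [hc a b hP]; rfl
      · rfl

/-- V6 (hint, see A7 of `/team-store/ML_proof.md`). `exists_max_stress` gives `X0`, `K0`; `D = rank K0 = n - r`
(`n = |V| ≥ r + 1`). `V1`, `V2`. Two polynomials from `inj_poly`: `Q1` for the injectivity of `W` (columns
independent), `Q2` for the injectivity of `N ↦ Wᵀ N W` on the symmetric matrices supported on the
non-pairs (`¬ P i j`, unordered pairs as index type). `Q = Q1 Q2`, `real_of_complex` after reindexing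
`V ≃ Fin n` (`Fintype.equivFin`); every vertex has at most `n - 1 - r = D - 1` non-neighbours (`h.deg`).
`K1 = W1 W1ᵀ`: symmetric, supported on `P`, positive semidefinite, rank `D`. `X1` = a basis of the kernel
of `W1ᵀ`. If `Z` is a motion at `X1`, `N = X1 Zᵀ + Z X1ᵀ` is supported on the non-pairs and
`W1ᵀ N W1 = 0`, so `N = 0`. -/
theorem exists_psd_point {V : Type} [Fintype V] [DecidableEq V] [Nonempty V] {P : V → V → Prop} {r : ℕ}
    (h : GRH V P r) (hr : 1 ≤ r) :
    ∃ (X1 : Matrix V (Fin r) ℝ) (K1 : Matrix V V ℝ), Stress P X1 K1 ∧ K1.PosSemidef ∧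
      K1.rank + r = Fintype.card V ∧ (∃ C : Matrix (Fin r) V ℝ, C * X1 = 1) ∧
      InfRigid P X1 := by
  classical
  obtain ⟨X0, K0, hA, hS, hker⟩ := exists_max_stress h hr
  -- the number of vertices
  have hdeg : ∀ v : V, ∀ S : Finset V, (∀ i ∈ S, i ≠ v ∧ ¬ P i v) → S.card + r + 1 ≤ Fintype.card V := by
    intro v S hSv
    obtain ⟨N, hN, hN2⟩ := h.deg v
    have hd : Disjoint S N := by
      rw [Finset.disjoint_left]
      intro i hi hiN
      exact (hSv i hi).2 (h.symm _ _ (hN2 i hiN).2)
    have hv : v ∉ S ∪ N := by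
      rw [Finset.mem_union, not_or]
      exact ⟨fun hv => (hSv v hv).1 rfl, fun hv => (hN2 v hv).1 rfl⟩
    have := Finset.card_le_univ (insert v (S ∪ N))
    rw [Finset.card_insert_of_notMem hv, Finset.card_union_of_disjoint hd] at this
    omega
  obtain ⟨v0⟩ := (inferInstance : Nonempty V)
  have hcard : r + 1 ≤ Fintype.card V := by
    have := hdeg v0 ∅ (by simp)
    simpa using this
  obtain ⟨C, hC⟩ := hA.exists_left_inv (by omega : r ≤ Fintype.card V)
  -- the rank of the stress
  have hrank : K0.rank + r = Fintype.card V := by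
    have h1 : Module.finrank ℝ (LinearMap.ker K0.mulVecLin) = r := by
      have h2 : LinearMap.ker K0.mulVecLin = LinearMap.range X0.mulVecLin := by
        apply le_antisymm
        · intro w hw
          obtain ⟨a, ha⟩ := hker w (by simpa using hw)
          exact ⟨a, by simpa using ha.symm⟩
        · rintro w ⟨a, rfl⟩
          simp [Matrix.mulVec_mulVec, hS.2]
      rw [h2, LinearMap.finrank_range_of_inj]
      · simp
      · intro a b hab
        have h3 : (C * X0).mulVec a = (C * X0).mulVec b := by
          rw [← Matrix.mulVec_mulVec, ← Matrix.mulVec_mulVec]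
          simp only [Matrix.mulVecLin_apply] at hab
          rw [hab]
        simpa [hC] using h3
    have h4 := LinearMap.finrank_range_add_finrank_ker K0.mulVecLin
    rw [h1] at h4
    simpa [Matrix.rank] using h4
  obtain ⟨m, hm⟩ : ∃ m, K0.rank = m + 1 := ⟨K0.rank - 1, by omega⟩
  obtain ⟨W, hWW, hWi⟩ : ∃ W : Matrix V (Fin (m + 1)) ℂ,
      W * Wᵀ = K0.map Complex.ofReal ∧ ∀ a : Fin (m + 1) → ℂ, W.mulVec a = 0 → a = 0 :=
    hm ▸ exists_complex_factor K0 hS.1.1
  rw [hm] at hrank
  have hfam := fun N => family_indep hA (by omega : r + (m + 1) = Fintype.card V) (h.inf X0 hA)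
    hS.2 hker hWW hWi N
  -- the polynomials
  obtain ⟨Q1, hQ1, hQ1'⟩ := inj_poly
    (Matrix.of fun (i : V) (c : Fin (m + 1)) => (MvPolynomial.X (i, c) :
      MvPolynomial (V × Fin (m + 1)) ℚ)) (fun q : V × Fin (m + 1) => W q.1 q.2) (by
    intro w hw
    apply hWi
    rw [← hw]
    congr 1
    ext i c
    simp)
  obtain ⟨Q2, hQ2, hQ2'⟩ := inj_poly (v6M P m) (fun q : V × Fin (m + 1) => W q.1 q.2) (by
    intro w hw
    rw [v6M_iff] at hw
    obtain ⟨ha, hb, hc⟩ := hw
    have := hfam (Matrix.of fun i j => w (i, j)) (by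
      ext i j
      simp [hb i j]) (fun i j hij => by simpa using hc i j hij) (by
      ext c d
      have := ha c d
      rw [Fintype.sum_prod_type] at this
      simp only [Matrix.mul_apply, Matrix.transpose_apply, Matrix.of_apply, Matrix.zero_apply,
        Finset.sum_mul]
      rw [Finset.sum_comm, ← this]
      refine Finset.sum_congr rfl fun s _ => Finset.sum_congr rfl fun t _ => ?_
      ring)
    funext q
    have := congrFun (congrFun this q.1) q.2
    simpa using this)
  obtain ⟨W1, hW1, hW1Q⟩ := v6_real P h.symm W (by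
    intro i j hij hPij
    have := congrFun (congrFun hWW i) j
    rw [Matrix.map_apply, hS.1.2 i j hPij] at this
    simpa [Matrix.mul_apply] using this)
    (fun S hSm => rows_indep hA hker hWW hWi (by omega))
    (fun j S hSj => by
      have := hdeg j S hSj
      omega)
    (Q1 * Q2) (by
      rw [map_mul]
      exact mul_ne_zero hQ1 hQ2)
  rw [map_mul] at hW1Q
  have hW1i : ∀ a : Fin (m + 1) → ℝ, W1.mulVec a = 0 → a = 0 := by
    intro a ha
    apply hQ1' ℝ (fun q : V × Fin (m + 1) => W1 q.1 q.2) (left_ne_zero_of_mul hW1Q)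
    rw [← ha]
    congr 1
    ext i c
    simp
  have hW1N : ∀ N : Matrix V V ℝ, N.IsSymm → (∀ i j, P i j → N i j = 0) → W1ᵀ * N * W1 = 0 →
      N = 0 := by
    intro N hN hNP hNW
    have := hQ2' ℝ (fun q : V × Fin (m + 1) => W1 q.1 q.2) (right_ne_zero_of_mul hW1Q)
      (fun q => N q.1 q.2) (by
        rw [v6M_iff]
        refine ⟨fun c d => ?_, fun a b => (hN.apply b a), fun a b hab => hNP a b hab⟩
        have := congrFun (congrFun hNW c) d
        simp only [Matrix.mul_apply, Matrix.transpose_apply, Matrix.zero_apply,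
          Finset.sum_mul] at this
        rw [Fintype.sum_prod_type, ← this, Finset.sum_comm]
        refine Finset.sum_congr rfl fun s _ => Finset.sum_congr rfl fun t _ => ?_
        ring)
    ext i j
    exact congrFun this (i, j)
  -- the new stress
  have hrk1 : W1.rank = m + 1 := by
    rw [Matrix.rank, LinearMap.finrank_range_of_inj]
    · simp
    · rw [injective_iff_map_eq_zero]
      intro a ha
      exact hW1i a (by simpa using ha)
  have hkerdim : Module.finrank ℝ (LinearMap.ker (W1ᵀ).mulVecLin) = r := by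
    have h4 := LinearMap.finrank_range_add_finrank_ker (W1ᵀ).mulVecLin
    have h5 : Module.finrank ℝ (LinearMap.range (W1ᵀ).mulVecLin) = m + 1 := by
      have := Matrix.rank_transpose W1
      rw [hrk1] at this
      exact this
    rw [h5] at h4
    simp only [Module.finrank_fintype_fun_eq_card] at h4
    omega
  let b : Module.Basis (Fin r) ℝ (LinearMap.ker (W1ᵀ).mulVecLin) := Module.finBasisOfFinrankEq ℝ _ hkerdim
  have hX1 : W1ᵀ * (Matrix.of fun (i : V) (s : Fin r) => (b s : V → ℝ) i) = 0 := by
    ext c s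
    have := (b s).2
    rw [LinearMap.mem_ker] at this
    have := congrFun this c
    simp only [Matrix.mulVecLin_apply, Matrix.mulVec, dotProduct, Matrix.transpose_apply,
      Pi.zero_apply] at this
    simp only [Matrix.mul_apply, Matrix.transpose_apply, Matrix.of_apply, Matrix.zero_apply]
    exact this
  have hX1' : (Matrix.of fun (i : V) (s : Fin r) => (b s : V → ℝ) i)ᵀ * W1 = 0 := by
    have := congrArg Matrix.transpose hX1
    rwa [Matrix.transpose_mul, Matrix.transpose_transpose, Matrix.transpose_zero] at this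
  refine ⟨Matrix.of fun (i : V) (s : Fin r) => (b s : V → ℝ) i, W1 * W1ᵀ, ⟨⟨?_, ?_⟩, ?_⟩, ?_, ?_, ?_, ?_⟩
  · rw [Matrix.IsSymm, Matrix.transpose_mul, Matrix.transpose_transpose]
  · intro i j hPij
    have hij : i ≠ j := by
      rintro rfl
      exact hPij (h.refl i)
    simpa [Matrix.mul_apply] using hW1 i j hij hPij
  · rw [Matrix.mul_assoc, hX1, Matrix.mul_zero]
  · have := Matrix.posSemidef_self_mul_conjTranspose W1
    simpa [Matrix.conjTranspose_eq_transpose_of_trivial] using this
  · rw [Matrix.rank_self_mul_transpose, hrk1]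
    exact hrank
  · have hinj : LinearMap.ker (Matrix.of fun (i : V) (s : Fin r) => (b s : V → ℝ) i).mulVecLin = ⊥ := by
      rw [LinearMap.ker_eq_bot']
      intro a ha
      have hli : LinearIndependent ℝ (fun s => (b s : V → ℝ)) :=
        b.linearIndependent.map' (LinearMap.ker (W1ᵀ).mulVecLin).subtype (Submodule.ker_subtype _)
      rw [Fintype.linearIndependent_iff] at hli
      funext s
      refine hli a ?_ s
      funext i
      have := congrFun ha i
      simp only [Matrix.mulVecLin_apply, Matrix.mulVec, dotProduct, Matrix.of_apply,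
        Pi.zero_apply] at this
      simp only [Finset.sum_apply, Pi.smul_apply, smul_eq_mul, Pi.zero_apply]
      rw [← this]
      exact Finset.sum_congr rfl fun s _ => mul_comm _ _
    obtain ⟨g, hg⟩ := LinearMap.exists_leftInverse_of_injective _ hinj
    refine ⟨LinearMap.toMatrix' g, ?_⟩
    have : LinearMap.toMatrix' (g ∘ₗ (Matrix.of fun (i : V) (s : Fin r) => (b s : V → ℝ) i).mulVecLin)
        = 1 := by
      rw [hg, LinearMap.toMatrix'_id]
    rw [LinearMap.toMatrix'_comp] at this
    rw [← this]
    congr 1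
    exact (LinearMap.toMatrix'_toLin' _).symm
  · intro Z hZ
    have hN := hW1N (Matrix.of fun i j =>
        dG (Matrix.of fun (i : V) (s : Fin r) => (b s : V → ℝ) i) Z i j) (by
      ext i j
      simp only [Matrix.transpose_apply, Matrix.of_apply, dG]
      exact Finset.sum_congr rfl fun k _ => by ring) (fun i j hij => hZ i j hij) (by
      have hd : (Matrix.of fun i j =>
          dG (Matrix.of fun (i : V) (s : Fin r) => (b s : V → ℝ) i) Z i j)
          = (Matrix.of fun (i : V) (s : Fin r) => (b s : V → ℝ) i) * Zᵀ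
            + Z * (Matrix.of fun (i : V) (s : Fin r) => (b s : V → ℝ) i)ᵀ := by
        ext i j
        simp [dG, Matrix.mul_apply, Finset.sum_add_distrib]
      rw [hd, Matrix.mul_add, ← Matrix.mul_assoc, hX1, Matrix.zero_mul, zero_add, Matrix.mul_assoc,
        Matrix.mul_assoc, hX1', Matrix.mul_zero, Matrix.mul_zero])
    intro i j
    exact congrFun (congrFun hN i) j

end Pool.Agent.Helper55.ML
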